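import Pool.Agent.Helper31.EC.DensS

/-! Exact entropy calculus: restrictions of systems, extremality under restrictions, maximal labels of rigid
systems. -/

namespace Pool.Agent.Helper31.EC

open Finset Filter Topology Pool.Agent.Helper69.RK Pool.Agent.Helper40.EL

noncomputable section

namespace Sp

variable {S : Sp} (E : ∀ k, (S.F k).Ω → Prop)

/-- either the event is typical or its complement has positive probability -/
theorem typ_or : Typ E ∨ 0 < ul (S.pr fun k ω => ¬ E k ω) := by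
  have h1 := ul_pr_compl E
  have h2 : ul (S.pr E) ≤ 1 := ul_le_const (UB_pr E) (Eventually.of_forall fun k => pr_le_one E k)
  rcases h2.lt_or_eq with h | h
  · right
    rw [h1]; linarith
  · left
    rw [Typ_iff]
    have := ul_tendsto (UB_pr E)
    rwa [h] at this

theorem ul_pr_le_one : ul (S.pr E) ≤ 1 := ul_le_const (UB_pr E) (Eventually.of_forall fun k => pr_le_one E k)

/-- splitting of conditional entropies -/
theorem h_split (hE : 0 < ul (S.pr E)) (hE' : 0 < ul (S.pr (fun k ω => ¬ E k ω))) (x y : S.L) :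
    h x y = ul (S.pr E) * h (restL E hE x) (restL E hE y) +
      (1 - ul (S.pr E)) * h (restL (fun k ω => ¬ E k ω) hE' x) (restL (fun k ω => ¬ E k ω) hE' y) := by
  unfold h
  rw [← restL_sup, ← restL_sup, H_split E hE hE' (x ⊔ y), H_split E hE hE' y]
  ring

theorem I_split (hE : 0 < ul (S.pr E)) (hE' : 0 < ul (S.pr (fun k ω => ¬ E k ω))) (x y z : S.L) :
    I x y z = ul (S.pr E) * I (restL E hE x) (restL E hE y) (restL E hE z) +
      (1 - ul (S.pr E)) * I (restL (fun k ω => ¬ E k ω) hE' x) (restL (fun k ω => ¬ E k ω) hE' y)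
        (restL (fun k ω => ¬ E k ω) hE' z) := by
  rw [I_eq, I_eq, I_eq, ← restL_sup, ← restL_sup, h_split E hE hE' x z, h_split E hE hE' x (y ⊔ z)]
  ring

/-- informations vanish on events of positive probability -/
theorem I_rest_zero (hE : 0 < ul (S.pr E)) {x y z : S.L} (h0 : I x y z = 0) :
    I (restL E hE x) (restL E hE y) (restL E hE z) = 0 := by
  rcases typ_or E with ht | hE'
  · have h1 : ∀ a b : S.L, h (restL E hE a) (restL E hE b) = h a b := fun a b => h_restL_typ E ht a b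
    rw [I_eq, ← restL_sup, h1, h1, ← I_eq, h0]
  · have h1 := I_split E hE hE' x y z
    rw [h0] at h1
    have h2 := mul_nonneg hE.le (I_nonneg (restL E hE x) (restL E hE y) (restL E hE z))
    have h3 := mul_nonneg (sub_nonneg.mpr (ul_pr_le_one E)) (I_nonneg (restL (fun k ω => ¬ E k ω) hE' x)
      (restL (fun k ω => ¬ E k ω) hE' y) (restL (fun k ω => ¬ E k ω) hE' z))
    have h4 : ul (S.pr E) * I (restL E hE x) (restL E hE y) (restL E hE z) = 0 := by linarith
    rcases mul_eq_zero.mp h4 with h5 | h5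
    · exact absurd h5 hE.ne'
    · exact h5

end Sp

namespace Sys

open Sp

variable {S : Sp} {m : ℕ} (s : Sys S m)

/-- restriction of a system to an event of positive probability -/
def rest (E : ∀ k, (S.F k).Ω → Prop) (hE : 0 < ul (S.pr E)) : Sys (S.rest E) m where
  a := s.a.rest E
  x := s.x.rest E
  t := s.t.rest E
  ht := by
    rw [VV.rest_dg E hE, VV.rest_dg E hE, VV.rest_dg E hE, ← restL_sup]
    rcases typ_or E with ht | hE'
    · exact (h_restL_typ E ht (s.t.dg 1) (s.a.dg 1 ⊔ s.x.dg 1)).trans s.ht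
    · have h1 := h_split E hE hE' (s.t.dg 1) (s.a.dg 1 ⊔ s.x.dg 1)
      rw [s.ht] at h1
      have b1 : h (restL E hE (s.t.dg 1)) (restL E hE (s.a.dg 1 ⊔ s.x.dg 1)) ≤ 1 := by
        refine (h_le_H _ _).trans ?_
        rw [← VV.rest_dg E hE]
        have := (s.t.rest E).H_dg_le zero_le_one
        simpa using this
      have b2 : h (restL (fun k ω => ¬ E k ω) hE' (s.t.dg 1))
          (restL (fun k ω => ¬ E k ω) hE' (s.a.dg 1 ⊔ s.x.dg 1)) ≤ 1 := by
        refine (h_le_H _ _).trans ?_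
        rw [← VV.rest_dg (fun k ω => ¬ E k ω) hE']
        have := (s.t.rest fun k ω => ¬ E k ω).H_dg_le zero_le_one
        simpa using this
      have b3 := mul_le_mul_of_nonneg_left b2 (sub_nonneg.mpr (ul_pr_le_one E))
      have b4 := mul_le_mul_of_nonneg_left b1 hE.le
      have b5 : ul (S.pr E) * (1 - h (restL E hE (s.t.dg 1)) (restL E hE (s.a.dg 1 ⊔ s.x.dg 1))) ≤ 0 := by
        rw [mul_sub]
        linarith
      have b6 : 0 ≤ 1 - h (restL E hE (s.t.dg 1)) (restL E hE (s.a.dg 1 ⊔ s.x.dg 1)) := by linarith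
      have b7 : 1 - h (restL E hE (s.t.dg 1)) (restL E hE (s.a.dg 1 ⊔ s.x.dg 1)) = 0 := by
        by_contra hc
        have := mul_pos hE (lt_of_le_of_ne b6 (Ne.symm hc))
        linarith
      linarith

variable (E : ∀ k, (S.F k).Ω → Prop) (hE : 0 < ul (S.pr E))

theorem rest_P : (s.rest E hE).P = s.P.rest E := rfl

theorem rest_P_dg (r : ℝ) : (s.rest E hE).P.dg r = restL E hE (s.P.dg r) := s.P.rest_dg E hE r

theorem rest_x_dg (r : ℝ) : (s.rest E hE).x.dg r = restL E hE (s.x.dg r) := s.x.rest_dg E hE r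

theorem rest_a_dg (r : ℝ) : (s.rest E hE).a.dg r = restL E hE (s.a.dg r) := s.a.rest_dg E hE r

theorem rest_t_dg (r : ℝ) : (s.rest E hE).t.dg r = restL E hE (s.t.dg r) := s.t.rest_dg E hE r

theorem rest_T : (s.rest E hE).T = restL E hE s.T := s.t.rest_dg E hE 1

theorem rest_xi (r : ℝ) : (s.rest E hE).xi r = restL E hE (s.xi r) := by
  unfold xi
  rw [rest_a_dg, rest_x_dg, restL_sup]

/-- the profile is an average -/
theorem F_rest (hE' : 0 < ul (S.pr fun k ω => ¬ E k ω)) (u r : ℝ) :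
    s.F u r = ul (S.pr E) * (s.rest E hE).F u r + (1 - ul (S.pr E)) * (s.rest (fun k ω => ¬ E k ω) hE').F u r := by
  unfold F
  rw [rest_x_dg, rest_x_dg, rest_P_dg, rest_P_dg, rest_T, rest_T, ← restL_sup, ← restL_sup]
  exact h_split E hE hE' _ _

theorem F_rest_typ (ht : Typ E) (u r : ℝ) : (s.rest E hE).F u r = s.F u r := by
  unfold F
  rw [rest_x_dg, rest_P_dg, rest_T, ← restL_sup]
  exact h_restL_typ E ht _ _

theorem lag_eq_F (th : ℝ) : s.lag th = s.F 0 1 - th * s.F 1 0 := by
  unfold lag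
  rw [s.F_zero_left 1, s.F_zero_right zero_le_one le_rfl]

/-- the Lagrangian is an average -/
theorem lag_rest (th : ℝ) (hE' : 0 < ul (S.pr fun k ω => ¬ E k ω)) :
    s.lag th = ul (S.pr E) * (s.rest E hE).lag th + (1 - ul (S.pr E)) * (s.rest (fun k ω => ¬ E k ω) hE').lag th := by
  rw [lag_eq_F, lag_eq_F, lag_eq_F, s.F_rest E hE hE' 0 1, s.F_rest E hE hE' 1 0]
  ring

theorem lag_rest_typ (th : ℝ) (ht : Typ E) : (s.rest E hE).lag th = s.lag th := by
  rw [lag_eq_F, lag_eq_F, s.F_rest_typ E hE ht, s.F_rest_typ E hE ht]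

/-- restrictions of extremal systems are extremal -/
theorem Extremal.rest {th : ℝ} {s : Sys S m} (he : Extremal th s) : Extremal th (s.rest E hE) := by
  rcases typ_or E with ht | hE'
  · intro S' s'
    rw [s.lag_rest_typ E hE th ht]
    exact he S' s'
  · have h1 := s.lag_rest E hE th hE'
    have h2 := he _ (s.rest E hE)
    have h3 := he _ (s.rest (fun k ω => ¬ E k ω) hE')
    have h4 : (s.rest E hE).lag th = s.lag th := by
      have h5 := mul_le_mul_of_nonneg_left h3 (sub_nonneg.mpr (ul_pr_le_one E))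
      have h6 : ul (S.pr E) * ((s.rest E hE).lag th - s.lag th) ≤ 0 := by
        rw [mul_sub]
        linarith
      have h7 : (s.rest E hE).lag th - s.lag th = 0 := by
        by_contra hc
        have := mul_pos hE (lt_of_le_of_ne (sub_nonneg.mpr h2) (Ne.symm hc))
        linarith
      linarith
    intro S' s'
    rw [h4]
    exact he S' s'

/-- (R3) the system restricted to an event of an extension -/
def im {T : Sp} (p : Pj T S) (E : ∀ k, (T.F k).Ω → Prop) (hE : 0 < ul (T.pr E)) : Sys (Sp.im p E) m where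
  a := s.a.im p E
  x := s.x.im p E
  t := s.t.im p E
  ht := by
    have h1 := ((s.pull p).rest E hE).ht
    have e1 : ∀ {q : ℕ} (y : S.VV q), ((p.vv y).rest E).dg 1 = (imq p E).map ((y.im p E).dg 1) := by
      intro q y
      rw [Pj.map_dg]
      rfl
    have e2 : h (((p.vv s.t).rest E).dg 1) (((p.vv s.a).rest E).dg 1 ⊔ ((p.vv s.x).rest E).dg 1) = 1 := h1
    rw [e1, e1, e1, ← Pj.map_sup, Pj.h_map] at e2
    exact e2

theorem im_pull {T : Sp} (p : Pj T S) (E : ∀ k, (T.F k).Ω → Prop) (hE : 0 < ul (T.pr E)) :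
    (s.im p E hE).pull (imq p E) = (s.pull p).rest E hE := rfl

theorem im_lag {T : Sp} (p : Pj T S) (E : ∀ k, (T.F k).Ω → Prop) (hE : 0 < ul (T.pr E)) (th : ℝ) :
    (s.im p E hE).lag th = ((s.pull p).rest E hE).lag th := by
  rw [← im_pull, pull_lag]

theorem Extremal.im {th : ℝ} {s : Sys S m} (he : Extremal th s) {T : Sp} (p : Pj T S)
    (E : ∀ k, (T.F k).Ω → Prop) (hE : 0 < ul (T.pr E)) : Extremal th (s.im p E hE) := by
  have h1 : Extremal th ((s.pull p).rest E hE) := Extremal.rest E hE (pull_extremal s p he)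
  intro S' s'
  rw [im_lag]
  exact h1 S' s'

end Sys

end

end Pool.Agent.Helper31.EC

namespace Pool.Agent.Helper40.EL

open Finset Filter Topology Pool.Agent.Helper69.RK Pool.Agent.Helper31.EC

noncomputable section

namespace Lab

variable {S : Sp} {l : Lab S} {A B : Part S}

/-- (3.4) a maximal label stays maximal on an event of its space, if the maximal information does not drop on the event
and on its complement (positive complement) -/
theorem IsMax.im (h : l.IsMax A B) (E : ∀ k, (l.sp.F k).Ω → Prop) (hE : 0 < ul (l.sp.pr E))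
    (hE' : 0 < ul (l.sp.pr fun k ω => ¬ E k ω)) (hA : A.Bd) (hA₁ : (A.im l.pj E).Bd)
    (hA₂ : (A.im l.pj fun k ω => ¬ E k ω).Bd)
    (r₁ : ∀ l₁ : Lab (Sp.im l.pj E), l₁.DM (A.im l.pj E) (B.im l.pj E) → l₁.info ≤ l.info)
    (r₂ : ∀ l₂ : Lab (Sp.im l.pj fun k ω => ¬ E k ω),
      l₂.DM (A.im l.pj fun k ω => ¬ E k ω) (B.im l.pj fun k ω => ¬ E k ω) → l₂.info ≤ l.info) :
    (l.im E).IsMax (A.im l.pj E) (B.im l.pj E) ∧ (l.im E).info = l.info := by
  have d₁ := h.1.im E hE
  have d₂ := h.1.im (fun k ω => ¬ E k ω) hE'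
  have u := h.1.ub hA
  have u₁ := d₁.ub hA₁
  have u₂ := d₂.ub hA₂
  have m₁ := r₁ _ d₁
  have m₂ := r₂ _ d₂
  have e : l.info ≤ ul (l.sp.pr E) * (l.im E).info + (1 - ul (l.sp.pr E)) * (l.im fun k ω => ¬ E k ω).info := by
    have t : Tendsto (fun k => l.sp.pr E k * (((l.im E) k).info / (S.F k).n) + (1 - l.sp.pr E k) *
        (((l.im fun k ω => ¬ E k ω) k).info / (S.F k).n) + 1 / (S.F k).n) UF
        (𝓝 (ul (l.sp.pr E) * (l.im E).info + (1 - ul (l.sp.pr E)) * (l.im fun k ω => ¬ E k ω).info + 0)) :=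
      (((ul_tendsto (Sp.UB_pr E)).mul (ul_tendsto u₁)).add
        (((ul_tendsto (Sp.UB_pr E)).const_sub 1).mul (ul_tendsto u₂))).add (S.div_n_tendsto 1)
    rw [add_zero] at t
    refine le_of_tendsto_of_tendsto (ul_tendsto u) t (Eventually.of_forall fun k => ?_)
    have h1 := ((l k).im_info (E k)).1
    have h2 := div_le_div_of_nonneg_right h1 (S.F k).pos.le
    refine h2.trans (le_of_eq ?_)
    show ((l k).T.pb (E k) * ((l k).im (E k)).info + (1 - (l k).T.pb (E k)) * ((l k).im fun ω => ¬ E k ω).info + 1) /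
      (S.F k).n = (l k).T.pb (E k) * (((l k).im (E k)).info / (S.F k).n) + (1 - (l k).T.pb (E k)) *
        (((l k).im fun ω => ¬ E k ω).info / (S.F k).n) + 1 / (S.F k).n
    ring
  have p0 := hE
  have p1 := Sp.ul_pr_le_one (S := l.sp) E
  have h3 := mul_le_mul_of_nonneg_left m₂ (sub_nonneg.mpr p1)
  have h4 : (l.im E).info = l.info := by
    have h6 : ul (l.sp.pr E) * (l.info - (l.im E).info) ≤ 0 := by
      rw [mul_sub]
      linarith
    have h7 : l.info - (l.im E).info = 0 := by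
      by_contra hc
      have := mul_pos hE (lt_of_le_of_ne (sub_nonneg.mpr m₁) (Ne.symm hc))
      linarith
    linarith
  exact ⟨⟨d₁, fun l₁ h₁ => by rw [h4]; exact r₁ l₁ h₁⟩, h4⟩

/-- (3.4), typical events, for labels of bounded informations -/
theorem IsMax.im_typ (h : l.IsMax A B) (E : ∀ k, (l.sp.F k).Ω → Prop) (hE : Sp.Typ E) (hA : A.Bd)
    (hA₁ : (A.im l.pj E).Bd) (hA₂ : (A.im l.pj fun k ω => ¬ E k ω).Bd)
    (r₁ : ∀ l₁ : Lab (Sp.im l.pj E), l₁.DM (A.im l.pj E) (B.im l.pj E) → l₁.info ≤ l.info) :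
    (l.im E).IsMax (A.im l.pj E) (B.im l.pj E) ∧ (l.im E).info = l.info := by
  have hE0 := Sp.ul_pr_typ_pos E hE
  have d₁ := h.1.im E hE0
  have u := h.1.ub hA
  have u₁ := d₁.ub hA₁
  have m₁ := r₁ _ d₁
  have hp := (Sp.Typ_iff E).mp hE
  have hp' : Tendsto (fun k => 1 - l.sp.pr E k) UF (𝓝 0) := by
    have := hp.const_sub 1
    rwa [sub_self] at this
  have e : l.info ≤ (l.im E).info := by
    -- on the complement the information is at most `H(A) + leak`
    have hr : ∀ k, (1 - (l k).T.pb (E k)) * ((l k).im fun ω => ¬ E k ω).info ≤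
        (1 - (l k).T.pb (E k)) * H (FSp.imap (l k).p (fun ω => ¬ E k ω) (A k)) + ((l k).leak (A k) + 1) := by
      intro k
      have h1 := FLab.info_le ((l k).im fun ω => ¬ E k ω) (FSp.imap (l k).p (fun ω => ¬ E k ω) (A k))
      have h2 := (l k).im_leak (fun ω => ¬ E k ω) (A k)
      have h3 : (l k).T.pb (fun ω => ¬ E k ω) = 1 - (l k).T.pb (E k) := by
        have := (l k).T.pb_add_compl (E k)
        linarith
      rw [h3] at h2
      have h4 : 0 ≤ 1 - (l k).T.pb (E k) := sub_nonneg.mpr ((l k).T.pb_le_one (E k))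
      have h5 := mul_le_mul_of_nonneg_left h1 h4
      rw [mul_add] at h5
      linarith
    have t : Tendsto (fun k => l.sp.pr E k * (((l.im E) k).info / (S.F k).n) + ((1 - l.sp.pr E k) *
        (H (FSp.imap (l k).p (fun ω => ¬ E k ω) (A k)) / (S.F k).n) + ((l k).leak (A k) / (S.F k).n + 1 / (S.F k).n)) +
          1 / (S.F k).n) UF
        (𝓝 (1 * (l.im E).info + (0 * ul (fun k => H (FSp.imap (l k).p (fun ω => ¬ E k ω) (A k)) / (S.F k).n) +
          (0 + 0)) + 0)) :=
      ((hp.mul (ul_tendsto u₁)).add ((hp'.mul (ul_tendsto hA₂)).add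
        (Filter.Tendsto.add h.1.1 (S.div_n_tendsto 1)))).add (S.div_n_tendsto 1)
    simp only [one_mul, zero_mul, add_zero] at t
    refine le_of_tendsto_of_tendsto (ul_tendsto u) t (Eventually.of_forall fun k => ?_)
    have h1 := ((l k).im_info (E k)).1
    have h2 := hr k
    have h3 : (l k).info ≤ (l k).T.pb (E k) * ((l k).im (E k)).info + ((1 - (l k).T.pb (E k)) *
        H (FSp.imap (l k).p (fun ω => ¬ E k ω) (A k)) + ((l k).leak (A k) + 1)) + 1 := by linarith
    have h4 := div_le_div_of_nonneg_right h3 (S.F k).pos.le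
    refine h4.trans (le_of_eq ?_)
    show ((l k).T.pb (E k) * ((l k).im (E k)).info + ((1 - (l k).T.pb (E k)) *
        H (FSp.imap (l k).p (fun ω => ¬ E k ω) (A k)) + ((l k).leak (A k) + 1)) + 1) / (S.F k).n =
      (l k).T.pb (E k) * (((l k).im (E k)).info / (S.F k).n) + ((1 - (l k).T.pb (E k)) *
        (H (FSp.imap (l k).p (fun ω => ¬ E k ω) (A k)) / (S.F k).n) + ((l k).leak (A k) / (S.F k).n + 1 / (S.F k).n)) +
          1 / (S.F k).n
    ring
  have h4 : (l.im E).info = l.info := le_antisymm m₁ e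
  exact ⟨⟨d₁, fun l₁ h₁ => by rw [h4]; exact r₁ l₁ h₁⟩, h4⟩

end Lab

end

end Pool.Agent.Helper40.EL
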