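import Pool.Agent.Helper31.EC.Sep
import Pool.Agent.Helper31.EC.RobS

/-! Exact entropy calculus: functions to full precision on restricted spaces; robustly unsaturated functions; the
statement of Theorem W in the exact calculus. -/

namespace Pool.Agent.Helper31.EC

open Finset Filter Topology Pool.Agent.Helper69.RK

noncomputable section

open Sp

variable {S : Sp}

section rest

variable (E : ∀ k, (S.F k).Ω → Prop)

theorem Sp.rest_dl (r : ℝ) (k : ℕ) : (S.rest E).dl r k = S.dl r k := rfl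

/-- tame functions on a restricted space -/
def TR.rest : TR S →+* TR (S.rest E) where
  toFun f := ⟨f.1, by
    obtain ⟨K, hK, h⟩ := f.2
    refine ⟨K, hK, ?_⟩
    filter_upwards [h] with k hk ω hω
    exact hk ω ((S.F k).rest_supp (E k) ω hω).1⟩
  map_one' := rfl
  map_mul' _ _ := rfl
  map_zero' := rfl
  map_add' _ _ := rfl

theorem TR.rest_dg (hE : 0 < ul (S.pr E)) (f : TR S) (r : ℝ) : TR.dg (TR.rest E f) r = restL E hE (TR.dg f r) := by
  unfold TR.dg
  rw [← VV.rest_dg E hE]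
  rfl

theorem mass_rest_le (F : FSp) (E B : F.Ω → Prop) (h0 : 0 < F.pb E) :
    mass (res (F.restμ E) B) ≤ mass (res F.μ B) / F.pb E := by
  rw [le_div_iff₀ h0, F.restμ_eq E h0.ne']
  unfold mass
  rw [Finset.sum_mul]
  apply Finset.sum_le_sum
  intro ω _
  by_cases h : B ω
  · rw [res_pos _ B ω h, res_pos _ B ω h]
    show (F.pb E)⁻¹ * res F.μ E ω * F.pb E ≤ F.μ ω
    have h1 : (F.pb E)⁻¹ * res F.μ E ω * F.pb E = res F.μ E ω := by
      field_simp
    rw [h1]
    by_cases h' : E ω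
    · rw [res_pos _ E ω h']
    · rw [res_neg _ E ω h']
      exact F.nn ω
  · rw [res_neg _ B ω h, res_neg _ B ω h, zero_mul]

/-- typical events are typical on events of positive probability -/
theorem Sp.Typ.rest (hE : 0 < ul (S.pr E)) {A : ∀ k, (S.F k).Ω → Prop} (hA : Typ A) : Typ (S := S.rest E) A := by
  unfold Typ at hA ⊢
  have h0 := ul_tendsto (UB_pr E)
  have h1 : Tendsto (fun k => mass (res (S.F k).μ (fun ω => ¬ A k ω)) / S.pr E k) UF (𝓝 0) := by
    have := hA.div h0 hE.ne'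
    rwa [zero_div] at this
  refine squeeze_zero' (Eventually.of_forall fun k => mass_res_nonneg (S := S.rest E) k _) ?_ h1
  filter_upwards [h0.eventually (lt_mem_nhds (half_lt_self hE))] with k hk
  exact mass_rest_le (S.F k) (E k) (fun ω => ¬ A k ω) (lt_trans (half_pos hE) hk)

theorem TR.Ag.rest (hE : 0 < ul (S.pr E)) {r : ℝ} {f g : TR S} (h : TR.Ag r f g) :
    TR.Ag r (TR.rest E f) (TR.rest E g) := by
  obtain ⟨A, K, hA, hK, hh⟩ := h
  refine ⟨A, K, hA.rest E hE, hK, ?_⟩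
  filter_upwards [hh] with k hk ω a b
  exact hk ω ((S.F k).rest_supp (E k) ω a).1 b

/-- functions to full precision on a restricted space -/
def QS.rest (hE : 0 < ul (S.pr E)) : QS S →+* QS (S.rest E) :=
  Ideal.Quotient.lift (TR.Idl S) ((QS.mk (S := S.rest E)).comp (TR.rest E)) (by
    intro f hf
    have h1 : TR.Ag 1 (TR.rest E f) (TR.rest E 0) := TR.Ag.rest E hE hf
    rw [map_zero] at h1
    show QS.mk (TR.rest E f) = 0
    rw [← map_zero QS.mk]
    exact QS.mk_eq.mpr h1)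

theorem QS.rest_mk (hE : 0 < ul (S.pr E)) (f : TR S) : QS.rest E hE (QS.mk f) = QS.mk (TR.rest E f) := rfl

theorem QS.rest_dg (hE : 0 < ul (S.pr E)) (f : QS S) (r : ℝ) : QS.dg (QS.rest E hE f) r = restL E hE (QS.dg f r) := by
  obtain ⟨f, rfl⟩ := QS.mk_surj f
  rcases le_total r 1 with hr | hr
  · rw [QS.rest_mk, QS.dg_mk _ hr, QS.dg_mk _ hr, TR.rest_dg E hE]
  · rw [QS.dg_cut _ hr, QS.dg_cut _ hr, QS.rest_mk, QS.dg_mk _ le_rfl, QS.dg_mk _ le_rfl, TR.rest_dg E hE]

theorem Sp.restL_finsup (hE : 0 < ul (S.pr E)) {ι : Type*} (s : Finset ι) (f : ι → S.L) :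
    restL E hE (s.sup f) = s.sup fun i => restL E hE (f i) := by
  classical
  induction s using Finset.induction_on with
  | empty => simp [restL_bot]
  | insert a s ha ih => rw [Finset.sup_insert, Finset.sup_insert, restL_sup, ih]

theorem QS.rest_vd (hE : 0 < ul (S.pr E)) {ι : Type} [Fintype ι] (f : ι → QS S) (r : ℝ) :
    QS.vd (fun i => QS.rest E hE (f i)) r = restL E hE (QS.vd f r) := by
  unfold QS.vd
  rw [Sp.restL_finsup]
  congr 1
  funext i
  exact QS.rest_dg E hE (f i) r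

/-- maximal entropies are maximal on events of positive probability -/
theorem Sp.h_rest_max (hE : 0 < ul (S.pr E)) {x y : S.L} {M : ℝ} (h0 : h x y = M)
    (hM : ∀ (E' : ∀ k, (S.F k).Ω → Prop) (hE' : 0 < ul (S.pr E')), h (restL E' hE' x) (restL E' hE' y) ≤ M) :
    h (restL E hE x) (restL E hE y) = M := by
  rcases typ_or E with ht | hE'
  · exact (h_restL_typ E ht x y).trans h0
  · have h1 := h_split E hE hE' x y
    have h2 := hM E hE
    have h3 := hM _ hE'
    have h4 := ul_pr_le_one E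
    have h5 : 0 ≤ (1 - ul (S.pr E)) * (M - h (restL (fun k ω => ¬ E k ω) hE' x) (restL (fun k ω => ¬ E k ω) hE' y)) :=
      mul_nonneg (by linarith) (by linarith)
    apply le_antisymm h2
    rw [h0] at h1
    by_contra hc
    have h6 : 0 < ul (S.pr E) * (M - h (restL E hE x) (restL E hE y)) := mul_pos hE (by linarith)
    nlinarith

/-- real families stay real on events of positive probability -/
theorem QS.Rl.rest (hE : 0 < ul (S.pr E)) {ι : Type} [Fintype ι] {x : ι → QS S} {A : S.L} (hx : QS.Rl x A) :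
    QS.Rl (fun i => QS.rest E hE (x i)) (restL E hE A) := by
  unfold QS.Rl
  rw [QS.rest_vd]
  apply Sp.h_rest_max E hE hx
  intro E' hE'
  rw [← QS.rest_vd]
  exact QS.h_sd_le _ Finset.univ _

end rest

/-- `z` is robustly unsaturated on the levels above `a0` over `A`: in every extension, on every event of positive
probability -/
def UnS (z : QS S) (A : S.L) (a0 c : ℝ) : Prop :=
  ∀ (T : Sp) (p : Pj T S) (E : ∀ k, (T.F k).Ω → Prop) (hE : 0 < ul (T.pr E)) (a b : ℝ), a0 ≤ a → a ≤ b → b ≤ 1 →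
    h (restL E hE (p.map (QS.dg z b))) (restL E hE (p.map (QS.dg z a ⊔ A))) ≤ (1 - c) * (b - a)

theorem UnS.mono {z : QS S} {A B : S.L} {a0 c : ℝ} (h : UnS z A a0 c) (hAB : A ≤ B) : UnS z B a0 c := by
  intro T p E hE a b h1 h2 h3
  refine (h_anti ?_).trans (h T p E hE a b h1 h2 h3)
  exact restL_mono E hE (p.map_mono (sup_le_sup_left hAB _))

theorem UnS.pull {T : Sp} (p : Pj T S) {z : QS S} {A : S.L} {a0 c : ℝ} (h : UnS z A a0 c) :
    UnS (p.qs z) (p.map A) a0 c := by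
  intro R q E hE a b h1 h2 h3
  have h4 := h R (q.comp p) E hE a b h1 h2 h3
  rw [Pj.comp_map, Pj.comp_map, Pj.map_sup] at h4
  rw [p.qs_dg, p.qs_dg]
  exact h4

theorem UnS.le {z : QS S} {A : S.L} {a0 c : ℝ} (h : UnS z A a0 c) {a b : ℝ} (h1 : a0 ≤ a) (h2 : a ≤ b) (h3 : b ≤ 1) :
    EC.h (QS.dg z b) (QS.dg z a ⊔ A) ≤ (1 - c) * (b - a) := by
  have ht : Typ (S := S) (fun _ _ => True) := Typ_true
  have h4 := h S (Pj.id S) (fun _ _ => True) (ul_pr_typ_pos _ ht) a b h1 h2 h3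
  rw [h_restL_typ _ ht, Pj.id_map, Pj.id_map] at h4
  exact h4

/-- THEOREM W in the exact calculus (statement) -/
def WEC : Prop :=
  ∀ (S : Sp) (ι : Type) (_ : Fintype ι) (B : ι → QS S) (z z' : QS S) (V V' : Fin 2 → QS S) (c : ℝ), 0 < c →
    z' = z + (V 0 * V' 1 - V 1 * V' 0) →
    I (QS.dg z 1) (QS.vd V 1 ⊔ QS.vd V' 1) (QS.vd B 1) = 0 →
    I (QS.dg z' 1) (QS.vd V 1 ⊔ QS.vd V' 1) (QS.vd B 1) = 0 →
    I (QS.vd V 1) (QS.vd V' 1) (QS.vd B 1) = 0 →
    h (QS.dg (V 0) 1) (QS.vd B 1) = 1 → h (QS.dg (V' 0) 1) (QS.vd B 1) = 1 →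
    UnS z (QS.vd B 1) 0 c → V 0 * V' 1 - V 1 * V' 0 = 0

end

end Pool.Agent.Helper31.EC
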