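import Pool.Agent.Helper31.EC.Lag

/-! Exact entropy calculus: the ring of tame functions of a space and the subrings of functions whose digits are
known. -/

namespace Pool.Agent.Helper31.EC

open Finset Filter Topology Pool.Agent.Helper69.RK

noncomputable section

/-- the ring of tame functions -/
def TR (S : Sp) : Subring (∀ k, (S.F k).Ω → ℝ) where
  carrier := {f | ∃ K : ℕ → ℝ, S.Sub K ∧ ∀ᶠ k in UF, ∀ ω, (S.F k).μ ω ≠ 0 → |f k ω| ≤ K k}
  mul_mem' := by
    rintro f g ⟨K, hK, h⟩ ⟨L, hL, h'⟩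
    refine ⟨_, hK.mul hL, ?_⟩
    filter_upwards [h, h', hK.1] with k a b c ω hω
    show |f k ω * g k ω| ≤ _
    rw [abs_mul]
    exact mul_le_mul (a ω hω) (b ω hω) (abs_nonneg _) c
  one_mem' := ⟨fun _ => 1, S.Sub_const zero_le_one, Eventually.of_forall fun k ω _ => by
    show |(1 : ℝ)| ≤ 1
    simp⟩
  add_mem' := by
    rintro f g ⟨K, hK, h⟩ ⟨L, hL, h'⟩
    refine ⟨_, hK.add hL, ?_⟩
    filter_upwards [h, h'] with k a b ω hω
    exact (abs_add_le _ _).trans (add_le_add (a ω hω) (b ω hω))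
  zero_mem' := ⟨fun _ => 0, S.Sub_const le_rfl, Eventually.of_forall fun k ω _ => by
    show |(0 : ℝ)| ≤ 0
    simp⟩
  neg_mem' := by
    rintro f ⟨K, hK, h⟩
    refine ⟨K, hK, ?_⟩
    filter_upwards [h] with k a ω hω
    show |-(f k ω)| ≤ _
    rw [abs_neg]
    exact a ω hω

namespace TR

open Sp

variable {S : Sp}

/-- value of a tame function -/
def ev (f : TR S) (k : ℕ) (ω : (S.F k).Ω) : ℝ := f.1 k ω

theorem ev_add (f g : TR S) (k : ℕ) (ω : (S.F k).Ω) : ev (f + g) k ω = ev f k ω + ev g k ω := rfl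
theorem ev_mul (f g : TR S) (k : ℕ) (ω : (S.F k).Ω) : ev (f * g) k ω = ev f k ω * ev g k ω := rfl
theorem ev_neg (f : TR S) (k : ℕ) (ω : (S.F k).Ω) : ev (-f) k ω = -ev f k ω := rfl
theorem ev_sub (f g : TR S) (k : ℕ) (ω : (S.F k).Ω) : ev (f - g) k ω = ev f k ω - ev g k ω := rfl
theorem ev_one (k : ℕ) (ω : (S.F k).Ω) : ev (1 : TR S) k ω = 1 := rfl
theorem ev_zero (k : ℕ) (ω : (S.F k).Ω) : ev (0 : TR S) k ω = 0 := rfl

/-- evaluation is a ring homomorphism -/
def evh (k : ℕ) (ω : (S.F k).Ω) : TR S →+* ℝ where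
  toFun f := ev f k ω
  map_one' := rfl
  map_mul' _ _ := rfl
  map_zero' := rfl
  map_add' _ _ := rfl

theorem evh_apply (k : ℕ) (ω : (S.F k).Ω) (f : TR S) : evh k ω f = ev f k ω := rfl

/-- a vector of tame functions as a vector variable -/
def vec {m : ℕ} (y : Fin m → TR S) : S.VV m where
  v := fun k ω i => ev (y i) k ω
  bd := by
    classical
    choose K hK h using fun i => (y i).2
    refine ⟨fun k => ∑ i, K i k, ?_, ?_⟩
    · have : ∀ s : Finset (Fin m), S.Sub (fun k => ∑ i ∈ s, K i k) := by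
        intro s
        induction s using Finset.induction_on with
        | empty => simpa using S.Sub_const le_rfl
        | insert a s ha ih =>
          have h1 := (hK a).add ih
          simpa [Finset.sum_insert ha] using h1
      exact this Finset.univ
    · have h1 : ∀ᶠ k in UF, ∀ i ∈ (Finset.univ : Finset (Fin m)), (0 ≤ K i k) ∧
          ∀ ω, (S.F k).μ ω ≠ 0 → |(y i).1 k ω| ≤ K i k := by
        rw [Filter.eventually_all_finset]
        intro i _
        filter_upwards [(hK i).1, h i] with k a b using ⟨a, b⟩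
      filter_upwards [h1] with k hk ω hω i
      refine ((hk i (Finset.mem_univ i)).2 ω hω).trans ?_
      exact Finset.single_le_sum (f := fun i => K i k) (fun j _ => (hk j (Finset.mem_univ j)).1) (Finset.mem_univ i)

/-- the coordinates of a vector variable as tame functions -/
def cor {m : ℕ} (y : S.VV m) (i : Fin m) : TR S := ⟨fun k ω => y.v k ω i, by
  obtain ⟨K, hK, h⟩ := y.bd
  exact ⟨K, hK, h.mono fun k a ω hω => a ω hω i⟩⟩

theorem ev_cor {m : ℕ} (y : S.VV m) (i : Fin m) (k : ℕ) (ω : (S.F k).Ω) : ev (cor y i) k ω = y.v k ω i := rfl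

theorem vec_cor {m : ℕ} (y : S.VV m) : vec (cor y) = y := rfl

theorem cor_vec {m : ℕ} (y : Fin m → TR S) (i : Fin m) : cor (vec y) i = y i := rfl

/-- digits of a tame function -/
def dg (f : TR S) (r : ℝ) : S.L := (vec (fun _ : Fin 1 => f)).dg r

theorem dg_mono (f : TR S) {r s : ℝ} (h : r ≤ s) : dg f r ≤ dg f s := VV.dg_mono _ h

/-- digits of a vector are the digits of the coordinates -/
theorem cor_dg_le {m : ℕ} (y : S.VV m) (i : Fin m) (r : ℝ) : dg (cor y i) r ≤ y.dg r := by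
  apply VV.dg_le_dg _ _ _ _ (fun _ _ => True) Typ_true (fun _ => 1) (S.Sub_const zero_le_one)
  refine Eventually.of_forall fun k ω ω' _ _ _ _ _ g _ => ?_
  rw [one_mul]
  exact g i

theorem vec_dg_le {m : ℕ} (y : Fin m → TR S) (r : ℝ) (A : S.L) (h : ∀ i, dg (y i) r ≤ A) : (vec y).dg r ≤ A := by
  induction A using cl_ind with | _ A
  classical
  have hc : ∀ i : Fin m, ∃ B : S.Inf, cl B = dg (y i) r ∧ B = (VV.bdd (vec (fun _ : Fin 1 => y i)) r).toInf :=
    fun i => ⟨_, (io_eq _).symm, rfl⟩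
  -- the join of all digit informations
  have key : ∀ s : Finset (Fin m), ∃ B : S.Inf, cl B ≤ cl A ∧
      ∀ k ω ω', B.1 k ω ω' → ∀ i ∈ s, (vec (fun _ : Fin 1 => y i)).cellv r k ω =
        (vec (fun _ : Fin 1 => y i)).cellv r k ω' := by
    intro s
    induction s using Finset.induction_on with
    | empty => exact ⟨Inf.bot, by rw [cl_bot]; exact _root_.bot_le, fun _ _ _ _ i hi => by simp at hi⟩
    | insert a s ha ih =>
      obtain ⟨B, hB, hB'⟩ := ih
      refine ⟨Inf.sup B (VV.bdd (vec (fun _ : Fin 1 => y a)) r).toInf, ?_, ?_⟩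
      · rw [cl_sup]
        refine _root_.sup_le hB ?_
        have h1 := h a
        unfold dg VV.dg at h1
        rw [io_eq (VV.bdd _ r)] at h1
        exact h1
      · intro k ω ω' g i hi
        rw [Finset.mem_insert] at hi
        rcases hi with rfl | hi
        · exact g.2
        · exact hB' k ω ω' g.1 i hi
  obtain ⟨B, hB, hB'⟩ := key Finset.univ
  refine le_trans ?_ hB
  apply VV.dg_le_cl _ _ _ (fun _ _ => True) Typ_true (fun _ => 1) (S.Sub_const zero_le_one)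
  refine Eventually.of_forall fun k ω ω' _ _ _ _ _ g i => ?_
  rw [one_mul]
  exact VV.cellv_close _ r k ω ω' (hB' k ω ω' g i (Finset.mem_univ i)) 0

theorem vec_dg_le_iff {m : ℕ} (y : Fin m → TR S) (r : ℝ) (A : S.L) : (vec y).dg r ≤ A ↔ ∀ i, dg (y i) r ≤ A :=
  ⟨fun h i => (cor_dg_le (vec y) i r).trans h, vec_dg_le y r A⟩

theorem vv_dg_le_iff {m : ℕ} (y : S.VV m) (r : ℝ) (A : S.L) : y.dg r ≤ A ↔ ∀ i, dg (cor y i) r ≤ A := by
  have := vec_dg_le_iff (cor y) r A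
  rwa [vec_cor] at this

/-- master lemma for tame functions -/
theorem dg_le_cl (f : TR S) (r : ℝ) (A : S.Inf)
    (E : ∀ k, (S.F k).Ω → Prop) (hE : Typ E) (K : ℕ → ℝ) (hK : S.Sub K)
    (hh : ∀ᶠ k in UF, ∀ ω ω', (S.F k).μ ω ≠ 0 → (S.F k).μ ω' ≠ 0 → E k ω → E k ω' → (S.F k).Z ω ω' →
      A.1 k ω ω' → |ev f k ω - ev f k ω'| ≤ K k * S.dl r k) : dg f r ≤ cl A := by
  apply VV.dg_le_cl _ _ _ E hE K hK
  filter_upwards [hh] with k hk ω ω' a b e e' g g' _
  exact hk ω ω' a b e e' g g'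

/-- closeness on the atoms of the digits, as a criterion in terms of representatives: `f` at level `r` is a
function of `g₁` and `g₂` at level `r` -/
theorem dg_le_dg2 (f g₁ g₂ : TR S) (r : ℝ)
    (E : ∀ k, (S.F k).Ω → Prop) (hE : Typ E) (K : ℕ → ℝ) (hK : S.Sub K)
    (hh : ∀ᶠ k in UF, ∀ ω ω', (S.F k).μ ω ≠ 0 → (S.F k).μ ω' ≠ 0 → E k ω → E k ω' →
      |ev g₁ k ω - ev g₁ k ω'| ≤ S.dl r k → |ev g₂ k ω - ev g₂ k ω'| ≤ S.dl r k →
      |ev f k ω - ev f k ω'| ≤ K k * S.dl r k) : dg f r ≤ dg g₁ r ⊔ dg g₂ r := by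
  apply VV.dg_le_dg2 _ _ _ _ _ _ E hE K hK
  filter_upwards [hh] with k hk ω ω' a b e e' _ g g' _
  exact hk ω ω' a b e e' (g 0) (g' 0)

theorem add_dg_le (f g : TR S) (r : ℝ) : dg (f + g) r ≤ dg f r ⊔ dg g r := by
  apply dg_le_dg2 _ _ _ _ (fun _ _ => True) Typ_true (fun _ => 2) (S.Sub_const (by norm_num))
  refine Eventually.of_forall fun k ω ω' _ _ _ _ h1 h2 => ?_
  rw [ev_add, ev_add]
  rw [abs_le] at h1 h2 ⊢
  constructor <;> linarith [h1.1, h1.2, h2.1, h2.2]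

theorem mul_dg_le (f g : TR S) (r : ℝ) : dg (f * g) r ≤ dg f r ⊔ dg g r := by
  obtain ⟨K, hK, h⟩ := f.2
  obtain ⟨L, hL, h'⟩ := g.2
  apply dg_le_dg2 _ _ _ _ (fun _ _ => True) Typ_true _ (hK.add hL)
  filter_upwards [h, h'] with k a b ω ω' c d _ _ h1 h2
  have h3 := mul_diff (ev f k ω) (ev g k ω) (ev f k ω') (ev g k ω') (K k) (L k) (S.dl r k) (S.dl r k)
    (a ω c) (b ω' d) h1 h2
  rw [ev_mul, ev_mul]
  linarith

theorem neg_dg_le (f : TR S) (r : ℝ) : dg (-f) r ≤ dg f r := by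
  have h1 : dg (-f) r ≤ dg f r ⊔ dg f r := by
    apply dg_le_dg2 _ _ _ _ (fun _ _ => True) Typ_true (fun _ => 1) (S.Sub_const zero_le_one)
    refine Eventually.of_forall fun k ω ω' _ _ _ _ h1 _ => ?_
    rw [ev_neg, ev_neg, one_mul]
    rw [abs_le] at h1 ⊢
    constructor <;> linarith [h1.1, h1.2]
  rwa [sup_idem] at h1

theorem const_dg (c : TR S) (hc : ∀ᶠ k in UF, ∀ ω ω', ev c k ω = ev c k ω') (r : ℝ) : dg c r = ⊥ := by
  apply le_antisymm _ _root_.bot_le
  rw [← cl_bot]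
  apply dg_le_cl _ _ _ (fun _ _ => True) Typ_true (fun _ => 0) (S.Sub_const le_rfl)
  filter_upwards [hc] with k hk ω ω' _ _ _ _ _ _
  rw [hk ω ω', sub_self, abs_zero, zero_mul]

variable (S) in
/-- the subring of the functions whose digits of level `r` are known by `A` -/
def Kn (r : ℝ) (A : S.L) : Subring (TR S) where
  carrier := {f | dg f r ≤ A}
  mul_mem' := fun {f g} hf hg => (mul_dg_le f g r).trans (_root_.sup_le hf hg)
  one_mem' := by
    show dg 1 r ≤ A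
    rw [const_dg (1 : TR S) (Eventually.of_forall fun _ _ _ => rfl)]
    exact _root_.bot_le
  add_mem' := fun {f g} hf hg => (add_dg_le f g r).trans (_root_.sup_le hf hg)
  zero_mem' := by
    show dg 0 r ≤ A
    rw [const_dg (0 : TR S) (Eventually.of_forall fun _ _ _ => rfl)]
    exact _root_.bot_le
  neg_mem' := fun {f} hf => (neg_dg_le f r).trans hf

theorem mem_Kn {r : ℝ} {A : S.L} {f : TR S} : f ∈ Kn S r A ↔ dg f r ≤ A := Iff.rfl

theorem Kn_mono {r : ℝ} {A B : S.L} (h : A ≤ B) : Kn S r A ≤ Kn S r B := fun _ hf => le_trans hf h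

/-- two tame functions agree up to level `r` on a typical event -/
def Ag (r : ℝ) (f g : TR S) : Prop :=
  ∃ (E : ∀ k, (S.F k).Ω → Prop) (K : ℕ → ℝ), Typ E ∧ S.Sub K ∧
    ∀ᶠ k in UF, ∀ ω, (S.F k).μ ω ≠ 0 → E k ω → |ev f k ω - ev g k ω| ≤ K k * S.dl r k

theorem Ag.symm {r : ℝ} {f g : TR S} (h : Ag r f g) : Ag r g f := by
  obtain ⟨E, K, hE, hK, hh⟩ := h
  refine ⟨E, K, hE, hK, ?_⟩
  filter_upwards [hh] with k hk ω a b
  rw [abs_sub_comm]
  exact hk ω a b

theorem Ag.dg_le {r s : ℝ} {f g : TR S} (h : Ag r f g) (hs : s ≤ r) : dg f s ≤ dg g s := by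
  obtain ⟨E, K, hE, hK, hh⟩ := h
  have h1 : dg f s ≤ dg g s ⊔ dg g s := by
    apply dg_le_dg2 _ _ _ _ E hE (fun k => K k + (K k + 1)) (hK.add (hK.add (S.Sub_const zero_le_one)))
    filter_upwards [hh, hK.1] with k hk hK0 ω ω' a b e e' g1 _
    have h1 := abs_le.mp (hk ω a e)
    have h2 := abs_le.mp (hk ω' b e')
    have h3 := abs_le.mp g1
    have h4 := mul_le_mul_of_nonneg_left (S.dl_anti hs k) hK0
    rw [abs_le]
    constructor <;> linarith [h1.1, h1.2, h2.1, h2.2, h3.1, h3.2]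
  rwa [sup_idem] at h1

theorem Ag.dg_eq {r s : ℝ} {f g : TR S} (h : Ag r f g) (hs : s ≤ r) : dg f s = dg g s :=
  le_antisymm (h.dg_le hs) (h.symm.dg_le hs)

/-- equality on a typical event -/
def Te (f g : TR S) : Prop :=
  ∃ E : ∀ k, (S.F k).Ω → Prop, Typ E ∧ ∀ᶠ k in UF, ∀ ω, (S.F k).μ ω ≠ 0 → E k ω → ev f k ω = ev g k ω

theorem Te.ag {f g : TR S} (h : Te f g) (r : ℝ) : Ag r f g := by
  obtain ⟨E, hE, hh⟩ := h
  refine ⟨E, fun _ => 0, hE, S.Sub_const le_rfl, ?_⟩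
  filter_upwards [hh] with k hk ω a b
  rw [hk ω a b, sub_self, abs_zero, zero_mul]

theorem Te.dg_eq {f g : TR S} (h : Te f g) (r : ℝ) : dg f r = dg g r := (h.ag r).dg_eq le_rfl

theorem Te.refl (f : TR S) : Te f f := ⟨fun _ _ => True, Typ_true, Eventually.of_forall fun _ _ _ _ => rfl⟩

theorem Te.symm {f g : TR S} (h : Te f g) : Te g f := by
  obtain ⟨E, hE, hh⟩ := h
  refine ⟨E, hE, ?_⟩
  filter_upwards [hh] with k hk ω a b using (hk ω a b).symm

theorem Te.trans {f g l : TR S} (h : Te f g) (h' : Te g l) : Te f l := by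
  obtain ⟨E, hE, hh⟩ := h
  obtain ⟨E', hE', hh'⟩ := h'
  refine ⟨_, hE.and hE', ?_⟩
  filter_upwards [hh, hh'] with k hk hk' ω a b using (hk ω a b.1).trans (hk' ω a b.2)

theorem Te.add {f f' g g' : TR S} (h : Te f f') (h' : Te g g') : Te (f + g) (f' + g') := by
  obtain ⟨E, hE, hh⟩ := h
  obtain ⟨E', hE', hh'⟩ := h'
  refine ⟨_, hE.and hE', ?_⟩
  filter_upwards [hh, hh'] with k hk hk' ω a b
  rw [ev_add, ev_add, hk ω a b.1, hk' ω a b.2]

theorem Te.mul {f f' g g' : TR S} (h : Te f f') (h' : Te g g') : Te (f * g) (f' * g') := by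
  obtain ⟨E, hE, hh⟩ := h
  obtain ⟨E', hE', hh'⟩ := h'
  refine ⟨_, hE.and hE', ?_⟩
  filter_upwards [hh, hh'] with k hk hk' ω a b
  rw [ev_mul, ev_mul, hk ω a b.1, hk' ω a b.2]

theorem Te.sum {ι : Type*} (s : Finset ι) {f g : ι → TR S} (h : ∀ i ∈ s, Te (f i) (g i)) :
    Te (∑ i ∈ s, f i) (∑ i ∈ s, g i) := by
  classical
  induction s using Finset.induction_on with
  | empty => exact Te.refl _
  | insert a s ha ih =>
    rw [Finset.sum_insert ha, Finset.sum_insert ha]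
    exact (h a (Finset.mem_insert_self a s)).add (ih fun i hi => h i (Finset.mem_insert_of_mem hi))

open Classical in
/-- robust inverse: `1 / f` if `|f| ≥ 1 / K`, else `0` -/
def rinv (f : TR S) (K : ℕ → ℝ) (hK : S.Sub K) : TR S :=
  ⟨fun k ω => if 1 ≤ K k * |ev f k ω| then (ev f k ω)⁻¹ else 0, by
    refine ⟨K, hK, ?_⟩
    filter_upwards [hK.1] with k hk ω _
    split_ifs with h1
    · have h2 : 0 < |ev f k ω| := by
        by_contra hc
        have h3 : |ev f k ω| = 0 := le_antisymm (not_lt.mp hc) (abs_nonneg _)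
        rw [h3] at h1
        linarith
      rw [abs_inv, inv_le_iff_one_le_mul₀ h2]
      exact h1
    · rw [abs_zero]; exact hk⟩

theorem ev_rinv (f : TR S) (K : ℕ → ℝ) (hK : S.Sub K) (k : ℕ) (ω : (S.F k).Ω) (h : 1 ≤ K k * |ev f k ω|) :
    ev (rinv f K hK) k ω = (ev f k ω)⁻¹ := by
  classical
  show (if 1 ≤ K k * |ev f k ω| then (ev f k ω)⁻¹ else 0) = _
  rw [if_pos h]

theorem rinv_mul (f : TR S) (K : ℕ → ℝ) (hK : S.Sub K) (hf : Typ (fun k ω => 1 ≤ K k * |ev f k ω|)) :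
    Te (rinv f K hK * f) 1 := by
  refine ⟨_, hf, Eventually.of_forall fun k ω _ h => ?_⟩
  rw [ev_mul, ev_rinv f K hK k ω h, ev_one]
  apply inv_mul_cancel₀
  intro hc
  rw [hc, abs_zero, mul_zero] at h
  linarith

/-- robust inverses are known -/
theorem rinv_dg_le (f : TR S) (K : ℕ → ℝ) (hK : S.Sub K) (hf : Typ (fun k ω => 1 ≤ K k * |ev f k ω|)) (r : ℝ) :
    dg (rinv f K hK) r ≤ dg f r := by
  have h1 : dg (rinv f K hK) r ≤ dg f r ⊔ dg f r := by
    apply dg_le_dg2 _ _ _ _ _ hf _ (hK.mul hK)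
    filter_upwards [hK.1] with k hk ω ω' _ _ e e' g _
    rw [ev_rinv f K hK k ω e, ev_rinv f K hK k ω' e']
    have n1 : ev f k ω ≠ 0 := by
      intro hc
      rw [hc, abs_zero, mul_zero] at e
      linarith
    have n2 : ev f k ω' ≠ 0 := by
      intro hc
      rw [hc, abs_zero, mul_zero] at e'
      linarith
    have h2 : (ev f k ω)⁻¹ - (ev f k ω')⁻¹ = (ev f k ω)⁻¹ * (ev f k ω')⁻¹ * (ev f k ω' - ev f k ω) := by
      field_simp
    rw [h2, abs_mul, abs_mul, abs_inv, abs_inv, abs_sub_comm]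
    have p1 : 0 < |ev f k ω| := abs_pos.mpr n1
    have p2 : 0 < |ev f k ω'| := abs_pos.mpr n2
    have q1 : |ev f k ω|⁻¹ ≤ K k := by rw [inv_le_iff_one_le_mul₀ p1]; exact e
    have q2 : |ev f k ω'|⁻¹ ≤ K k := by rw [inv_le_iff_one_le_mul₀ p2]; exact e'
    exact mul_le_mul (mul_le_mul q1 q2 (by positivity) hk) g (abs_nonneg _) (mul_nonneg hk hk)
  rwa [sup_idem] at h1

theorem rinv_mem (f : TR S) (K : ℕ → ℝ) (hK : S.Sub K) (hf : Typ (fun k ω => 1 ≤ K k * |ev f k ω|)) {r : ℝ}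
    {A : S.L} (h : f ∈ Kn S r A) : rinv f K hK ∈ Kn S r A := (rinv_dg_le f K hK hf r).trans h

end TR

end

end Pool.Agent.Helper31.EC
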