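import Pool.Agent.Helper31.EC.Dens

/-! Exact entropy calculus: restriction to events of extensions (= densities), double Markov labels under
restrictions and extensions. -/

namespace Pool.Agent.Helper31.EC

open Finset Filter Topology Pool.Agent.Helper69.RK Pool.Agent.Helper40.EL

noncomputable section

/-- the finite projections of a projection -/
def Pj.fp {T S : Sp} (p : Pj T S) (k : ℕ) : FPj (T.F k) (S.F k) := ⟨p.π k, p.law k, p.hZ k⟩

namespace Sp

variable {T S : Sp} (p : Pj T S) (E : ∀ k, (T.F k).Ω → Prop)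

/-- (R0) `S` restricted to an event of an extension -/
def im : Sp where
  F := fun k => FSp.im (p.fp k) (E k)
  lim := S.lim

/-- (R1) the projection -/
def imq : Pj (T.rest E) (im p E) where
  π := p.π
  law := fun _ => rfl
  hZ := fun k => (FSp.imp (p.fp k) (E k)).hZ
  hn := p.hn

theorem im_VB {A : ∀ k, Setoid (S.F k).Ω} (hA : S.VB A) : (im p E).VB A :=
  (imq p E).vb_pb.mp (rest_VB E (p.vb_pb.mpr hA))

/-- informations of `S` in the restricted space -/
def imI (A : S.Inf) : (im p E).Inf := ⟨A.1, im_VB p E A.2⟩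

/-- tame vector variables in the restricted space -/
def VV.im {m : ℕ} (y : S.VV m) : (Sp.im p E).VV m where
  v := y.v
  bd := by
    obtain ⟨K, hK, h⟩ := y.bd
    refine ⟨K, hK, ?_⟩
    filter_upwards [h] with k hk ω hω i
    exact hk ω (FSp.im_supp (p.fp k) (E k) ω hω) i

theorem VV.im_dg {m : ℕ} (y : S.VV m) (r : ℝ) (hE : 0 < ul (T.pr E)) :
    (imq p E).map ((y.im p E).dg r) = restL E hE (p.map (y.dg r)) := by
  rw [Pj.map_dg, Pj.map_dg, ← VV.rest_dg]
  rfl

end Sp

end

end Pool.Agent.Helper31.EC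

namespace Pool.Agent.Helper40.EL

open Finset Filter Topology Pool.Agent.Helper69.RK Pool.Agent.Helper31.EC

noncomputable section

/-- unbounded informations given by partitions -/
def pof {S : Sp} (A : ∀ k, Setoid (S.F k).Ω) : Part S := fun k => fc (A k)

theorem pof_Bd {S : Sp} {A : ∀ k, Setoid (S.F k).Ω} (hA : S.VB A) : (pof A).Bd := by
  have h1 := hA.ub
  have h2 : (fun k => H (pof A k) / (S.F k).n) = S.rt A S.tr := by
    funext k
    unfold pof Sp.rt
    rw [H_fc]
    congr 1
    apply (S.F k).e_congr_right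
    intro ω ω' _ _
    exact ⟨fun h => ⟨trivial, h⟩, fun h => h.2⟩
  unfold Part.Bd
  rw [h2]
  exact h1

theorem Nul.const (S : Sp) (c : ℝ) : Nul S (fun _ => c) := S.div_n_tendsto c

/-- pullback of an unbounded information -/
def Part.pull {T S : Sp} (p : Pj T S) (A : Part S) : Part T := fun k => (p.fp k).map (A k)

/-- restriction of an unbounded information -/
def Part.rest {S : Sp} (E : ∀ k, (S.F k).Ω → Prop) (A : Part S) : Part (S.rest E) := fun k => (S.F k).rmap (E k) (A k)

/-- restriction of an unbounded information, extensions -/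
def Part.im {T S : Sp} (p : Pj T S) (E : ∀ k, (T.F k).Ω → Prop) (A : Part S) : Part (Sp.im p E) :=
  fun k => FSp.imap (p.fp k) (E k) (A k)

theorem Part.im_pull {T S : Sp} (p : Pj T S) (E : ∀ k, (T.F k).Ω → Prop) (A : Part S) :
    Part.pull (Sp.imq p E) (A.im p E) = (A.pull p).rest E := by
  funext k
  exact FSp.imp_imap (p.fp k) (E k) (A k)

theorem pof_pull {T S : Sp} (p : Pj T S) (A : ∀ k, Setoid (S.F k).Ω) : (pof A).pull p = pof (p.pb A) := rfl

theorem pof_rest {S : Sp} (E : ∀ k, (S.F k).Ω → Prop) (A : ∀ k, Setoid (S.F k).Ω) :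
    (pof A).rest E = pof (S := S.rest E) A := rfl

theorem pof_im {T S : Sp} (p : Pj T S) (E : ∀ k, (T.F k).Ω → Prop) (A : ∀ k, Setoid (S.F k).Ω) :
    (pof A).im p E = pof (S := Sp.im p E) A := rfl

theorem Part.Bd.pull {T S : Sp} (p : Pj T S) {A : Part S} (hA : A.Bd) : (A.pull p).Bd := by
  have h1 : (fun k => H ((A.pull p) k) / (T.F k).n) = fun k => H (A k) / (S.F k).n := by
    funext k
    rw [p.hn k]
    congr 1
    exact (p.fp k).H_map (A k)
  unfold Part.Bd
  rw [h1]; exact hA

/-- eventually `pr E` is at least half of its limit -/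
theorem pr_half' {S : Sp} {E : ∀ k, (S.F k).Ω → Prop} (hE : 0 < ul (S.pr E)) :
    ∀ᶠ k in UF, ul (S.pr E) / 2 ≤ S.pr E k :=
  (eventually_gt_of_lt_ul (Sp.UB_pr E) (half_lt_self hE)).mono fun _ h => h.le

/-- null sequences under restriction -/
theorem Nul.div_pr {S : Sp} {E : ∀ k, (S.F k).Ω → Prop} (hE : 0 < ul (S.pr E)) {f g : ℕ → ℝ} (hf : Nul S f)
    (h0 : ∀ k, 0 ≤ g k) (h1 : ∀ k, S.pr E k * g k ≤ f k + 1) : Nul S g := by
  have h2 : Nul S (fun k => 2 / ul (S.pr E) * (f k + 1)) := (hf.add (Nul.const S 1)).const_mul _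
  apply h2.of_le (Eventually.of_forall h0)
  filter_upwards [pr_half' hE] with k hk
  have h3 : ul (S.pr E) / 2 * g k ≤ f k + 1 := (mul_le_mul_of_nonneg_right hk (h0 k)).trans (h1 k)
  have h4 : 2 / ul (S.pr E) * (ul (S.pr E) / 2 * g k) = g k := by
    field_simp
  rw [← h4]
  exact mul_le_mul_of_nonneg_left h3 (by positivity)


namespace Lab

variable {S : Sp}

/-- restriction of a label to an event of its space -/
def im (l : Lab S) (E : ∀ k, (l.sp.F k).Ω → Prop) : Lab (Sp.im l.pj E) := fun k => (l k).im (E k)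

variable {l : Lab S} {A B : Part S}

/-- (3.1) double Markov labels under restriction -/
theorem DM.im (h : l.DM A B) (E : ∀ k, (l.sp.F k).Ω → Prop) (hE : 0 < ul (l.sp.pr E)) :
    (l.im E).DM (A.im l.pj E) (B.im l.pj E) := by
  have key : ∀ A : Part S, Nul S (fun k => (l k).leak (A k)) →
      Nul (Sp.im l.pj E) (fun k => (l.im E k).leak (A.im l.pj E k)) := by
    intro A hA
    have hA' : Nul l.sp (fun k => (l k).leak (A k)) := by
      unfold Nul at hA ⊢
      have e : (fun k => (l k).leak (A k) / (l.sp.F k).n) = fun k => (l k).leak (A k) / (S.F k).n := by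
        funext k
        rw [show (l.sp.F k).n = (S.F k).n from (l k).hn]
      rw [e]; exact hA
    have h1 : Nul l.sp (fun k => (l.im E k).leak (A.im l.pj E k)) :=
      Nul.div_pr hE hA' (fun k => FLab.leak_nonneg _ _) (fun k => (l k).im_leak (E k) (A k))
    unfold Nul at h1 ⊢
    have e : (fun k => (l.im E k).leak (A.im l.pj E k) / ((Sp.im l.pj E).F k).n) =
        fun k => (l.im E k).leak (A.im l.pj E k) / (l.sp.F k).n := by
      funext k
      rw [show (l.sp.F k).n = (S.F k).n from (l k).hn]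
      rfl
    rw [e]; exact h1
  exact ⟨key A h.1, key B h.2⟩

/-- a label of an extension as a label of the space -/
def down {T : Sp} (p : Pj T S) (l : Lab T) : Lab S := fun k => FLab.down (p.fp k) (p.hn k) (l k)

/-- a label of the space as a label of an extension -/
def up' {T : Sp} (p : Pj T S) (l : Lab S) : Lab T := fun k => (l k).up' (p.fp k) (p.hn k)

theorem nul_pj {T : Sp} (p : Pj T S) {f : ℕ → ℝ} : Nul T f ↔ Nul S f := by
  unfold Nul
  have e : (fun k => f k / (T.F k).n) = fun k => f k / (S.F k).n := by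
    funext k
    rw [p.hn k]
  rw [e]

theorem DM.down {T : Sp} (p : Pj T S) {l : Lab T} (h : l.DM (A.pull p) (B.pull p)) : (l.down p).DM A B := by
  constructor
  · apply ((nul_pj p).mp h.1).of_le (Eventually.of_forall fun k => FLab.leak_nonneg _ _)
    exact Eventually.of_forall fun k => FLab.down_leak (p.fp k) (p.hn k) (l k) (A k)
  · apply ((nul_pj p).mp h.2).of_le (Eventually.of_forall fun k => FLab.leak_nonneg _ _)
    exact Eventually.of_forall fun k => FLab.down_leak (p.fp k) (p.hn k) (l k) (B k)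

theorem DM.up' {T : Sp} (p : Pj T S) (h : l.DM A B) : (l.up' p).DM (A.pull p) (B.pull p) := by
  constructor
  · apply ((nul_pj p).mpr h.1).of_le (Eventually.of_forall fun k => FLab.leak_nonneg _ _)
    exact Eventually.of_forall fun k => FLab.up'_leak (l k) (p.fp k) (p.hn k) (A k)
  · apply ((nul_pj p).mpr h.2).of_le (Eventually.of_forall fun k => FLab.leak_nonneg _ _)
    exact Eventually.of_forall fun k => FLab.up'_leak (l k) (p.fp k) (p.hn k) (B k)

theorem DM.info_down {T : Sp} (p : Pj T S) {l : Lab T} (h : l.DM (A.pull p) (B.pull p)) (hA : A.Bd) :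
    (l.down p).info = l.info := by
  have hu := h.ub (hA.pull p)
  have hu' := (h.down p).ub hA
  have hl := (nul_pj p).mp h.1
  have hle : ∀ k, ((l.down p) k).info / (S.F k).n ≤ (l k).info / (S.F k).n := fun k =>
    div_le_div_of_nonneg_right (FLab.down_info_le (p.fp k) (p.hn k) (l k)) (S.F k).pos.le
  have hge : ∀ k, (l k).info / (S.F k).n ≤ ((l.down p) k).info / (S.F k).n + (l k).leak ((A.pull p) k) / (S.F k).n := by
    intro k
    rw [← add_div]
    exact div_le_div_of_nonneg_right (FLab.down_info (p.fp k) (p.hn k) (l k) (A k)) (S.F k).pos.le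
  have hn : (fun k => (l k).info / (T.F k).n) = fun k => (l k).info / (S.F k).n := by
    funext k
    rw [p.hn k]
  rw [hn] at hu
  have e1 : l.info = ul (fun k => (l k).info / (S.F k).n) := by
    show ul (fun k => (l k).info / (T.F k).n) = _
    rw [hn]
  rw [e1]
  have t1 : Tendsto (fun k => ((l.down p) k).info / (S.F k).n + (l k).leak ((A.pull p) k) / (S.F k).n) UF
      (𝓝 ((l.down p).info + 0)) := (ul_tendsto hu').add hl
  rw [add_zero] at t1
  exact (ul_eq (tendsto_of_tendsto_of_tendsto_of_le_of_le (ul_tendsto hu') t1 hle hge)).symm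

theorem info_up' {T : Sp} (p : Pj T S) (h : l.DM A B) (hA : A.Bd) : l.info ≤ (l.up' p).info := by
  have hu := h.ub hA
  have hu' := (h.up' p).ub (hA.pull p)
  have hn : (fun k => ((l.up' p) k).info / (T.F k).n) = fun k => ((l.up' p) k).info / (S.F k).n := by
    funext k
    rw [p.hn k]
  have e1 : (l.up' p).info = ul (fun k => ((l.up' p) k).info / (S.F k).n) := by
    show ul (fun k => ((l.up' p) k).info / (T.F k).n) = _
    rw [hn]
  rw [e1]
  rw [hn] at hu'
  exact ul_mono hu hu' (Eventually.of_forall fun k =>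
    div_le_div_of_nonneg_right ((l k).up'_info (p.fp k) (p.hn k)) (S.F k).pos.le)

/-- maximal informations do not change in extensions -/
theorem IsMax.info_pull {T : Sp} (p : Pj T S) {l' : Lab T} (h : l.IsMax A B) (h' : l'.IsMax (A.pull p) (B.pull p))
    (hA : A.Bd) : l'.info = l.info := by
  apply le_antisymm
  · rw [← DM.info_down p h'.1 hA]
    exact h.2 _ (h'.1.down p)
  · exact (info_up' p h.1 hA).trans (h'.2 _ (h.1.up' p))

end Lab

/-! ### splitting -/

/-- the law of the restriction -/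
theorem push_restμ {T F : FSp} (p : FPj T F) (E : F.Ω → Prop) :
    push p.π (T.restμ fun ω => E (p.π ω)) = F.restμ E ∧ T.pb (fun ω => E (p.π ω)) = F.pb E := by
  have h1 : push p.π (res T.μ fun ω => E (p.π ω)) = res F.μ E := by
    funext ω
    rw [push_ind]
    by_cases h : E ω
    · rw [res_pos _ _ _ h, ← p.law, push_ind]
      apply Finset.sum_congr rfl
      intro ω' _
      by_cases h2 : p.π ω' = ω
      · rw [res_pos (E := fun ω => E (p.π ω)) _ _ (by rw [h2]; exact h)]
      · rw [e1_ind_neg h2, zero_mul, zero_mul]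
    · rw [res_neg _ _ _ h]
      apply Finset.sum_eq_zero
      intro ω' _
      by_cases h2 : p.π ω' = ω
      · rw [res_neg (E := fun ω => E (p.π ω)) _ _ (by rw [h2]; exact h), mul_zero]
      · rw [e1_ind_neg h2, zero_mul]
  have h2 : T.pb (fun ω => E (p.π ω)) = F.pb E := by
    unfold FSp.pb
    rw [← h1]
    exact (push_ms p.π _ (T.res_nonneg _)).symm
  refine ⟨?_, h2⟩
  by_cases h0 : F.pb E = 0
  · rw [F.restμ_eq' E h0, T.restμ_eq' _ (h2.trans h0), p.law]
  · rw [F.restμ_eq E h0, T.restμ_eq _ (fun hc => h0 (h2.symm.trans hc)), h2, ← h1]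
    funext ω
    rw [push_ind, push_ind, Finset.mul_sum]
    apply Finset.sum_congr rfl
    intro ω' _
    ring

namespace FLab

variable {F : FSp} (l : FLab F) (E : F.Ω → Prop)

/-- restriction of a label to an event of the space -/
def rst : FLab (F.rest E) where
  T := l.T.rest fun ω => E (l.p.π ω)
  p :=
    { π := l.p.π
      law := (push_restμ l.p E).1
      hZ := fun ω ω' h h' => l.p.hZ ω ω' (l.T.rest_supp _ ω h).1 (l.T.rest_supp _ ω' h').1 }
  hn := l.hn
  V := l.V

theorem rst_leak (x : FL F) : (l.rst E).leak (F.rmap E x) =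
    I (l.T.rmap (fun ω => E (l.p.π ω)) l.v) (l.T.rmap (fun ω => E (l.p.π ω)) l.p.top)
      (l.T.rmap (fun ω => E (l.p.π ω)) (l.p.map x)) := by
  induction x using fc_ind
  rfl

theorem rst_info : (l.rst E).info = I (l.T.rmap (fun ω => E (l.p.π ω)) l.v)
    (l.T.rmap (fun ω => E (l.p.π ω)) l.p.top) (l.T.rmap (fun ω => E (l.p.π ω)) ⊥) := rfl

theorem rst_leak_le (x : FL F) : F.pb E * (l.rst E).leak (F.rmap E x) ≤ l.leak x + 1 := by
  rw [rst_leak, ← (push_restμ l.p E).2]
  exact l.T.rmap_I_le _ _ _ _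

theorem rst_split : l.info ≤ F.pb E * (l.rst E).info + (1 - F.pb E) * (l.rst (fun ω => ¬ E ω)).info + 1 := by
  rw [rst_info, rst_info, ← (push_restμ l.p E).2]
  exact (l.T.I_rsplit (fun ω => E (l.p.π ω)) l.v l.p.top ⊥).2

end FLab

namespace Lab

variable {S : Sp} {l : Lab S} {A B : Part S}

/-- restriction of a label to an event of the space -/
def rst (l : Lab S) (E : ∀ k, (S.F k).Ω → Prop) : Lab (S.rest E) := fun k => (l k).rst (E k)

theorem DM.rst (h : l.DM A B) (E : ∀ k, (S.F k).Ω → Prop) (hE : 0 < ul (S.pr E)) :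
    (l.rst E).DM (A.rest E) (B.rest E) :=
  ⟨Nul.div_pr hE h.1 (fun k => FLab.leak_nonneg _ _) (fun k => (l k).rst_leak_le (E k) (A k)),
    Nul.div_pr hE h.2 (fun k => FLab.leak_nonneg _ _) (fun k => (l k).rst_leak_le (E k) (B k))⟩

/-- (3.2) the maximal information is superadditive, positive complement -/
theorem IsMax.split (h : l.IsMax A B) (E : ∀ k, (S.F k).Ω → Prop) (hE : 0 < ul (S.pr E))
    (hE' : 0 < ul (S.pr fun k ω => ¬ E k ω)) {l₁ : Lab (S.rest E)} {l₂ : Lab (S.rest fun k ω => ¬ E k ω)}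
    (h₁ : l₁.IsMax (A.rest E) (B.rest E)) (h₂ : l₂.IsMax (A.rest fun k ω => ¬ E k ω) (B.rest fun k ω => ¬ E k ω))
    (hA : A.Bd) (hA₁ : (A.rest E).Bd) (hA₂ : (A.rest fun k ω => ¬ E k ω).Bd) :
    l.info ≤ ul (S.pr E) * l₁.info + (1 - ul (S.pr E)) * l₂.info := by
  have d₁ := h.1.rst E hE
  have d₂ := h.1.rst (fun k ω => ¬ E k ω) hE'
  have u := h.1.ub hA
  have u₁ := d₁.ub hA₁
  have u₂ := d₂.ub hA₂
  have m₁ := h₁.2 _ d₁
  have m₂ := h₂.2 _ d₂
  have e : l.info ≤ ul (S.pr E) * (l.rst E).info + (1 - ul (S.pr E)) * (l.rst fun k ω => ¬ E k ω).info := by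
    have t : Tendsto (fun k => S.pr E k * (((l.rst E) k).info / (S.F k).n) + (1 - S.pr E k) *
        (((l.rst fun k ω => ¬ E k ω) k).info / (S.F k).n) + 1 / (S.F k).n) UF
        (𝓝 (ul (S.pr E) * (l.rst E).info + (1 - ul (S.pr E)) * (l.rst fun k ω => ¬ E k ω).info + 0)) :=
      (((ul_tendsto (Sp.UB_pr E)).mul (ul_tendsto u₁)).add
        (((ul_tendsto (Sp.UB_pr E)).const_sub 1).mul (ul_tendsto u₂))).add (S.div_n_tendsto 1)
    rw [add_zero] at t
    refine le_of_tendsto_of_tendsto (ul_tendsto u) t (Eventually.of_forall fun k => ?_)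
    have h1 := (l k).rst_split (E k)
    have h2 := div_le_div_of_nonneg_right h1 (S.F k).pos.le
    refine h2.trans (le_of_eq ?_)
    show ((S.F k).pb (E k) * ((l k).rst (E k)).info + (1 - (S.F k).pb (E k)) * ((l k).rst fun ω => ¬ E k ω).info + 1) /
      (S.F k).n = (S.F k).pb (E k) * (((l k).rst (E k)).info / (S.F k).n) + (1 - (S.F k).pb (E k)) *
        (((l k).rst fun ω => ¬ E k ω).info / (S.F k).n) + 1 / (S.F k).n
    ring
  have p0 := hE.le
  have p1 : ul (S.pr E) ≤ 1 := ul_le_const (Sp.UB_pr E) (Eventually.of_forall fun k => Sp.pr_le_one E k)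
  have := mul_le_mul_of_nonneg_left m₁ p0
  have := mul_le_mul_of_nonneg_left m₂ (sub_nonneg.mpr p1)
  linarith

end Lab

end

end Pool.Agent.Helper40.EL
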