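import Pool.Agent.Helper31.EC.Chg

/-! Exact entropy calculus: algebra of tame vector variables. -/

namespace Pool.Agent.Helper31.EC

open Finset Filter Topology Pool.Agent.Helper69.RK

noncomputable section

namespace Sp

variable {S : Sp} {m : ℕ}

/-- sum -/
def VV.add (y z : S.VV m) : S.VV m where
  v := fun k ω i => y.v k ω i + z.v k ω i
  bd := by
    obtain ⟨K, hK, h⟩ := y.bd
    obtain ⟨L, hL, h'⟩ := z.bd
    refine ⟨_, hK.add hL, ?_⟩
    filter_upwards [h, h'] with k a b ω hω i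
    exact (abs_add_le _ _).trans (add_le_add (a ω hω i) (b ω hω i))

/-- difference -/
def VV.sub (y z : S.VV m) : S.VV m where
  v := fun k ω i => y.v k ω i - z.v k ω i
  bd := by
    obtain ⟨K, hK, h⟩ := y.bd
    obtain ⟨L, hL, h'⟩ := z.bd
    refine ⟨_, hK.add hL, ?_⟩
    filter_upwards [h, h'] with k a b ω hω i
    exact (abs_sub _ _).trans (add_le_add (a ω hω i) (b ω hω i))

/-- product with a scalar variable -/
def VV.mul (t : S.VV 1) (x : S.VV m) : S.VV m where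
  v := fun k ω i => t.v k ω 0 * x.v k ω i
  bd := by
    obtain ⟨K, hK, h⟩ := t.bd
    obtain ⟨L, hL, h'⟩ := x.bd
    refine ⟨_, hK.mul hL, ?_⟩
    filter_upwards [h, h', hK.1] with k a b c ω hω i
    rw [abs_mul]
    exact mul_le_mul (a ω hω 0) (b ω hω i) (abs_nonneg _) c

/-- the point of the line `(a, x)` at height `t` -/
def VV.pt (a x : S.VV m) (t : S.VV 1) : S.VV m where
  v := fun k ω i => a.v k ω i + t.v k ω 0 * x.v k ω i
  bd := (VV.add a (VV.mul t x)).bd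

/-- a linear image with a subexponential matrix -/
def VV.lin {p : ℕ} (M : ℕ → Fin p → Fin m → ℝ) (K : ℕ → ℝ) (hK : S.Sub K) (hM : ∀ᶠ k in UF, ∀ i j, |M k i j| ≤ K k)
    (y : S.VV m) : S.VV p where
  v := fun k ω i => ∑ j, M k i j * y.v k ω j
  bd := by
    obtain ⟨L, hL, h⟩ := y.bd
    refine ⟨_, (S.Sub_const (Nat.cast_nonneg m)).mul (hK.mul hL), ?_⟩
    filter_upwards [h, hM, hK.1, hL.1] with k a b c d ω hω i
    calc |∑ j, M k i j * y.v k ω j| ≤ ∑ j, |M k i j * y.v k ω j| := Finset.abs_sum_le_sum_abs _ _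
      _ ≤ ∑ _j : Fin m, K k * L k := by
          apply Finset.sum_le_sum
          intro j _
          rw [abs_mul]
          exact mul_le_mul (b i j) (a ω hω j) (abs_nonneg _) c
      _ = (m : ℝ) * (K k * L k) := by simp

/-- a coordinate -/
def VV.co (y : S.VV m) (i : Fin m) : S.VV 1 where
  v := fun k ω _ => y.v k ω i
  bd := by
    obtain ⟨L, hL, h⟩ := y.bd
    exact ⟨L, hL, h.mono fun k a ω hω _ => a ω hω i⟩

theorem VV.co_dg_le (y : S.VV m) (i : Fin m) (r : ℝ) : (y.co i).dg r ≤ y.dg r := by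
  apply VV.dg_le_dg _ _ _ _ (fun _ _ => True) Typ_true (fun _ => 1) (S.Sub_const zero_le_one)
  refine Eventually.of_forall fun k ω ω' _ _ _ _ _ g _ => ?_
  rw [one_mul]
  exact g i

theorem VV.add_dg_le (y z : S.VV m) (r : ℝ) : (y.add z).dg r ≤ y.dg r ⊔ z.dg r := by
  apply VV.dg_le_dg2 _ _ _ _ _ _ (fun _ _ => True) Typ_true (fun _ => 2) (S.Sub_const (by norm_num))
  refine Eventually.of_forall fun k ω ω' _ _ _ _ _ g g' i => ?_
  have h1 := abs_le.mp (g i)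
  have h2 := abs_le.mp (g' i)
  show |(y.v k ω i + z.v k ω i) - (y.v k ω' i + z.v k ω' i)| ≤ _
  rw [abs_le]; constructor <;> linarith [h1.1, h1.2, h2.1, h2.2]

theorem VV.sub_dg_le (y z : S.VV m) (r : ℝ) : (y.sub z).dg r ≤ y.dg r ⊔ z.dg r := by
  apply VV.dg_le_dg2 _ _ _ _ _ _ (fun _ _ => True) Typ_true (fun _ => 2) (S.Sub_const (by norm_num))
  refine Eventually.of_forall fun k ω ω' _ _ _ _ _ g g' i => ?_
  have h1 := abs_le.mp (g i)
  have h2 := abs_le.mp (g' i)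
  show |(y.v k ω i - z.v k ω i) - (y.v k ω' i - z.v k ω' i)| ≤ _
  rw [abs_le]; constructor <;> linarith [h1.1, h1.2, h2.1, h2.2]

/-- product rule `|t x - t' x'| ≤ |t| |x - x'| + |x'| |t - t'|` -/
theorem mul_diff (t x t' x' K L d e : ℝ) (h1 : |t| ≤ K) (h2 : |x'| ≤ L) (h3 : |t - t'| ≤ d) (h4 : |x - x'| ≤ e) :
    |t * x - t' * x'| ≤ K * e + L * d := by
  have e1 : t * x - t' * x' = t * (x - x') + x' * (t - t') := by ring
  rw [e1]
  refine (abs_add_le _ _).trans ?_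
  rw [abs_mul, abs_mul]
  exact add_le_add (mul_le_mul h1 h4 (abs_nonneg _) ((abs_nonneg _).trans h1))
    (mul_le_mul h2 h3 (abs_nonneg _) ((abs_nonneg _).trans h2))

theorem VV.mul_dg_le (t : S.VV 1) (x : S.VV m) (r : ℝ) : (VV.mul t x).dg r ≤ t.dg r ⊔ x.dg r := by
  obtain ⟨K, hK, h⟩ := t.bd
  obtain ⟨L, hL, h'⟩ := x.bd
  apply VV.dg_le_dg2 _ _ _ _ _ _ (fun _ _ => True) Typ_true _ (hK.add hL)
  filter_upwards [h, h'] with k a b ω ω' c d _ _ _ g g' i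
  have h1 := mul_diff _ _ _ _ _ _ _ _ (a ω c 0) (b ω' d i) (g 0) (g' i)
  show |t.v k ω 0 * x.v k ω i - t.v k ω' 0 * x.v k ω' i| ≤ _
  linarith

theorem VV.pt_dg_le (a x : S.VV m) (t : S.VV 1) (r : ℝ) : (VV.pt a x t).dg r ≤ a.dg r ⊔ x.dg r ⊔ t.dg r := by
  obtain ⟨K, hK, h⟩ := t.bd
  obtain ⟨L, hL, h'⟩ := x.bd
  apply VV.dg_le_dg3 _ _ _ _ _ _ _ _ (fun _ _ => True) Typ_true _
    ((S.Sub_const zero_le_one).add (hK.add hL))
  filter_upwards [h, h'] with k a' b ω ω' c d _ _ _ g g' g'' i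
  have h1 := mul_diff _ _ _ _ _ _ _ _ (a' ω c 0) (b ω' d i) (g'' 0) (g' i)
  have h2 := g i
  show |(a.v k ω i + t.v k ω 0 * x.v k ω i) - (a.v k ω' i + t.v k ω' 0 * x.v k ω' i)| ≤ _
  rw [abs_le] at h1 h2 ⊢
  constructor <;> linarith [h1.1, h1.2, h2.1, h2.2]

/-- the line from the point: `a = P(t) - t x` -/
theorem VV.a_dg_le (a x : S.VV m) (t : S.VV 1) (r : ℝ) : a.dg r ≤ (VV.pt a x t).dg r ⊔ x.dg r ⊔ t.dg r := by
  obtain ⟨K, hK, h⟩ := t.bd
  obtain ⟨L, hL, h'⟩ := x.bd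
  apply VV.dg_le_dg3 _ _ _ _ _ _ _ _ (fun _ _ => True) Typ_true _
    ((S.Sub_const zero_le_one).add (hK.add hL))
  filter_upwards [h, h'] with k a' b ω ω' c d _ _ _ g g' g'' i
  have h1 := mul_diff _ _ _ _ _ _ _ _ (a' ω c 0) (b ω' d i) (g'' 0) (g' i)
  have h2 : |(a.v k ω i + t.v k ω 0 * x.v k ω i) - (a.v k ω' i + t.v k ω' 0 * x.v k ω' i)| ≤ S.dl r k := g i
  rw [abs_le] at h1 h2 ⊢
  constructor <;> linarith [h1.1, h1.2, h2.1, h2.2]

end Sp

end

end Pool.Agent.Helper31.EC
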