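import Pool.Agent.Helper31.EC.Var

/-! Exact entropy calculus: digits of bounded vector variables as elements of the entropy lattice. -/

namespace Pool.Agent.Helper31.EC

open Finset Filter Topology Pool.Agent.Helper69.RK

noncomputable section

namespace Sp

variable {S : Sp}

theorem mass_res_nonneg (k : ℕ) (E : (S.F k).Ω → Prop) : 0 ≤ mass (res (S.F k).μ E) :=
  ((st_E4 st_E1 st_E3).2.2 _ _ _ (S.F k).nn).2.1

theorem mass_res_le_one (k : ℕ) (E : (S.F k).Ω → Prop) : mass (res (S.F k).μ E) ≤ 1 := by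
  have h1 := ((st_E4 st_E1 st_E3).2.2 _ _ E (S.F k).nn).1
  have h2 := mass_res_nonneg k (fun ω => ¬ E ω)
  rw [(S.F k).ms] at h1
  linarith

theorem mass_res_false (k : ℕ) : mass (res (S.F k).μ (fun _ => False)) = 0 := by
  unfold mass res
  apply Finset.sum_eq_zero
  intro ω _
  rw [if_neg not_false]

/-- everything always happens -/
theorem Typ_true : Typ (S := S) (fun _ _ => True) := by
  unfold Typ
  apply Tendsto.congr _ tendsto_const_nhds
  intro k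
  have h1 : (fun _ : (S.F k).Ω => ¬ True) = fun _ => False := by
    funext ω; simp
  rw [h1]
  exact (mass_res_false k).symm

/-- MASTER LEMMA for digits, limit form with a rate: `y` varies by at most `2^(c n + o(n)) 2^(-rn)` on the atoms of `B` -/
theorem ul_rt_cell_le {m : ℕ} (y : S.VV m) (r c : ℝ) (hc : 0 ≤ c) (B : ∀ k, Setoid (S.F k).Ω)
    (E : ∀ k, (S.F k).Ω → Prop) (hE : Typ E) (K : ℕ → ℝ) (hK : S.Sub K)
    (h : ∀ᶠ k in UF, ∀ ω ω', (S.F k).μ ω ≠ 0 → (S.F k).μ ω' ≠ 0 → E k ω → E k ω' → (B k ⊓ (S.F k).Z) ω ω' →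
      ∀ i, |y.v k ω i - y.v k ω' i| ≤ K k * S.dl (r - c) k) :
    ∃ f : ℕ → ℝ, Tendsto f UF (𝓝 (m * c)) ∧ ∀ᶠ k in UF, S.rt (fun k => Setoid.ker (y.cellv r k)) B k ≤ f k := by
  obtain ⟨C, hCs, hC⟩ := y.bd
  obtain ⟨hK0, hK1⟩ := hK
  have hCs' : S.Sub (fun k => 4 * (C k + 1)) :=
    (S.Sub_const (show (0 : ℝ) ≤ 4 by norm_num)).mul (hCs.add (S.Sub_const zero_le_one))
  refine ⟨fun k => m * (Real.logb 2 (K k + 2) / (S.F k).n) + m * c +
      (m * (Real.logb 2 (4 * (C k + 1) + 2) / (S.F k).n)) * mass (res (S.F k).μ (fun ω => ¬ E k ω)) +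
      m * max r 0 * mass (res (S.F k).μ (fun ω => ¬ E k ω)) + 1 / (S.F k).n, ?_, ?_⟩
  · have t1 := (hK1.const_mul (m : ℝ)).add_const ((m : ℝ) * c)
    have t2 := (hCs'.2.const_mul (m : ℝ)).mul hE
    have t3 := hE.const_mul ((m : ℝ) * max r 0)
    have t4 := S.div_n_tendsto 1
    have t5 := ((t1.add t2).add t3).add t4
    simpa using t5
  · filter_upwards [hC, hK0, h, hCs.1] with k hCk hKk hk hC0
    have hn := (S.F k).pos
    have e1 : S.dl (r - c) k = 2 ^ (c * (S.F k).n) * S.dl r k := by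
      unfold dl
      rw [← Real.rpow_add (by norm_num : (0 : ℝ) < 2)]
      congr 1; ring
    have e0 : (1 : ℝ) ≤ 2 ^ (c * (S.F k).n) := Real.one_le_rpow (by norm_num) (by positivity)
    have h1 := rt_cell_le y r (C k + 1) (K k * 2 ^ (c * (S.F k).n)) (by positivity) B (fun k ω => ¬ E k ω) k
      (fun ω a i => (hCk ω a i).trans (by linarith)) (by linarith)
      (fun ω ω' a b e f g i => by
        have := hk ω ω' a b (not_not.mp e) (not_not.mp f) g i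
        rw [e1, ← mul_assoc] at this
        exact this)
    have e2 : Real.logb 2 (K k * 2 ^ (c * (S.F k).n) + 2) ≤ Real.logb 2 (K k + 2) + c * (S.F k).n := by
      have e3 : K k * 2 ^ (c * (S.F k).n) + 2 ≤ (K k + 2) * 2 ^ (c * (S.F k).n) := by nlinarith
      calc Real.logb 2 (K k * 2 ^ (c * (S.F k).n) + 2) ≤ Real.logb 2 ((K k + 2) * 2 ^ (c * (S.F k).n)) :=
            Real.logb_le_logb_of_le (by norm_num) (by positivity) e3
        _ = _ := by
            rw [Real.logb_mul (by positivity) (by positivity), Real.logb_rpow (by norm_num) (by norm_num)]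
    have e4 : (m * Real.logb 2 (K k * 2 ^ (c * (S.F k).n) + 2)) / (S.F k).n ≤
        m * (Real.logb 2 (K k + 2) / (S.F k).n) + m * c := by
      rw [div_le_iff₀ hn]
      have e5 : (m * (Real.logb 2 (K k + 2) / (S.F k).n) + m * c) * (S.F k).n =
          m * (Real.logb 2 (K k + 2) + c * (S.F k).n) := by
        field_simp
      rw [e5]
      exact mul_le_mul_of_nonneg_left e2 (Nat.cast_nonneg m)
    have e6 : (m * (Real.logb 2 (4 * (C k + 1)) + max r 0 * (S.F k).n)) / (S.F k).n =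
        m * (Real.logb 2 (4 * (C k + 1)) / (S.F k).n) + m * max r 0 := by
      field_simp
    rw [e6, add_mul] at h1
    have e7 : m * (Real.logb 2 (4 * (C k + 1)) / (S.F k).n) * mass (res (S.F k).μ (fun ω => ¬ E k ω)) ≤
        m * (Real.logb 2 (4 * (C k + 1) + 2) / (S.F k).n) * mass (res (S.F k).μ (fun ω => ¬ E k ω)) := by
      apply mul_le_mul_of_nonneg_right _ (mass_res_nonneg k _)
      apply mul_le_mul_of_nonneg_left _ (Nat.cast_nonneg m)
      apply div_le_div_of_nonneg_right _ hn.le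
      exact Real.logb_le_logb_of_le (by norm_num) (by linarith) (by linarith)
    linarith

theorem one_div_dl_le (S : Sp) (r : ℝ) (k : ℕ) : 1 / S.dl r k ≤ 2 ^ (max r 0 * (S.F k).n) := by
  unfold dl
  rw [Real.rpow_neg (by norm_num), one_div, inv_inv]
  apply Real.rpow_le_rpow_of_exponent_le (by norm_num)
  exact mul_le_mul_of_nonneg_right (le_max_left _ _) (S.F k).pos.le

theorem eventually_le_two_pow (S : Sp) (C : ℝ) : ∀ᶠ k in UF, C ≤ 2 ^ ((S.F k).n) := by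
  have h1 : Tendsto (fun x : ℝ => (2 : ℝ) ^ x) atTop atTop := tendsto_rpow_atTop_of_base_gt_one 2 (by norm_num)
  exact (h1.comp S.lim).eventually (eventually_ge_atTop C)

/-- cell numbers of bounded vector variables are bounded random variables -/
theorem VV.bdd {m : ℕ} (y : S.VV m) (r : ℝ) : Bdd (y.cellv r) := by
  obtain ⟨C, hCs, hC⟩ := y.bd
  apply Bdd_int (y.cellv r) (fun k => C k * 2 ^ (max r 0 * (S.F k).n) + 1) (max r 0 + 1)
  · filter_upwards [hC, hCs.1] with k hk hC0 ω hω i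
    have h1 := hk ω hω i
    have hd := S.dl_pos r k
    have h2 : |y.v k ω i / S.dl r k| ≤ C k * 2 ^ (max r 0 * (S.F k).n) := by
      rw [abs_div, abs_of_pos hd, div_eq_mul_one_div]
      exact mul_le_mul h1 (S.one_div_dl_le r k) (by positivity) hC0
    have h3 := Int.floor_le (y.v k ω i / S.dl r k)
    have h4 := Int.lt_floor_add_one (y.v k ω i / S.dl r k)
    show |(⌊y.v k ω i / S.dl r k⌋ : ℝ)| ≤ _
    rw [abs_le] at h2 ⊢
    constructor <;> linarith [h2.1, h2.2]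
  · have hs : S.Sub (fun k => 2 * C k + 3) :=
      ((S.Sub_const (show (0 : ℝ) ≤ 2 by norm_num)).mul hCs).add (S.Sub_const (show (0 : ℝ) ≤ 3 by norm_num))
    filter_upwards [hs.eventually_le one_pos, hCs.1] with k hk hC0
    have e0 : (1 : ℝ) ≤ 2 ^ (max r 0 * (S.F k).n) := by
      apply Real.one_le_rpow (by norm_num)
      have := (S.F k).pos
      positivity
    have e1 : (2 : ℝ) ^ ((max r 0 + 1) * (S.F k).n) = 2 ^ (max r 0 * (S.F k).n) * 2 ^ (1 * (S.F k).n) := by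
      rw [← Real.rpow_add (by norm_num : (0 : ℝ) < 2)]
      congr 1; ring
    rw [e1]
    have e2 : (2 : ℝ) ^ (max r 0 * (S.F k).n) * (2 * C k + 3 + 2) ≤ 2 ^ (max r 0 * (S.F k).n) * 2 ^ (1 * (S.F k).n) :=
      mul_le_mul_of_nonneg_left hk (by positivity)
    nlinarith

/-- the digits of a tame vector variable up to level `r` -/
def VV.dg {m : ℕ} (y : S.VV m) (r : ℝ) : S.L := io (y.cellv r)

/-- digits are known up to `c` more digits -/
theorem VV.h_dg_le {m : ℕ} (y : S.VV m) (r c : ℝ) (hc : 0 ≤ c) (A : S.Inf)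
    (E : ∀ k, (S.F k).Ω → Prop) (hE : Typ E) (K : ℕ → ℝ) (hK : S.Sub K)
    (hh : ∀ᶠ k in UF, ∀ ω ω', (S.F k).μ ω ≠ 0 → (S.F k).μ ω' ≠ 0 → E k ω → E k ω' → (S.F k).Z ω ω' →
      A.1 k ω ω' → ∀ i, |y.v k ω i - y.v k ω' i| ≤ K k * S.dl (r - c) k) : h (y.dg r) (cl A) ≤ m * c := by
  obtain ⟨f, hf, hf1⟩ := ul_rt_cell_le y r c hc A.1 E hE K hK (by
    filter_upwards [hh] with k hk ω ω' a b e e' g i
    exact hk ω ω' a b e e' g.2 g.1 i)
  unfold VV.dg
  rw [io_eq (y.bdd r), h_cl]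
  rw [← ul_eq hf]
  exact ul_mono (UB_rt _ _) (UB_of_tendsto hf) hf1

/-- DIGITS ARE KNOWN: `y` varies by at most `2^(o(n)) 2^(-rn)` on the atoms of `A` -/
theorem VV.dg_le_cl {m : ℕ} (y : S.VV m) (r : ℝ) (A : S.Inf)
    (E : ∀ k, (S.F k).Ω → Prop) (hE : Typ E) (K : ℕ → ℝ) (hK : S.Sub K)
    (hh : ∀ᶠ k in UF, ∀ ω ω', (S.F k).μ ω ≠ 0 → (S.F k).μ ω' ≠ 0 → E k ω → E k ω' → (S.F k).Z ω ω' →
      A.1 k ω ω' → ∀ i, |y.v k ω i - y.v k ω' i| ≤ K k * S.dl r k) : y.dg r ≤ cl A := by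
  have h1 := y.h_dg_le r 0 le_rfl A E hE K hK (by simpa using hh)
  rw [mul_zero] at h1
  exact h_le_zero_iff.mp h1

/-- the same for a random variable -/
theorem VV.dg_le_io {m : ℕ} (y : S.VV m) (r : ℝ) {α : ℕ → Type} {X : ∀ k, (S.F k).Ω → α k} (hX : Bdd X)
    (E : ∀ k, (S.F k).Ω → Prop) (hE : Typ E) (K : ℕ → ℝ) (hK : S.Sub K)
    (hh : ∀ᶠ k in UF, ∀ ω ω', (S.F k).μ ω ≠ 0 → (S.F k).μ ω' ≠ 0 → E k ω → E k ω' → (S.F k).Z ω ω' →
      X k ω = X k ω' → ∀ i, |y.v k ω i - y.v k ω' i| ≤ K k * S.dl r k) : y.dg r ≤ io X := by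
  rw [io_eq hX]
  exact y.dg_le_cl r hX.toInf E hE K hK hh

theorem VV.cellv_close {m : ℕ} (y : S.VV m) (s : ℝ) (k : ℕ) (ω ω' : (S.F k).Ω) (h : y.cellv s k ω = y.cellv s k ω')
    (i : Fin m) : |y.v k ω i - y.v k ω' i| ≤ S.dl s k :=
  abs_sub_le_of_floor_eq (S.dl_pos s k) (congrFun h i)

/-- monotonicity in the level -/
theorem VV.dg_mono {m : ℕ} (y : S.VV m) {r s : ℝ} (hrs : r ≤ s) : y.dg r ≤ y.dg s := by
  apply y.dg_le_io r (y.bdd s) (fun _ _ => True) Typ_true (fun _ => 1) (S.Sub_const zero_le_one)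
  refine Eventually.of_forall fun k ω ω' _ _ _ _ _ g i => ?_
  rw [one_mul]
  exact (y.cellv_close s k ω ω' g i).trans (S.dl_anti hrs k)

/-- the number of new digits -/
theorem VV.h_dg_dg {m : ℕ} (y : S.VV m) {r s : ℝ} (hrs : r ≤ s) : h (y.dg s) (y.dg r) ≤ m * (s - r) := by
  have h1 := y.h_dg_le s (s - r) (by linarith) (y.bdd r).toInf (fun _ _ => True) Typ_true (fun _ => 1)
    (S.Sub_const zero_le_one) (by
      refine Eventually.of_forall fun k ω ω' _ _ _ _ _ g i => ?_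
      rw [one_mul, sub_sub_cancel]
      exact y.cellv_close r k ω ω' g i)
  rw [← io_eq] at h1
  exact h1

/-- no digits at nonpositive levels -/
theorem VV.dg_nonpos {m : ℕ} (y : S.VV m) {r : ℝ} (hr : r ≤ 0) : y.dg r = ⊥ := by
  apply le_antisymm _ bot_le
  obtain ⟨C, hCs, hC⟩ := y.bd
  rw [← cl_bot]
  apply y.dg_le_cl r Inf.bot (fun _ _ => True) Typ_true (fun k => 2 * C k)
    ((S.Sub_const (show (0 : ℝ) ≤ 2 by norm_num)).mul hCs)
  filter_upwards [hC, hCs.1] with k hk hC0 ω ω' a b _ _ _ _ i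
  have h1 := abs_le.mp (hk ω a i)
  have h2 := abs_le.mp (hk ω' b i)
  have h3 : (1 : ℝ) ≤ S.dl r k := by
    have := S.dl_anti hr k
    rwa [dl_zero] at this
  have h4 : |y.v k ω i - y.v k ω' i| ≤ 2 * C k := by
    rw [abs_le]; constructor <;> linarith [h1.1, h1.2, h2.1, h2.2]
  have h5 : 2 * C k * 1 ≤ 2 * C k * S.dl r k := mul_le_mul_of_nonneg_left h3 (by positivity)
  linarith

theorem VV.H_dg_le {m : ℕ} (y : S.VV m) {r : ℝ} (hr : 0 ≤ r) : H (y.dg r) ≤ m * r := by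
  have h1 := y.h_dg_dg hr
  rw [y.dg_nonpos le_rfl, h_bot, sub_zero] at h1
  exact h1

/-- closure: left continuity of the digits -/
theorem VV.dg_le_of_lt {m : ℕ} (y : S.VV m) (r : ℝ) (A : S.L) (hh : ∀ δ : ℝ, 0 < δ → y.dg (r - δ) ≤ A) :
    y.dg r ≤ A := by
  rw [← h_le_zero_iff]
  apply le_of_forall_pos_le_add
  intro ε hε
  have hδ : 0 < ε / (m + 1) := by positivity
  have h1 := h_triangle (y.dg r) (y.dg (r - ε / (m + 1))) A
  have h2 := h_zero (hh _ hδ)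
  have h3 : h (y.dg r) (y.dg (r - ε / (m + 1)) ⊔ A) ≤ h (y.dg r) (y.dg (r - ε / (m + 1))) := h_anti le_sup_left
  have h4 := y.h_dg_dg (show r - ε / (m + 1) ≤ r by linarith)
  have h5 : (m : ℝ) * (r - (r - ε / (m + 1))) ≤ ε := by
    have : (m : ℝ) * (r - (r - ε / (m + 1))) = m / (m + 1) * ε := by field_simp; ring
    rw [this]
    have h6 : (m : ℝ) / (m + 1) ≤ 1 := by
      rw [div_le_one (by positivity)]; linarith
    nlinarith
  linarith

/-- one variable: `w` at level `r` is a function of `y` at level `s` -/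
theorem VV.dg_le_dg {m p : ℕ} (w : S.VV p) (y : S.VV m) (r s : ℝ)
    (E : ∀ k, (S.F k).Ω → Prop) (hE : Typ E) (K : ℕ → ℝ) (hK : S.Sub K)
    (hh : ∀ᶠ k in UF, ∀ ω ω', (S.F k).μ ω ≠ 0 → (S.F k).μ ω' ≠ 0 → E k ω → E k ω' → (S.F k).Z ω ω' →
      (∀ i, |y.v k ω i - y.v k ω' i| ≤ S.dl s k) → ∀ i, |w.v k ω i - w.v k ω' i| ≤ K k * S.dl r k) :
    w.dg r ≤ y.dg s := by
  apply w.dg_le_io r (y.bdd s) E hE K hK
  filter_upwards [hh] with k hk ω ω' a b e e' g g' i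
  exact hk ω ω' a b e e' g (y.cellv_close s k ω ω' g') i

/-- two variables -/
theorem VV.dg_le_dg2 {m q p : ℕ} (w : S.VV p) (y : S.VV m) (z : S.VV q) (r s t : ℝ)
    (E : ∀ k, (S.F k).Ω → Prop) (hE : Typ E) (K : ℕ → ℝ) (hK : S.Sub K)
    (hh : ∀ᶠ k in UF, ∀ ω ω', (S.F k).μ ω ≠ 0 → (S.F k).μ ω' ≠ 0 → E k ω → E k ω' → (S.F k).Z ω ω' →
      (∀ i, |y.v k ω i - y.v k ω' i| ≤ S.dl s k) → (∀ i, |z.v k ω i - z.v k ω' i| ≤ S.dl t k) →
      ∀ i, |w.v k ω i - w.v k ω' i| ≤ K k * S.dl r k) :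
    w.dg r ≤ y.dg s ⊔ z.dg t := by
  have h1 := w.dg_le_io r ((y.bdd s).pair (z.bdd t)) E hE K hK (by
    filter_upwards [hh] with k hk ω ω' a b e e' g g' i
    rw [Prod.mk.injEq] at g'
    exact hk ω ω' a b e e' g (y.cellv_close s k ω ω' g'.1) (z.cellv_close t k ω ω' g'.2) i)
  rw [io_pair (y.bdd s) (z.bdd t)] at h1
  exact h1

/-- three variables -/
theorem VV.dg_le_dg3 {m q p o : ℕ} (w : S.VV p) (y : S.VV m) (z : S.VV q) (u : S.VV o) (r s t l : ℝ)
    (E : ∀ k, (S.F k).Ω → Prop) (hE : Typ E) (K : ℕ → ℝ) (hK : S.Sub K)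
    (hh : ∀ᶠ k in UF, ∀ ω ω', (S.F k).μ ω ≠ 0 → (S.F k).μ ω' ≠ 0 → E k ω → E k ω' → (S.F k).Z ω ω' →
      (∀ i, |y.v k ω i - y.v k ω' i| ≤ S.dl s k) → (∀ i, |z.v k ω i - z.v k ω' i| ≤ S.dl t k) →
      (∀ i, |u.v k ω i - u.v k ω' i| ≤ S.dl l k) → ∀ i, |w.v k ω i - w.v k ω' i| ≤ K k * S.dl r k) :
    w.dg r ≤ y.dg s ⊔ z.dg t ⊔ u.dg l := by
  have h1 := w.dg_le_io r (((y.bdd s).pair (z.bdd t)).pair (u.bdd l)) E hE K hK (by
    filter_upwards [hh] with k hk ω ω' a b e e' g g' i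
    rw [Prod.mk.injEq, Prod.mk.injEq] at g'
    exact hk ω ω' a b e e' g (y.cellv_close s k ω ω' g'.1.1) (z.cellv_close t k ω ω' g'.1.2)
      (u.cellv_close l k ω ω' g'.2) i)
  rw [io_pair ((y.bdd s).pair (z.bdd t)) (u.bdd l), io_pair (y.bdd s) (z.bdd t)] at h1
  exact h1

end Sp

end

end Pool.Agent.Helper31.EC
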