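import Pool.Agent.Helper31.EC.Vec

/-! Exact entropy calculus: restriction to events. -/

namespace Pool.Agent.Helper31.EC

open Finset Filter Topology Pool.Agent.Helper69.RK

noncomputable section

/-- probability of an event -/
def FSp.pb (F : FSp) (E : F.Ω → Prop) : ℝ := mass (res F.μ E)

theorem res_pos {Ω : Type} (μ : Ω → ℝ) (E : Ω → Prop) (ω : Ω) (h : E ω) : res μ E ω = μ ω := by
  unfold res; rw [if_pos h]

theorem res_neg {Ω : Type} (μ : Ω → ℝ) (E : Ω → Prop) (ω : Ω) (h : ¬ E ω) : res μ E ω = 0 := by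
  unfold res; rw [if_neg h]

namespace FSp

variable (F : FSp) (E : F.Ω → Prop)

theorem pb_nonneg : 0 ≤ F.pb E := ((st_E4 st_E1 st_E3).2.2 _ _ _ F.nn).2.1

theorem pb_add_compl : F.pb E + F.pb (fun ω => ¬ E ω) = 1 := by
  have h1 := ((st_E4 st_E1 st_E3).2.2 _ _ E F.nn).1
  rw [F.ms] at h1
  exact h1.symm

theorem pb_le_one : F.pb E ≤ 1 := by
  have h1 := F.pb_add_compl E
  have h2 := F.pb_nonneg (fun ω => ¬ E ω)
  linarith

theorem res_nonneg (ω : F.Ω) : 0 ≤ res F.μ E ω := ((st_E4 st_E1 st_E3).2.2 _ _ _ F.nn).2.2 ω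

theorem res_zero_of_pb (h : F.pb E = 0) (ω : F.Ω) : res F.μ E ω = 0 := by
  have h1 : ∑ ω, res F.μ E ω = 0 := h
  exact (Finset.sum_eq_zero_iff_of_nonneg (fun ω _ => F.res_nonneg E ω)).mp h1 ω (Finset.mem_univ ω)

theorem pb_mono {E E' : F.Ω → Prop} (h : ∀ ω, F.μ ω ≠ 0 → E ω → E' ω) : F.pb E ≤ F.pb E' := by
  apply Finset.sum_le_sum
  intro ω _
  by_cases h1 : E ω
  · by_cases h2 : F.μ ω = 0
    · rw [res_pos _ _ _ h1, h2]
      exact F.res_nonneg E' ω
    · rw [res_pos _ _ _ h1, res_pos _ _ _ (h ω h2 h1)]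
  · rw [res_neg _ _ _ h1]
    exact F.res_nonneg E' ω

open Classical in
/-- weights of the restriction (the old weights if the event is null) -/
def restμ (ω : F.Ω) : ℝ := if F.pb E = 0 then F.μ ω else res F.μ E ω / F.pb E

theorem restμ_eq (h : F.pb E ≠ 0) : F.restμ E = fun ω => (F.pb E)⁻¹ * res F.μ E ω := by
  funext ω
  unfold restμ
  rw [if_neg h, div_eq_inv_mul]

theorem restμ_eq' (h : F.pb E = 0) : F.restμ E = F.μ := by
  funext ω
  unfold restμ
  rw [if_pos h]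

/-- restriction of a finite space to an event -/
def rest : FSp where
  Ω := F.Ω
  ft := F.ft
  μ := F.restμ E
  nn := fun ω => by
    by_cases h : F.pb E = 0
    · rw [F.restμ_eq' E h]; exact F.nn ω
    · rw [F.restμ_eq E h]
      exact mul_nonneg (inv_nonneg.mpr (F.pb_nonneg E)) (F.res_nonneg E ω)
  ms := by
    by_cases h : F.pb E = 0
    · rw [F.restμ_eq' E h]; exact F.ms
    · rw [F.restμ_eq E h]
      show ∑ ω, (F.pb E)⁻¹ * res F.μ E ω = 1
      rw [← Finset.mul_sum]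
      exact inv_mul_cancel₀ h
  Z := F.Z
  n := F.n
  pos := F.pos

theorem rest_supp (ω : F.Ω) (h : (F.rest E).μ ω ≠ 0) : F.μ ω ≠ 0 ∧ (F.pb E ≠ 0 → E ω) := by
  by_cases h0 : F.pb E = 0
  · have h1 : (F.rest E).μ ω = F.μ ω := congrFun (F.restμ_eq' E h0) ω
    rw [h1] at h
    exact ⟨h, fun hc => absurd h0 hc⟩
  · have h1 : (F.rest E).μ ω = (F.pb E)⁻¹ * res F.μ E ω := congrFun (F.restμ_eq E h0) ω
    rw [h1] at h
    have h2 : res F.μ E ω ≠ 0 := fun hc => h (by rw [hc, mul_zero])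
    by_cases h3 : E ω
    · rw [res_pos _ _ _ h3] at h2
      exact ⟨h2, fun _ => h3⟩
    · rw [res_neg _ _ _ h3] at h2
      exact absurd rfl h2

theorem rest_supp' (ω : F.Ω) (h : F.μ ω ≠ 0) (hE : E ω) : (F.rest E).μ ω ≠ 0 := by
  by_cases h0 : F.pb E = 0
  · have h1 : (F.rest E).μ ω = F.μ ω := congrFun (F.restμ_eq' E h0) ω
    rw [h1]; exact h
  · have h1 : (F.rest E).μ ω = (F.pb E)⁻¹ * res F.μ E ω := congrFun (F.restμ_eq E h0) ω
    rw [h1, res_pos _ _ _ hE]
    exact mul_ne_zero (inv_ne_zero h0) h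

/-- entropy of the restricted weights -/
theorem CH_res {α β : Type} (f : F.Ω → α) (g : F.Ω → β) :
    CH (res F.μ E) f g = F.pb E * CH (F.rest E).μ f g := by
  by_cases h : F.pb E = 0
  · rw [h, zero_mul]
    unfold CH
    apply Finset.sum_eq_zero
    intro ω _
    rw [F.res_zero_of_pb E h, zero_mul]
  · show CH (res F.μ E) f g = F.pb E * CH (F.restμ E) f g
    rw [F.restμ_eq E h]
    have h2 := Pool.Agent.Helper70.RK.st_E5.2 F.Ω α β (res F.μ E) f g (F.pb E)⁻¹ (inv_nonneg.mpr (F.pb_nonneg E))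
      (F.res_nonneg E)
    rw [h2, ← mul_assoc, mul_inv_cancel₀ h, one_mul]

/-- splitting of the conditional entropy over an event and its complement -/
theorem e_split (A B : Setoid F.Ω) :
    F.pb E * (F.rest E).e A B + (1 - F.pb E) * (F.rest (fun ω => ¬ E ω)).e A B ≤ F.e A B ∧
    F.e A B ≤ F.pb E * (F.rest E).e A B + (1 - F.pb E) * (F.rest (fun ω => ¬ E ω)).e A B + 1 := by
  have h1 := (st_E4 st_E1 st_E3).2.1 F.Ω _ _ F.μ (Quotient.mk A) (Quotient.mk B) E F.nn
  rw [F.CH_res, F.CH_res, F.ms] at h1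
  have h2 : F.pb (fun ω => ¬ E ω) = 1 - F.pb E := by
    have := F.pb_add_compl E
    linarith
  rw [h2] at h1
  exact h1

end FSp

namespace Sp

variable (S : Sp) (E : ∀ k, (S.F k).Ω → Prop)

/-- restriction of a space to an event -/
def rest : Sp where
  F := fun k => (S.F k).rest (E k)
  lim := S.lim

/-- probability of the event -/
def pr (k : ℕ) : ℝ := (S.F k).pb (E k)

variable {S}

theorem pr_nonneg (k : ℕ) : 0 ≤ S.pr E k := (S.F k).pb_nonneg (E k)

theorem pr_le_one (k : ℕ) : S.pr E k ≤ 1 := (S.F k).pb_le_one (E k)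

theorem UB_pr : UB (S.pr E) :=
  UB_of_nonneg_le (Eventually.of_forall fun k => pr_nonneg E k) (Eventually.of_forall fun k => pr_le_one E k)

theorem Typ_iff : Typ E ↔ Tendsto (S.pr E) UF (𝓝 1) := by
  have h0 : ∀ k, mass (res (S.F k).μ (fun ω => ¬ E k ω)) = 1 - S.pr E k := by
    intro k
    have := (S.F k).pb_add_compl (E k)
    show (S.F k).pb (fun ω => ¬ E k ω) = _
    unfold pr
    linarith
  unfold Typ
  constructor
  · intro h
    have h1 := h.const_sub 1
    rw [sub_zero] at h1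
    refine h1.congr fun k => ?_
    rw [h0]; ring
  · intro h
    have h1 := h.const_sub 1
    rw [sub_self] at h1
    exact h1.congr fun k => (h0 k).symm

theorem Typ.and {E E' : ∀ k, (S.F k).Ω → Prop} (h : Typ E) (h' : Typ E') : Typ (fun k ω => E k ω ∧ E' k ω) := by
  unfold Typ at h h' ⊢
  have h1 := h.add h'
  rw [add_zero] at h1
  refine tendsto_of_tendsto_of_tendsto_of_le_of_le tendsto_const_nhds h1 (fun k => mass_res_nonneg k _) (fun k => ?_)
  show ∑ ω, _ ≤ ∑ ω, _ + ∑ ω, _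
  rw [← Finset.sum_add_distrib]
  apply Finset.sum_le_sum
  intro ω _
  by_cases a : E k ω
  · by_cases b : E' k ω
    · rw [res_neg (S.F k).μ (fun ω => ¬ (E k ω ∧ E' k ω)) ω (fun hc => hc ⟨a, b⟩),
        res_neg (S.F k).μ (fun ω => ¬ E k ω) ω (fun hc => hc a),
        res_neg (S.F k).μ (fun ω => ¬ E' k ω) ω (fun hc => hc b)]
      simp
    · rw [res_pos (S.F k).μ (fun ω => ¬ (E k ω ∧ E' k ω)) ω (fun hc => b hc.2),
        res_neg (S.F k).μ (fun ω => ¬ E k ω) ω (fun hc => hc a),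
        res_pos (S.F k).μ (fun ω => ¬ E' k ω) ω b]
      simp
  · have h2 := (S.F k).res_nonneg (fun ω => ¬ E' k ω) ω
    rw [res_pos (S.F k).μ (fun ω => ¬ (E k ω ∧ E' k ω)) ω (fun hc => a hc.1),
      res_pos (S.F k).μ (fun ω => ¬ E k ω) ω a]
    linarith

theorem Typ.mono {E E' : ∀ k, (S.F k).Ω → Prop} (h : Typ E) (hh : ∀ᶠ k in UF, ∀ ω, (S.F k).μ ω ≠ 0 → E k ω → E' k ω) :
    Typ E' := by
  unfold Typ at h ⊢
  refine tendsto_of_tendsto_of_tendsto_of_le_of_le' tendsto_const_nhds h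
    (Eventually.of_forall fun k => mass_res_nonneg k _) ?_
  filter_upwards [hh] with k hk
  exact (S.F k).pb_mono (fun ω a b c => b (hk ω a c))

theorem rest_VB {A : ∀ k, Setoid (S.F k).Ω} (hA : S.VB A) : (S.rest E).VB A := by
  obtain ⟨C, hC⟩ := hA
  refine ⟨C, ?_⟩
  filter_upwards [hC] with k hk ω hω
  refine le_trans ?_ (hk ω ((S.F k).rest_supp (E k) ω hω).1)
  have h2 : nv ((S.rest E).F k) (A k) ω ≤ nv (S.F k) (A k) ω := by
    show nvf ((S.F k).rest (E k)).μ (Quotient.mk (A k)) (Quotient.mk (S.F k).Z) ω ≤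
      nvf (S.F k).μ (Quotient.mk (A k)) (Quotient.mk (S.F k).Z) ω
    exact nvf_le_of_supp _ _ _ _ _ (fun ω' h => ((S.F k).rest_supp (E k) ω' h).1)
  exact_mod_cast h2

/-- an information in the restricted space -/
def restI (A : S.Inf) : (S.rest E).Inf := ⟨A.1, rest_VB E A.2⟩

theorem split_aux1 {a b c p n : ℝ} (hn : 0 < n) (h : p * a + (1 - p) * b ≤ c) :
    p * (a / n) + (1 - p) * (b / n) ≤ c / n := by
  have h3 := div_le_div_of_nonneg_right h hn.le
  refine le_trans (le_of_eq ?_) h3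
  ring

theorem split_aux2 {a b c p n : ℝ} (hn : 0 < n) (h : c ≤ p * a + (1 - p) * b + 1) :
    c / n ≤ p * (a / n) + (1 - p) * (b / n) + 1 / n := by
  have h3 := div_le_div_of_nonneg_right h hn.le
  refine le_trans h3 (le_of_eq ?_)
  ring

theorem rt_split (A B : ∀ k, Setoid (S.F k).Ω) (k : ℕ) :
    S.pr E k * (S.rest E).rt A B k + (1 - S.pr E k) * (S.rest (fun k ω => ¬ E k ω)).rt A B k ≤ S.rt A B k ∧
    S.rt A B k ≤ S.pr E k * (S.rest E).rt A B k + (1 - S.pr E k) * (S.rest (fun k ω => ¬ E k ω)).rt A B k +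
      1 / (S.F k).n := by
  have hn := (S.F k).pos
  obtain ⟨h1, h2⟩ := (S.F k).e_split (E k) (A k) (B k ⊓ (S.F k).Z)
  exact ⟨split_aux1 hn h1, split_aux2 hn h2⟩

/-- `h = p h_E + (1 - p) h_(not E)` for rates -/
theorem ul_rt_split (A : S.Inf) (B : ∀ k, Setoid (S.F k).Ω) :
    ul (S.rt A.1 B) = ul (S.pr E) * ul ((S.rest E).rt A.1 B) +
      (1 - ul (S.pr E)) * ul ((S.rest (fun k ω => ¬ E k ω)).rt A.1 B) := by
  have b1 : UB ((S.rest E).rt A.1 B) := UB_rt (restI E A) B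
  have b2 : UB ((S.rest (fun k ω => ¬ E k ω)).rt A.1 B) := UB_rt (restI (fun k ω => ¬ E k ω) A) B
  have t1 := ((ul_tendsto (UB_pr E)).mul (ul_tendsto b1)).add
    (((ul_tendsto (UB_pr E)).const_sub 1).mul (ul_tendsto b2))
  have t2 := t1.add (S.div_n_tendsto 1)
  rw [add_zero] at t2
  apply ul_eq
  exact tendsto_of_tendsto_of_tendsto_of_le_of_le t1 t2 (fun k => (rt_split E A.1 B k).1)
    (fun k => (rt_split E A.1 B k).2)

/-- typical events change no entropies -/
theorem ul_rt_typ (hE : Typ E) (A : S.Inf) (B : ∀ k, Setoid (S.F k).Ω) :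
    ul ((S.rest E).rt A.1 B) = ul (S.rt A.1 B) := by
  have h1 := ul_rt_split E A B
  rw [ul_eq (Typ_iff E |>.mp hE)] at h1
  rw [h1]; ring

/-- events of positive probability keep the order -/
theorem restI_mono (hE : 0 < ul (S.pr E)) {A B : S.Inf} (h : A ≤ B) : restI E A ≤ restI E B := by
  rw [Inf.le_iff_ul] at h ⊢
  have h1 := ul_rt_split E A B.1
  have h2 : 0 ≤ ul ((S.rest E).rt A.1 B.1) :=
    const_le_ul (UB_rt (restI E A) B.1) (Eventually.of_forall fun k => rt_nonneg _ _ k)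
  have h3 : 0 ≤ ul ((S.rest (fun k ω => ¬ E k ω)).rt A.1 B.1) :=
    const_le_ul (UB_rt (restI (fun k ω => ¬ E k ω) A) B.1) (Eventually.of_forall fun k => rt_nonneg _ _ k)
  have h4 : ul (S.pr E) ≤ 1 := ul_le_const (UB_pr E) (Eventually.of_forall fun k => pr_le_one E k)
  show ul ((S.rest E).rt A.1 B.1) ≤ 0
  by_contra hc
  push Not at hc
  have h5 : 0 < ul (S.pr E) * ul ((S.rest E).rt A.1 B.1) := mul_pos hE hc
  have h6 : 0 ≤ (1 - ul (S.pr E)) * ul ((S.rest (fun k ω => ¬ E k ω)).rt A.1 B.1) :=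
    mul_nonneg (by linarith) h3
  linarith

/-- the map of entropy lattices for an event of positive probability -/
def restL (hE : 0 < ul (S.pr E)) : S.L → (S.rest E).L := Quotient.map (restI E) (by
  intro A B hAB
  exact ⟨restI_mono E hE hAB.1, restI_mono E hE hAB.2⟩)

theorem restL_cl (hE : 0 < ul (S.pr E)) (A : S.Inf) : restL E hE (cl A) = cl (restI E A) := rfl

theorem restL_mono (hE : 0 < ul (S.pr E)) {x y : S.L} (h : x ≤ y) : restL E hE x ≤ restL E hE y := by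
  induction x using cl_ind
  induction y using cl_ind
  exact restI_mono E hE h

theorem restL_sup (hE : 0 < ul (S.pr E)) (x y : S.L) : restL E hE (x ⊔ y) = restL E hE x ⊔ restL E hE y := by
  induction x using cl_ind
  induction y using cl_ind
  rfl

theorem restL_bot (hE : 0 < ul (S.pr E)) : restL E hE (⊥ : S.L) = ⊥ := rfl

theorem pr_compl (k : ℕ) : S.pr (fun k ω => ¬ E k ω) k = 1 - S.pr E k := by
  have := (S.F k).pb_add_compl (E k)
  unfold pr
  linarith

theorem ul_pr_compl : ul (S.pr (fun k ω => ¬ E k ω)) = 1 - ul (S.pr E) := by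
  have h1 : S.pr (fun k ω => ¬ E k ω) = fun k => 1 - S.pr E k := by
    funext k; exact pr_compl E k
  rw [h1, ul_sub (UB_const 1) (UB_pr E), ul_const]

theorem H_split (hE : 0 < ul (S.pr E)) (hE' : 0 < ul (S.pr (fun k ω => ¬ E k ω))) (x : S.L) :
    H x = ul (S.pr E) * H (restL E hE x) + (1 - ul (S.pr E)) * H (restL (fun k ω => ¬ E k ω) hE' x) := by
  induction x using cl_ind with | _ A
  exact ul_rt_split E A S.tr

theorem H_restL_typ (hE : Typ E) (hE' : 0 < ul (S.pr E)) (x : S.L) : H (restL E hE' x) = H x := by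
  induction x using cl_ind with | _ A
  exact ul_rt_typ E hE A S.tr

theorem ul_pr_typ (hE : Typ E) : ul (S.pr E) = 1 := ul_eq (Typ_iff E |>.mp hE)

theorem ul_pr_typ_pos (hE : Typ E) : 0 < ul (S.pr E) := by
  rw [ul_pr_typ E hE]; exact one_pos

theorem h_restL_typ (hE : Typ E) (x y : S.L) :
    h (restL E (ul_pr_typ_pos E hE) x) (restL E (ul_pr_typ_pos E hE) y) = h x y := by
  unfold h
  rw [← restL_sup, H_restL_typ E hE, H_restL_typ E hE]

theorem restL_le_typ (hE : Typ E) (x y : S.L) :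
    restL E (ul_pr_typ_pos E hE) x ≤ restL E (ul_pr_typ_pos E hE) y ↔ x ≤ y := by
  rw [← h_eq_zero_iff, h_restL_typ E hE, h_eq_zero_iff]

theorem restL_io (hE : 0 < ul (S.pr E)) {α : ℕ → Type} {X : ∀ k, (S.F k).Ω → α k} (hX : Bdd X) :
    restL E hE (io X) = io (S := S.rest E) X := by
  have h1 : Bdd (S := S.rest E) X := rest_VB E hX
  rw [io_eq hX, io_eq h1]
  rfl

/-- vector variables in the restricted space -/
def VV.rest {m : ℕ} (y : S.VV m) : (S.rest E).VV m where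
  v := y.v
  bd := by
    obtain ⟨K, hK, h⟩ := y.bd
    refine ⟨K, hK, ?_⟩
    filter_upwards [h] with k hk ω hω i
    exact hk ω ((S.F k).rest_supp (E k) ω hω).1 i

theorem VV.rest_dg (hE : 0 < ul (S.pr E)) {m : ℕ} (y : S.VV m) (r : ℝ) :
    (y.rest E).dg r = restL E hE (y.dg r) := by
  unfold VV.dg
  rw [restL_io E hE (y.bdd _)]
  rfl

end Sp

end

end Pool.Agent.Helper31.EC
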