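import Pool.Agent.Helper31.EC.Cpy

/-! Exact entropy calculus: real variables. Levels of smallness, units of the ring of functions to full precision,
ideals of small functions, several copies given finitely many functions. -/

namespace Pool.Agent.Helper31.EC

open Finset Filter Topology Pool.Agent.Helper69.RK

noncomputable section

open Sp

variable {S : Sp}

/-- diagonal of typical events -/
theorem Sp.typ_diag (E : ℕ → ∀ k, (S.F k).Ω → Prop) (h : ∀ j, Typ (E j)) :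
    ∃ J : ℕ → ℕ, Tendsto J UF atTop ∧ Typ (fun k ω => E (J k) k ω) := by
  obtain ⟨J, h1, h2, _⟩ := diag_in_place (fun _ j k => mass (res (S.F k).μ (fun ω => ¬ E j k ω)))
    (fun _ _ _ => True) (fun _ j => UB_of_nonneg_le (C := 1) (Eventually.of_forall fun k => mass_res_nonneg k _)
      (Eventually.of_forall fun k => mass_res_le_one k _)) (fun _ _ => Eventually.of_forall fun _ => trivial)
  refine ⟨J, h1, ?_⟩
  have h3 := h2 0
  have h4 : ∀ j, ul (fun k => mass (res (S.F k).μ (fun ω => ¬ E j k ω))) = 0 := fun j => ul_eq (h j)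
  simp only [h4, sub_zero] at h3
  exact h3

theorem Sp.Sub_diag (S : Sp) {J : ℕ → ℕ} (hJ : Tendsto J UF atTop) :
    S.Sub (fun k => (2 : ℝ) ^ ((1 / ((J k : ℝ) + 1)) * (S.F k).n)) := by
  refine ⟨Eventually.of_forall fun k => by positivity, ?_⟩
  have h1 : Tendsto (fun k => Real.logb 2 3 / (S.F k).n + 1 / ((J k : ℝ) + 1)) UF (𝓝 0) := by
    have h2 := (S.div_n_tendsto (Real.logb 2 3)).add (tendsto_one_div_add_atTop_nhds_zero_nat.comp hJ)
    rw [add_zero] at h2
    exact h2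
  refine squeeze_zero' (Eventually.of_forall fun k => ?_) (Eventually.of_forall fun k => ?_) h1
  · apply div_nonneg _ (S.F k).pos.le
    apply Real.logb_nonneg (by norm_num)
    have : (0 : ℝ) < 2 ^ ((1 / ((J k : ℝ) + 1)) * (S.F k).n) := by positivity
    linarith
  · have hn := (S.F k).pos
    have e1 : (1 : ℝ) ≤ 2 ^ ((1 / ((J k : ℝ) + 1)) * (S.F k).n) := Real.one_le_rpow (by norm_num) (by positivity)
    have e2 : Real.logb 2 ((2 : ℝ) ^ ((1 / ((J k : ℝ) + 1)) * (S.F k).n) + 2) ≤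
        Real.logb 2 3 + (1 / ((J k : ℝ) + 1)) * (S.F k).n := by
      calc _ ≤ Real.logb 2 (3 * (2 : ℝ) ^ ((1 / ((J k : ℝ) + 1)) * (S.F k).n)) :=
            Real.logb_le_logb_of_le (by norm_num) (by positivity) (by linarith)
        _ = _ := by
            rw [Real.logb_mul (by norm_num) (by positivity), Real.logb_rpow (by norm_num) (by norm_num)]
    rw [div_le_iff₀ hn]
    have e3 : (Real.logb 2 3 / (S.F k).n + 1 / ((J k : ℝ) + 1)) * (S.F k).n =
        Real.logb 2 3 + (1 / ((J k : ℝ) + 1)) * (S.F k).n := by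
      field_simp
    rw [e3]
    exact e2

namespace TR

theorem dl_diag (S : Sp) (r : ℝ) (j k : ℕ) :
    S.dl (r - 1 / ((j : ℝ) + 1)) k = (2 : ℝ) ^ ((1 / ((j : ℝ) + 1)) * (S.F k).n) * S.dl r k := by
  unfold Sp.dl
  rw [← Real.rpow_add (by norm_num : (0 : ℝ) < 2)]
  congr 1; ring

/-- agreement from agreement at all lower levels -/
theorem ag_of_levels {f g : TR S} {r : ℝ}
    (h : ∀ δ : ℝ, 0 < δ → Typ (fun k ω => |ev f k ω - ev g k ω| ≤ S.dl (r - δ) k)) : Ag r f g := by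
  obtain ⟨J, hJ, hT⟩ := Sp.typ_diag (fun j k ω => |ev f k ω - ev g k ω| ≤ S.dl (r - 1 / ((j : ℝ) + 1)) k)
    (fun j => h _ (by positivity))
  refine ⟨_, _, hT, S.Sub_diag hJ, Eventually.of_forall fun k ω _ hω => ?_⟩
  rw [← dl_diag]
  exact hω

theorem Ag.levels {f g : TR S} {r : ℝ} (h : Ag r f g) {δ : ℝ} (hδ : 0 < δ) :
    Typ (fun k ω => |ev f k ω - ev g k ω| ≤ S.dl (r - δ) k) := by
  obtain ⟨E, K, hE, hK, hh⟩ := h
  apply hE.mono
  filter_upwards [hh, hK.eventually_le hδ] with k hk hk' ω a b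
  refine (hk ω a b).trans ?_
  have e1 : S.dl (r - δ) k = 2 ^ (δ * (S.F k).n) * S.dl r k := by
    unfold Sp.dl
    rw [← Real.rpow_add (by norm_num : (0 : ℝ) < 2)]
    congr 1; ring
  rw [e1]
  apply mul_le_mul_of_nonneg_right _ (S.dl_pos r k).le
  linarith

theorem ag_iff_levels {f g : TR S} {r : ℝ} :
    Ag r f g ↔ ∀ δ : ℝ, 0 < δ → Typ (fun k ω => |ev f k ω - ev g k ω| ≤ S.dl (r - δ) k) :=
  ⟨fun h _ hδ => h.levels hδ, ag_of_levels⟩

/-- closure of agreement in the level -/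
theorem ag_of_lt {f g : TR S} {r : ℝ} (h : ∀ s, s < r → Ag s f g) : Ag r f g := by
  apply ag_of_levels
  intro δ hδ
  have h1 := (h (r - δ / 2) (by linarith)).levels (half_pos hδ)
  have e : r - δ / 2 - δ / 2 = r - δ := by ring
  rw [e] at h1
  exact h1

end TR

namespace QS

theorem nd_of_levels {f : TR S} (h : ∀ δ : ℝ, 0 < δ → Typ (fun k ω => S.dl δ k ≤ |TR.ev f k ω|)) : Nd f := by
  obtain ⟨J, hJ, hT⟩ := Sp.typ_diag (fun j k ω => S.dl (1 / ((j : ℝ) + 1)) k ≤ |TR.ev f k ω|)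
    (fun j => h _ (by positivity))
  refine ⟨_, S.Sub_diag hJ, hT.mono (Eventually.of_forall fun k ω _ hω => ?_)⟩
  have e1 := TR.dl_diag S (1 / ((J k : ℝ) + 1)) (J k) k
  rw [sub_self, S.dl_zero] at e1
  exact e1.le.trans (mul_le_mul_of_nonneg_left hω (Real.rpow_pos_of_pos (by norm_num : (0 : ℝ) < 2) _).le)

theorem Nd.levels {f : TR S} (h : Nd f) {δ : ℝ} (hδ : 0 < δ) : Typ (fun k ω => S.dl δ k ≤ |TR.ev f k ω|) := by
  obtain ⟨K, hK, hh⟩ := h
  apply hh.mono
  filter_upwards [hK.eventually_le hδ] with k hk ω _ b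
  have e1 : S.dl δ k * 2 ^ (δ * (S.F k).n) = 1 := by
    unfold Sp.dl
    rw [← Real.rpow_add (by norm_num : (0 : ℝ) < 2)]
    simp
  have h1 : K k * |TR.ev f k ω| ≤ 2 ^ (δ * (S.F k).n) * |TR.ev f k ω| :=
    mul_le_mul_of_nonneg_right (by linarith) (abs_nonneg _)
  have h2 : S.dl δ k * 1 ≤ S.dl δ k * (2 ^ (δ * (S.F k).n) * |TR.ev f k ω|) :=
    mul_le_mul_of_nonneg_left (b.trans h1) (S.dl_pos δ k).le
  rw [← mul_assoc, e1] at h2
  linarith

/-- the units are the nondegenerate functions -/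
theorem isUnit_mk {f : TR S} : IsUnit (mk f) ↔ Nd f := by
  constructor
  · intro h
    obtain ⟨g', hg'⟩ := h.exists_left_inv
    obtain ⟨g, rfl⟩ := mk_surj g'
    rw [← map_mul, ← map_one mk, mk_eq] at hg'
    obtain ⟨E, K, hE, hK, hh⟩ := hg'
    obtain ⟨L, hL, hL'⟩ := g.2
    refine ⟨fun k => 2 * L k, (S.Sub_const (show (0 : ℝ) ≤ 2 by norm_num)).mul hL, hE.mono ?_⟩
    filter_upwards [hh, hL', hK.eventually_le (show (0 : ℝ) < 1 / 2 by norm_num), hL.1,
      S.eventually_le_two_pow 4] with k hk hk' hk'' hL0 hn ω a b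
    have h1 := hk ω a b
    rw [TR.ev_mul, TR.ev_one] at h1
    have e1 : K k * S.dl 1 k ≤ 1 / 2 := by
      have hn' := (S.F k).pos
      have e2 : (2 : ℝ) ^ (1 / 2 * (S.F k).n) * S.dl 1 k = 1 / 2 ^ (1 / 2 * (S.F k).n) := by
        unfold Sp.dl
        rw [← Real.rpow_add (by norm_num : (0 : ℝ) < 2), one_div ((2 : ℝ) ^ _), ← Real.rpow_neg (by norm_num)]
        congr 1; ring
      have e3 : (2 : ℝ) ≤ 2 ^ (1 / 2 * (S.F k).n) := by
        have e4 : (2 : ℝ) ^ ((S.F k).n) = 2 ^ (1 / 2 * (S.F k).n) * 2 ^ (1 / 2 * (S.F k).n) := by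
          rw [← Real.rpow_add (by norm_num : (0 : ℝ) < 2)]
          congr 1; ring
        have e5 : (0 : ℝ) < 2 ^ (1 / 2 * (S.F k).n) := by positivity
        rw [e4] at hn
        nlinarith
      calc K k * S.dl 1 k ≤ 2 ^ (1 / 2 * (S.F k).n) * S.dl 1 k :=
            mul_le_mul_of_nonneg_right (by linarith) (S.dl_pos 1 k).le
        _ = 1 / 2 ^ (1 / 2 * (S.F k).n) := e2
        _ ≤ 1 / 2 := one_div_le_one_div_of_le (by norm_num) e3
    have h2 := abs_le.mp (h1.trans e1)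
    have h3 : 1 / 2 ≤ |TR.ev g k ω * TR.ev f k ω| := by
      have := le_abs_self (TR.ev g k ω * TR.ev f k ω)
      linarith [h2.1]
    rw [abs_mul] at h3
    have h4 : |TR.ev g k ω| * |TR.ev f k ω| ≤ L k * |TR.ev f k ω| :=
      mul_le_mul_of_nonneg_right (hk' ω a) (abs_nonneg _)
    linarith
  · intro h
    obtain ⟨g, hg, _⟩ := h.inv
    exact IsUnit.of_mul_eq_one g (by rw [mul_comm]; exact hg)

/-- the inverse of a unit is known if the unit is known -/
theorem dg_inv_le {f g : QS S} (h : g * f = 1) {r : ℝ} (hr : r ≤ 1) : dg g r ≤ dg f r := by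
  obtain ⟨f, rfl⟩ := mk_surj f
  have h1 : IsUnit (mk f) := IsUnit.of_mul_eq_one g (by rw [mul_comm]; exact h)
  obtain ⟨g', hg', hd⟩ := (isUnit_mk.mp h1).inv
  have h2 : g = g' := by
    calc g = g * (g' * mk f) := by rw [hg', mul_one]
      _ = g' * (g * mk f) := by ring
      _ = g' := by rw [h, mul_one]
  rw [h2]
  exact hd r hr

theorem isUnit_iff {f : QS S} : IsUnit f ↔ Nd (rep f) := by
  rw [← isUnit_mk, mk_rep]

variable (S) in
/-- the ideal of functions of size `2 ^ (-(r - o(1)) n)` on a typical event -/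
def Id (r : ℝ) : Ideal (QS S) where
  carrier := {f | TR.Ag (min r 1) (rep f) 0}
  add_mem' := by
    intro f g hf hg
    have h0 : TR.Ag 1 (rep (f + g)) (rep f + rep g) := mk_eq.mp (by rw [map_add, mk_rep, mk_rep, mk_rep])
    have h1 := (h0.anti (min_le_right r 1)).trans (TR.Ag.add hf hg)
    rw [add_zero] at h1
    exact h1
  zero_mem' := by
    have h0 : TR.Ag 1 (rep (0 : QS S)) 0 := mk_eq.mp (by rw [mk_rep, map_zero])
    exact h0.anti (min_le_right r 1)
  smul_mem' := by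
    intro c f hf
    have h0 : TR.Ag 1 (rep (c * f)) (rep c * rep f) := mk_eq.mp (by rw [map_mul, mk_rep, mk_rep, mk_rep])
    have h1 := (h0.anti (min_le_right r 1)).trans (TR.Ag.mul (TR.Ag.refl _ (rep c)) hf)
    rw [mul_zero] at h1
    exact h1

theorem mk_mem_Id {f : TR S} {r : ℝ} (hr : r ≤ 1) : mk f ∈ Id S r ↔ TR.Ag r f 0 := by
  have h0 : TR.Ag 1 (rep (mk f)) f := mk_eq.mp (mk_rep _)
  show TR.Ag (min r 1) (rep (mk f)) 0 ↔ _
  rw [min_eq_left hr]
  exact ⟨fun h => (h0.anti hr).symm.trans h, fun h => (h0.anti hr).trans h⟩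

theorem Id_anti {r s : ℝ} (h : s ≤ r) : Id S r ≤ Id S s := fun _ hf => TR.Ag.anti hf (min_le_min_right 1 h)

theorem mem_Id_one {f : QS S} : f ∈ Id S 1 ↔ f = 0 := by
  obtain ⟨f, rfl⟩ := mk_surj f
  rw [mk_mem_Id le_rfl, ← map_zero mk, mk_eq]

theorem mem_Id_of_lt {f : QS S} {r : ℝ} (hr : r ≤ 1) (h : ∀ s, s < r → f ∈ Id S s) : f ∈ Id S r := by
  obtain ⟨f, rfl⟩ := mk_surj f
  rw [mk_mem_Id hr]
  apply TR.ag_of_lt
  intro s hs
  exact (mk_mem_Id (hs.le.trans hr)).mp (h s hs)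

theorem mem_Id_nonpos {f : QS S} {r : ℝ} (hr : r ≤ 0) : f ∈ Id S r := by
  obtain ⟨f, rfl⟩ := mk_surj f
  rw [mk_mem_Id (hr.trans zero_le_one)]
  obtain ⟨K, hK, hh⟩ := f.2
  refine ⟨_, K, Typ_true, hK, ?_⟩
  filter_upwards [hh, hK.1] with k hk hK0 ω a _
  rw [TR.ev_zero, sub_zero]
  refine (hk ω a).trans ?_
  have h1 := S.dl_anti hr k
  rw [S.dl_zero] at h1
  have h2 := mul_le_mul_of_nonneg_left h1 hK0
  rw [mul_one] at h2
  exact h2

/-- functions which agree up to level `r` have the same digits up to level `r` -/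
theorem dg_eq_of_sub_mem {f g : QS S} {r s : ℝ} (h : f - g ∈ Id S r) (hs : s ≤ r) (hs1 : s ≤ 1) : dg f s = dg g s := by
  obtain ⟨f, rfl⟩ := mk_surj f
  obtain ⟨g, rfl⟩ := mk_surj g
  have h1 : mk (f - g) ∈ Id S s := by
    rw [map_sub]
    exact Id_anti hs h
  rw [mk_mem_Id hs1] at h1
  rw [dg_mk _ hs1, dg_mk _ hs1]
  have h2 : TR.Ag s f g := by
    have h3 := h1.add (TR.Ag.refl s g)
    rw [sub_add_cancel, zero_add] at h3
    exact h3
  exact h2.dg_eq le_rfl

theorem dg_of_mem_Id {f : QS S} {r s : ℝ} (h : f ∈ Id S r) (hs : s ≤ r) (hs1 : s ≤ 1) : dg f s = ⊥ := by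
  have h1 : f - 0 ∈ Id S r := by rwa [sub_zero]
  rw [dg_eq_of_sub_mem h1 hs hs1]
  exact le_antisymm ((Kn S s hs1 ⊥).zero_mem) bot_le

theorem mem_Id_of_unit_mul {f g : QS S} {r : ℝ} (hg : IsUnit g) (h : g * f ∈ Id S r) : f ∈ Id S r := by
  obtain ⟨u, hu⟩ := hg.exists_left_inv
  have h1 : u * (g * f) ∈ Id S r := (Id S r).mul_mem_left u h
  have h2 : u * (g * f) = f := by rw [← mul_assoc, hu, one_mul]
  rwa [h2] at h1

end QS

/-- probabilities of events on an extension that come from below -/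
theorem Pj.mass_eq {T S : Sp} (p : Pj T S) (k : ℕ) (E : (S.F k).Ω → Prop) :
    mass (res (T.F k).μ (fun ω => E (p.π k ω))) = mass (res (S.F k).μ E) := by
  have h2 : push (p.π k) (res (T.F k).μ fun ω => E (p.π k ω)) = res (S.F k).μ E := by
    funext ω
    rw [push_ind]
    by_cases h : E ω
    · rw [res_pos (S.F k).μ E ω h, ← p.law k, push_ind]
      apply Finset.sum_congr rfl
      intro ω' _
      by_cases h2 : p.π k ω' = ω
      · rw [res_pos (T.F k).μ (fun ω => E (p.π k ω)) ω' (by rw [h2]; exact h)]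
      · rw [e1_ind_neg h2, zero_mul, zero_mul]
    · rw [res_neg (S.F k).μ E ω h]
      apply Finset.sum_eq_zero
      intro ω' _
      by_cases h2 : p.π k ω' = ω
      · rw [res_neg (T.F k).μ (fun ω => E (p.π k ω)) ω' (fun hc => h (by rw [← h2]; exact hc)), mul_zero]
      · rw [e1_ind_neg h2, zero_mul]
  rw [← h2]
  exact ((Pool.Agent.Helper70.RK.st_E5.1 (S.F k).Ω (T.F k).Ω Unit Unit
    (res (T.F k).μ fun ω => E (p.π k ω)) (p.π k) (fun _ => ()) (fun _ => ())
    ((T.F k).res_nonneg fun ω => E (p.π k ω))).2.1).symm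

/-- events on an extension that come from below -/
theorem Pj.typ_iff {T S : Sp} (p : Pj T S) {E : ∀ k, (S.F k).Ω → Prop} :
    Sp.Typ (S := T) (fun k ω => E k (p.π k ω)) ↔ Sp.Typ E := by
  unfold Sp.Typ
  have h1 : ∀ k, mass (res (T.F k).μ (fun ω => ¬ E k (p.π k ω))) = mass (res (S.F k).μ (fun ω => ¬ E k ω)) :=
    fun k => p.mass_eq k fun ω => ¬ E k ω
  simp only [h1]

theorem Pj.ag_iff {T S : Sp} (p : Pj T S) {r : ℝ} {f g : TR S} : TR.Ag r (p.tr f) (p.tr g) ↔ TR.Ag r f g := by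
  refine ⟨fun h => ?_, p.ag⟩
  rw [TR.ag_iff_levels] at h ⊢
  intro δ hδ
  rw [← p.typ_iff]
  have h1 := h δ hδ
  have h2 : ∀ k, T.dl (r - δ) k = S.dl (r - δ) k := by
    intro k
    unfold Sp.dl
    rw [p.hn k]
  simp only [h2] at h1
  exact h1

theorem Pj.qs_injective {T S : Sp} (p : Pj T S) : Function.Injective p.qs := by
  intro f g h
  obtain ⟨f, rfl⟩ := QS.mk_surj f
  obtain ⟨g, rfl⟩ := QS.mk_surj g
  rw [p.qs_mk, p.qs_mk, QS.mk_eq] at h
  rw [QS.mk_eq]
  exact p.ag_iff.mp h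

theorem Pj.qs_mem_Id {T S : Sp} (p : Pj T S) {f : QS S} {r : ℝ} (hr : r ≤ 1) :
    p.qs f ∈ QS.Id T r ↔ f ∈ QS.Id S r := by
  obtain ⟨f, rfl⟩ := QS.mk_surj f
  rw [p.qs_mk, QS.mk_mem_Id hr, QS.mk_mem_Id hr, ← p.ag_iff, map_zero]

namespace QS

/-- the difference of a variable and a variable over which it is real is nondegenerate -/
theorem isUnit_sub {x y : QS S} (hxy : h (dg x 1) (dg y 1) = 1) : IsUnit (x - y) := by
  obtain ⟨f, rfl⟩ := mk_surj x
  obtain ⟨g, rfl⟩ := mk_surj y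
  rw [← map_sub, isUnit_mk]
  rw [dg_mk _ le_rfl, dg_mk _ le_rfl] at hxy
  apply nd_of_levels
  have key : ∀ δ : ℝ, 0 < δ → δ ≤ 1 → Typ (fun k ω => S.dl δ k ≤ |TR.ev (f - g) k ω|) := by
    intro δ hδ hδ1
    set y : S.VV 1 := TR.vec (fun _ : Fin 1 => f) with hy
    set z : S.VV 1 := TR.vec (fun _ : Fin 1 => g) with hz
    have h1 : δ ≤ h (y.dg δ) (z.dg δ) := by
      have a1 : h (y.dg 1) (z.dg 1) = 1 := hxy
      have a2 := h_triangle (y.dg 1) (y.dg δ) (z.dg 1)
      have a3 : h (y.dg 1) (y.dg δ ⊔ z.dg 1) ≤ h (y.dg 1) (y.dg δ) := h_anti le_sup_left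
      have a4 := y.h_dg_dg hδ1
      rw [Nat.cast_one, one_mul] at a4
      have a5 : h (y.dg δ) (z.dg 1) ≤ h (y.dg δ) (z.dg δ) := h_anti (z.dg_mono hδ1)
      linarith
    obtain ⟨C, hCs, hC⟩ := y.bd
    have hCs' : S.Sub (fun k => 4 * (C k + 1)) :=
      (S.Sub_const (show (0 : ℝ) ≤ 4 by norm_num)).mul (hCs.add (S.Sub_const zero_le_one))
    set E : ∀ k, (S.F k).Ω → Prop := fun k ω => S.dl δ k ≤ |TR.ev (f - g) k ω| with hE
    set P : ℕ → ℝ := fun k => mass (res (S.F k).μ (fun ω => ¬ E k ω)) with hP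
    have hfin : ∀ᶠ k in UF, S.rt (fun k => Setoid.ker (y.cellv δ k)) (fun k => Setoid.ker (z.cellv δ k)) k ≤
        (Real.logb 2 (3 + 2) / (S.F k).n + Real.logb 2 (4 * (C k + 1) + 2) / (S.F k).n + 1 / (S.F k).n) +
          δ * (1 - P k) := by
      filter_upwards [hC, hCs.1] with k hCk hC0
      have hn := (S.F k).pos
      have b1 := rt_cell_le y δ (C k + 1) 3 (by norm_num) (fun k => Setoid.ker (z.cellv δ k))
        (fun k ω => E k ω) k (fun ω a i => (hCk ω a i).trans (by linarith)) (by linarith)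
        (fun ω ω' a b e f' g' i => by
          have c1 : |TR.ev f k ω - TR.ev g k ω| < S.dl δ k := not_le.mp e
          have c2 : |TR.ev f k ω' - TR.ev g k ω'| < S.dl δ k := not_le.mp f'
          have c3 : |TR.ev g k ω - TR.ev g k ω'| ≤ S.dl δ k := z.cellv_close δ k ω ω' g'.1 0
          show |TR.ev f k ω - TR.ev f k ω'| ≤ _
          rw [abs_lt] at c1 c2
          rw [abs_le] at c3 ⊢
          constructor <;> linarith [c1.1, c1.2, c2.1, c2.2, c3.1, c3.2])
      rw [Nat.cast_one, one_mul, one_mul, max_eq_left hδ.le] at b1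
      have b2 : mass (res (S.F k).μ (E k)) = 1 - P k := by
        have := ((st_E4 st_E1 st_E3).2.2 _ _ (E k) (S.F k).nn).1
        rw [(S.F k).ms] at this
        show _ = 1 - mass (res (S.F k).μ (fun ω => ¬ E k ω))
        linarith
      rw [b2] at b1
      have b3 : 0 ≤ 1 - P k := sub_nonneg.mpr (mass_res_le_one k _)
      have b3' : 1 - P k ≤ 1 := by
        have : 0 ≤ P k := mass_res_nonneg k _
        linarith
      have b4 : (Real.logb 2 (4 * (C k + 1)) + δ * (S.F k).n) / (S.F k).n * (1 - P k) ≤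
          Real.logb 2 (4 * (C k + 1) + 2) / (S.F k).n + δ * (1 - P k) := by
        rw [add_div, add_mul, mul_div_assoc, div_self hn.ne', mul_one]
        have b5 : Real.logb 2 (4 * (C k + 1)) / (S.F k).n ≤ Real.logb 2 (4 * (C k + 1) + 2) / (S.F k).n :=
          div_le_div_of_nonneg_right (Real.logb_le_logb_of_le (by norm_num) (by linarith) (by linarith)) hn.le
        have b6 : 0 ≤ Real.logb 2 (4 * (C k + 1)) / (S.F k).n :=
          div_nonneg (Real.logb_nonneg (by norm_num) (by linarith)) hn.le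
        have b7 : Real.logb 2 (4 * (C k + 1)) / (S.F k).n * (1 - P k) ≤ Real.logb 2 (4 * (C k + 1)) / (S.F k).n * 1 :=
          mul_le_mul_of_nonneg_left b3' b6
        linarith
      linarith
    have hUP : UB P := UB_of_nonneg_le (Eventually.of_forall fun k => mass_res_nonneg k _)
      (Eventually.of_forall fun k => mass_res_le_one k _)
    have ht : Tendsto (fun k => Real.logb 2 (3 + 2) / (S.F k).n + Real.logb 2 (4 * (C k + 1) + 2) / (S.F k).n +
        1 / (S.F k).n) UF (𝓝 0) := by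
      have := ((S.div_n_tendsto (Real.logb 2 (3 + 2))).add hCs'.2).add (S.div_n_tendsto 1)
      simpa using this
    have h2 : h (y.dg δ) (z.dg δ) ≤ δ * (1 - ul P) := by
      unfold VV.dg
      rw [h_io (y.bdd δ) (z.bdd δ)]
      have h3 : Tendsto (fun k => (Real.logb 2 (3 + 2) / (S.F k).n + Real.logb 2 (4 * (C k + 1) + 2) / (S.F k).n +
          1 / (S.F k).n) + δ * (1 - P k)) UF (𝓝 (0 + δ * (1 - ul P))) :=
        ht.add (((tendsto_const_nhds).sub (ul_tendsto hUP)).const_mul δ)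
      rw [zero_add] at h3
      rw [← ul_eq h3]
      exact ul_mono (UB_rt (y.bdd δ).toInf _) (UB_of_tendsto h3) hfin
    have h3 : ul P ≤ 0 := by
      have : δ ≤ δ * (1 - ul P) := h1.trans h2
      nlinarith
    have h4 : 0 ≤ ul P := const_le_ul hUP (Eventually.of_forall fun k => mass_res_nonneg k _)
    have h5 := ul_tendsto hUP
    rw [le_antisymm h3 h4] at h5
    exact h5
  intro δ hδ
  rcases le_total δ 1 with h1 | h1
  · exact key δ hδ h1
  · exact (key 1 one_pos le_rfl).mono (Eventually.of_forall fun k ω _ hω => (S.dl_anti h1 k).trans hω)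

end QS

end

end Pool.Agent.Helper31.EC
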