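import Pool.Agent.Helper31.EC.Zoom

/-! Exact entropy calculus: finite systems, diagonal limits of systems, existence of extremal systems. -/

namespace Pool.Agent.Helper31.EC

open Finset Filter Topology Pool.Agent.Helper69.RK

noncomputable section

/-- a finite system (no conditions) -/
structure FSy (m : ℕ) where
  F : FSp
  a : F.Ω → Fin m → ℝ
  x : F.Ω → Fin m → ℝ
  t : F.Ω → Fin 1 → ℝ

namespace FSy

variable {m : ℕ} (X : FSy m)

/-- the point -/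
def P (ω : X.F.Ω) : Fin m → ℝ := fun i => X.a ω i + X.t ω 0 * X.x ω i

/-- the length `2 ^ (-r n)` -/
def dl (r : ℝ) : ℝ := (2 : ℝ) ^ (-(r * X.F.n))

/-- cells of level `r` -/
def ka (r : ℝ) : Setoid X.F.Ω := Setoid.ker fun ω => Sp.cell (X.dl r) (X.a ω)
def kx (r : ℝ) : Setoid X.F.Ω := Setoid.ker fun ω => Sp.cell (X.dl r) (X.x ω)
def kt (r : ℝ) : Setoid X.F.Ω := Setoid.ker fun ω => Sp.cell (X.dl r) (X.t ω)
def kP (r : ℝ) : Setoid X.F.Ω := Setoid.ker fun ω => Sp.cell (X.dl r) (X.P ω)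

/-- normalised conditional entropy -/
def q (A B : Setoid X.F.Ω) : ℝ := X.F.e A (B ⊓ X.F.Z) / X.F.n

theorem q_nonneg (A B : Setoid X.F.Ω) : 0 ≤ X.q A B := div_nonneg (X.F.e_nonneg _ _) X.F.pos.le

end FSy

namespace Sys

open Sp

variable {S : Sp} {m : ℕ} (s : Sys S m)

/-- the finite systems of a system -/
def fin (k : ℕ) : FSy m := ⟨S.F k, s.a.v k, s.x.v k, s.t.v k⟩

theorem fin_ka (r : ℝ) (k : ℕ) : (s.fin k).ka r = Setoid.ker (s.a.cellv r k) := rfl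
theorem fin_kx (r : ℝ) (k : ℕ) : (s.fin k).kx r = Setoid.ker (s.x.cellv r k) := rfl
theorem fin_kt (r : ℝ) (k : ℕ) : (s.fin k).kt r = Setoid.ker (s.t.cellv r k) := rfl
theorem fin_kP (r : ℝ) (k : ℕ) : (s.fin k).kP r = Setoid.ker (s.P.cellv r k) := rfl

/-- informations of digits -/
def Ia (r : ℝ) : S.Inf := (s.a.bdd r).toInf
def Ix (r : ℝ) : S.Inf := (s.x.bdd r).toInf
def It (r : ℝ) : S.Inf := (s.t.bdd r).toInf
def IP (r : ℝ) : S.Inf := (s.P.bdd r).toInf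

theorem cl_Ia (r : ℝ) : cl (s.Ia r) = s.a.dg r := (io_eq _).symm
theorem cl_Ix (r : ℝ) : cl (s.Ix r) = s.x.dg r := (io_eq _).symm
theorem cl_It (r : ℝ) : cl (s.It r) = s.t.dg r := (io_eq _).symm
theorem cl_IP (r : ℝ) : cl (s.IP r) = s.P.dg r := (io_eq _).symm

/-- heights given lines, as a functional of the finite systems -/
theorem ht_eq : h (s.t.dg 1) (s.a.dg 1 ⊔ s.x.dg 1) =
    ul (fun k => (s.fin k).q ((s.fin k).kt 1) ((s.fin k).ka 1 ⊓ (s.fin k).kx 1)) := by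
  rw [← s.cl_It, ← s.cl_Ia, ← s.cl_Ix, ← cl_sup, h_cl]
  rfl

/-- `F(u,r)` as a functional of the finite systems -/
theorem F_eq (u r : ℝ) : s.F u r =
    ul (fun k => (s.fin k).q ((s.fin k).kx u ⊓ (s.fin k).kP r) ((s.fin k).kt 1)) := by
  have h1 : s.F u r = h (cl (Inf.sup (s.Ix u) (s.IP r))) (cl (s.It 1)) := by
    rw [cl_sup, s.cl_Ix, s.cl_IP, s.cl_It]
    rfl
  rw [h1, h_cl]
  rfl

theorem F_UB (u r : ℝ) : UB (fun k => (s.fin k).q ((s.fin k).kx u ⊓ (s.fin k).kP r) ((s.fin k).kt 1)) :=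
  UB_rt (Inf.sup (s.Ix u) (s.IP r)) (s.It 1).1

theorem H_x_eq (r : ℝ) : H (s.x.dg r) = ul (fun k => (s.fin k).q ((s.fin k).kx r) ⊤) := by
  rw [← s.cl_Ix, H_cl]
  rfl

theorem H_x_UB (r : ℝ) : UB (fun k => (s.fin k).q ((s.fin k).kx r) ⊤) := UB_rt (s.Ix r) S.tr

theorem h_P_eq (r : ℝ) : h (s.P.dg r) s.T = ul (fun k => (s.fin k).q ((s.fin k).kP r) ((s.fin k).kt 1)) := by
  have h1 : h (s.P.dg r) s.T = h (cl (s.IP r)) (cl (s.It 1)) := by
    rw [s.cl_IP, s.cl_It]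
    rfl
  rw [h1, h_cl]
  rfl

theorem h_P_UB (r : ℝ) : UB (fun k => (s.fin k).q ((s.fin k).kP r) ((s.fin k).kt 1)) := UB_rt (s.IP r) (s.It 1).1

end Sys

open Sp

/-- the diagonal space -/
def dsp (S : ℕ → Sp) (J : ℕ → ℕ) (h : Tendsto (fun k => ((S (J k)).F k).n) UF atTop) : Sp where
  F := fun k => (S (J k)).F k
  lim := h

/-- the diagonal of tame vector variables -/
def dvv {m : ℕ} (S : ℕ → Sp) (J : ℕ → ℕ) (h : Tendsto (fun k => ((S (J k)).F k).n) UF atTop)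
    (y : ∀ j, (S j).VV m) (K : ℕ → ℕ → ℝ) (hJ : Tendsto J UF atTop)
    (hK : ∀ᶠ k in UF, 0 ≤ K (J k) k ∧ Real.logb 2 (K (J k) k + 2) / ((S (J k)).F k).n ≤ 1 / ((J k : ℝ) + 1) ∧
      ∀ ω, ((S (J k)).F k).μ ω ≠ 0 → ∀ i, |(y (J k)).v k ω i| ≤ K (J k) k) : (dsp S J h).VV m where
  v := fun k => (y (J k)).v k
  bd := by
    refine ⟨fun k => K (J k) k, ⟨?_, ?_⟩, ?_⟩
    · filter_upwards [hK] with k hk using hk.1
    · have h2 : Tendsto (fun k => 1 / ((J k : ℝ) + 1)) UF (𝓝 0) := tendsto_one_div_add_atTop_nhds_zero_nat.comp hJ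
      refine tendsto_of_tendsto_of_tendsto_of_le_of_le' tendsto_const_nhds h2 ?_ ?_
      · filter_upwards [hK] with k hk
        exact div_nonneg (Real.logb_nonneg (by norm_num) (by linarith [hk.1])) ((S (J k)).F k).pos.le
      · filter_upwards [hK] with k hk using hk.2.1
    · filter_upwards [hK] with k hk using hk.2.2

/-- DIAGONAL LIMITS OF SYSTEMS -/
theorem Sys.diag {m : ℕ} (S : ℕ → Sp) (s : ∀ j, Sys (S j) m) (φ : ℕ → FSy m → ℝ)
    (hφ : ∀ i j, UB (fun k => φ i ((s j).fin k))) (E : ℕ → FSy m → Prop)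
    (hE : ∀ i j, ∀ᶠ k in UF, E i ((s j).fin k)) :
    ∃ (T : Sp) (u : Sys T m) (J : ℕ → ℕ), Tendsto J UF atTop ∧
      (∀ i, Tendsto (fun k => φ i (u.fin k) - ul (fun k' => φ i ((s (J k)).fin k'))) UF (𝓝 0)) ∧
      (∀ i, ∀ᶠ k in UF, E i (u.fin k)) ∧ ∀ k, u.fin k = (s (J k)).fin k := by
  choose Ka hKa hKa' using fun j => (s j).a.bd
  choose Kx hKx hKx' using fun j => (s j).x.bd
  choose Kt hKt hKt' using fun j => (s j).t.bd
  have hsub : ∀ (j : ℕ) (K : ℕ → ℝ), (S j).Sub K → ∀ᶠ k in UF, 0 ≤ K k ∧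
      Real.logb 2 (K k + 2) / ((S j).F k).n ≤ 1 / ((j : ℝ) + 1) := by
    intro j K hK
    have h5 : (0 : ℝ) < 1 / ((j : ℝ) + 1) := by positivity
    filter_upwards [hK.1, hK.2.eventually (gt_mem_nhds h5)] with k a b using ⟨a, b.le⟩
  set G : ℕ → ℕ → ℕ → Prop := fun i j k => E i ((s j).fin k) ∧ (j : ℝ) ≤ ((S j).F k).n ∧
    ((0 ≤ Ka j k ∧ Real.logb 2 (Ka j k + 2) / ((S j).F k).n ≤ 1 / ((j : ℝ) + 1)) ∧
      ∀ ω, ((S j).F k).μ ω ≠ 0 → ∀ i, |(s j).a.v k ω i| ≤ Ka j k) ∧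
    ((0 ≤ Kx j k ∧ Real.logb 2 (Kx j k + 2) / ((S j).F k).n ≤ 1 / ((j : ℝ) + 1)) ∧
      ∀ ω, ((S j).F k).μ ω ≠ 0 → ∀ i, |(s j).x.v k ω i| ≤ Kx j k) ∧
    ((0 ≤ Kt j k ∧ Real.logb 2 (Kt j k + 2) / ((S j).F k).n ≤ 1 / ((j : ℝ) + 1)) ∧
      ∀ ω, ((S j).F k).μ ω ≠ 0 → ∀ i, |(s j).t.v k ω i| ≤ Kt j k) with hG
  have hGe : ∀ i j, ∀ᶠ k in UF, G i j k := by
    intro i j
    filter_upwards [hE i j, (S j).lim.eventually (eventually_ge_atTop (j : ℝ)), hsub j _ (hKa j), hKa' j,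
      hsub j _ (hKx j), hKx' j, hsub j _ (hKt j), hKt' j] with k a b c d e f g l
    exact ⟨a, b, ⟨c, d⟩, ⟨e, f⟩, ⟨g, l⟩⟩
  set ψ : ℕ → ℕ → ℕ → ℝ := fun i j k => Nat.casesOn i
    (((s j).fin k).q (((s j).fin k).kt 1) (((s j).fin k).ka 1 ⊓ ((s j).fin k).kx 1)) (fun i => φ i ((s j).fin k)) with hψ
  have hψb : ∀ i j, UB (ψ i j) := by
    intro i j
    cases i with
    | zero => exact UB_rt ((s j).It 1) (Inf.sup ((s j).Ia 1) ((s j).Ix 1)).1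
    | succ i => exact hφ i j
  obtain ⟨J, hJ, hJ1, hJ2⟩ := diag_in_place ψ G hψb hGe
  have hn : Tendsto (fun k => ((S (J k)).F k).n) UF atTop := by
    rw [tendsto_atTop]
    intro M
    filter_upwards [hJ2 0, hJ.eventually (eventually_ge_atTop ⌈M⌉₊)] with k a b
    have h1 : M ≤ (J k : ℝ) := (Nat.le_ceil M).trans (by exact_mod_cast b)
    exact h1.trans a.2.1
  set T : Sp := dsp S J hn with hT
  have bA : ∀ᶠ k in UF, 0 ≤ Ka (J k) k ∧ Real.logb 2 (Ka (J k) k + 2) / ((S (J k)).F k).n ≤ 1 / ((J k : ℝ) + 1) ∧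
      ∀ ω, ((S (J k)).F k).μ ω ≠ 0 → ∀ i, |(s (J k)).a.v k ω i| ≤ Ka (J k) k := by
    filter_upwards [hJ2 0] with k a
    exact ⟨a.2.2.1.1.1, a.2.2.1.1.2, a.2.2.1.2⟩
  have bX : ∀ᶠ k in UF, 0 ≤ Kx (J k) k ∧ Real.logb 2 (Kx (J k) k + 2) / ((S (J k)).F k).n ≤ 1 / ((J k : ℝ) + 1) ∧
      ∀ ω, ((S (J k)).F k).μ ω ≠ 0 → ∀ i, |(s (J k)).x.v k ω i| ≤ Kx (J k) k := by
    filter_upwards [hJ2 0] with k a
    exact ⟨a.2.2.2.1.1.1, a.2.2.2.1.1.2, a.2.2.2.1.2⟩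
  have bT : ∀ᶠ k in UF, 0 ≤ Kt (J k) k ∧ Real.logb 2 (Kt (J k) k + 2) / ((S (J k)).F k).n ≤ 1 / ((J k : ℝ) + 1) ∧
      ∀ ω, ((S (J k)).F k).μ ω ≠ 0 → ∀ i, |(s (J k)).t.v k ω i| ≤ Kt (J k) k := by
    filter_upwards [hJ2 0] with k a
    exact ⟨a.2.2.2.2.1.1, a.2.2.2.2.1.2, a.2.2.2.2.2⟩
  set A : T.VV m := dvv S J hn (fun j => (s j).a) Ka hJ bA with hA
  set X : T.VV m := dvv S J hn (fun j => (s j).x) Kx hJ bX with hX
  set Tt : T.VV 1 := dvv S J hn (fun j => (s j).t) Kt hJ bT with hTt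
  have hht : h (Tt.dg 1) (A.dg 1 ⊔ X.dg 1) = 1 := by
    have e1 : h (Tt.dg 1) (A.dg 1 ⊔ X.dg 1) = ul (fun k => ψ 0 (J k) k) := by
      have e2 : Tt.dg 1 = cl (Tt.bdd 1).toInf := io_eq _
      have e3 : A.dg 1 = cl (A.bdd 1).toInf := io_eq _
      have e4 : X.dg 1 = cl (X.bdd 1).toInf := io_eq _
      rw [e2, e3, e4, ← cl_sup, h_cl]
      rfl
    rw [e1]
    have e5 : ∀ j, ul (ψ 0 j) = 1 := by
      intro j
      rw [← (s j).ht, (s j).ht_eq]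
      rfl
    have e6 := hJ1 0
    simp only [e5] at e6
    have e7 := e6.add_const 1
    simp only [sub_add_cancel, zero_add] at e7
    exact ul_eq e7
  set u : Sys T m := ⟨A, X, Tt, hht⟩ with hu
  have hfin : ∀ k, u.fin k = (s (J k)).fin k := fun k => rfl
  refine ⟨T, u, J, hJ, fun i => ?_, fun i => ?_, hfin⟩
  · exact hJ1 (i + 1)
  · filter_upwards [hJ2 i] with k a using a.1

/-- EXISTENCE OF EXTREMAL SYSTEMS: a functional `φ` of the finite systems which is bounded above, in the class of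
systems with prescribed values `c i` of countably many functionals `ψ i` -/
theorem Sys.exists_max {m : ℕ} (φ : FSy m → ℝ) (ψ : ℕ → FSy m → ℝ) (c : ℕ → ℝ) (M : ℝ)
    (hφ : ∀ (S : Sp) (s : Sys S m), UB (fun k => φ (s.fin k)))
    (hψ : ∀ (i : ℕ) (S : Sp) (s : Sys S m), UB (fun k => ψ i (s.fin k)))
    (hM : ∀ (S : Sp) (s : Sys S m), (∀ i, ul (fun k => ψ i (s.fin k)) = c i) → ul (fun k => φ (s.fin k)) ≤ M)
    (hne : ∃ (S : Sp) (s : Sys S m), ∀ i, ul (fun k => ψ i (s.fin k)) = c i) :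
    ∃ (S : Sp) (s : Sys S m), (∀ i, ul (fun k => ψ i (s.fin k)) = c i) ∧
      ∀ (S' : Sp) (s' : Sys S' m), (∀ i, ul (fun k => ψ i (s'.fin k)) = c i) →
        ul (fun k => φ (s'.fin k)) ≤ ul (fun k => φ (s.fin k)) := by
  set V : Set ℝ := {r | ∃ (S : Sp) (s : Sys S m), (∀ i, ul (fun k => ψ i (s.fin k)) = c i) ∧
    r = ul (fun k => φ (s.fin k))} with hV
  have hVb : BddAbove V := ⟨M, by rintro r ⟨S, s, h1, rfl⟩; exact hM S s h1⟩
  have hVn : V.Nonempty := by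
    obtain ⟨S, s, h1⟩ := hne
    exact ⟨_, S, s, h1, rfl⟩
  have h1 : ∀ j : ℕ, ∃ r ∈ V, sSup V - 1 / ((j : ℝ) + 1) < r := by
    intro j
    apply exists_lt_of_lt_csSup hVn
    have : (0 : ℝ) < 1 / ((j : ℝ) + 1) := by positivity
    linarith
  choose r hr hr' using h1
  choose S s hs hs' using hr
  obtain ⟨T, u, J, hJ, hJ1, _, _⟩ := Sys.diag S s (fun i => Nat.casesOn i φ ψ)
    (fun i j => by
      cases i with
      | zero => exact hφ _ _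
      | succ i => exact hψ i _ _) (fun _ _ => True) (fun _ _ => Eventually.of_forall fun _ => trivial)
  have hc : ∀ i, ul (fun k => ψ i (u.fin k)) = c i := by
    intro i
    have h2 := hJ1 (i + 1)
    have h3 : ∀ j, ul (fun k' => ψ i ((s j).fin k')) = c i := fun j => hs j i
    simp only [h3] at h2
    have h4 := h2.add_const (c i)
    simp only [sub_add_cancel, zero_add] at h4
    exact ul_eq h4
  have hm : Tendsto (fun k => φ (u.fin k)) UF (𝓝 (sSup V)) := by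
    have h2 := hJ1 0
    have h3 : Tendsto (fun j => ul (fun k' => φ ((s j).fin k'))) atTop (𝓝 (sSup V)) := by
      have h4 : Tendsto (fun j : ℕ => sSup V - 1 / ((j : ℝ) + 1)) atTop (𝓝 (sSup V)) := by
        have := (tendsto_one_div_add_atTop_nhds_zero_nat (𝕜 := ℝ)).const_sub (sSup V)
        simpa using this
      refine tendsto_of_tendsto_of_tendsto_of_le_of_le h4 tendsto_const_nhds (fun j => ?_) (fun j => ?_)
      · rw [← hs' j]; exact (hr' j).le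
      · rw [← hs' j]
        exact le_csSup hVb ⟨S j, s j, hs j, hs' j⟩
    have h5 := h2.add (h3.comp hJ)
    simpa using h5
  refine ⟨T, u, hc, fun S' s' h' => ?_⟩
  rw [ul_eq hm]
  exact le_csSup hVb ⟨S', s', h', rfl⟩

end

end Pool.Agent.Helper31.EC
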