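import Pool.Agent.Helper31.EC.Diag

/-! Exact entropy calculus: change of base and depth (zooms). -/

namespace Pool.Agent.Helper31.EC

open Finset Filter Topology Pool.Agent.Helper69.RK

noncomputable section

namespace Sp

variable {S : Sp} (Z : ∀ k, Setoid (S.F k).Ω) (c : ℝ) (hc : 0 < c)

theorem chg_rt (A B : ∀ k, Setoid (S.F k).Ω) (k : ℕ) :
    (S.chg Z c hc).rt A B k = S.rt A (fun k => B k ⊓ Z k) k / c := by
  unfold rt
  have h1 : ((S.chg Z c hc).F k).e (A k) (B k ⊓ ((S.chg Z c hc).F k).Z) = (S.F k).e (A k) (B k ⊓ Z k ⊓ (S.F k).Z) := by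
    rw [inf_assoc]
    rfl
  rw [h1]
  have h2 : ((S.chg Z c hc).F k).n = c * (S.F k).n := rfl
  rw [h2, div_div, mul_comm c]

theorem chg_rt_tr (A : ∀ k, Setoid (S.F k).Ω) (k : ℕ) :
    (S.chg Z c hc).rt A (S.chg Z c hc).tr k = S.rt A Z k / c := by
  have h2 : (S.chg Z c hc).rt A (S.chg Z c hc).tr k = S.rt A (fun k => S.tr k ⊓ Z k) k / c :=
    chg_rt Z c hc A (S.chg Z c hc).tr k
  rw [h2]
  have h1 : (S.tr k ⊓ Z k) = Z k := top_inf_eq _
  unfold rt
  beta_reduce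
  rw [h1]

/-- an information in the changed space -/
def chgI (A : S.Inf) : (S.chg Z c hc).Inf := ⟨A.1, chg_VB Z c hc A.2⟩

theorem chgI_mono {A B : S.Inf} (h : A ≤ B) : chgI Z c hc A ≤ chgI Z c hc B := by
  rw [Inf.le_def] at h ⊢
  have h1 := h.div_const c
  rw [zero_div] at h1
  refine tendsto_of_tendsto_of_tendsto_of_le_of_le tendsto_const_nhds h1 (fun k => rt_nonneg _ _ k) (fun k => ?_)
  show (S.chg Z c hc).rt A.1 B.1 k ≤ _
  rw [chg_rt]
  apply div_le_div_of_nonneg_right _ hc.le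
  exact rt_anti _ _ _ k inf_le_left

/-- the map of entropy lattices -/
def chgL : S.L → (S.chg Z c hc).L := Quotient.map (chgI Z c hc) (by
  intro A B hAB
  exact ⟨chgI_mono Z c hc hAB.1, chgI_mono Z c hc hAB.2⟩)

theorem chgL_cl (A : S.Inf) : chgL Z c hc (cl A) = cl (chgI Z c hc A) := rfl

theorem chgL_mono {x y : S.L} (h : x ≤ y) : chgL Z c hc x ≤ chgL Z c hc y := by
  induction x using cl_ind
  induction y using cl_ind
  exact chgI_mono Z c hc h

theorem chgL_sup (x y : S.L) : chgL Z c hc (x ⊔ y) = chgL Z c hc x ⊔ chgL Z c hc y := by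
  induction x using cl_ind
  induction y using cl_ind
  rfl

theorem chgL_bot : chgL Z c hc (⊥ : S.L) = ⊥ := rfl

/-- entropy given the new base -/
def hZ (Z : ∀ k, Setoid (S.F k).Ω) (x : S.L) : ℝ := H (chgL Z 1 one_pos x)

theorem hZ_cl (A : S.Inf) : hZ Z (cl A) = ul (S.rt A.1 Z) := by
  unfold hZ
  rw [chgL_cl, H_cl]
  congr 1
  funext k
  exact (chg_rt_tr Z 1 one_pos A.1 k).trans (div_one _)

theorem H_chgL (x : S.L) : H (chgL Z c hc x) = hZ Z x / c := by
  induction x using cl_ind with | _ A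
  rw [hZ_cl, chgL_cl, H_cl]
  have h0 : ((S.chg Z c hc).rt (chgI Z c hc A).1 (S.chg Z c hc).tr) = fun k => c⁻¹ * S.rt A.1 Z k := by
    funext k
    exact (chg_rt_tr Z c hc A.1 k).trans (div_eq_inv_mul _ _)
  rw [h0, ul_const_mul _ (UB_rt A Z)]; ring

/-- if the new base is an information `V` of the space -/
theorem hZ_eq (V : S.Inf) (x : S.L) : hZ V.1 x = h x (cl V) := by
  induction x using cl_ind with | _ A
  rw [hZ_cl, h_cl]

theorem H_chgL_inf (V : S.Inf) (x : S.L) : H (chgL V.1 c hc x) = h x (cl V) / c := by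
  rw [H_chgL, hZ_eq]

theorem h_chgL_inf (V : S.Inf) (x y : S.L) : h (chgL V.1 c hc x) (chgL V.1 c hc y) = h x (y ⊔ cl V) / c := by
  unfold h
  rw [← chgL_sup, H_chgL_inf, H_chgL_inf]
  unfold h
  rw [← sup_assoc]; ring

theorem I_chgL_inf (V : S.Inf) (x y z : S.L) :
    I (chgL V.1 c hc x) (chgL V.1 c hc y) (chgL V.1 c hc z) = I x y (z ⊔ cl V) / c := by
  unfold I
  rw [← chgL_sup, ← chgL_sup, ← chgL_sup, ← chgL_sup, H_chgL_inf, H_chgL_inf, H_chgL_inf, H_chgL_inf]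
  unfold h
  rw [← sup_assoc, ← sup_assoc, ← sup_assoc]; ring

/-- comparison in the changed space -/
theorem chgL_le_inf (V : S.Inf) (x y : S.L) : chgL V.1 c hc x ≤ chgL V.1 c hc y ↔ x ≤ y ⊔ cl V := by
  rw [← h_eq_zero_iff, h_chgL_inf, div_eq_zero_iff, or_iff_left hc.ne', h_eq_zero_iff]

/-- the new base contains nothing new -/
theorem chgL_base (V : S.Inf) : chgL V.1 c hc (cl V) = ⊥ := by
  apply le_antisymm _ bot_le
  rw [← chgL_bot V.1 c hc, chgL_le_inf]
  exact le_sup_right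

theorem chgL_io {α : ℕ → Type} {X : ∀ k, (S.F k).Ω → α k} (hX : Bdd X) :
    chgL Z c hc (io X) = io (S := S.chg Z c hc) X := by
  have h1 : Bdd (S := S.chg Z c hc) X := chg_VB Z c hc hX
  rw [io_eq hX, io_eq h1]
  rfl

theorem chg_sub {K : ℕ → ℝ} (hK : S.Sub K) : (S.chg Z c hc).Sub K := by
  refine ⟨hK.1, ?_⟩
  have h1 := hK.2.const_mul c⁻¹
  rw [mul_zero] at h1
  refine h1.congr fun k => ?_
  show c⁻¹ * (Real.logb 2 (K k + 2) / (S.F k).n) = Real.logb 2 (K k + 2) / (c * (S.F k).n)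
  have := (S.F k).pos
  field_simp

/-- vector variables in the changed space -/
def VV.chg {m : ℕ} (y : S.VV m) : (S.chg Z c hc).VV m where
  v := y.v
  bd := by
    obtain ⟨K, hK, h⟩ := y.bd
    exact ⟨K, chg_sub Z c hc hK, h⟩

theorem chg_dl (r : ℝ) (k : ℕ) : (S.chg Z c hc).dl r k = S.dl (c * r) k := by
  unfold dl
  show (2 : ℝ) ^ (-(r * (c * (S.F k).n))) = _
  congr 1; ring

theorem VV.chg_dg {m : ℕ} (y : S.VV m) (r : ℝ) : (y.chg Z c hc).dg r = chgL Z c hc (y.dg (c * r)) := by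
  unfold VV.dg
  rw [chgL_io Z c hc (y.bdd _)]
  have h1 : (y.chg Z c hc).cellv r = y.cellv (c * r) := by
    funext k ω
    unfold VV.cellv
    rw [chg_dl]
    rfl
  rw [h1]

/-- the rescaled remainder of the cell of level `r` -/
def VV.zm {m : ℕ} (y : S.VV m) (r : ℝ) : (S.chg Z c hc).VV m :=
  VV.of (S := S.chg Z c hc) (fun k ω i => y.v k ω i / S.dl r k - ⌊y.v k ω i / S.dl r k⌋) (by
    refine ⟨1, Eventually.of_forall fun k ω _ i => ?_⟩
    have h1 := Int.floor_le (y.v k ω i / S.dl r k)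
    have h2 := Int.lt_floor_add_one (y.v k ω i / S.dl r k)
    rw [abs_le]; constructor <;> linarith)

/-- digits of the remainder: if the cell of level `r` is in the base -/
theorem VV.zm_dg {m : ℕ} (y : S.VV m) (r s : ℝ)
    (hb : ∀ᶠ k in UF, ∀ ω ω', (S.F k).μ ω ≠ 0 → (S.F k).μ ω' ≠ 0 → (Z k ⊓ (S.F k).Z) ω ω' →
      y.cellv r k ω = y.cellv r k ω') :
    (y.zm Z c hc r).dg s = chgL Z c hc (y.dg (r + c * s)) := by
  have e0 : (y.chg Z c hc).dg (r / c + s) = chgL Z c hc (y.dg (r + c * s)) := by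
    rw [y.chg_dg]
    congr 2
    field_simp
  rw [← e0]
  have hd : ∀ k, (S.chg Z c hc).dl (r / c + s) k = S.dl r k * (S.chg Z c hc).dl s k := by
    intro k
    rw [chg_dl, chg_dl, ← dl_add]
    congr 1
    field_simp
  have key : ∀ᶠ k in UF, ∀ ω ω', (S.F k).μ ω ≠ 0 → (S.F k).μ ω' ≠ 0 → (Z k ⊓ (S.F k).Z) ω ω' → ∀ i,
      |y.v k ω i - y.v k ω' i| = S.dl r k * |(y.zm Z c hc r).v k ω i - (y.zm Z c hc r).v k ω' i| := by
    filter_upwards [hb] with k hk ω ω' a b g i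
    have h1 : ⌊y.v k ω i / S.dl r k⌋ = ⌊y.v k ω' i / S.dl r k⌋ := congrFun (hk ω ω' a b g) i
    have h2 : (y.zm Z c hc r).v k ω i - (y.zm Z c hc r).v k ω' i = (y.v k ω i - y.v k ω' i) / S.dl r k := by
      show (y.v k ω i / S.dl r k - ⌊y.v k ω i / S.dl r k⌋) - (y.v k ω' i / S.dl r k - ⌊y.v k ω' i / S.dl r k⌋) = _
      rw [h1]; ring
    rw [h2, abs_div, abs_of_pos (S.dl_pos r k), mul_div_cancel₀ _ (S.dl_pos r k).ne']
  apply le_antisymm
  · apply VV.dg_le_dg _ _ _ _ (fun _ _ => True) Typ_true (fun _ => 1) ((S.chg Z c hc).Sub_const zero_le_one)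
    filter_upwards [key] with k hk ω ω' a b _ _ g g' i
    have h1 := hk ω ω' a b g i
    have h2 : |y.v k ω i - y.v k ω' i| ≤ (S.chg Z c hc).dl (r / c + s) k := g' i
    rw [h1, hd] at h2
    rw [one_mul]
    exact le_of_mul_le_mul_left h2 (S.dl_pos r k)
  · apply VV.dg_le_dg _ _ _ _ (fun _ _ => True) Typ_true (fun _ => 1) ((S.chg Z c hc).Sub_const zero_le_one)
    filter_upwards [key] with k hk ω ω' a b _ _ g g' i
    have h1 := hk ω ω' a b g i
    rw [one_mul, hd]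
    show |y.v k ω i - y.v k ω' i| ≤ _
    rw [h1]
    exact mul_le_mul_of_nonneg_left (g' i) (S.dl_pos r k).le

end Sp

end

end Pool.Agent.Helper31.EC
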