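import Pool.Agent.Helper31.EC.Am

/-! Exact entropy calculus: amalgams of spaces, conditional copies. -/

namespace Pool.Agent.Helper31.EC

open Finset Filter Topology Pool.Agent.Helper69.RK

noncomputable section

/-- data for the amalgam of `W` and `S` over a common variable (which determines the base) -/
structure AmD (W S : Sp) where
  α : ℕ → Type
  f : ∀ k, (W.F k).Ω → α k
  g : ∀ k, (S.F k).Ω → α k
  law : ∀ k a, ms (W.F k).μ (f k) a = ms (S.F k).μ (g k) a
  Zr : ∀ k, Setoid (α k)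
  hZ1 : ∀ k ω ω', (W.F k).μ ω ≠ 0 → (W.F k).μ ω' ≠ 0 → ((W.F k).Z ω ω' ↔ Zr k (f k ω) (f k ω'))
  hZ2 : ∀ k ω ω', (S.F k).μ ω ≠ 0 → (S.F k).μ ω' ≠ 0 → ((S.F k).Z ω ω' ↔ Zr k (g k ω) (g k ω'))
  hn : ∀ k, (W.F k).n = (S.F k).n

namespace AmD

variable {W S : Sp} (D : AmD W S)

/-- the finite spaces of the amalgam -/
def fsp (k : ℕ) : FSp where
  Ω := (W.F k).Ω × (S.F k).Ω
  ft := inferInstance
  μ := amw (W.F k).μ (S.F k).μ (D.f k) (D.g k)
  nn := amw_nonneg _ _ _ _ (W.F k).nn (S.F k).nn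
  ms := by
    have h1 := (Pool.Agent.Helper70.RK.st_E5.1 (W.F k).Ω ((W.F k).Ω × (S.F k).Ω) Unit Unit
      (amw (W.F k).μ (S.F k).μ (D.f k) (D.g k)) Prod.fst (fun _ => ()) (fun _ => ())
      (amw_nonneg _ _ _ _ (W.F k).nn (S.F k).nn)).2.1
    rw [← h1, amw_push_fst _ _ _ _ (D.law k) (W.F k).nn, (W.F k).ms]
  Z := Setoid.comap Prod.fst (W.F k).Z
  n := (W.F k).n
  pos := (W.F k).pos

/-- the amalgam -/
def sp : Sp where
  F := D.fsp
  lim := W.lim

theorem supp (k : ℕ) (w : (W.F k).Ω × (S.F k).Ω) (h : (D.sp.F k).μ w ≠ 0) :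
    D.f k w.1 = D.g k w.2 ∧ (W.F k).μ w.1 ≠ 0 ∧ (S.F k).μ w.2 ≠ 0 := amw_supp _ _ _ _ w h

/-- the first projection -/
def p1 : Pj D.sp W where
  π := fun _ w => w.1
  law := fun k => amw_push_fst _ _ _ _ (D.law k) (W.F k).nn
  hZ := fun _ _ _ _ _ => Iff.rfl
  hn := fun _ => rfl

/-- the second projection -/
def p2 : Pj D.sp S where
  π := fun _ w => w.2
  law := fun k => amw_push_snd _ _ _ _ (D.law k) (S.F k).nn
  hZ := fun k w w' h h' => by
    obtain ⟨a, b, c⟩ := D.supp k w h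
    obtain ⟨a', b', c'⟩ := D.supp k w' h'
    rw [D.hZ2 k _ _ c c', ← a, ← a']
    exact D.hZ1 k _ _ b b'
  hn := fun k => D.hn k

/-- the common variable is common -/
theorem common (hg : Sp.Bdd D.g) : D.p1.map (Sp.io D.f) = D.p2.map (Sp.io D.g) := by
  rw [D.p1.map_io, D.p2.map_io]
  have h2 : Sp.Bdd (S := D.sp) (fun k w => D.g k (D.p2.π k w)) := (D.p2.bdd_iff D.g).mpr hg
  have h3 : ∀ᶠ k in UF, ∀ ω ω', (D.sp.F k).μ ω ≠ 0 → (D.sp.F k).μ ω' ≠ 0 → (D.sp.F k).Z ω ω' →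
      (D.g k (D.p2.π k ω) = D.g k (D.p2.π k ω')) → D.f k (D.p1.π k ω) = D.f k (D.p1.π k ω') := by
    refine Eventually.of_forall fun k w w' h h' _ e => ?_
    have a := (D.supp k w h).1
    have a' := (D.supp k w' h').1
    exact a.trans (e.trans a'.symm)
  have h4 : ∀ᶠ k in UF, ∀ ω ω', (D.sp.F k).μ ω ≠ 0 → (D.sp.F k).μ ω' ≠ 0 → (D.sp.F k).Z ω ω' →
      (D.f k (D.p1.π k ω) = D.f k (D.p1.π k ω')) → D.g k (D.p2.π k ω) = D.g k (D.p2.π k ω') := by
    refine Eventually.of_forall fun k w w' h h' _ e => ?_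
    have a := (D.supp k w h).1
    have a' := (D.supp k w' h').1
    exact a.symm.trans (e.trans a')
  apply le_antisymm
  · exact Sp.io_le_of_fun h2 h3
  · exact Sp.io_le_of_fun (h2.of_fun h3) h4

/-- `W` and `S` are conditionally independent in the amalgam -/
theorem indep (hf : Sp.Bdd D.f) (x : W.L) (y : S.L) :
    I (D.p1.map x) (D.p2.map y) (D.p1.map (Sp.io D.f)) = 0 := by
  induction x using Sp.cl_ind with | _ A
  induction y using Sp.cl_ind with | _ B
  rw [I_zero_iff_h, Sp.io_eq hf, D.p1.map_cl, D.p1.map_cl, D.p2.map_cl, ← Sp.cl_sup, Sp.h_cl, Sp.h_cl]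
  apply ul_congr
  refine Eventually.of_forall fun k => ?_
  unfold Sp.rt
  congr 1
  have e1 : (D.sp.F k).e ((D.p1.mapI A).1 k) ((Sp.Inf.sup (D.p2.mapI B) (D.p1.mapI hf.toInf)).1 k ⊓ (D.sp.F k).Z) =
      CH (amw (W.F k).μ (S.F k).μ (D.f k) (D.g k)) (fun w => Quotient.mk (A.1 k) w.1)
        (fun w => (Quotient.mk (B.1 k) w.2, D.f k w.1)) := by
    apply (D.sp.F k).e_congr
    · intro w w' _ _
      exact (Quotient.eq (r := A.1 k)).symm
    · intro w w' h h'
      obtain ⟨_, b, _⟩ := D.supp k w h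
      obtain ⟨_, b', _⟩ := D.supp k w' h'
      rw [Prod.mk.injEq]
      constructor
      · rintro ⟨⟨c1, c2⟩, _⟩
        exact ⟨Quotient.sound c1, c2⟩
      · rintro ⟨c1, c2⟩
        refine ⟨⟨(Quotient.eq (r := B.1 k)).mp c1, c2⟩, ?_⟩
        show (W.F k).Z w'.1 w.1
        rw [D.hZ1 k _ _ b' b, c2]
  have e2 : (D.sp.F k).e ((D.p1.mapI A).1 k) ((D.p1.mapI hf.toInf).1 k ⊓ (D.sp.F k).Z) =
      CH (W.F k).μ (Quotient.mk (A.1 k)) (D.f k) := by
    have e3 : (D.sp.F k).e ((D.p1.mapI A).1 k) ((D.p1.mapI hf.toInf).1 k ⊓ (D.sp.F k).Z) =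
        (W.F k).e (A.1 k) (hf.toInf.1 k ⊓ (W.F k).Z) := by
      rw [← D.p1.e_comap]
      rfl
    rw [e3]
    apply (W.F k).e_congr
    · intro w w' _ _
      exact (Quotient.eq (r := A.1 k)).symm
    · intro w w' b b'
      constructor
      · rintro ⟨c, _⟩
        exact c
      · intro c
        refine ⟨c, ?_⟩
        show (W.F k).Z w' w
        rw [D.hZ1 k _ _ b' b, c]
  rw [e1, e2]
  exact amw_CH _ _ _ _ (D.law k) (W.F k).nn (S.F k).nn _ _

end AmD

theorem ms_push {Ω Ω' α : Type} [Fintype Ω] [Fintype Ω'] (π : Ω' → Ω) (μ' : Ω' → ℝ) (g : Ω → α) (a : α) :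
    ms μ' (fun ω => g (π ω)) a = ms (push π μ') g a := by
  unfold ms
  have h1 : ∀ ω, e1_ind (g ω = a) * push π μ' ω = ∑ x, e1_ind (π x = ω) * (e1_ind (g (π x) = a) * μ' x) := by
    intro ω
    rw [push_ind, Finset.mul_sum]
    apply Finset.sum_congr rfl
    intro x _
    by_cases h : π x = ω
    · rw [h]; ring
    · rw [e1_ind_neg h]; ring
  rw [Finset.sum_congr rfl (fun ω _ => h1 ω), Finset.sum_comm]
  apply Finset.sum_congr rfl
  intro x _
  rw [Finset.sum_eq_single (π x)]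
  · rw [e1_ind_pos rfl, one_mul]
  · intro b _ hb
    rw [e1_ind_neg (fun h => hb h.symm), zero_mul]
  · intro h
    exact absurd (Finset.mem_univ _) h

namespace Pj

variable {W S : Sp}

/-- `W` and a new copy of `S` which agree in the variable `V` of `S` (and in the base) -/
def join (p : Pj W S) {α : ℕ → Type} (V : ∀ k, (S.F k).Ω → α k) : AmD W S where
  α := fun k => α k × Quotient (S.F k).Z
  f := fun k ω => (V k (p.π k ω), Quotient.mk (S.F k).Z (p.π k ω))
  g := fun k ω => (V k ω, Quotient.mk (S.F k).Z ω)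
  law := by
    intro k a
    have h1 := ms_push (p.π k) (W.F k).μ (fun ω => (V k ω, Quotient.mk (S.F k).Z ω)) a
    rw [p.law k] at h1
    exact h1
  Zr := fun k => Setoid.ker Prod.snd
  hZ1 := by
    intro k ω ω' h h'
    rw [p.hZ k ω ω' h h']
    exact (Quotient.eq (r := (S.F k).Z)).symm
  hZ2 := by
    intro k ω ω' _ _
    exact (Quotient.eq (r := (S.F k).Z)).symm
  hn := p.hn

variable (p : Pj W S) {α : ℕ → Type} (V : ∀ k, (S.F k).Ω → α k)

theorem bdd_with_base {S : Sp} {α : ℕ → Type} {V : ∀ k, (S.F k).Ω → α k} (hV : Sp.Bdd V) :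
    Sp.Bdd (S := S) (fun k ω => (V k ω, Quotient.mk (S.F k).Z ω)) := by
  apply hV.of_fun
  refine Eventually.of_forall fun k ω ω' _ _ hZ e => ?_
  rw [e, Quotient.sound hZ]

theorem io_with_base {S : Sp} {α : ℕ → Type} {V : ∀ k, (S.F k).Ω → α k} (hV : Sp.Bdd V) :
    Sp.io (S := S) (fun k ω => (V k ω, Quotient.mk (S.F k).Z ω)) = Sp.io V := by
  apply le_antisymm
  · apply Sp.io_le_of_fun hV
    refine Eventually.of_forall fun k ω ω' _ _ hZ e => ?_
    rw [e, Quotient.sound hZ]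
  · exact Sp.io_comp_le (bdd_with_base hV) (fun _ x => x.1)

/-- the common variable -/
theorem join_common (hV : Sp.Bdd V) :
    (p.join V).p1.map (p.map (Sp.io V)) = (p.join V).p2.map (Sp.io V) := by
  have h1 := (p.join V).common (bdd_with_base hV)
  have h2 : Sp.io (p.join V).g = Sp.io V := io_with_base hV
  have h3 : Sp.io (p.join V).f = p.map (Sp.io V) := by
    rw [← io_with_base hV, p.map_io]
    rfl
  rw [h2, h3] at h1
  exact h1

theorem join_indep (hV : Sp.Bdd V) (x : W.L) (y : S.L) :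
    I ((p.join V).p1.map x) ((p.join V).p2.map y) ((p.join V).p1.map (p.map (Sp.io V))) = 0 := by
  have h3 : Sp.io (p.join V).f = p.map (Sp.io V) := by
    rw [← io_with_base hV, p.map_io]
    rfl
  have h4 : Sp.Bdd (p.join V).f := by
    have h5 := (p.bdd_iff (fun k ω => (V k ω, Quotient.mk (S.F k).Z ω))).mpr (bdd_with_base hV)
    exact h5
  have h1 := (p.join V).indep h4 x y
  rw [h3] at h1
  exact h1

/-- the new copy agrees literally with the old one in `V` on the support -/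
theorem join_supp (k : ℕ) (w : ((p.join V).sp.F k).Ω) (h : ((p.join V).sp.F k).μ w ≠ 0) :
    V k (p.π k w.1) = V k w.2 := by
  have h1 := ((p.join V).supp k w h).1
  have h2 : (V k (p.π k w.1), Quotient.mk (S.F k).Z (p.π k w.1)) = (V k w.2, Quotient.mk (S.F k).Z w.2) := h1
  rw [Prod.mk.injEq] at h2
  exact h2.1

end Pj

end

end Pool.Agent.Helper31.EC
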