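import Pool.Agent.Helper31.EC.Sys

/-! Exact entropy calculus: zooms of systems of lines. -/

namespace Pool.Agent.Helper31.EC

open Finset Filter Topology Pool.Agent.Helper69.RK

noncomputable section

namespace Sp

variable {S : Sp} {m : ℕ}

/-- the corner of the cell of level `r` -/
def VV.fl (y : S.VV m) (r : ℝ) (hr : 0 ≤ r) : S.VV m where
  v := fun k ω i => ⌊y.v k ω i / S.dl r k⌋ * S.dl r k
  bd := by
    obtain ⟨K, hK, h⟩ := y.bd
    refine ⟨_, hK.add (S.Sub_const zero_le_one), ?_⟩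
    filter_upwards [h] with k hk ω hω i
    have h1 := abs_le.mp (hk ω hω i)
    have hd := S.dl_pos r k
    have hd1 : S.dl r k ≤ 1 := by
      have := S.dl_anti hr k
      rwa [dl_zero] at this
    have h2 := Int.floor_le (y.v k ω i / S.dl r k)
    have h3 := Int.lt_floor_add_one (y.v k ω i / S.dl r k)
    have h4 : (⌊y.v k ω i / S.dl r k⌋ : ℝ) * S.dl r k ≤ y.v k ω i := by
      rwa [le_div_iff₀ hd] at h2
    have h5 : y.v k ω i < ((⌊y.v k ω i / S.dl r k⌋ : ℝ) + 1) * S.dl r k := by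
      rwa [div_lt_iff₀ hd] at h3
    rw [abs_le]
    constructor <;> linarith [h1.1, h1.2]

theorem VV.fl_sub (y : S.VV m) (r : ℝ) (hr : 0 ≤ r) (k : ℕ) (ω : (S.F k).Ω) (i : Fin m) :
    0 ≤ y.v k ω i - (y.fl r hr).v k ω i ∧ y.v k ω i - (y.fl r hr).v k ω i < S.dl r k := by
  have hd := S.dl_pos r k
  have h2 := Int.floor_le (y.v k ω i / S.dl r k)
  have h3 := Int.lt_floor_add_one (y.v k ω i / S.dl r k)
  rw [le_div_iff₀ hd] at h2
  rw [div_lt_iff₀ hd] at h3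
  show 0 ≤ y.v k ω i - ⌊y.v k ω i / S.dl r k⌋ * S.dl r k ∧ y.v k ω i - ⌊y.v k ω i / S.dl r k⌋ * S.dl r k < _
  constructor <;> linarith

/-- the corner is a function of the cell -/
theorem VV.fl_dg_le (y : S.VV m) (r : ℝ) (hr : 0 ≤ r) (l : ℝ) : (y.fl r hr).dg l ≤ y.dg r := by
  apply VV.dg_le_io _ _ (y.bdd r) (fun _ _ => True) Typ_true (fun _ => 0) (S.Sub_const le_rfl)
  refine Eventually.of_forall fun k ω ω' _ _ _ _ _ g i => ?_
  have h1 : ⌊y.v k ω i / S.dl r k⌋ = ⌊y.v k ω' i / S.dl r k⌋ := congrFun g i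
  show |(⌊y.v k ω i / S.dl r k⌋ : ℝ) * S.dl r k - ⌊y.v k ω' i / S.dl r k⌋ * S.dl r k| ≤ _
  rw [h1, sub_self, abs_zero, zero_mul]

/-- the cell is a function of the corner -/
theorem VV.dg_le_fl (y : S.VV m) (r : ℝ) (hr : 0 ≤ r) {l : ℝ} (hl : l ≤ r) : y.dg l ≤ (y.fl r hr).dg l := by
  apply VV.dg_le_dg _ _ _ _ (fun _ _ => True) Typ_true (fun _ => 3) (S.Sub_const (by norm_num))
  refine Eventually.of_forall fun k ω ω' _ _ _ _ _ g i => ?_
  have h1 := y.fl_sub r hr k ω i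
  have h2 := y.fl_sub r hr k ω' i
  have h3 := abs_le.mp (g i)
  have h4 := S.dl_anti hl k
  rw [abs_le]
  constructor <;> linarith [h3.1, h3.2, h1.1, h1.2, h2.1, h2.2]

end Sp

open Sp

namespace Sys

variable {S : Sp} {m : ℕ}

/-- data of a zoom: lines `(a, x)` and heights `t`, the base knows the cell of level `c` of the height, the cell of
level `u` of the direction and the cell of level `c + u` of the point at the corner of the height cell; the remaining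
digits of the height are independent of the line -/
structure ZD (S : Sp) (m : ℕ) where
  a : S.VV m
  x : S.VV m
  t : S.VV 1
  c : ℝ
  u : ℝ
  c0 : 0 ≤ c
  u0 : 0 ≤ u
  s1 : c + u < 1
  hb : ∀ᶠ k in UF, ∀ ω ω', (S.F k).μ ω ≠ 0 → (S.F k).μ ω' ≠ 0 → (S.F k).Z ω ω' →
    t.cellv c k ω = t.cellv c k ω' ∧ x.cellv u k ω = x.cellv u k ω' ∧
      (VV.pt a x (t.fl c c0)).cellv (c + u) k ω = (VV.pt a x (t.fl c c0)).cellv (c + u) k ω'
  ht : h (t.dg 1) (a.dg 1 ⊔ x.dg 1) = 1 - c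

namespace ZD

variable (D : ZD S m)

/-- the point at the corner of the height cell -/
def b : S.VV m := VV.pt D.a D.x (D.t.fl D.c D.c0)

/-- relative depth of the zoom -/
def e : ℝ := 1 - (D.c + D.u)

theorem e_pos : 0 < D.e := by
  have := D.s1
  unfold e; linarith

/-- the space of the zoom -/
def sp : Sp := S.chg S.tr D.e D.e_pos

def a' : D.sp.VV m := D.b.zm S.tr D.e D.e_pos (D.c + D.u)
def x' : D.sp.VV m := D.x.zm S.tr D.e D.e_pos D.u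
def t' : D.sp.VV 1 := D.t.zm S.tr D.e D.e_pos D.c

/-- the map of entropy lattices -/
def L : S.L → D.sp.L := chgL S.tr D.e D.e_pos

theorem hZ_tr (x : S.L) : hZ S.tr x = H x := by
  induction x using cl_ind with | _ A
  rw [hZ_cl, H_cl]

theorem H_L (x : S.L) : H (D.L x) = H x / D.e := by
  have h1 := H_chgL S.tr D.e D.e_pos x
  rw [hZ_tr] at h1
  exact h1

theorem L_sup (x y : S.L) : D.L (x ⊔ y) = D.L x ⊔ D.L y := chgL_sup _ _ _ x y

theorem h_L (x y : S.L) : h (D.L x) (D.L y) = h x y / D.e := by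
  unfold h
  rw [← L_sup, H_L, H_L]; ring

theorem L_mono {x y : S.L} (h : x ≤ y) : D.L x ≤ D.L y := chgL_mono _ _ _ h

theorem L_bot : D.L ⊥ = ⊥ := rfl

theorem t'_dg (w : ℝ) : D.t'.dg w = D.L (D.t.dg (D.c + D.e * w)) := by
  apply VV.zm_dg
  filter_upwards [D.hb] with k hk ω ω' a b g
  exact (hk ω ω' a b g.2).1

theorem x'_dg (w : ℝ) : D.x'.dg w = D.L (D.x.dg (D.u + D.e * w)) := by
  apply VV.zm_dg
  filter_upwards [D.hb] with k hk ω ω' a b g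
  exact (hk ω ω' a b g.2).2.1

theorem a'_dg (w : ℝ) : D.a'.dg w = D.L (D.b.dg (D.c + D.u + D.e * w)) := by
  apply VV.zm_dg
  filter_upwards [D.hb] with k hk ω ω' a b g
  exact (hk ω ω' a b g.2).2.2

/-- the height cell is in the base -/
theorem t_base {r : ℝ} (hr : r ≤ D.c) : D.t.dg r = ⊥ := by
  apply le_antisymm _ bot_le
  refine (D.t.dg_mono hr).trans ?_
  rw [← cl_bot]
  apply D.t.dg_le_cl _ Inf.bot (fun _ _ => True) Typ_true (fun _ => 1) (S.Sub_const zero_le_one)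
  filter_upwards [D.hb] with k hk ω ω' a b _ _ g _ i
  rw [one_mul]
  exact D.t.cellv_close D.c k ω ω' (hk ω ω' a b g).1 i

theorem x_base {r : ℝ} (hr : r ≤ D.u) : D.x.dg r = ⊥ := by
  apply le_antisymm _ bot_le
  refine (D.x.dg_mono hr).trans ?_
  rw [← cl_bot]
  apply D.x.dg_le_cl _ Inf.bot (fun _ _ => True) Typ_true (fun _ => 1) (S.Sub_const zero_le_one)
  filter_upwards [D.hb] with k hk ω ω' a b _ _ g _ i
  rw [one_mul]
  exact D.x.cellv_close D.u k ω ω' (hk ω ω' a b g).2.1 i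

theorem b_base {r : ℝ} (hr : r ≤ D.c + D.u) : D.b.dg r = ⊥ := by
  apply le_antisymm _ bot_le
  refine (D.b.dg_mono hr).trans ?_
  rw [← cl_bot]
  apply D.b.dg_le_cl _ Inf.bot (fun _ _ => True) Typ_true (fun _ => 1) (S.Sub_const zero_le_one)
  filter_upwards [D.hb] with k hk ω ω' a b _ _ g _ i
  rw [one_mul]
  exact D.b.cellv_close (D.c + D.u) k ω ω' (hk ω ω' a b g).2.2 i

/-- the point at the corner is a function of the line -/
theorem b_le {r : ℝ} : D.b.dg r ≤ D.a.dg r ⊔ D.x.dg r := by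
  refine (VV.pt_dg_le _ _ _ r).trans (sup_le le_rfl ?_)
  refine (VV.fl_dg_le _ _ _ _).trans ?_
  rw [D.t_base le_rfl]
  exact bot_le

theorem h_t {r : ℝ} (h0 : D.c ≤ r) (h1 : r ≤ 1) : h (D.t.dg r) (D.a.dg 1 ⊔ D.x.dg 1) = r - D.c := by
  apply le_antisymm
  · have h2 := D.t.h_dg_dg h0
    rw [D.t_base le_rfl, h_bot] at h2
    have h3 := h_le_H (D.t.dg r) (D.a.dg 1 ⊔ D.x.dg 1)
    simp only [Nat.cast_one, one_mul] at h2
    linarith
  · have e1 : D.t.dg 1 = D.t.dg r ⊔ D.t.dg 1 := (sup_eq_right.mpr (D.t.dg_mono h1)).symm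
    have h2 := D.ht
    have h3 : h (D.t.dg r ⊔ D.t.dg 1) (D.a.dg 1 ⊔ D.x.dg 1) =
      h (D.t.dg r) (D.a.dg 1 ⊔ D.x.dg 1) + h (D.t.dg 1) (D.t.dg r ⊔ (D.a.dg 1 ⊔ D.x.dg 1)) := h_chain _ _ _
    rw [← e1] at h3
    have h4 : h (D.t.dg 1) (D.t.dg r ⊔ (D.a.dg 1 ⊔ D.x.dg 1)) ≤ h (D.t.dg 1) (D.t.dg r) := h_anti le_sup_left
    have h5 := D.t.h_dg_dg h1
    simp only [Nat.cast_one, one_mul] at h5
    linarith

/-- THE ZOOM IS A SYSTEM -/
def sys : Sys D.sp m where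
  a := D.a'
  x := D.x'
  t := D.t'
  ht := by
    rw [D.t'_dg, D.a'_dg, D.x'_dg, ← D.L_sup, D.h_L]
    have h1 : D.c + D.e * 1 ≤ 1 := by
      have := D.u0
      unfold e; linarith
    have h2 : D.c ≤ D.c + D.e * 1 := by
      have := D.e_pos
      linarith
    have h3 : h (D.t.dg (D.c + D.e * 1)) (D.b.dg (D.c + D.u + D.e * 1) ⊔ D.x.dg (D.u + D.e * 1)) = D.e := by
      apply le_antisymm
      · have h4 := D.t.h_dg_dg h2
        rw [D.t_base le_rfl, h_bot] at h4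
        have h5 := h_le_H (D.t.dg (D.c + D.e * 1)) (D.b.dg (D.c + D.u + D.e * 1) ⊔ D.x.dg (D.u + D.e * 1))
        simp only [Nat.cast_one, one_mul, mul_one, add_sub_cancel_left] at h4 h5 ⊢
        linarith
      · have h6 : D.b.dg (D.c + D.u + D.e * 1) ⊔ D.x.dg (D.u + D.e * 1) ≤ D.a.dg 1 ⊔ D.x.dg 1 := by
          have h7 : D.c + D.u + D.e * 1 ≤ 1 := by unfold e; linarith
          have h8 : D.u + D.e * 1 ≤ 1 := by
            have := D.c0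
            unfold e; linarith
          apply sup_le
          · exact D.b_le.trans (sup_le_sup (D.a.dg_mono h7) (D.x.dg_mono h7))
          · exact (D.x.dg_mono h8).trans le_sup_right
        have h9 := h_anti (A := D.t.dg (D.c + D.e * 1)) h6
        rw [D.h_t h2 h1] at h9
        linarith
    rw [h3, div_self D.e_pos.ne']

/-- the identity behind the zoom -/
theorem key (k : ℕ) (ω ω' : (S.F k).Ω) (i : Fin m)
    (h1 : D.t.cellv D.c k ω = D.t.cellv D.c k ω') (h2 : D.x.cellv D.u k ω = D.x.cellv D.u k ω')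
    (h3 : D.b.cellv (D.c + D.u) k ω = D.b.cellv (D.c + D.u) k ω') :
    (VV.pt D.a D.x D.t).v k ω i - (VV.pt D.a D.x D.t).v k ω' i =
      S.dl (D.c + D.u) k * ((VV.pt D.a' D.x' D.t').v k ω i - (VV.pt D.a' D.x' D.t').v k ω' i) +
        (D.t.v k ω 0 - D.t.v k ω' 0) * (D.x.fl D.u D.u0).v k ω i := by
  have e1 : ⌊D.t.v k ω 0 / S.dl D.c k⌋ = ⌊D.t.v k ω' 0 / S.dl D.c k⌋ := congrFun h1 0
  have e2 : ⌊D.x.v k ω i / S.dl D.u k⌋ = ⌊D.x.v k ω' i / S.dl D.u k⌋ := congrFun h2 i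
  have e3 : ⌊D.b.v k ω i / S.dl (D.c + D.u) k⌋ = ⌊D.b.v k ω' i / S.dl (D.c + D.u) k⌋ := congrFun h3 i
  have hc := (S.dl_pos D.c k).ne'
  have hu := (S.dl_pos D.u k).ne'
  have hs := (S.dl_pos (D.c + D.u) k).ne'
  show (D.a.v k ω i + D.t.v k ω 0 * D.x.v k ω i) - (D.a.v k ω' i + D.t.v k ω' 0 * D.x.v k ω' i) =
    S.dl (D.c + D.u) k * (((D.b.v k ω i / S.dl (D.c + D.u) k - ⌊D.b.v k ω i / S.dl (D.c + D.u) k⌋) +
      (D.t.v k ω 0 / S.dl D.c k - ⌊D.t.v k ω 0 / S.dl D.c k⌋) *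
        (D.x.v k ω i / S.dl D.u k - ⌊D.x.v k ω i / S.dl D.u k⌋)) -
      ((D.b.v k ω' i / S.dl (D.c + D.u) k - ⌊D.b.v k ω' i / S.dl (D.c + D.u) k⌋) +
      (D.t.v k ω' 0 / S.dl D.c k - ⌊D.t.v k ω' 0 / S.dl D.c k⌋) *
        (D.x.v k ω' i / S.dl D.u k - ⌊D.x.v k ω' i / S.dl D.u k⌋))) +
      (D.t.v k ω 0 - D.t.v k ω' 0) * (⌊D.x.v k ω i / S.dl D.u k⌋ * S.dl D.u k)
  have b1 : D.b.v k ω i = D.a.v k ω i + ⌊D.t.v k ω 0 / S.dl D.c k⌋ * S.dl D.c k * D.x.v k ω i := rfl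
  have b2 : D.b.v k ω' i = D.a.v k ω' i + ⌊D.t.v k ω' 0 / S.dl D.c k⌋ * S.dl D.c k * D.x.v k ω' i := rfl
  rw [← e1, ← e2, ← e3]
  rw [← e1] at b2
  have hsd : S.dl (D.c + D.u) k = S.dl D.c k * S.dl D.u k := S.dl_add _ _ _
  set f1 : ℝ := (⌊D.t.v k ω 0 / S.dl D.c k⌋ : ℝ)
  set f2 : ℝ := (⌊D.x.v k ω i / S.dl D.u k⌋ : ℝ)
  set f3 : ℝ := (⌊D.b.v k ω i / S.dl (D.c + D.u) k⌋ : ℝ)
  rw [b1, b2, hsd]
  field_simp
  ring

/-- the point in the old space -/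
def P : S.VV m := VV.pt D.a D.x D.t

theorem P_chg_dg (w : ℝ) :
    (D.P.chg S.tr D.e D.e_pos).dg ((D.c + D.u) / D.e + w) = D.L (D.P.dg (D.c + D.u + D.e * w)) := by
  rw [VV.chg_dg]
  have h1 : D.e * ((D.c + D.u) / D.e + w) = D.c + D.u + D.e * w := by
    have := D.e_pos.ne'
    field_simp
  rw [h1]
  rfl

theorem T_chg_dg : (D.t.chg S.tr D.e D.e_pos).dg (1 / D.e) = D.L (D.t.dg 1) := by
  rw [VV.chg_dg]
  have h1 : D.e * (1 / D.e) = 1 := by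
    have := D.e_pos.ne'
    field_simp
  rw [h1]
  rfl

theorem dl_P (w : ℝ) (k : ℕ) : D.sp.dl ((D.c + D.u) / D.e + w) k = S.dl (D.c + D.u) k * D.sp.dl w k := by
  unfold sp
  rw [chg_dl, chg_dl, ← dl_add]
  congr 1
  have := D.e_pos.ne'
  field_simp

theorem dl_T (k : ℕ) : D.sp.dl (1 / D.e) k = S.dl 1 k := by
  unfold sp
  rw [chg_dl]
  congr 1
  have := D.e_pos.ne'
  field_simp

theorem dl_one_le {w : ℝ} (hw : D.c + D.u + D.e * w ≤ 1) (k : ℕ) :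
    S.dl 1 k ≤ S.dl (D.c + D.u) k * D.sp.dl w k := by
  unfold sp
  rw [chg_dl, ← dl_add]
  exact S.dl_anti hw k

/-- the digits of the point of the zoom, given the height: they are the digits of the old point -/
theorem P'_sup (w : ℝ) (hw : D.c + D.u + D.e * w ≤ 1) :
    D.sys.P.dg w ⊔ D.L (D.t.dg 1) = D.L (D.P.dg (D.c + D.u + D.e * w) ⊔ D.t.dg 1) := by
  obtain ⟨K, hK, hKb⟩ := (D.x.fl D.u D.u0).bd
  have hK' : D.sp.Sub K := chg_sub S.tr D.e D.e_pos hK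
  rw [D.L_sup]
  apply le_antisymm
  · apply sup_le _ le_sup_right
    rw [← D.P_chg_dg, ← D.T_chg_dg]
    apply VV.dg_le_dg2 _ _ _ _ _ _ (fun _ _ => True) Typ_true (fun k => 1 + K k)
      ((D.sp.Sub_const zero_le_one).add hK')
    filter_upwards [D.hb, hKb] with k hk hx ω ω' a b _ _ g g' g'' i
    have hk' := hk ω ω' a b g.2
    have h1 := D.key k ω ω' i hk'.1 hk'.2.1 hk'.2.2
    have h2 : |D.P.v k ω i - D.P.v k ω' i| ≤ D.sp.dl ((D.c + D.u) / D.e + w) k := g' i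
    have h3 : |D.t.v k ω 0 - D.t.v k ω' 0| ≤ D.sp.dl (1 / D.e) k := g'' 0
    rw [D.dl_P] at h2
    rw [D.dl_T] at h3
    have h4 := hx ω a i
    have h5 := D.dl_one_le hw k
    have hs := S.dl_pos (D.c + D.u) k
    have h6 : |(D.t.v k ω 0 - D.t.v k ω' 0) * (D.x.fl D.u D.u0).v k ω i| ≤
        S.dl (D.c + D.u) k * (K k * D.sp.dl w k) := by
      rw [abs_mul]
      calc _ ≤ S.dl 1 k * K k := mul_le_mul h3 h4 (abs_nonneg _) (S.dl_pos 1 k).le
        _ ≤ (S.dl (D.c + D.u) k * D.sp.dl w k) * K k :=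
          mul_le_mul_of_nonneg_right h5 ((abs_nonneg _).trans h4)
        _ = _ := by ring
    have h7 : S.dl (D.c + D.u) k * |D.sys.P.v k ω i - D.sys.P.v k ω' i| ≤
        S.dl (D.c + D.u) k * ((1 + K k) * D.sp.dl w k) := by
      have h8 : S.dl (D.c + D.u) k * (D.sys.P.v k ω i - D.sys.P.v k ω' i) =
          (D.P.v k ω i - D.P.v k ω' i) - (D.t.v k ω 0 - D.t.v k ω' 0) * (D.x.fl D.u D.u0).v k ω i := by
        have h9 : D.P.v k ω i - D.P.v k ω' i = S.dl (D.c + D.u) k * (D.sys.P.v k ω i - D.sys.P.v k ω' i) +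
            (D.t.v k ω 0 - D.t.v k ω' 0) * (D.x.fl D.u D.u0).v k ω i := h1
        linarith
      have h10 : S.dl (D.c + D.u) k * |D.sys.P.v k ω i - D.sys.P.v k ω' i| =
          |S.dl (D.c + D.u) k * (D.sys.P.v k ω i - D.sys.P.v k ω' i)| := by
        rw [abs_mul, abs_of_pos hs]
      rw [h10, h8]
      refine (abs_sub _ _).trans ?_
      linarith
    exact le_of_mul_le_mul_left h7 hs
  · apply sup_le _ le_sup_right
    rw [← D.P_chg_dg, ← D.T_chg_dg]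
    apply VV.dg_le_dg2 _ _ _ _ _ _ (fun _ _ => True) Typ_true (fun k => 1 + K k)
      ((D.sp.Sub_const zero_le_one).add hK')
    filter_upwards [D.hb, hKb] with k hk hx ω ω' a b _ _ g g' g'' i
    have hk' := hk ω ω' a b g.2
    have h1 := D.key k ω ω' i hk'.1 hk'.2.1 hk'.2.2
    have h2 : |D.sys.P.v k ω i - D.sys.P.v k ω' i| ≤ D.sp.dl w k := g' i
    have h3 : |D.t.v k ω 0 - D.t.v k ω' 0| ≤ D.sp.dl (1 / D.e) k := g'' 0
    rw [D.dl_T] at h3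
    have h4 := hx ω a i
    have h5 := D.dl_one_le hw k
    have hs := S.dl_pos (D.c + D.u) k
    have h6 : |(D.t.v k ω 0 - D.t.v k ω' 0) * (D.x.fl D.u D.u0).v k ω i| ≤
        S.dl (D.c + D.u) k * (K k * D.sp.dl w k) := by
      rw [abs_mul]
      calc _ ≤ S.dl 1 k * K k := mul_le_mul h3 h4 (abs_nonneg _) (S.dl_pos 1 k).le
        _ ≤ (S.dl (D.c + D.u) k * D.sp.dl w k) * K k :=
          mul_le_mul_of_nonneg_right h5 ((abs_nonneg _).trans h4)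
        _ = _ := by ring
    have h9 : D.P.v k ω i - D.P.v k ω' i = S.dl (D.c + D.u) k * (D.sys.P.v k ω i - D.sys.P.v k ω' i) +
        (D.t.v k ω 0 - D.t.v k ω' 0) * (D.x.fl D.u D.u0).v k ω i := h1
    show |D.P.v k ω i - D.P.v k ω' i| ≤ _
    rw [h9, D.dl_P]
    refine (abs_add_le _ _).trans ?_
    rw [abs_mul, abs_of_pos hs]
    have h11 := mul_le_mul_of_nonneg_left h2 hs.le
    linarith

/-- all digits of the height of the old system, given the lines of the zoom -/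
theorem L_line_le {Y : S.L} (hY : Y ≤ D.a.dg 1 ⊔ D.x.dg 1) :
    h (D.L Y) (D.L (D.t.dg 1)) = H (D.L Y) := by
  rw [D.h_L, D.H_L]
  congr 1
  have h1 : I (D.t.dg 1) (D.a.dg 1 ⊔ D.x.dg 1) ⊥ = 0 := by
    rw [I_eq, h_bot, sup_bot_eq, D.ht]
    have h2 : H (D.t.dg 1) = 1 - D.c := by
      apply le_antisymm
      · have h4 := D.t.h_dg_dg (show D.c ≤ 1 by have := D.s1; have := D.u0; linarith)
        rw [D.t_base le_rfl, h_bot] at h4
        simpa using h4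
      · have h3 := h_le_H (D.t.dg 1) (D.a.dg 1 ⊔ D.x.dg 1)
        rw [D.ht] at h3
        exact h3
    rw [h2, sub_self]
  have h2 : I (D.t.dg 1) Y ⊥ = 0 := I_zero_mono h1 (by rw [sup_bot_eq]) (by rw [sup_bot_eq]; exact hY)
  rw [I_eq', h_bot, sup_bot_eq] at h2
  linarith

theorem T'_le : D.sys.T ≤ D.L (D.t.dg 1) := by
  show D.t'.dg 1 ≤ _
  rw [D.t'_dg]
  apply D.L_mono
  apply D.t.dg_mono
  have := D.u0
  unfold e; linarith

theorem xi'_le : D.sys.xi 1 ≤ D.L (D.a.dg 1 ⊔ D.x.dg 1) := by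
  show D.a'.dg 1 ⊔ D.x'.dg 1 ≤ _
  rw [D.a'_dg, D.x'_dg, ← D.L_sup]
  apply D.L_mono
  have h7 : D.c + D.u + D.e * 1 ≤ 1 := by unfold e; linarith
  have h8 : D.u + D.e * 1 ≤ 1 := by
    have := D.c0
    unfold e; linarith
  exact sup_le (D.b_le.trans (sup_le_sup (D.a.dg_mono h7) (D.x.dg_mono h7)))
    ((D.x.dg_mono h8).trans le_sup_right)

theorem I_T_old : I (D.L (D.t.dg 1)) (D.L (D.a.dg 1 ⊔ D.x.dg 1)) ⊥ = 0 := by
  rw [I_eq', h_bot, sup_bot_eq, D.L_line_le le_rfl, sub_self]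

/-- for functions of the zoomed line and height, all old digits of the height may be given -/
theorem h_T'_eq {X : D.sp.L} (hX : X ≤ D.sys.xi 1 ⊔ D.sys.T) : h X D.sys.T = h X (D.L (D.t.dg 1)) := by
  have h1 := D.I_T_old
  have h2 : I (D.L (D.t.dg 1)) (D.sys.xi 1) ⊥ = 0 :=
    I_zero_mono h1 (by rw [sup_bot_eq]) (by rw [sup_bot_eq]; exact D.xi'_le)
  have e1 : D.sys.T ⊔ D.L (D.t.dg 1) = D.L (D.t.dg 1) := sup_eq_right.mpr D.T'_le
  have h3 : I (D.L (D.t.dg 1)) (D.sys.xi 1) D.sys.T = 0 := by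
    have h4 : I (D.sys.T ⊔ D.L (D.t.dg 1)) (D.sys.xi 1) ⊥ = 0 := by rw [e1]; exact h2
    rw [I_chain, sup_bot_eq] at h4
    have a := I_nonneg D.sys.T (D.sys.xi 1) ⊥
    have b := I_nonneg (D.L (D.t.dg 1)) (D.sys.xi 1) D.sys.T
    linarith
  have h5 : I (D.L (D.t.dg 1)) X D.sys.T = 0 := I_zero_mono h3 le_sup_left hX
  rw [I_zero_iff_h'] at h5
  rw [← h5, sup_comm, e1]

/-- PROFILE OF THE ZOOM -/
theorem F_zoom {w₁ w₂ : ℝ} (h1 : w₁ ≤ 1) (h2 : w₂ ≤ 1) :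
    D.sys.F w₁ w₂ = h (D.x.dg (D.u + D.e * w₁) ⊔ D.P.dg (D.c + D.u + D.e * w₂)) (D.t.dg 1) / D.e := by
  have hw : D.c + D.u + D.e * w₂ ≤ 1 := by
    have h3 := mul_le_mul_of_nonneg_left h2 D.e_pos.le
    have h4 : D.e = 1 - (D.c + D.u) := rfl
    linarith
  have hX : D.sys.x.dg w₁ ⊔ D.sys.P.dg w₂ ≤ D.sys.xi 1 ⊔ D.sys.T :=
    sup_le ((D.sys.x_le_xi h1).trans le_sup_left) ((D.sys.P_le h2).trans (sup_le_sup_right (D.sys.xi_mono h2) _))
  have h5 : D.sys.F w₁ w₂ = h (D.sys.x.dg w₁ ⊔ D.sys.P.dg w₂) (D.L (D.t.dg 1)) := D.h_T'_eq hX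
  rw [h5, ← D.h_L]
  have h6 := D.P'_sup w₂ hw
  have h7 : D.sys.x.dg w₁ = D.L (D.x.dg (D.u + D.e * w₁)) := D.x'_dg w₁
  rw [h7, D.L_sup]
  rw [D.L_sup] at h6
  unfold h
  rw [sup_assoc, sup_assoc, h6]

theorem P'_zoom {w : ℝ} (h2 : w ≤ 1) :
    h (D.sys.P.dg w) D.sys.T = h (D.P.dg (D.c + D.u + D.e * w)) (D.t.dg 1) / D.e := by
  have h1 := D.F_zoom (zero_le_one) h2 (w₁ := 0)
  rw [D.sys.F_zero_left, mul_zero, add_zero, D.x_base le_rfl, bot_sup_eq] at h1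
  exact h1

theorem gap_zoom : D.sys.gap = (H (D.x.dg (D.u + D.e)) - h (D.P.dg 1) (D.t.dg 1)) / D.e := by
  unfold Sys.gap
  rw [D.P'_zoom le_rfl]
  have h1 : D.sys.x.dg 1 = D.L (D.x.dg (D.u + D.e * 1)) := D.x'_dg 1
  rw [h1, D.H_L, mul_one]
  have h2 : D.c + D.u + D.e = 1 := by unfold e; ring
  rw [h2]; ring

end ZD

variable (s : Sys S m)

/-- the point at the corner of the cell of level `c` of the height -/
def bc (c : ℝ) (hc : 0 ≤ c) : S.VV m := VV.pt s.a s.x (s.t.fl c hc)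

/-- the cells which the base of a zoom must know -/
def cells (c u : ℝ) (hc : 0 ≤ c) : ∀ k, Setoid (S.F k).Ω := fun k =>
  Setoid.ker (fun ω => (s.t.cellv c k ω, s.x.cellv u k ω, (s.bc c hc).cellv (c + u) k ω))

theorem bdd_cells (c u : ℝ) (hc : 0 ≤ c) :
    Bdd (S := S) (fun k ω => (s.t.cellv c k ω, s.x.cellv u k ω, (s.bc c hc).cellv (c + u) k ω)) :=
  (s.t.bdd c).pair ((s.x.bdd u).pair ((s.bc c hc).bdd (c + u)))

/-- the cells as an information -/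
def cellsI (c u : ℝ) (hc : 0 ≤ c) : S.Inf := (s.bdd_cells c u hc).toInf

theorem cl_cellsI (c u : ℝ) (hc : 0 ≤ c) :
    cl (s.cellsI c u hc) = s.t.dg c ⊔ (s.x.dg u ⊔ (s.bc c hc).dg (c + u)) := by
  unfold cellsI
  rw [← io_eq, io_pair (s.t.bdd c) ((s.x.bdd u).pair ((s.bc c hc).bdd (c + u))),
    io_pair (s.x.bdd u) ((s.bc c hc).bdd (c + u))]
  rfl

/-- for `u = 0` the corner point and the point are the same up to level `c` -/
theorem bc_dg (c : ℝ) (hc : 0 ≤ c) {r : ℝ} (hr : r ≤ c) : (s.bc c hc).dg r = s.P.dg r := by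
  obtain ⟨K, hK, hKb⟩ := s.x.bd
  have key : ∀ᶠ k in UF, ∀ ω, (S.F k).μ ω ≠ 0 → ∀ i, |s.P.v k ω i - (s.bc c hc).v k ω i| ≤ K k * S.dl r k := by
    filter_upwards [hKb] with k hk ω hω i
    have h1 := s.t.fl_sub c hc k ω 0
    have h2 : s.P.v k ω i - (s.bc c hc).v k ω i = (s.t.v k ω 0 - (s.t.fl c hc).v k ω 0) * s.x.v k ω i := by
      show (s.a.v k ω i + s.t.v k ω 0 * s.x.v k ω i) - (s.a.v k ω i + (s.t.fl c hc).v k ω 0 * s.x.v k ω i) = _
      ring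
    rw [h2, abs_mul, mul_comm]
    apply mul_le_mul (hk ω hω i) _ (abs_nonneg _) ((abs_nonneg _).trans (hk ω hω i))
    rw [abs_of_nonneg h1.1]
    exact h1.2.le.trans (S.dl_anti hr k)
  apply le_antisymm
  · apply VV.dg_le_dg _ _ _ _ (fun _ _ => True) Typ_true (fun k => K k + (K k + 1))
      (hK.add (hK.add (S.Sub_const zero_le_one)))
    filter_upwards [key] with k hk ω ω' a b _ _ _ g i
    have h1 := abs_le.mp (hk ω a i)
    have h2 := abs_le.mp (hk ω' b i)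
    have h3 := abs_le.mp (g i)
    rw [abs_le]
    constructor <;> linarith [h1.1, h1.2, h2.1, h2.2, h3.1, h3.2]
  · apply VV.dg_le_dg _ _ _ _ (fun _ _ => True) Typ_true (fun k => K k + (K k + 1))
      (hK.add (hK.add (S.Sub_const zero_le_one)))
    filter_upwards [key] with k hk ω ω' a b _ _ _ g i
    have h1 := abs_le.mp (hk ω a i)
    have h2 := abs_le.mp (hk ω' b i)
    have h3 := abs_le.mp (g i)
    rw [abs_le]
    constructor <;> linarith [h1.1, h1.2, h2.1, h2.2, h3.1, h3.2]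

/-- ZOOM over an arbitrary base `Z` (a sequence of partitions): the base knows the cells, and the remaining digits of
the height are independent of the line -/
def zd (c u : ℝ) (hc : 0 ≤ c) (hu : 0 ≤ u) (hcu : c + u < 1) (Z : ∀ k, Setoid (S.F k).Ω)
    (hZ : ∀ᶠ k in UF, ∀ ω ω', (S.F k).μ ω ≠ 0 → (S.F k).μ ω' ≠ 0 → (Z k ⊓ (S.F k).Z) ω ω' → s.cells c u hc k ω ω')
    (hT : h (chgL Z 1 one_pos s.T) (chgL Z 1 one_pos (s.xi 1)) = 1 - c) : ZD (S.chg Z 1 one_pos) m where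
  a := s.a.chg Z 1 one_pos
  x := s.x.chg Z 1 one_pos
  t := s.t.chg Z 1 one_pos
  c := c
  u := u
  c0 := hc
  u0 := hu
  s1 := hcu
  hb := by
    filter_upwards [hZ] with k hk ω ω' a b g
    have h1 : (s.t.cellv c k ω, s.x.cellv u k ω, (s.bc c hc).cellv (c + u) k ω) =
        (s.t.cellv c k ω', s.x.cellv u k ω', (s.bc c hc).cellv (c + u) k ω') := hk ω ω' a b g
    rw [Prod.mk.injEq, Prod.mk.injEq] at h1
    have e1 : ∀ r, (S.chg Z 1 one_pos).dl r k = S.dl r k := by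
      intro r
      rw [chg_dl, one_mul]
    have e2 : ∀ {p : ℕ} (y : S.VV p) (r : ℝ), (y.chg Z 1 one_pos).cellv r k = y.cellv r k := by
      intro p y r
      unfold VV.cellv
      rw [e1]
      rfl
    have e3 : ((s.t.chg Z 1 one_pos).fl c hc).v k = (s.t.fl c hc).v k := by
      funext ω i
      show (⌊s.t.v k ω i / (S.chg Z 1 one_pos).dl c k⌋ : ℝ) * (S.chg Z 1 one_pos).dl c k = _
      rw [e1]
      rfl
    have e4 : (VV.pt (s.a.chg Z 1 one_pos) (s.x.chg Z 1 one_pos) ((s.t.chg Z 1 one_pos).fl c hc)).cellv (c + u) k =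
        (s.bc c hc).cellv (c + u) k := by
      funext ω i
      show ⌊(s.a.v k ω i + ((s.t.chg Z 1 one_pos).fl c hc).v k ω 0 * s.x.v k ω i) / (S.chg Z 1 one_pos).dl (c + u) k⌋ = _
      rw [e3, e1]
      rfl
    rw [e2, e2, e4]
    exact ⟨h1.1, h1.2.1, h1.2.2⟩
  ht := by
    rw [VV.chg_dg, VV.chg_dg, VV.chg_dg, one_mul, ← chgL_sup]
    exact hT

/-- ZOOM over an information `V` which contains the cells (as elements of the lattice) -/
def zdI (c u : ℝ) (hc : 0 ≤ c) (hu : 0 ≤ u) (hcu : c + u < 1) (V : S.Inf)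
    (hV : s.t.dg c ⊔ (s.x.dg u ⊔ (s.bc c hc).dg (c + u)) ≤ cl V)
    (hT : h s.T (s.xi 1 ⊔ cl V) = 1 - c) : ZD (S.chg (Inf.sup V (s.cellsI c u hc)).1 1 one_pos) m :=
  s.zd c u hc hu hcu (Inf.sup V (s.cellsI c u hc)).1
    (Eventually.of_forall fun k ω ω' _ _ g => g.1.2)
    (by
      rw [h_chgL_inf, cl_sup, s.cl_cellsI, sup_eq_left.mpr hV, div_one]
      exact hT)

theorem zd_P_dg (c u : ℝ) (hc : 0 ≤ c) (hu : 0 ≤ u) (hcu : c + u < 1) (Z : ∀ k, Setoid (S.F k).Ω)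
    (hZ : ∀ᶠ k in UF, ∀ ω ω', (S.F k).μ ω ≠ 0 → (S.F k).μ ω' ≠ 0 → (Z k ⊓ (S.F k).Z) ω ω' → s.cells c u hc k ω ω')
    (hT : h (chgL Z 1 one_pos s.T) (chgL Z 1 one_pos (s.xi 1)) = 1 - c) (r : ℝ) :
    (s.zd c u hc hu hcu Z hZ hT).P.dg r = chgL Z 1 one_pos (s.P.dg r) := by
  have h1 : (s.zd c u hc hu hcu Z hZ hT).P = s.P.chg Z 1 one_pos := rfl
  rw [h1, VV.chg_dg, one_mul]

/-- PROFILE OF THE ZOOM over an arbitrary base -/
theorem F_zd (c u : ℝ) (hc : 0 ≤ c) (hu : 0 ≤ u) (hcu : c + u < 1) (Z : ∀ k, Setoid (S.F k).Ω)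
    (hZ : ∀ᶠ k in UF, ∀ ω ω', (S.F k).μ ω ≠ 0 → (S.F k).μ ω' ≠ 0 → (Z k ⊓ (S.F k).Z) ω ω' → s.cells c u hc k ω ω')
    (hT : h (chgL Z 1 one_pos s.T) (chgL Z 1 one_pos (s.xi 1)) = 1 - c) {w₁ w₂ : ℝ} (h1 : w₁ ≤ 1) (h2 : w₂ ≤ 1) :
    (s.zd c u hc hu hcu Z hZ hT).sys.F w₁ w₂ =
      h (chgL Z 1 one_pos (s.x.dg (u + (1 - (c + u)) * w₁) ⊔ s.P.dg (c + u + (1 - (c + u)) * w₂)))
        (chgL Z 1 one_pos s.T) / (1 - (c + u)) := by
  have h3 := (s.zd c u hc hu hcu Z hZ hT).F_zoom h1 h2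
  rw [h3, s.zd_P_dg]
  have e1 : (s.zd c u hc hu hcu Z hZ hT).x.dg (u + (1 - (c + u)) * w₁) =
      chgL Z 1 one_pos (s.x.dg (u + (1 - (c + u)) * w₁)) := by
    have h4 : (s.zd c u hc hu hcu Z hZ hT).x = s.x.chg Z 1 one_pos := rfl
    rw [h4, VV.chg_dg, one_mul]
  have e2 : (s.zd c u hc hu hcu Z hZ hT).t.dg 1 = chgL Z 1 one_pos s.T := by
    have h4 : (s.zd c u hc hu hcu Z hZ hT).t = s.t.chg Z 1 one_pos := rfl
    rw [h4, VV.chg_dg, one_mul]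
    rfl
  have e3 : (s.zd c u hc hu hcu Z hZ hT).e = 1 - (c + u) := rfl
  have e4 : (s.zd c u hc hu hcu Z hZ hT).u = u := rfl
  have e5 : (s.zd c u hc hu hcu Z hZ hT).c = c := rfl
  rw [e2, e3, e4, e5, chgL_sup, ← e1]

/-- PROFILE OF THE ZOOM over an information -/
theorem F_zdI (c u : ℝ) (hc : 0 ≤ c) (hu : 0 ≤ u) (hcu : c + u < 1) (V : S.Inf)
    (hV : s.t.dg c ⊔ (s.x.dg u ⊔ (s.bc c hc).dg (c + u)) ≤ cl V)
    (hT : h s.T (s.xi 1 ⊔ cl V) = 1 - c) {w₁ w₂ : ℝ} (h1 : w₁ ≤ 1) (h2 : w₂ ≤ 1) :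
    (s.zdI c u hc hu hcu V hV hT).sys.F w₁ w₂ =
      h (s.x.dg (u + (1 - (c + u)) * w₁) ⊔ s.P.dg (c + u + (1 - (c + u)) * w₂)) (s.T ⊔ cl V) / (1 - (c + u)) := by
  unfold zdI
  rw [s.F_zd c u hc hu hcu _ _ _ h1 h2, h_chgL_inf, cl_sup, s.cl_cellsI, sup_eq_left.mpr hV, div_one]

end Sys

end

end Pool.Agent.Helper31.EC
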