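import Pool.Agent.Helper31.EC.Copies

/-! Exact entropy calculus: the ring of tame functions modulo functions of size `2 ^ (-(1 - o(1)) n)`. Equalities
in this ring are equalities to full precision on a typical event. -/

namespace Pool.Agent.Helper31.EC

open Finset Filter Topology Pool.Agent.Helper69.RK

noncomputable section

namespace TR

open Sp

variable {S : Sp}

theorem Ag.refl (r : ℝ) (f : TR S) : Ag r f f := (Te.refl f).ag r

theorem Ag.trans {r : ℝ} {f g l : TR S} (h : Ag r f g) (h' : Ag r g l) : Ag r f l := by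
  obtain ⟨E, K, hE, hK, hh⟩ := h
  obtain ⟨E', K', hE', hK', hh'⟩ := h'
  refine ⟨_, _, hE.and hE', hK.add hK', ?_⟩
  filter_upwards [hh, hh'] with k hk hk' ω a b
  have h1 := hk ω a b.1
  have h2 := hk' ω a b.2
  calc |ev f k ω - ev l k ω| ≤ |ev f k ω - ev g k ω| + |ev g k ω - ev l k ω| := abs_sub_le _ _ _
    _ ≤ (K k + K' k) * S.dl r k := by linarith

theorem Ag.add {r : ℝ} {f f' g g' : TR S} (h : Ag r f f') (h' : Ag r g g') : Ag r (f + g) (f' + g') := by
  obtain ⟨E, K, hE, hK, hh⟩ := h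
  obtain ⟨E', K', hE', hK', hh'⟩ := h'
  refine ⟨_, _, hE.and hE', hK.add hK', ?_⟩
  filter_upwards [hh, hh'] with k hk hk' ω a b
  have h1 := hk ω a b.1
  have h2 := hk' ω a b.2
  rw [ev_add, ev_add]
  have e : ev f k ω + ev g k ω - (ev f' k ω + ev g' k ω) = (ev f k ω - ev f' k ω) + (ev g k ω - ev g' k ω) := by
    ring
  rw [e]
  refine (abs_add_le _ _).trans ?_
  linarith

theorem Ag.mul {r : ℝ} {f f' g g' : TR S} (h : Ag r f f') (h' : Ag r g g') : Ag r (f * g) (f' * g') := by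
  obtain ⟨E, K, hE, hK, hh⟩ := h
  obtain ⟨E', K', hE', hK', hh'⟩ := h'
  obtain ⟨M, hM, hM'⟩ := f.2
  obtain ⟨N, hN, hN'⟩ := g'.2
  refine ⟨_, _, hE.and hE', (hM.mul hK').add (hN.mul hK), ?_⟩
  filter_upwards [hh, hh', hM', hN', hM.1, hN.1, hK.1, hK'.1] with k hk hk' a1 a2 m0 n0 k0 k0' ω a b
  have h1 := hk ω a b.1
  have h2 := hk' ω a b.2
  have h3 : |ev f k ω| ≤ M k := a1 ω a
  have h4 : |ev g' k ω| ≤ N k := a2 ω a
  rw [ev_mul, ev_mul]
  have e : ev f k ω * ev g k ω - ev f' k ω * ev g' k ω =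
      ev f k ω * (ev g k ω - ev g' k ω) + ev g' k ω * (ev f k ω - ev f' k ω) := by ring
  rw [e]
  refine (abs_add_le _ _).trans ?_
  rw [abs_mul, abs_mul]
  have h5 := mul_le_mul h3 h2 (abs_nonneg _) m0
  have h6 := mul_le_mul h4 h1 (abs_nonneg _) n0
  calc _ ≤ M k * (K' k * S.dl r k) + N k * (K k * S.dl r k) := add_le_add h5 h6
    _ = (M k * K' k + N k * K k) * S.dl r k := by ring

theorem Ag.neg {r : ℝ} {f f' : TR S} (h : Ag r f f') : Ag r (-f) (-f') := by
  obtain ⟨E, K, hE, hK, hh⟩ := h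
  refine ⟨E, K, hE, hK, ?_⟩
  filter_upwards [hh] with k hk ω a b
  rw [ev_neg, ev_neg]
  have e : -ev f k ω - -ev f' k ω = -(ev f k ω - ev f' k ω) := by ring
  rw [e, abs_neg]
  exact hk ω a b

theorem Ag.anti {r s : ℝ} {f g : TR S} (h : Ag r f g) (hs : s ≤ r) : Ag s f g := by
  obtain ⟨E, K, hE, hK, hh⟩ := h
  refine ⟨E, K, hE, hK, ?_⟩
  filter_upwards [hh, hK.1] with k hk hK0 ω a b
  exact (hk ω a b).trans (mul_le_mul_of_nonneg_left (S.dl_anti hs k) hK0)

theorem Ag.sub {r : ℝ} {f f' g g' : TR S} (h : Ag r f f') (h' : Ag r g g') : Ag r (f - g) (f' - g') := by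
  obtain ⟨E, K, hE, hK, hh⟩ := h.add h'.neg
  refine ⟨E, K, hE, hK, ?_⟩
  filter_upwards [hh] with k hk ω a b
  have h1 := hk ω a b
  rw [ev_add, ev_add, ev_neg, ev_neg] at h1
  rw [ev_sub, ev_sub, sub_eq_add_neg, sub_eq_add_neg (ev f' k ω)]
  exact h1

variable (S) in
/-- the ideal of functions of size `2 ^ (-(1 - o(1)) n)` on a typical event -/
def Idl : Ideal (TR S) where
  carrier := {f | Ag 1 f 0}
  add_mem' := by
    intro f g hf hg
    have h : Ag 1 (f + g) (0 + 0) := Ag.add hf hg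
    rw [add_zero] at h
    exact h
  zero_mem' := Ag.refl 1 0
  smul_mem' := by
    intro c f hf
    have h : Ag 1 (c * f) (c * 0) := Ag.mul (Ag.refl 1 c) hf
    rw [mul_zero] at h
    exact h

theorem mem_Idl {f : TR S} : f ∈ Idl S ↔ Ag 1 f 0 := Iff.rfl

theorem sub_mem_Idl {f g : TR S} : f - g ∈ Idl S ↔ Ag 1 f g := by
  rw [mem_Idl]
  constructor
  · rintro ⟨E, K, hE, hK, hh⟩
    refine ⟨E, K, hE, hK, ?_⟩
    filter_upwards [hh] with k hk ω a b
    have h1 := hk ω a b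
    rw [ev_sub, ev_zero, sub_zero] at h1
    exact h1
  · rintro ⟨E, K, hE, hK, hh⟩
    refine ⟨E, K, hE, hK, ?_⟩
    filter_upwards [hh] with k hk ω a b
    rw [ev_sub, ev_zero, sub_zero]
    exact hk ω a b

end TR

/-- the ring of tame functions to full precision -/
def QS (S : Sp) : Type := TR S ⧸ TR.Idl S

instance (S : Sp) : CommRing (QS S) := inferInstanceAs (CommRing (TR S ⧸ TR.Idl S))

namespace QS

open Sp

variable {S : Sp}

/-- the class of a tame function -/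
def mk : TR S →+* QS S := Ideal.Quotient.mk (TR.Idl S)

theorem mk_eq {f g : TR S} : mk f = mk g ↔ TR.Ag 1 f g :=
  (Ideal.Quotient.mk_eq_mk_iff_sub_mem (I := TR.Idl S) f g).trans TR.sub_mem_Idl

theorem mk_surj (f : QS S) : ∃ g, mk g = f := Ideal.Quotient.mk_surjective f

/-- digits; levels above `1` are cut off -/
def dg (f : QS S) (r : ℝ) : S.L := TR.dg (mk_surj f).choose (min r 1)

theorem dg_mk (f : TR S) {r : ℝ} (hr : r ≤ 1) : dg (mk f) r = TR.dg f r := by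
  unfold dg
  rw [min_eq_left hr]
  have h1 : mk (mk_surj (mk f)).choose = mk f := (mk_surj (mk f)).choose_spec
  exact (mk_eq.mp h1).dg_eq hr

theorem dg_cut (f : QS S) {r : ℝ} (hr : 1 ≤ r) : dg f r = dg f 1 := by
  unfold dg
  rw [min_eq_right hr, min_self]

theorem dg_mono (f : QS S) {r s : ℝ} (h : r ≤ s) : dg f r ≤ dg f s := TR.dg_mono _ (min_le_min_right 1 h)

variable (S) in
/-- the subring of the functions whose digits of level `r` are known -/
def Kn (r : ℝ) (hr : r ≤ 1) (A : S.L) : Subring (QS S) where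
  carrier := {f | dg f r ≤ A}
  mul_mem' := by
    intro f g hf hg
    obtain ⟨f, rfl⟩ := mk_surj f
    obtain ⟨g, rfl⟩ := mk_surj g
    have hf' : TR.dg f r ≤ A := (dg_mk f hr) ▸ hf
    have hg' : TR.dg g r ≤ A := (dg_mk g hr) ▸ hg
    show dg (mk f * mk g) r ≤ A
    rw [← map_mul, dg_mk _ hr]
    exact (TR.mul_dg_le f g r).trans (_root_.sup_le hf' hg')
  one_mem' := by
    show dg (1 : QS S) r ≤ A
    rw [← map_one mk, dg_mk _ hr]
    exact (TR.Kn S r A).one_mem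
  add_mem' := by
    intro f g hf hg
    obtain ⟨f, rfl⟩ := mk_surj f
    obtain ⟨g, rfl⟩ := mk_surj g
    have hf' : TR.dg f r ≤ A := (dg_mk f hr) ▸ hf
    have hg' : TR.dg g r ≤ A := (dg_mk g hr) ▸ hg
    show dg (mk f + mk g) r ≤ A
    rw [← map_add, dg_mk _ hr]
    exact (TR.add_dg_le f g r).trans (_root_.sup_le hf' hg')
  zero_mem' := by
    show dg (0 : QS S) r ≤ A
    rw [← map_zero mk, dg_mk _ hr]
    exact (TR.Kn S r A).zero_mem
  neg_mem' := by
    intro f hf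
    obtain ⟨f, rfl⟩ := mk_surj f
    have hf' : TR.dg f r ≤ A := (dg_mk f hr) ▸ hf
    show dg (-mk f) r ≤ A
    rw [← map_neg, dg_mk _ hr]
    exact (TR.neg_dg_le f r).trans hf'

theorem mem_Kn {r : ℝ} {hr : r ≤ 1} {A : S.L} {f : QS S} : f ∈ Kn S r hr A ↔ dg f r ≤ A := Iff.rfl

theorem Kn_mono {r : ℝ} {hr : r ≤ 1} {A B : S.L} (h : A ≤ B) : Kn S r hr A ≤ Kn S r hr B :=
  fun _ hf => le_trans hf h

/-- nondegenerate functions: bounded below by a subexponential sequence on a typical event -/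
def Nd (f : TR S) : Prop := ∃ K : ℕ → ℝ, S.Sub K ∧ Typ (fun k ω => 1 ≤ K k * |TR.ev f k ω|)

/-- nondegenerate functions are invertible, the inverse is known if the function is known -/
theorem Nd.inv {f : TR S} (h : Nd f) : ∃ g : QS S, g * mk f = 1 ∧ ∀ r ≤ 1, dg g r ≤ dg (mk f) r := by
  obtain ⟨K, hK, hh⟩ := h
  refine ⟨mk (TR.rinv f K hK), ?_, fun r hr => ?_⟩
  · rw [← map_mul, ← map_one mk]
    exact mk_eq.mpr ((TR.rinv_mul f K hK hh).ag 1)
  · rw [dg_mk _ hr, dg_mk _ hr]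
    exact TR.rinv_dg_le f K hK hh r

end QS

/-- pullback of tame functions -/
def Pj.tr {T S : Sp} (p : Pj T S) : TR S →+* TR T where
  toFun f := ⟨fun k ω => f.1 k (p.π k ω), by
    obtain ⟨K, hK, h⟩ := f.2
    refine ⟨K, p.sub hK, ?_⟩
    filter_upwards [h] with k hk ω hω
    exact hk _ (p.supp k ω hω)⟩
  map_one' := rfl
  map_mul' _ _ := rfl
  map_zero' := rfl
  map_add' _ _ := rfl

theorem Pj.tr_dg {T S : Sp} (p : Pj T S) (f : TR S) (r : ℝ) : TR.dg (p.tr f) r = p.map (TR.dg f r) := by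
  unfold TR.dg
  rw [p.map_dg]
  rfl

theorem Pj.tr_cor {T S : Sp} (p : Pj T S) {m : ℕ} (y : S.VV m) (i : Fin m) : p.tr (TR.cor y i) = TR.cor (p.vv y) i := rfl

/-- events pull back -/
theorem Pj.typ {T S : Sp} (p : Pj T S) {E : ∀ k, (S.F k).Ω → Prop} (hE : Sp.Typ E) :
    Sp.Typ (S := T) (fun k ω => E k (p.π k ω)) := by
  unfold Sp.Typ at hE ⊢
  have h1 : ∀ k, mass (res (T.F k).μ (fun ω => ¬ E k (p.π k ω))) = mass (res (S.F k).μ (fun ω => ¬ E k ω)) := by
    intro k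
    have h2 : push (p.π k) (res (T.F k).μ fun ω => ¬ E k (p.π k ω)) = res (S.F k).μ fun ω => ¬ E k ω := by
      funext ω
      rw [push_ind]
      by_cases h : E k ω
      · rw [res_neg (S.F k).μ (fun ω => ¬ E k ω) ω (fun hc => hc h)]
        apply Finset.sum_eq_zero
        intro ω' _
        by_cases h2 : p.π k ω' = ω
        · rw [res_neg (T.F k).μ (fun ω => ¬ E k (p.π k ω)) ω' (fun hc => hc (by rw [h2]; exact h)), mul_zero]
        · rw [e1_ind_neg h2, zero_mul]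
      · rw [res_pos (S.F k).μ (fun ω => ¬ E k ω) ω h, ← p.law k, push_ind]
        apply Finset.sum_congr rfl
        intro ω' _
        by_cases h2 : p.π k ω' = ω
        · rw [res_pos (T.F k).μ (fun ω => ¬ E k (p.π k ω)) ω' (by rw [h2]; exact h)]
        · rw [e1_ind_neg h2, zero_mul, zero_mul]
    rw [← h2]
    have h3 := (Pool.Agent.Helper70.RK.st_E5.1 (S.F k).Ω (T.F k).Ω Unit Unit
      (res (T.F k).μ fun ω => ¬ E k (p.π k ω)) (p.π k) (fun _ => ()) (fun _ => ())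
      ((T.F k).res_nonneg fun ω => ¬ E k (p.π k ω))).2.1
    exact h3.symm
  simp only [h1]
  exact hE

theorem Pj.ag {T S : Sp} (p : Pj T S) {r : ℝ} {f g : TR S} (h : TR.Ag r f g) : TR.Ag r (p.tr f) (p.tr g) := by
  obtain ⟨E, K, hE, hK, hh⟩ := h
  refine ⟨_, K, p.typ hE, p.sub hK, ?_⟩
  filter_upwards [hh] with k hk ω a b
  have h1 : T.dl r k = S.dl r k := by
    unfold Sp.dl
    rw [p.hn k]
  rw [h1]
  exact hk _ (p.supp k ω a) b

theorem Pj.nd {T S : Sp} (p : Pj T S) {f : TR S} (h : QS.Nd f) : QS.Nd (p.tr f) := by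
  obtain ⟨K, hK, hh⟩ := h
  exact ⟨K, p.sub hK, p.typ hh⟩

/-- pullback of the ring of functions to full precision -/
def Pj.qs {T S : Sp} (p : Pj T S) : QS S →+* QS T :=
  Ideal.Quotient.lift (TR.Idl S) ((QS.mk (S := T)).comp p.tr) (by
    intro f hf
    have h1 : TR.Ag 1 (p.tr f) (p.tr 0) := p.ag hf
    rw [map_zero] at h1
    show QS.mk (p.tr f) = 0
    rw [← map_zero QS.mk]
    exact QS.mk_eq.mpr h1)

theorem Pj.qs_mk {T S : Sp} (p : Pj T S) (f : TR S) : p.qs (QS.mk f) = QS.mk (p.tr f) := rfl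

theorem Pj.qs_dg {T S : Sp} (p : Pj T S) (f : QS S) (r : ℝ) : QS.dg (p.qs f) r = p.map (QS.dg f r) := by
  obtain ⟨f, rfl⟩ := QS.mk_surj f
  rcases le_total r 1 with hr | hr
  · rw [p.qs_mk, QS.dg_mk _ hr, QS.dg_mk _ hr, p.tr_dg]
  · rw [QS.dg_cut _ hr, QS.dg_cut _ hr, p.qs_mk, QS.dg_mk _ le_rfl, QS.dg_mk _ le_rfl, p.tr_dg]

end

end Pool.Agent.Helper31.EC
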