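import Pool.Agent.Helper31.EC.Rl

/-! Exact entropy calculus: LEMMA SEP of helper50 (notes 50b, section 1): separately weakly polynomial functions of
real variables are polynomials with free coefficients. -/

namespace Pool.Agent.Helper31.EC

open Finset Filter Topology Pool.Agent.Helper69.RK

noncomputable section

open Sp

variable {S : Sp}

namespace QS

/-- two variables -/
theorem sep2 {k : ℕ} {ι : Type} [Fintype ι] (F : ι → QS S) (s t g : QS S) (G1 G2 : Fin (k + 1) → QS S)
    (hst : h (dg s 1 ⊔ dg t 1) (vd F 1) = 2) (h1 : vd G1 1 ≤ dg t 1 ⊔ vd F 1) (h2 : vd G2 1 ≤ dg s 1 ⊔ vd F 1)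
    (e1 : g = pe G1 s) (e2 : g = pe G2 t) :
    ∃ (W : Sp) (p : Pj W S) (e : Fin (k + 1) → Fin (k + 1) → QS W), (∀ a b, dg (e a b) 1 ≤ p.map (vd F 1)) ∧
      ∀ b, p.qs (G2 b) = pe (fun a => e a b) (p.qs s) := by
  classical
  -- entropies in S
  have ht : h (dg t 1) (vd F 1) = 1 ∧ h (dg s 1) (dg t 1 ⊔ vd F 1) = 1 := by
    have a1 : h (dg s 1 ⊔ dg t 1) (vd F 1) = h (dg t 1) (vd F 1) + h (dg s 1) (dg t 1 ⊔ vd F 1) := by
      rw [sup_comm, h_chain]
    have a2 := h_dg_le_one t (vd F 1)
    have a3 := h_dg_le_one s (dg t 1 ⊔ vd F 1)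
    constructor <;> linarith
  -- first round of copies: given t, G1, F
  set f1 : Unit ⊕ (Fin (k + 1) ⊕ ι) → QS S := Sum.elim (fun _ => t) (Sum.elim G1 F) with hf1
  have v1 : vd f1 1 = dg t 1 ⊔ vd F 1 := by
    apply le_antisymm
    · rw [vd_le]
      rintro (a | a | a)
      · exact le_sup_left
      · exact (dg_le_vd G1 1 a).trans h1
      · exact (dg_le_vd F 1 a).trans le_sup_right
    · apply sup_le
      · exact dg_le_vd f1 1 (Sum.inl ())
      · rw [vd_le]
        intro a
        exact dg_le_vd f1 1 (Sum.inr (Sum.inr a))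
  obtain ⟨C1⟩ := exists_CQ f1 k
  have ct : ∀ i, (C1.p i).qs t = (C1.p 0).qs t := fun i => C1.com i 0 (Sum.inl ())
  have cG : ∀ i a, (C1.p i).qs (G1 a) = (C1.p 0).qs (G1 a) := fun i a => C1.com i 0 (Sum.inr (Sum.inl a))
  have cF : ∀ i a, (C1.p i).qs (F a) = (C1.p 0).qs (F a) := fun i a => C1.com i 0 (Sum.inr (Sum.inr a))
  have cFv : ∀ i, (C1.p i).map (vd F 1) = (C1.p 0).map (vd F 1) := by
    intro i
    rw [← Pj.qs_vd, ← Pj.qs_vd]
    congr 1
    funext a
    exact cF i a
  have r1 : Rl (fun i : Fin (k + 1) => (C1.p i).qs s) C1.v := C1.rl_one s (by rw [v1]; exact ht.2)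
  have w1 : C1.v = (C1.p 0).map (dg t 1) ⊔ (C1.p 0).map (vd F 1) := by
    show (C1.p 0).map (vd f1 1) = _
    rw [v1, Pj.map_sup]
  have htS : h ((C1.p 0).map (dg t 1)) (vd (fun i : Fin (k + 1) => (C1.p i).qs s) 1 ⊔ (C1.p 0).map (vd F 1)) = 1 := by
    apply le_antisymm
    · rw [← (C1.p 0).qs_dg]
      exact h_dg_le_one _ _
    · have b1 := h_chain ((C1.p 0).map (dg t 1)) (vd (fun i : Fin (k + 1) => (C1.p i).qs s) 1) ((C1.p 0).map (vd F 1))
      have b2 := h_chain (vd (fun i : Fin (k + 1) => (C1.p i).qs s) 1) ((C1.p 0).map (dg t 1)) ((C1.p 0).map (vd F 1))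
      rw [sup_comm] at b2
      rw [b2] at b1
      have b3 : h (vd (fun i : Fin (k + 1) => (C1.p i).qs s) 1) ((C1.p 0).map (dg t 1) ⊔ (C1.p 0).map (vd F 1)) =
          (k + 1 : ℕ) := by
        rw [← w1]
        have := r1
        unfold Rl at this
        rw [this, Fintype.card_fin]
      have b4 : h ((C1.p 0).map (dg t 1)) ((C1.p 0).map (vd F 1)) = 1 := by rw [Pj.h_map]; exact ht.1
      have b5 := h_sd_le (fun i : Fin (k + 1) => (C1.p i).qs s) Finset.univ ((C1.p 0).map (vd F 1))
      rw [sd_univ, Finset.card_univ, Fintype.card_fin] at b5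
      linarith
  -- second round: given all s^i, G2^i, F
  set f2 : Fin (k + 1) ⊕ ((Fin (k + 1) × Fin (k + 1)) ⊕ ι) → QS C1.W :=
    Sum.elim (fun i => (C1.p i).qs s) (Sum.elim (fun a => (C1.p a.1).qs (G2 a.2)) (fun a => (C1.p 0).qs (F a))) with hf2
  have v2 : vd f2 1 = vd (fun i : Fin (k + 1) => (C1.p i).qs s) 1 ⊔ (C1.p 0).map (vd F 1) := by
    apply le_antisymm
    · rw [vd_le]
      rintro (a | a | a)
      · exact (dg_le_vd (fun i : Fin (k + 1) => (C1.p i).qs s) 1 a).trans le_sup_left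
      · show dg ((C1.p a.1).qs (G2 a.2)) 1 ≤ _
        rw [(C1.p a.1).qs_dg]
        refine ((C1.p a.1).map_mono ((dg_le_vd G2 1 a.2).trans h2)).trans ?_
        rw [Pj.map_sup, cFv, ← (C1.p a.1).qs_dg]
        exact sup_le_sup_right (dg_le_vd (fun i : Fin (k + 1) => (C1.p i).qs s) 1 a.1) _
      · show dg ((C1.p 0).qs (F a)) 1 ≤ _
        rw [(C1.p 0).qs_dg]
        exact ((C1.p 0).map_mono (dg_le_vd F 1 a)).trans le_sup_right
    · apply sup_le
      · rw [vd_le]
        intro a
        exact dg_le_vd f2 1 (Sum.inl a)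
      · rw [← Pj.qs_vd, vd_le]
        intro a
        exact dg_le_vd f2 1 (Sum.inr (Sum.inr a))
  obtain ⟨C2⟩ := exists_CQ f2 k
  have cs : ∀ i j, (C2.p j).qs ((C1.p i).qs s) = (C2.p 0).qs ((C1.p i).qs s) := fun i j => C2.com j 0 (Sum.inl i)
  have cG2 : ∀ i b j, (C2.p j).qs ((C1.p i).qs (G2 b)) = (C2.p 0).qs ((C1.p i).qs (G2 b)) :=
    fun i b j => C2.com j 0 (Sum.inr (Sum.inl (i, b)))
  have cF2 : ∀ j a, (C2.p j).qs ((C1.p 0).qs (F a)) = (C2.p 0).qs ((C1.p 0).qs (F a)) :=
    fun j a => C2.com j 0 (Sum.inr (Sum.inr a))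
  have cF2v : ∀ j, (C2.p j).map ((C1.p 0).map (vd F 1)) = (C2.p 0).map ((C1.p 0).map (vd F 1)) := by
    intro j
    rw [← Pj.qs_vd, ← Pj.qs_vd, ← Pj.qs_vd]
    congr 1
    funext a
    exact cF2 j a
  set Sx : Fin (k + 1) → QS C2.W := fun i => (C2.p 0).qs ((C1.p i).qs s) with hSx
  set Tx : Fin (k + 1) → QS C2.W := fun j => (C2.p j).qs ((C1.p 0).qs t) with hTx
  set Fv : C2.W.L := (C2.p 0).map ((C1.p 0).map (vd F 1)) with hFv
  have r2 : Rl Tx C2.v := C2.rl_one ((C1.p 0).qs t) (by rw [v2, (C1.p 0).qs_dg]; exact htS)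
  have w2 : C2.v = vd Sx 1 ⊔ Fv := by
    show (C2.p 0).map (vd f2 1) = _
    rw [v2, Pj.map_sup, ← Pj.qs_vd]
  have r3 : Rl Sx ⊥ := by
    unfold Rl
    have b1 : vd Sx 1 = (C2.p 0).map (vd (fun i : Fin (k + 1) => (C1.p i).qs s) 1) := by rw [← Pj.qs_vd]
    have b2 := r1.anti (bot_le : ⊥ ≤ C1.v)
    unfold Rl at b2
    rw [b1, ← Pj.map_bot (C2.p 0), Pj.h_map]
    exact b2
  have hI : I (vd Sx 1) (vd Tx 1) Fv = 0 := by
    apply le_antisymm _ (I_nonneg _ _ _)
    rw [I_eq']
    have b1 : h (vd Tx 1) (vd Sx 1 ⊔ Fv) = (k + 1 : ℕ) := by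
      rw [← w2]
      have := r2
      unfold Rl at this
      rw [this, Fintype.card_fin]
    have b2 := h_sd_le Tx Finset.univ Fv
    rw [sd_univ, Finset.card_univ, Fintype.card_fin] at b2
    linarith
  -- matrices
  set VS : Matrix (Fin (k + 1)) (Fin (k + 1)) (QS C2.W) := Matrix.vandermonde Sx with hVS
  set VT : Matrix (Fin (k + 1)) (Fin (k + 1)) (QS C2.W) := Matrix.vandermonde Tx with hVT
  set M1 : Matrix (Fin (k + 1)) (Fin (k + 1)) (QS C2.W) := fun j a => (C2.p j).qs ((C1.p 0).qs (G1 a)) with hM1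
  set M2 : Matrix (Fin (k + 1)) (Fin (k + 1)) (QS C2.W) := fun i b => (C2.p 0).qs ((C1.p i).qs (G2 b)) with hM2
  have uS : IsUnit VS.det := r3.isUnit_vandermonde
  have uT : IsUnit VT.det := r2.isUnit_vandermonde
  have uT' : IsUnit VT.transpose.det := by rw [Matrix.det_transpose]; exact uT
  have vS : ∀ i a, VS i a = Sx i ^ (a : ℕ) := fun i a => Matrix.vandermonde_apply Sx i a
  have vT : ∀ i a, VT i a = Tx i ^ (a : ℕ) := fun i a => Matrix.vandermonde_apply Tx i a
  have hg1 : ∀ i j, (C2.p j).qs ((C1.p i).qs g) = (VS * M1.transpose) i j := by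
    intro i j
    rw [e1, pe_map, pe_map]
    unfold pe
    rw [Matrix.mul_apply]
    apply Finset.sum_congr rfl
    intro a _
    show (C2.p j).qs ((C1.p i).qs (G1 a)) * (C2.p j).qs ((C1.p i).qs s) ^ (a : ℕ) = VS i a * M1 j a
    rw [cG, cs, vS, mul_comm]
  have hg2 : ∀ i j, (C2.p j).qs ((C1.p i).qs g) = (M2 * VT.transpose) i j := by
    intro i j
    rw [e2, pe_map, pe_map]
    unfold pe
    rw [Matrix.mul_apply]
    apply Finset.sum_congr rfl
    intro b _
    show (C2.p j).qs ((C1.p i).qs (G2 b)) * (C2.p j).qs ((C1.p i).qs t) ^ (b : ℕ) = M2 i b * VT j b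
    rw [cG2, ct, vT]
  have hM : VS * M1.transpose = M2 * VT.transpose := by
    ext i j
    rw [← hg1, ← hg2]
  set e : Matrix (Fin (k + 1)) (Fin (k + 1)) (QS C2.W) := VS⁻¹ * M2 with he
  have he2 : e = M1.transpose * (VT.transpose)⁻¹ := by
    have b1 : VS⁻¹ * (VS * M1.transpose) * (VT.transpose)⁻¹ = VS⁻¹ * (M2 * VT.transpose) * (VT.transpose)⁻¹ := by
      rw [hM]
    rw [← Matrix.mul_assoc VS⁻¹, Matrix.nonsing_inv_mul _ uS, Matrix.one_mul, Matrix.mul_assoc VS⁻¹,
      Matrix.mul_assoc M2, Matrix.mul_nonsing_inv _ uT', Matrix.mul_one] at b1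
    exact b1.symm
  have k1 : ∀ a b, dg (e a b) 1 ≤ vd Sx 1 ⊔ Fv := by
    intro a b
    apply mul_mem' (Kn C2.W 1 le_rfl (vd Sx 1 ⊔ Fv)) VS⁻¹ M2
    · intro i j
      apply inv_mem VS le_rfl _ _ uS
      intro i j
      rw [vS]
      exact (Kn C2.W 1 le_rfl (vd Sx 1 ⊔ Fv)).pow_mem (x := Sx i) ((dg_le_vd Sx 1 i).trans le_sup_left) _
    · intro i b
      show dg ((C2.p 0).qs ((C1.p i).qs (G2 b))) 1 ≤ _
      rw [(C2.p 0).qs_dg, (C1.p i).qs_dg]
      refine ((C2.p 0).map_mono ((C1.p i).map_mono ((dg_le_vd G2 1 b).trans h2))).trans ?_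
      rw [Pj.map_sup, Pj.map_sup, cFv, ← (C1.p i).qs_dg, ← (C2.p 0).qs_dg]
      exact sup_le_sup_right (dg_le_vd Sx 1 i) _
  have k2 : ∀ a b, dg (e a b) 1 ≤ vd Tx 1 ⊔ Fv := by
    intro a b
    rw [he2]
    apply mul_mem' (Kn C2.W 1 le_rfl (vd Tx 1 ⊔ Fv)) M1.transpose (VT.transpose)⁻¹
    · intro a j
      rw [Matrix.transpose_apply]
      show dg ((C2.p j).qs ((C1.p 0).qs (G1 a))) 1 ≤ _
      rw [(C2.p j).qs_dg, (C1.p 0).qs_dg]
      refine ((C2.p j).map_mono ((C1.p 0).map_mono ((dg_le_vd G1 1 a).trans h1))).trans ?_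
      rw [Pj.map_sup, Pj.map_sup, cF2v, ← (C1.p 0).qs_dg, ← (C2.p j).qs_dg]
      exact sup_le_sup_right (dg_le_vd Tx 1 j) _
    · intro i j
      apply inv_mem VT.transpose le_rfl _ _ uT'
      intro i j
      rw [Matrix.transpose_apply, vT]
      exact (Kn C2.W 1 le_rfl (vd Tx 1 ⊔ Fv)).pow_mem (x := Tx j) ((dg_le_vd Tx 1 j).trans le_sup_left) _
  have hVe : VS * e = M2 := by
    rw [he, ← Matrix.mul_assoc, Matrix.mul_nonsing_inv _ uS, Matrix.one_mul]
  refine ⟨C2.W, (C2.p 0).comp (C1.p 0), fun a b => e a b, fun a b => ?_, fun b => ?_⟩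
  · rw [Pj.comp_map]
    exact le_of_markov (k1 a b) (k2 a b) hI
  · rw [Pj.comp_qs, Pj.comp_qs]
    have b1 : M2 0 b = (VS * e) 0 b := by rw [hVe]
    rw [Matrix.mul_apply] at b1
    unfold pe
    refine b1.trans (Finset.sum_congr rfl fun a _ => ?_)
    show VS 0 a * e a b = e a b * Sx 0 ^ (a : ℕ)
    rw [vS, mul_comm]

/-- finitely many stable statements which can be reached by extensions hold in one extension -/
theorem ext_all {S : Sp} {ι : Type} (A : Finset ι) (Q : ι → ∀ W, Pj W S → Prop)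
    (hst : ∀ i W (p : Pj W S) W' (q : Pj W' W), Q i W p → Q i W' (q.comp p))
    (hex : ∀ i W (p : Pj W S), ∃ W' : Sp, ∃ q : Pj W' W, Q i W' (q.comp p)) :
    ∃ W : Sp, ∃ p : Pj W S, ∀ i ∈ A, Q i W p := by
  classical
  induction A using Finset.induction_on with
  | empty => exact ⟨S, Pj.id S, fun i hi => by simp at hi⟩
  | insert a A ha ih =>
    obtain ⟨W, p, h⟩ := ih
    obtain ⟨W', q, h'⟩ := hex a W p
    refine ⟨W', q.comp p, fun i hi => ?_⟩
    rw [Finset.mem_insert] at hi
    rcases hi with rfl | hi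
    · exact h'
    · exact hst i W p W' q (h i hi)

instance : Nontrivial (QS S) := by
  refine ⟨1, 0, fun hc => ?_⟩
  rw [← map_one mk, ← map_zero mk, mk_eq] at hc
  have h1 := hc.levels (show (0 : ℝ) < 1 / 2 by norm_num)
  have h2 : Typ (S := S) (fun _ _ => False) := by
    apply h1.mono
    filter_upwards [S.eventually_le_two_pow 16] with k hk ω _ hω
    have e1 : |TR.ev (1 : TR S) k ω - TR.ev (0 : TR S) k ω| = 1 := by
      rw [TR.ev_one, TR.ev_zero, sub_zero, abs_one]
    rw [e1] at hω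
    have e2 : S.dl (1 - 1 / 2) k * S.dl (1 - 1 / 2) k * 2 ^ ((S.F k).n) = 1 := by
      unfold Sp.dl
      rw [← Real.rpow_add (by norm_num : (0 : ℝ) < 2), ← Real.rpow_add (by norm_num : (0 : ℝ) < 2)]
      have : -((1 - 1 / 2) * (S.F k).n) + -((1 - 1 / 2) * (S.F k).n) + (S.F k).n = 0 := by ring
      rw [this, Real.rpow_zero]
    have e3 : 1 * 1 ≤ S.dl (1 - 1 / 2) k * S.dl (1 - 1 / 2) k := mul_le_mul hω hω (by norm_num) (S.dl_pos _ k).le
    nlinarith
  unfold Typ at h2
  have h3 : ∀ k, mass (res (S.F k).μ (fun _ => ¬ False)) = 1 := by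
    intro k
    have h4 : res (S.F k).μ (fun _ => ¬ False) = (S.F k).μ := by
      funext ω
      exact res_pos _ _ ω not_false
    rw [h4, (S.F k).ms]
  simp only [h3] at h2
  exact one_ne_zero (tendsto_nhds_unique tendsto_const_nhds h2)

/-- polynomials with coefficients known to `A` -/
def PK {σ : Type} (A : S.L) : Subring (MvPolynomial σ (QS S)) where
  carrier := {P | ∀ m, dg (P.coeff m) 1 ≤ A}
  mul_mem' := by
    classical
    intro P Q hP hQ m
    rw [MvPolynomial.coeff_mul]
    exact (Kn S 1 le_rfl A).sum_mem fun x _ => (Kn S 1 le_rfl A).mul_mem (hP x.1) (hQ x.2)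
  one_mem' := by
    classical
    intro m
    rw [MvPolynomial.coeff_one]
    split_ifs
    · exact (Kn S 1 le_rfl A).one_mem
    · exact (Kn S 1 le_rfl A).zero_mem
  add_mem' := by
    intro P Q hP hQ m
    rw [MvPolynomial.coeff_add]
    exact (Kn S 1 le_rfl A).add_mem (hP m) (hQ m)
  zero_mem' := by
    intro m
    rw [MvPolynomial.coeff_zero]
    exact (Kn S 1 le_rfl A).zero_mem
  neg_mem' := by
    intro P hP m
    rw [MvPolynomial.coeff_neg]
    exact (Kn S 1 le_rfl A).neg_mem (hP m)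

theorem mem_PK {σ : Type} {A : S.L} {P : MvPolynomial σ (QS S)} : P ∈ PK A ↔ ∀ m, dg (P.coeff m) 1 ≤ A := Iff.rfl

theorem PK_mono {σ : Type} {A B : S.L} (h : A ≤ B) : PK (σ := σ) A ≤ PK B := fun _ hP m => (hP m).trans h

theorem monomial_mem {σ : Type} {A : S.L} (m : σ →₀ ℕ) {c : QS S} (hc : dg c 1 ≤ A) :
    MvPolynomial.monomial m c ∈ PK A := by
  classical
  intro m'
  rw [MvPolynomial.coeff_monomial]
  split_ifs
  · exact hc
  · exact (Kn S 1 le_rfl A).zero_mem

theorem C_mem {σ : Type} {A : S.L} {c : QS S} (hc : dg c 1 ≤ A) : (MvPolynomial.C c : MvPolynomial σ (QS S)) ∈ PK A :=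
  monomial_mem 0 hc

theorem X_mem {σ : Type} (A : S.L) (i : σ) : (MvPolynomial.X i : MvPolynomial σ (QS S)) ∈ PK A :=
  monomial_mem _ (Kn S 1 le_rfl A).one_mem

theorem rename_mem {σ τ : Type} {A : S.L} (f : σ → τ) {P : MvPolynomial σ (QS S)} (hP : P ∈ PK A) :
    MvPolynomial.rename f P ∈ PK A := by
  rw [P.as_sum, map_sum]
  apply (PK A).sum_mem
  intro m _
  rw [MvPolynomial.rename_monomial]
  exact monomial_mem _ (hP m)

/-- values of polynomials with known coefficients -/
theorem eval_mem {σ : Type} {A : S.L} {P : MvPolynomial σ (QS S)} (hP : P ∈ PK A) (x : σ → QS S) {B : S.L}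
    (hAB : A ≤ B) (hx : ∀ i, dg (x i) 1 ≤ B) : dg (MvPolynomial.eval x P) 1 ≤ B := by
  rw [MvPolynomial.eval_eq]
  apply (Kn S 1 le_rfl B).sum_mem
  intro m _
  exact (Kn S 1 le_rfl B).mul_mem ((hP m).trans hAB)
    ((Kn S 1 le_rfl B).prod_mem fun i _ => (Kn S 1 le_rfl B).pow_mem (hx i) _)

theorem map_PK {T : Sp} (p : Pj T S) {σ : Type} {A : S.L} {P : MvPolynomial σ (QS S)} (hP : P ∈ PK A) :
    MvPolynomial.map p.qs P ∈ PK (p.map A) := by
  intro m
  rw [MvPolynomial.coeff_map, p.qs_dg]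
  exact p.map_mono (hP m)

theorem qs_eval {T : Sp} (p : Pj T S) {σ : Type} (P : MvPolynomial σ (QS S)) (x : σ → QS S) :
    p.qs (MvPolynomial.eval x P) = MvPolynomial.eval (fun i => p.qs (x i)) (MvPolynomial.map p.qs P) := by
  rw [MvPolynomial.eval_map]
  exact MvPolynomial.eval₂_comp p.qs x P

theorem totalDegree_map_le {R R' : Type*} [CommRing R] [CommRing R'] {σ : Type} (f : R →+* R')
    (P : MvPolynomial σ R) : (MvPolynomial.map f P).totalDegree ≤ P.totalDegree := by
  classical
  unfold MvPolynomial.totalDegree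
  apply Finset.sup_mono
  exact MvPolynomial.support_map_subset f P

theorem pe_eq {k : ℕ} (c : Fin (k + 1) → QS S) (x : QS S) {A : S.L} (hc : vd c 1 ≤ A) (hx : dg x 1 ≤ A) :
    dg (pe c x) 1 ≤ A := by
  unfold pe
  apply (Kn S 1 le_rfl A).sum_mem
  intro a _
  exact (Kn S 1 le_rfl A).mul_mem ((dg_le_vd c 1 a).trans hc) ((Kn S 1 le_rfl A).pow_mem hx _)

theorem vd_qs {T : Sp} (p : Pj T S) {ι : Type} [Fintype ι] (f : ι → QS S) (r : ℝ) :
    vd (fun i => p.qs (f i)) r = p.map (vd f r) := p.qs_vd f r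

theorem sd_qs {T : Sp} (p : Pj T S) {ι : Type} (f : ι → QS S) (s : Finset ι) :
    sd (fun i => p.qs (f i)) s = p.map (sd f s) := by
  unfold sd
  rw [p.map_finsup]
  congr 1
  funext i
  exact p.qs_dg (f i) 1

theorem Rl.pull {T : Sp} (p : Pj T S) {ι : Type} [Fintype ι] {x : ι → QS S} {A : S.L} (hx : Rl x A) :
    Rl (fun i => p.qs (x i)) (p.map A) := by
  unfold Rl at hx ⊢
  rw [vd_qs, Pj.h_map]
  exact hx

theorem Rl.comp {ι κ : Type} [Fintype ι] [Fintype κ] {x : ι → QS S} {A : S.L} (hx : Rl x A) (f : κ → ι)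
    (hf : Function.Injective f) : Rl (fun i => x (f i)) A := by
  classical
  have h1 := hx.sub (s := Finset.univ.image f) (t := ∅) (by simp)
  have h2 : sd x (Finset.univ.image f) = vd (fun i => x (f i)) 1 := by
    unfold sd vd
    rw [Finset.sup_image]
    rfl
  have h3 : sd x ∅ = ⊥ := rfl
  rw [h2, h3, Finset.card_image_of_injective _ hf, Finset.card_univ, bot_sup_eq] at h1
  exact h1

/-- LEMMA SEP: a function which is weakly polynomial in every one of the real variables `s` is a polynomial with free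
coefficients (in an extension) -/
theorem sep {k : ℕ} : ∀ (D : ℕ) {S : Sp} {ι : Type} [Fintype ι] (F : ι → QS S) (s : Fin D → QS S) (g : QS S),
    Rl s (vd F 1) → dg g 1 ≤ vd s 1 ⊔ vd F 1 →
    (∀ i, ∃ G : Fin (k + 1) → QS S, vd G 1 ≤ sd s (Finset.univ.erase i) ⊔ vd F 1 ∧ g = pe G (s i)) →
    ∃ (W : Sp) (p : Pj W S) (P : MvPolynomial (Fin D) (QS W)), P ∈ PK (p.map (vd F 1)) ∧ P.totalDegree ≤ k * D ∧
      p.qs g = MvPolynomial.eval (fun i => p.qs (s i)) P := by
  classical
  intro D
  induction D with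
  | zero =>
    intro S ι _ F s g _ hg _
    refine ⟨S, Pj.id S, MvPolynomial.C g, C_mem ?_, ?_, ?_⟩
    · rw [Pj.id_map]
      refine hg.trans (sup_le ?_ le_rfl)
      rw [vd_le]
      intro i
      exact i.elim0
    · rw [MvPolynomial.totalDegree_C]
      exact Nat.zero_le _
    · rw [MvPolynomial.eval_C, Pj.id_qs]
  | succ D ih =>
    intro S ι _ F s g hs hg hG
    choose G hG1 hG2 using hG
    set t := s 0 with ht
    set s' : Fin D → QS S := fun i => s i.succ with hs'
    have a1 : ∀ i : Fin D, sd s (Finset.univ.erase i.succ) = dg t 1 ⊔ sd s' (Finset.univ.erase i) := by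
      intro i
      apply le_antisymm
      · rw [sd_le]
        intro j hj
        rw [Finset.mem_erase] at hj
        induction j using Fin.cases with
        | zero => exact le_sup_left
        | succ j =>
          refine le_trans ?_ le_sup_right
          exact dg_le_sd s' (Finset.mem_erase.mpr ⟨fun hc => hj.1 (by rw [hc]), Finset.mem_univ _⟩)
      · apply sup_le
        · exact dg_le_sd s (Finset.mem_erase.mpr ⟨(Fin.succ_ne_zero i).symm, Finset.mem_univ _⟩)
        · rw [sd_le]
          intro j hj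
          rw [Finset.mem_erase] at hj
          exact dg_le_sd s (Finset.mem_erase.mpr ⟨fun hc => hj.1 (Fin.succ_injective _ hc), Finset.mem_univ _⟩)
    have a2 : sd s (Finset.univ.erase 0) = vd s' 1 := by
      apply le_antisymm
      · rw [sd_le]
        intro j hj
        rw [Finset.mem_erase] at hj
        induction j using Fin.cases with
        | zero => exact absurd rfl hj.1
        | succ j => exact dg_le_vd s' 1 j
      · rw [vd_le]
        intro j
        exact dg_le_sd s (Finset.mem_erase.mpr ⟨Fin.succ_ne_zero j, Finset.mem_univ _⟩)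
    -- first stage
    obtain ⟨W, p, hQ⟩ := ext_all (S := S) (Finset.univ : Finset (Fin D))
      (fun i W p => ∃ e : Fin (k + 1) → Fin (k + 1) → QS W,
        (∀ a b, dg (e a b) 1 ≤ p.map (sd s' (Finset.univ.erase i) ⊔ vd F 1)) ∧
        ∀ b, p.qs (G 0 b) = pe (fun a => e a b) (p.qs (s' i)))
      (by
        rintro i W p W' q ⟨e, h1, h2⟩
        refine ⟨fun a b => q.qs (e a b), fun a b => ?_, fun b => ?_⟩
        · rw [q.qs_dg, Pj.comp_map]
          exact q.map_mono (h1 a b)
        · rw [Pj.comp_qs, h2 b, pe_map, Pj.comp_qs])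
      (by
        intro i W p
        set F' : {j : Fin D // j ≠ i} ⊕ ι → QS W :=
          Sum.elim (fun j => p.qs (s' j.1)) (fun a => p.qs (F a)) with hF'
        have vF : vd F' 1 = p.map (sd s' (Finset.univ.erase i) ⊔ vd F 1) := by
          rw [Pj.map_sup, ← sd_qs, ← vd_qs]
          apply le_antisymm
          · rw [vd_le]
            rintro (j | a)
            · refine le_trans ?_ le_sup_left
              exact dg_le_sd (fun i => p.qs (s' i)) (Finset.mem_erase.mpr ⟨j.2, Finset.mem_univ _⟩)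
            · exact (dg_le_vd (fun a => p.qs (F a)) 1 a).trans le_sup_right
          · apply sup_le
            · rw [sd_le]
              intro j hj
              rw [Finset.mem_erase] at hj
              exact dg_le_vd F' 1 (Sum.inl ⟨j, hj.1⟩)
            · rw [vd_le]
              intro a
              exact dg_le_vd F' 1 (Sum.inr a)
        obtain ⟨W', q, e, h1, h2⟩ := sep2 F' (p.qs (s' i)) (p.qs t) (p.qs g) (fun a => p.qs (G i.succ a))
          (fun a => p.qs (G 0 a))
          (by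
            rw [vF, p.qs_dg, p.qs_dg, ← Pj.map_sup, Pj.h_map]
            have b1 := hs.sub (s := {i.succ, 0}) (t := (Finset.univ.erase i).map (Fin.succEmb D)) (by
              rw [Finset.disjoint_left]
              intro j hj hj'
              rw [Finset.mem_map] at hj'
              obtain ⟨l, hl, rfl⟩ := hj'
              rw [Finset.mem_insert, Finset.mem_singleton] at hj
              rcases hj with hj | hj
              · exact (Finset.mem_erase.mp hl).1 (Fin.succ_injective _ hj)
              · exact Fin.succ_ne_zero l hj)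
            have b2 : sd s ((Finset.univ.erase i).map (Fin.succEmb D)) = sd s' (Finset.univ.erase i) := by
              unfold sd
              rw [Finset.sup_map]
              rfl
            have b3 : sd s {i.succ, 0} = dg (s' i) 1 ⊔ dg t 1 := by
              unfold sd
              rw [Finset.sup_insert, Finset.sup_singleton]
            have b4 : ({i.succ, 0} : Finset (Fin (D + 1))).card = 2 :=
              Finset.card_pair (Fin.succ_ne_zero i)
            rw [b2, b3, b4] at b1
            exact_mod_cast b1)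
          (by
            rw [vd_qs, vF, p.qs_dg, ← Pj.map_sup]
            apply p.map_mono
            refine (hG1 i.succ).trans ?_
            rw [a1, sup_assoc])
          (by
            rw [vd_qs, vF, p.qs_dg, ← Pj.map_sup]
            apply p.map_mono
            refine (hG1 0).trans ?_
            rw [a2, ← sup_assoc]
            apply sup_le_sup_right
            rw [vd_le]
            intro j
            by_cases hj : j = i
            · rw [hj]; exact le_sup_left
            · exact (dg_le_sd s' (Finset.mem_erase.mpr ⟨hj, Finset.mem_univ _⟩)).trans le_sup_right)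
          (by
            have b1 := congrArg p.qs (hG2 i.succ)
            rw [pe_map] at b1
            exact b1)
          (by
            have b1 := congrArg p.qs (hG2 0)
            rw [pe_map] at b1
            exact b1)
        refine ⟨W', q, e, fun a b => ?_, fun b => ?_⟩
        · rw [Pj.comp_map, ← vF]
          exact h1 a b
        · rw [Pj.comp_qs, Pj.comp_qs]
          exact h2 b)
    have hQ' := fun i => hQ i (Finset.mem_univ i)
    choose e he1 he2 using hQ'
    -- second stage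
    obtain ⟨W', q, hR⟩ := ext_all (S := W) (Finset.univ : Finset (Fin (k + 1)))
      (fun b W' q => ∃ P : MvPolynomial (Fin D) (QS W'), P ∈ PK (q.map (p.map (vd F 1))) ∧ P.totalDegree ≤ k * D ∧
        q.qs (p.qs (G 0 b)) = MvPolynomial.eval (fun i => q.qs (p.qs (s' i))) P)
      (by
        rintro b W' q W'' q' ⟨P, h1, h2, h3⟩
        refine ⟨MvPolynomial.map q'.qs P, ?_, ?_, ?_⟩
        · rw [Pj.comp_map]
          exact map_PK q' h1
        · exact (totalDegree_map_le _ _).trans h2
        · rw [Pj.comp_qs, h3, qs_eval]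
          simp only [Pj.comp_qs])
      (by
        intro b W' q
        obtain ⟨W'', q', P, h1, h2, h3⟩ := ih (fun a => q.qs (p.qs (F a))) (fun i => q.qs (p.qs (s' i)))
          (q.qs (p.qs (G 0 b)))
          (by
            rw [vd_qs, vd_qs]
            exact ((hs.comp Fin.succ (Fin.succ_injective D)).pull p).pull q)
          (by
            rw [vd_qs, vd_qs, vd_qs, vd_qs, q.qs_dg, p.qs_dg, ← Pj.map_sup, ← Pj.map_sup]
            apply q.map_mono
            apply p.map_mono
            rw [← a2]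
            exact (dg_le_vd (G 0) 1 b).trans (hG1 0))
          (by
            intro i
            refine ⟨fun a => q.qs (e i a b), ?_, ?_⟩
            · rw [vd_qs, vd_qs, vd_qs, sd_qs, sd_qs, ← Pj.map_sup, ← Pj.map_sup]
              apply q.map_mono
              rw [vd_le]
              intro a
              exact he1 i a b
            · rw [he2 i b, pe_map])
        refine ⟨W'', q', P, ?_, h2, ?_⟩
        · rw [vd_qs, vd_qs] at h1
          rw [Pj.comp_map]
          exact h1
        · rw [Pj.comp_qs, h3]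
          simp only [Pj.comp_qs])
    have hR' := fun b => hR b (Finset.mem_univ b)
    choose P hP1 hP2 hP3 using hR'
    refine ⟨W', q.comp p, ∑ b : Fin (k + 1), MvPolynomial.rename Fin.succ (P b) * MvPolynomial.X 0 ^ (b : ℕ), ?_, ?_, ?_⟩
    · rw [Pj.comp_map]
      apply (PK _).sum_mem
      intro b _
      exact (PK _).mul_mem (rename_mem _ (hP1 b)) ((PK _).pow_mem (X_mem _ 0) _)
    · apply (MvPolynomial.totalDegree_finsetSum _ _).trans
      apply Finset.sup_le
      intro b _
      refine (MvPolynomial.totalDegree_mul _ _).trans ?_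
      rw [MvPolynomial.totalDegree_X_pow]
      have c1 := (MvPolynomial.totalDegree_rename_le (R := QS W') Fin.succ (P b)).trans (hP2 b)
      have c2 := b.2
      have c3 : k * (D + 1) = k * D + k := by ring
      omega
    · rw [map_sum, Pj.comp_qs, hG2 0, pe_map, pe_map]
      unfold pe
      apply Finset.sum_congr rfl
      intro b _
      rw [map_mul, map_pow, MvPolynomial.eval_X, MvPolynomial.eval_rename, Pj.comp_qs]
      show q.qs (p.qs (G 0 b)) * _ = _
      rw [hP3 b]
      have c1 : (fun i => q.qs (p.qs (s' i))) = (fun i => (q.comp p).qs (s i)) ∘ Fin.succ := by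
        funext i
        exact (Pj.comp_qs q p (s' i)).symm
      rw [c1]

end QS

end

end Pool.Agent.Helper31.EC
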