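import Pool.Agent.Helper31.EC.Ring

/-! Exact entropy calculus: several conditionally independent copies of a space. -/

namespace Pool.Agent.Helper31.EC

open Finset Filter Topology Pool.Agent.Helper69.RK

noncomputable section

/-- `d + 1` conditionally independent copies of `S` over the variable `V` (and the base) -/
structure Cps (S : Sp) {α : ℕ → Type} (V : ∀ k, (S.F k).Ω → α k) (d : ℕ) where
  W : Sp
  p : Fin (d + 1) → Pj W S
  agree : ∀ k w, (W.F k).μ w ≠ 0 → ∀ i j, V k ((p i).π k w) = V k ((p j).π k w)
  common : ∀ i j, (p i).map (Sp.io V) = (p j).map (Sp.io V)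
  indep : ∀ A : Fin (d + 1) → S.L, h (Finset.univ.sup fun i => (p i).map (A i)) ((p 0).map (Sp.io V)) =
    ∑ i, h (A i) (Sp.io V)

theorem sup_map {T S : Sp} (p : Pj T S) {ι : Type*} (s : Finset ι) (f : ι → S.L) :
    p.map (s.sup f) = s.sup fun i => p.map (f i) := by
  classical
  induction s using Finset.induction_on with
  | empty => simp [p.map_bot]
  | insert a s ha ih => rw [Finset.sup_insert, Finset.sup_insert, p.map_sup, ih]

theorem sup_univ_succ {L : Type*} [SemilatticeSup L] [OrderBot L] {n : ℕ} (f : Fin (n + 1) → L) :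
    Finset.univ.sup f = (Finset.univ.sup fun i : Fin n => f i.castSucc) ⊔ f (Fin.last n) := by
  apply le_antisymm
  · apply Finset.sup_le
    intro i _
    induction i using Fin.lastCases with
    | last => exact le_sup_right
    | cast i => exact (Finset.le_sup (f := fun i : Fin n => f i.castSucc) (Finset.mem_univ i)).trans le_sup_left
  · apply sup_le
    · apply Finset.sup_le
      intro i _
      exact Finset.le_sup (f := f) (Finset.mem_univ _)
    · exact Finset.le_sup (f := f) (Finset.mem_univ _)

/-- copies exist -/
theorem Cps.exists {S : Sp} {α : ℕ → Type} (V : ∀ k, (S.F k).Ω → α k) (hV : Sp.Bdd V) (d : ℕ) :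
    Nonempty (Cps S V d) := by
  induction d with
  | zero =>
    refine ⟨⟨S, fun _ => Pj.id S, fun _ _ _ _ _ => rfl, fun _ _ => rfl, fun A => ?_⟩⟩
    have h1 : (Finset.univ.sup fun i : Fin (0 + 1) => (Pj.id S).map (A i)) = A 0 := by
      rw [sup_univ_succ]
      simp [Pj.id_map]
    rw [h1, Pj.id_map]
    simp
  | succ d ih =>
    obtain ⟨C⟩ := ih
    set q := (C.p 0) with hq
    refine ⟨⟨(q.join V).sp, Fin.lastCases (q.join V).p2 (fun i => (q.join V).p1.comp (C.p i)), ?_, ?_, ?_⟩⟩
    · intro k w hw i j
      have hs := (q.join V).supp k w hw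
      have key : ∀ i : Fin (d + 1 + 1), V k ((Fin.lastCases (motive := fun _ => Pj (q.join V).sp S) (q.join V).p2
          (fun i => (q.join V).p1.comp (C.p i)) i).π k w) = V k w.2 := by
        intro i
        induction i using Fin.lastCases with
        | last => rw [Fin.lastCases_last]; rfl
        | cast i =>
          rw [Fin.lastCases_castSucc]
          have h1 := C.agree k w.1 hs.2.1 i 0
          have h2 := Pj.join_supp q V k w hw
          exact h1.trans h2
      rw [key i, key j]
    · have key : ∀ i : Fin (d + 1 + 1), (Fin.lastCases (motive := fun _ => Pj (q.join V).sp S) (q.join V).p2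
          (fun i => (q.join V).p1.comp (C.p i)) i).map (Sp.io V) = (q.join V).p2.map (Sp.io V) := by
        intro i
        induction i using Fin.lastCases with
        | last => rw [Fin.lastCases_last]
        | cast i =>
          rw [Fin.lastCases_castSucc, Pj.comp_map, C.common i 0]
          exact Pj.join_common q V hV
      intro i j
      rw [key i, key j]
    · intro A
      rw [sup_univ_succ, Fin.sum_univ_castSucc]
      have e0 : (0 : Fin (d + 1 + 1)) = Fin.castSucc 0 := rfl
      rw [e0]
      simp only [Fin.lastCases_last, Fin.lastCases_castSucc, Pj.comp_map]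
      rw [← sup_map (q.join V).p1, h_chain]
      have h1 : h ((q.join V).p1.map (Finset.univ.sup fun i => (C.p i).map (A i.castSucc)))
          ((q.join V).p1.map ((C.p 0).map (Sp.io V))) = ∑ i : Fin (d + 1), h (A i.castSucc) (Sp.io V) := by
        rw [Pj.h_map]
        exact C.indep fun i => A i.castSucc
      rw [h1]
      congr 1
      have h2 := Pj.join_indep q V hV (Finset.univ.sup fun i => (C.p i).map (A i.castSucc)) (A (Fin.last (d + 1)))
      rw [I_zero_iff_h'] at h2
      rw [h2, Pj.join_common q V hV, Pj.h_map]

namespace Cps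

variable {S : Sp} {α : ℕ → Type} {V : ∀ k, (S.F k).Ω → α k} {d : ℕ} (C : Cps S V d)

/-- the common variable -/
def v : C.W.L := (C.p 0).map (Sp.io V)

theorem p_v (i : Fin (d + 1)) : (C.p i).map (Sp.io V) = C.v := C.common i 0

theorem h_map_v (i : Fin (d + 1)) (x : S.L) : h ((C.p i).map x) C.v = h x (Sp.io V) := by
  rw [← C.p_v i, Pj.h_map]

theorem indep' (A : Fin (d + 1) → S.L) : h (Finset.univ.sup fun i => (C.p i).map (A i)) C.v =
    ∑ i, h ((C.p i).map (A i)) C.v := by
  rw [show C.v = (C.p 0).map (Sp.io V) from rfl, C.indep A]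
  apply Finset.sum_congr rfl
  intro i _
  rw [show (C.p 0).map (Sp.io V) = C.v from rfl, C.h_map_v]

end Cps

/-- subadditivity of conditional entropies of finite joins -/
theorem h_finsup_le {L : Type*} [PM L] {ι : Type*} (s : Finset ι) (f : ι → L) (C : L) :
    h (s.sup f) C ≤ ∑ i ∈ s, h (f i) C := by
  classical
  induction s using Finset.induction_on with
  | empty => simp [h_zero]
  | insert a s ha ih =>
    rw [Finset.sup_insert, Finset.sum_insert ha]
    exact (h_sup_le _ _ _).trans (by linarith)

/-- a common part `v` of conditionally independent variables, each of which is independent of `v` given a part of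
`v`: then they are jointly independent of `v` -/
theorem I_finsup_zero {L : Type*} [PM L] {ι : Type*} [Fintype ι] (f : ι → L) (v w : L) (hwv : w ≤ v)
    (hi : h (Finset.univ.sup f) v = ∑ i, h (f i) v) (h0 : ∀ i, I (f i) v w = 0) :
    I (Finset.univ.sup f) v w = 0 := by
  apply le_antisymm _ (I_nonneg _ _ _)
  rw [I_eq]
  have h1 : v ⊔ w = v := sup_eq_left.mpr hwv
  rw [h1, hi]
  have h2 := h_finsup_le Finset.univ f w
  have h3 : ∀ i, h (f i) w = h (f i) v := by
    intro i
    have := h0 i
    rw [I_eq, h1] at this
    linarith
  rw [Finset.sum_congr rfl (fun i _ => h3 i)] at h2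
  linarith

end

end Pool.Agent.Helper31.EC
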