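import Pool.Agent.Helper31.EC.Quo

/-! Exact entropy calculus: copies given finitely many functions, in the ring of functions to full precision. -/

namespace Pool.Agent.Helper31.EC

open Finset Filter Topology Pool.Agent.Helper69.RK

noncomputable section

namespace TR

open Sp

variable {S : Sp}

theorem vec_dg_eq {m : ℕ} (y : Fin m → TR S) (r : ℝ) : (vec y).dg r = Finset.univ.sup fun i => dg (y i) r := by
  apply le_antisymm
  · exact vec_dg_le y r _ fun i => Finset.le_sup (f := fun i => dg (y i) r) (Finset.mem_univ i)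
  · exact Finset.sup_le fun i _ => cor_dg_le (vec y) i r

end TR

namespace QS

open Sp

variable {S : Sp}

/-- digits of a family of functions -/
def vd {ι : Type*} [Fintype ι] (f : ι → QS S) (r : ℝ) : S.L := Finset.univ.sup fun i => dg (f i) r

theorem dg_le_vd {ι : Type*} [Fintype ι] (f : ι → QS S) (r : ℝ) (i : ι) : dg (f i) r ≤ vd f r :=
  Finset.le_sup (f := fun i => dg (f i) r) (Finset.mem_univ i)

theorem vd_le {ι : Type*} [Fintype ι] (f : ι → QS S) (r : ℝ) (A : S.L) : vd f r ≤ A ↔ ∀ i, dg (f i) r ≤ A := by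
  unfold vd
  rw [Finset.sup_le_iff]
  simp

theorem vd_mono {ι : Type*} [Fintype ι] (f : ι → QS S) {r s : ℝ} (h : r ≤ s) : vd f r ≤ vd f s :=
  (vd_le f r _).mpr fun i => (dg_mono (f i) h).trans (dg_le_vd f s i)

/-- representative -/
def rep (f : QS S) : TR S := (mk_surj f).choose

theorem mk_rep (f : QS S) : mk (rep f) = f := (mk_surj f).choose_spec

/-- the entropy of the digits -/
theorem H_dg_le (f : QS S) {r : ℝ} (hr : 0 ≤ r) : H (dg f r) ≤ r := by
  unfold dg TR.dg
  have h1 := (TR.vec fun _ : Fin 1 => (mk_surj f).choose).H_dg_le (r := min r 1) (le_min hr zero_le_one)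
  simp only [Nat.cast_one, one_mul] at h1
  exact h1.trans (min_le_left _ _)

theorem h_dg_dg (f : QS S) {r s : ℝ} (hrs : r ≤ s) : h (dg f s) (dg f r) ≤ s - r := by
  unfold dg TR.dg
  have h1 := (TR.vec fun _ : Fin 1 => (mk_surj f).choose).h_dg_dg (r := min r 1) (s := min s 1) (min_le_min_right 1 hrs)
  simp only [Nat.cast_one, one_mul] at h1
  refine h1.trans ?_
  rcases le_total s 1 with h2 | h2
  · rw [min_eq_left h2, min_eq_left (hrs.trans h2)]
  · rw [min_eq_right h2]
    rcases le_total r 1 with h3 | h3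
    · rw [min_eq_left h3]; linarith
    · rw [min_eq_right h3]; linarith

theorem dg_nonpos (f : QS S) {r : ℝ} (hr : r ≤ 0) : dg f r = ⊥ := by
  unfold dg TR.dg
  exact (TR.vec fun _ : Fin 1 => (mk_surj f).choose).dg_nonpos ((min_le_left _ _).trans hr)

theorem dg_add_le (f g : QS S) {r : ℝ} (hr : r ≤ 1) : dg (f + g) r ≤ dg f r ⊔ dg g r :=
  (Kn S r hr (dg f r ⊔ dg g r)).add_mem (mem_Kn.mpr le_sup_left) (mem_Kn.mpr le_sup_right)

theorem dg_sub_le (f g : QS S) {r : ℝ} (hr : r ≤ 1) : dg (f - g) r ≤ dg f r ⊔ dg g r :=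
  (Kn S r hr (dg f r ⊔ dg g r)).sub_mem (mem_Kn.mpr le_sup_left) (mem_Kn.mpr le_sup_right)

theorem dg_mul_le (f g : QS S) {r : ℝ} (hr : r ≤ 1) : dg (f * g) r ≤ dg f r ⊔ dg g r :=
  (Kn S r hr (dg f r ⊔ dg g r)).mul_mem (mem_Kn.mpr le_sup_left) (mem_Kn.mpr le_sup_right)

end QS

theorem Pj.map_finsup {T S : Sp} (p : Pj T S) {ι : Type*} (s : Finset ι) (f : ι → S.L) :
    p.map (s.sup f) = s.sup fun i => p.map (f i) := sup_map p s f

theorem Pj.qs_vd {T S : Sp} (p : Pj T S) {ι : Type*} [Fintype ι] (f : ι → QS S) (r : ℝ) :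
    QS.vd (fun i => p.qs (f i)) r = p.map (QS.vd f r) := by
  unfold QS.vd
  rw [p.map_finsup]
  congr 1
  funext i
  exact p.qs_dg (f i) r

theorem Pj.comp_qs {R T S : Sp} (q : Pj R T) (p : Pj T S) (f : QS S) : (q.comp p).qs f = q.qs (p.qs f) := by
  obtain ⟨f, rfl⟩ := QS.mk_surj f
  rfl

theorem Pj.id_qs {S : Sp} (f : QS S) : (Pj.id S).qs f = f := by
  obtain ⟨f, rfl⟩ := QS.mk_surj f
  rfl

/-- COPIES. `W` an extension of `S`, `f` finitely many functions on `S`: there is a space with projections to `W`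
(the old configuration) and to `S` (the new copy) in which `f` is common and everything else is conditionally
independent given `f`. -/
theorem Pj.exists_copy {W S : Sp} (p : Pj W S) {N : ℕ} (f : Fin N → QS S) :
    ∃ (D : Sp) (p1 : Pj D W) (p2 : Pj D S), (∀ i, p1.qs (p.qs (f i)) = p2.qs (f i)) ∧
      (∀ x y, I (p1.map x) (p2.map y) (p1.map (p.map (QS.vd f 1))) = 0) := by
  classical
  set g : Fin N → TR S := fun i => QS.rep (f i) with hg
  have hgf : ∀ i, QS.mk (g i) = f i := fun i => QS.mk_rep (f i)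
  set V := (TR.vec g).cellv 1 with hV
  have hVb : Sp.Bdd V := (TR.vec g).bdd 1
  have hvd : Sp.io V = QS.vd f 1 := by
    show (TR.vec g).dg 1 = _
    rw [TR.vec_dg_eq]
    unfold QS.vd
    congr 1
    funext i
    rw [← hgf i, QS.dg_mk _ le_rfl]
  refine ⟨(p.join V).sp, (p.join V).p1, (p.join V).p2, fun i => ?_, fun x y => ?_⟩
  · rw [← hgf i]
    show QS.mk ((p.join V).p1.tr (p.tr (g i))) = QS.mk ((p.join V).p2.tr (g i))
    rw [QS.mk_eq]
    refine ⟨fun _ _ => True, fun _ => 1, Sp.Typ_true, Sp.Sub_const _ zero_le_one,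
      Eventually.of_forall fun k w hw _ => ?_⟩
    have h1 := p.join_supp V k w hw
    have h2 := (TR.vec g).cellv_close 1 k (p.π k w.1) w.2 h1 i
    have h3 : (p.join V).sp.dl 1 k = S.dl 1 k := by
      unfold Sp.dl
      rw [show ((p.join V).sp.F k).n = (W.F k).n from rfl, p.hn k]
    rw [one_mul, h3]
    exact h2
  · rw [← hvd]
    exact p.join_indep V hVb x y

/-- the common information -/
theorem Pj.copy_common {W S D : Sp} {p : Pj W S} {N : ℕ} {f : Fin N → QS S} {p1 : Pj D W} {p2 : Pj D S}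
    (h : ∀ i, p1.qs (p.qs (f i)) = p2.qs (f i)) (r : ℝ) : p1.map (p.map (QS.vd f r)) = p2.map (QS.vd f r) := by
  rw [← p.qs_vd, ← p1.qs_vd, ← p2.qs_vd]
  congr 1
  funext i
  exact h i

end

end Pool.Agent.Helper31.EC
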