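import Pool.Agent.Helper96.RK.E1
import Pool.Agent.Helper96.RK.E2
import Pool.Agent.Helper96.RK.E3
import Pool.Agent.Helper8.RK.E4
import Pool.Agent.Helper70.RK.E5

/-! Exact entropy calculus, finite level: finite probability spaces with a base partition and a depth; conditional
entropies of partitions. -/

namespace Pool.Agent.Helper31.EC

open Finset Pool.Agent.Helper69.RK

noncomputable section

/-- a finite probability space with a base partition (everything is conditional on it) and a depth -/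
structure FSp where
  Ω : Type
  ft : Fintype Ω
  μ : Ω → ℝ
  nn : ∀ ω, 0 ≤ μ ω
  ms : mass μ = 1
  Z : Setoid Ω
  n : ℝ
  pos : 0 < n

attribute [instance] FSp.ft

/-- conditional entropy of partitions, in bits -/
def FSp.e (F : FSp) (A B : Setoid F.Ω) : ℝ := CH F.μ (Quotient.mk A) (Quotient.mk B)

/-- conditional entropies only depend on the partitions -/
theorem FSp.e_ker (F : FSp) {α β : Type} (f : F.Ω → α) (g : F.Ω → β) :
    F.e (Setoid.ker f) (Setoid.ker g) = CH F.μ f g := by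
  unfold FSp.e
  apply e2_CH_congr
  · intro ω ω' _ _
    exact Quotient.eq
  · intro ω ω' _ _
    rw [Prod.mk.injEq, Prod.mk.injEq]
    exact and_congr Quotient.eq Quotient.eq

theorem FSp.e_congr (F : FSp) {α β : Type} {A B : Setoid F.Ω} (f : F.Ω → α) (g : F.Ω → β)
    (hA : ∀ ω ω', F.μ ω ≠ 0 → F.μ ω' ≠ 0 → (A ω' ω ↔ f ω' = f ω))
    (hB : ∀ ω ω', F.μ ω ≠ 0 → F.μ ω' ≠ 0 → (B ω' ω ↔ g ω' = g ω)) : F.e A B = CH F.μ f g := by
  unfold FSp.e
  apply e2_CH_congr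
  · intro ω ω' h1 h2
    rw [← hB ω ω' h1 h2]
    exact Quotient.eq
  · intro ω ω' h1 h2
    rw [Prod.mk.injEq, Prod.mk.injEq, ← hA ω ω' h1 h2, ← hB ω ω' h1 h2]
    exact and_congr Quotient.eq Quotient.eq

theorem FSp.e_pair_left (F : FSp) (A B C : Setoid F.Ω) :
    CH F.μ (fun ω => (Quotient.mk A ω, Quotient.mk B ω)) (Quotient.mk C) = F.e (A ⊓ B) C := by
  rw [F.e_congr (A := A ⊓ B) (B := C) (fun ω => (Quotient.mk A ω, Quotient.mk B ω)) (Quotient.mk C)]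
  · intro ω ω' _ _
    rw [Prod.mk.injEq]
    exact and_congr Quotient.eq.symm Quotient.eq.symm
  · intro ω ω' _ _
    exact Quotient.eq.symm

theorem FSp.e_pair_right (F : FSp) (A B C : Setoid F.Ω) :
    CH F.μ (Quotient.mk A) (fun ω => (Quotient.mk B ω, Quotient.mk C ω)) = F.e A (B ⊓ C) := by
  rw [F.e_congr (A := A) (B := B ⊓ C) (Quotient.mk A) (fun ω => (Quotient.mk B ω, Quotient.mk C ω))]
  · intro ω ω' _ _
    exact Quotient.eq.symm
  · intro ω ω' _ _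
    rw [Prod.mk.injEq]
    exact and_congr Quotient.eq.symm Quotient.eq.symm

theorem FSp.e_nonneg (F : FSp) (A B : Setoid F.Ω) : 0 ≤ F.e A B := e1_nonneg _ _ _ F.nn

/-- chain rule -/
theorem FSp.e_chain (F : FSp) (A B C : Setoid F.Ω) : F.e (A ⊓ B) C = F.e A C + F.e B (A ⊓ C) := by
  have h1 := e1_chain F.μ (Quotient.mk A) (Quotient.mk B) (Quotient.mk C)
  rw [F.e_pair_left, F.e_pair_right] at h1
  exact h1

/-- a function of the condition -/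
theorem FSp.e_zero (F : FSp) {A B : Setoid F.Ω}
    (h : ∀ ω ω', F.μ ω ≠ 0 → F.μ ω' ≠ 0 → B ω ω' → A ω ω') : F.e A B = 0 := by
  apply e2_zero
  intro ω ω' h1 h2 h3
  exact Quotient.sound (h ω ω' h1 h2 (Quotient.exact h3))

/-- conditioning on a finer partition -/
theorem FSp.e_anti (F : FSp) {A B C : Setoid F.Ω}
    (h : ∀ ω ω', F.μ ω ≠ 0 → F.μ ω' ≠ 0 → C ω ω' → B ω ω') : F.e A C ≤ F.e A B := by
  apply (st_E2 st_E1).2.1 F.Ω _ _ _ F.μ _ _ _ F.nn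
  intro ω ω' h1 h2 h3
  exact Quotient.sound (h ω ω' h1 h2 (Quotient.exact h3))

/-- a function of the first partition and the condition -/
theorem FSp.e_mono (F : FSp) {A A' B : Setoid F.Ω}
    (h : ∀ ω ω', F.μ ω ≠ 0 → F.μ ω' ≠ 0 → A' ω ω' → B ω ω' → A ω ω') : F.e A B ≤ F.e A' B := by
  apply (st_E2 st_E1).1 F.Ω _ _ _ F.μ _ _ _ F.nn
  intro ω ω' h1 h2 h3
  rw [Prod.mk.injEq] at h3
  exact Quotient.sound (h ω ω' h1 h2 (Quotient.exact h3.1) (Quotient.exact h3.2))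

theorem FSp.e_congr_right (F : FSp) {A B C : Setoid F.Ω}
    (h : ∀ ω ω', F.μ ω ≠ 0 → F.μ ω' ≠ 0 → (C ω ω' ↔ B ω ω')) : F.e A C = F.e A B :=
  le_antisymm (F.e_anti fun ω ω' h1 h2 h3 => (h ω ω' h1 h2).1 h3)
    (F.e_anti fun ω ω' h1 h2 h3 => (h ω ω' h1 h2).2 h3)

theorem FSp.e_triangle (F : FSp) (A B C : Setoid F.Ω) : F.e A C ≤ F.e A (B ⊓ C) + F.e B C := by
  have h1 := F.e_chain B A C
  have h2 : F.e A C ≤ F.e (B ⊓ A) C := F.e_mono fun ω ω' _ _ h _ => h.2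
  linarith

theorem FSp.e_sup_le (F : FSp) (A B C : Setoid F.Ω) : F.e (A ⊓ B) C ≤ F.e A C + F.e B C := by
  have h1 := F.e_chain A B C
  have h2 : F.e B (A ⊓ C) ≤ F.e B C := F.e_anti fun ω ω' _ _ h => h.2
  linarith

/-- a variable with `|X - X'| ≤ K` on the atoms of the condition -/
theorem FSp.e_int_le (F : FSp) {m : ℕ} (X : F.Ω → Fin m → ℤ) (B : Setoid F.Ω) (K : ℝ) (hK : 0 ≤ K)
    (h : ∀ ω ω', F.μ ω ≠ 0 → F.μ ω' ≠ 0 → B ω ω' → ∀ i, |(X ω i : ℝ) - X ω' i| ≤ K) :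
    F.e (Setoid.ker X) B ≤ m * Real.logb 2 (K + 1) := by
  have h1 := st_E3.2 F.Ω _ m F.μ X (Quotient.mk B) K F.nn hK
    (fun ω ω' h1 h2 h3 => h ω ω' h1 h2 (Quotient.exact h3))
  rw [F.ms, mul_one] at h1
  refine le_trans (le_of_eq ?_) h1
  apply F.e_congr
  · intro ω ω' _ _
    exact Iff.rfl
  · intro ω ω' _ _
    exact Quotient.eq.symm

open Classical in
/-- the same with an exceptional event `E` on which `|X - X'| ≤ M` on the atoms of the condition -/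
theorem FSp.e_int_le_event (F : FSp) {m : ℕ} (X : F.Ω → Fin m → ℤ) (B : Setoid F.Ω) (E : F.Ω → Prop) (K M : ℝ)
    (hK : 0 ≤ K) (hM : 0 ≤ M)
    (h : ∀ ω ω', F.μ ω ≠ 0 → F.μ ω' ≠ 0 → ¬ E ω → ¬ E ω' → B ω ω' → ∀ i, |(X ω i : ℝ) - X ω' i| ≤ K)
    (h' : ∀ ω ω', F.μ ω ≠ 0 → F.μ ω' ≠ 0 → E ω → E ω' → B ω ω' → ∀ i, |(X ω i : ℝ) - X ω' i| ≤ M) :
    F.e (Setoid.ker X) B ≤
      m * Real.logb 2 (K + 1) + m * Real.logb 2 (M + 1) * mass (res F.μ E) + 1 := by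
  have hE4 := st_E4 st_E1 st_E3
  have h0 : F.e (Setoid.ker X) B = CH F.μ X (Quotient.mk B) := by
    apply F.e_congr
    · intro ω ω' _ _
      exact Iff.rfl
    · intro ω ω' _ _
      exact Quotient.eq.symm
  rw [h0]
  have h1 := (hE4.2.1 F.Ω _ _ F.μ X (Quotient.mk B) E F.nn).2
  rw [F.ms] at h1
  obtain ⟨h2, h3, h4⟩ := hE4.2.2 F.Ω F.μ E F.nn
  obtain ⟨_, h3', h4'⟩ := hE4.2.2 F.Ω F.μ (fun ω => ¬ E ω) F.nn
  rw [F.ms] at h2
  have r1 : ∀ (D : F.Ω → Prop) (ω : F.Ω), res F.μ D ω ≠ 0 → F.μ ω ≠ 0 ∧ D ω := by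
    intro D ω a
    by_cases hD : D ω
    · refine ⟨?_, hD⟩
      unfold res at a
      rwa [if_pos hD] at a
    · exfalso
      apply a
      unfold res
      rw [if_neg hD]
  have h5 := st_E3.2 F.Ω _ m (res F.μ E) X (Quotient.mk B) M h4 hM
    (fun ω ω' a b c => h' ω ω' (r1 E ω a).1 (r1 E ω' b).1 (r1 E ω a).2 (r1 E ω' b).2 (Quotient.exact c))
  have h6 := st_E3.2 F.Ω _ m (res F.μ (fun ω => ¬ E ω)) X (Quotient.mk B) K h4' hK
    (fun ω ω' a b c => h ω ω' (r1 _ ω a).1 (r1 _ ω' b).1 (r1 _ ω a).2 (r1 _ ω' b).2 (Quotient.exact c))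
  have h7 : mass (res F.μ (fun ω => ¬ E ω)) ≤ 1 := by linarith
  have h8 : 0 ≤ (m : ℝ) * Real.logb 2 (K + 1) :=
    mul_nonneg (Nat.cast_nonneg m) (Real.logb_nonneg (by norm_num) (by linarith))
  have h9 : (m : ℝ) * Real.logb 2 (K + 1) * mass (res F.μ (fun ω => ¬ E ω)) ≤ (m : ℝ) * Real.logb 2 (K + 1) := by
    nlinarith
  linarith

end

end Pool.Agent.Helper31.EC
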