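import Mathlib

/-! Exact entropy calculus: ultralimits of bounded real sequences along a fixed nonprincipal ultrafilter. -/

namespace Pool.Agent.Helper31.EC

open Filter Topology

noncomputable section

/-- the fixed ultrafilter, as a filter -/
def UF : Filter ℕ := ((Filter.hyperfilter ℕ : Ultrafilter ℕ) : Filter ℕ)

instance : NeBot UF := by unfold UF; infer_instance

theorem UF_le_atTop : UF ≤ (atTop : Filter ℕ) := Nat.hyperfilter_le_atTop

/-- bounded along the ultrafilter -/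
def UB (f : ℕ → ℝ) : Prop := ∃ C : ℝ, ∀ᶠ k in UF, |f k| ≤ C

/-- the ultralimit -/
def ul (f : ℕ → ℝ) : ℝ := limUnder UF f

theorem ul_tendsto {f : ℕ → ℝ} (hf : UB f) : Tendsto f UF (𝓝 (ul f)) := by
  obtain ⟨C, hC⟩ := hf
  have h1 : ∃ x ∈ Set.Icc (-C) C, (((Filter.hyperfilter ℕ).map f : Ultrafilter ℝ) : Filter ℝ) ≤ 𝓝 x := by
    apply isCompact_Icc.ultrafilter_le_nhds
    rw [Filter.le_principal_iff]
    show f ⁻¹' (Set.Icc (-C) C) ∈ UF
    filter_upwards [hC] with k hk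
    exact abs_le.mp hk
  obtain ⟨x, _, hx⟩ := h1
  have h2 : Tendsto f UF (𝓝 x) := hx
  exact tendsto_nhds_limUnder ⟨x, h2⟩

theorem ul_eq {f : ℕ → ℝ} {x : ℝ} (hf : Tendsto f UF (𝓝 x)) : ul f = x := hf.limUnder_eq

theorem UB_of_tendsto {f : ℕ → ℝ} {x : ℝ} (hf : Tendsto f UF (𝓝 x)) : UB f := by
  refine ⟨|x| + 1, ?_⟩
  have h1 : ∀ᶠ k in UF, |f k| < |x| + 1 := by
    have := (hf.abs).eventually (gt_mem_nhds (show |x| < |x| + 1 by linarith))
    exact this
  filter_upwards [h1] with k hk using hk.le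

theorem UB_iff {f : ℕ → ℝ} : UB f ↔ ∃ x, Tendsto f UF (𝓝 x) :=
  ⟨fun h => ⟨_, ul_tendsto h⟩, fun ⟨_, h⟩ => UB_of_tendsto h⟩

theorem UB_const (c : ℝ) : UB (fun _ => c) := ⟨|c|, Eventually.of_forall fun _ => le_rfl⟩

theorem UB.add {f g : ℕ → ℝ} (hf : UB f) (hg : UB g) : UB (fun k => f k + g k) :=
  UB_of_tendsto ((ul_tendsto hf).add (ul_tendsto hg))

theorem UB.neg {f : ℕ → ℝ} (hf : UB f) : UB (fun k => -f k) := UB_of_tendsto (ul_tendsto hf).neg

theorem UB.sub {f g : ℕ → ℝ} (hf : UB f) (hg : UB g) : UB (fun k => f k - g k) :=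
  UB_of_tendsto ((ul_tendsto hf).sub (ul_tendsto hg))

theorem UB.const_mul {f : ℕ → ℝ} (c : ℝ) (hf : UB f) : UB (fun k => c * f k) :=
  UB_of_tendsto ((ul_tendsto hf).const_mul c)

theorem UB.mul {f g : ℕ → ℝ} (hf : UB f) (hg : UB g) : UB (fun k => f k * g k) :=
  UB_of_tendsto ((ul_tendsto hf).mul (ul_tendsto hg))

/-- a sequence between two bounded ones -/
theorem UB.sandwich {f g h : ℕ → ℝ} (hf : UB f) (hh : UB h) (h1 : ∀ᶠ k in UF, f k ≤ g k)
    (h2 : ∀ᶠ k in UF, g k ≤ h k) : UB g := by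
  obtain ⟨C, hC⟩ := hf
  obtain ⟨D, hD⟩ := hh
  refine ⟨max C D, ?_⟩
  filter_upwards [hC, hD, h1, h2] with k a b c d
  rw [abs_le] at a b ⊢
  constructor
  · have := le_max_left C D; linarith [a.1]
  · have := le_max_right C D; linarith [b.2]

theorem UB_of_nonneg_le {f : ℕ → ℝ} {C : ℝ} (h0 : ∀ᶠ k in UF, 0 ≤ f k) (h1 : ∀ᶠ k in UF, f k ≤ C) : UB f :=
  UB.sandwich (UB_const 0) (UB_const C) h0 h1

theorem ul_const (c : ℝ) : ul (fun _ => c) = c := ul_eq tendsto_const_nhds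

theorem ul_add {f g : ℕ → ℝ} (hf : UB f) (hg : UB g) : ul (fun k => f k + g k) = ul f + ul g :=
  ul_eq ((ul_tendsto hf).add (ul_tendsto hg))

theorem ul_sub {f g : ℕ → ℝ} (hf : UB f) (hg : UB g) : ul (fun k => f k - g k) = ul f - ul g :=
  ul_eq ((ul_tendsto hf).sub (ul_tendsto hg))

theorem ul_neg {f : ℕ → ℝ} (hf : UB f) : ul (fun k => -f k) = -ul f := ul_eq (ul_tendsto hf).neg

theorem ul_const_mul {f : ℕ → ℝ} (c : ℝ) (hf : UB f) : ul (fun k => c * f k) = c * ul f :=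
  ul_eq ((ul_tendsto hf).const_mul c)

theorem ul_mul {f g : ℕ → ℝ} (hf : UB f) (hg : UB g) : ul (fun k => f k * g k) = ul f * ul g :=
  ul_eq ((ul_tendsto hf).mul (ul_tendsto hg))

theorem ul_congr {f g : ℕ → ℝ} (h : ∀ᶠ k in UF, f k = g k) : ul f = ul g := by
  unfold ul limUnder
  rw [Filter.map_congr h]

theorem ul_mono {f g : ℕ → ℝ} (hf : UB f) (hg : UB g) (h : ∀ᶠ k in UF, f k ≤ g k) : ul f ≤ ul g :=
  le_of_tendsto_of_tendsto (ul_tendsto hf) (ul_tendsto hg) h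

theorem ul_le_const {f : ℕ → ℝ} {c : ℝ} (hf : UB f) (h : ∀ᶠ k in UF, f k ≤ c) : ul f ≤ c :=
  le_of_tendsto (ul_tendsto hf) h

theorem const_le_ul {f : ℕ → ℝ} {c : ℝ} (hf : UB f) (h : ∀ᶠ k in UF, c ≤ f k) : c ≤ ul f :=
  ge_of_tendsto (ul_tendsto hf) h

/-- an ultralimit below `c` gives eventually a bound below `c` -/
theorem eventually_lt_of_ul_lt {f : ℕ → ℝ} {c : ℝ} (hf : UB f) (h : ul f < c) : ∀ᶠ k in UF, f k < c :=
  (ul_tendsto hf).eventually (gt_mem_nhds h)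

theorem eventually_gt_of_lt_ul {f : ℕ → ℝ} {c : ℝ} (hf : UB f) (h : c < ul f) : ∀ᶠ k in UF, c < f k :=
  (ul_tendsto hf).eventually (lt_mem_nhds h)

/-- a set of indices is large or its complement is -/
theorem UF_em (p : ℕ → Prop) : (∀ᶠ k in UF, p k) ∨ (∀ᶠ k in UF, ¬ p k) := by
  have := (Filter.hyperfilter ℕ).em p
  exact this

/-- if an eventual statement fails, its negation is eventual -/
theorem UF_not {p : ℕ → Prop} (h : ¬ ∀ᶠ k in UF, p k) : ∀ᶠ k in UF, ¬ p k := (UF_em p).resolve_left h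

theorem UF_ge (N : ℕ) : ∀ᶠ k in UF, N ≤ k := UF_le_atTop (Filter.eventually_ge_atTop N)

/-- DIAGONAL LEMMA. `s j` is a sequence in `X` for every `j`, `f i j` functionals; one index `κ j` for every `j`
such that in the limit over `j` the values of the functionals at `s j (κ j)` and their ultralimits along `s j` agree,
and moreover finitely many (more and more) events which are large for `s j` hold at `κ j`. -/
theorem diag_exists {X : Type*} (s : ℕ → ℕ → X) (f : ℕ → ℕ → X → ℝ) (E : ℕ → ℕ → X → Prop)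
    (hf : ∀ i j, UB (fun k => f i j (s j k))) (hE : ∀ i j, ∀ᶠ k in UF, E i j (s j k)) :
    ∃ κ : ℕ → ℕ, (∀ j i, i ≤ j → |f i j (s j (κ j)) - ul (fun k => f i j (s j k))| ≤ 1 / ((j : ℝ) + 1)) ∧
      (∀ j i, i ≤ j → E i j (s j (κ j))) ∧ ∀ j, j ≤ κ j := by
  have h1 : ∀ j, ∃ k, (∀ i, i ≤ j → |f i j (s j k) - ul (fun k => f i j (s j k))| ≤ 1 / ((j : ℝ) + 1)) ∧
      (∀ i, i ≤ j → E i j (s j k)) ∧ j ≤ k := by
    intro j
    have h2 : ∀ i, ∀ᶠ k in UF, |f i j (s j k) - ul (fun k => f i j (s j k))| ≤ 1 / ((j : ℝ) + 1) := by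
      intro i
      have h3 := (ul_tendsto (hf i j)).sub_const (ul (fun k => f i j (s j k)))
      rw [sub_self] at h3
      have h4 := h3.abs
      rw [abs_zero] at h4
      have h5 : (0 : ℝ) < 1 / ((j : ℝ) + 1) := by positivity
      filter_upwards [h4.eventually (gt_mem_nhds h5)] with k hk using hk.le
    have h6 : ∀ᶠ k in UF, ∀ i ∈ Finset.range (j + 1),
        |f i j (s j k) - ul (fun k => f i j (s j k))| ≤ 1 / ((j : ℝ) + 1) := by
      rw [Filter.eventually_all_finset]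
      intro i _
      exact h2 i
    have h7 : ∀ᶠ k in UF, ∀ i ∈ Finset.range (j + 1), E i j (s j k) := by
      rw [Filter.eventually_all_finset]
      intro i _
      exact hE i j
    obtain ⟨k, a, b, c⟩ := (h6.and (h7.and (UF_ge j))).exists
    exact ⟨k, fun i hi => a i (Finset.mem_range.mpr (by omega)), fun i hi => b i (Finset.mem_range.mpr (by omega)), c⟩
  choose κ hκ using h1
  exact ⟨κ, fun j i hi => (hκ j).1 i hi, fun j i hi => (hκ j).2.1 i hi, fun j => (hκ j).2.2⟩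

/-- the diagonal sequence has the iterated ultralimits -/
theorem diag_ul {X : Type*} (s : ℕ → ℕ → X) (f : ℕ → ℕ → X → ℝ) (κ : ℕ → ℕ)
    (hκ : ∀ j i, i ≤ j → |f i j (s j (κ j)) - ul (fun k => f i j (s j k))| ≤ 1 / ((j : ℝ) + 1)) (i : ℕ)
    (hb : UB (fun j => ul (fun k => f i j (s j k)))) :
    Tendsto (fun j => f i j (s j (κ j))) UF (𝓝 (ul fun j => ul (fun k => f i j (s j k)))) := by
  have h1 : Tendsto (fun j => f i j (s j (κ j)) - ul (fun k => f i j (s j k))) UF (𝓝 0) := by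
    have h2 : Tendsto (fun j : ℕ => 1 / ((j : ℝ) + 1)) UF (𝓝 0) :=
      tendsto_one_div_add_atTop_nhds_zero_nat.mono_left UF_le_atTop
    rw [tendsto_zero_iff_abs_tendsto_zero]
    refine squeeze_zero' (Eventually.of_forall fun j => abs_nonneg _) ?_ h2
    filter_upwards [UF_ge i] with j hj using hκ j i hj
  have h3 := h1.add (ul_tendsto hb)
  simpa using h3

end

end Pool.Agent.Helper31.EC
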