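import Pool.Agent.Helper31.EC.Pj

/-! Exact entropy calculus: amalgams of two spaces over a common variable (conditional copies, walks). -/

namespace Pool.Agent.Helper31.EC

open Finset Filter Topology Pool.Agent.Helper69.RK

noncomputable section

theorem ind_and (p q : Prop) : e1_ind (p ∧ q) = e1_ind p * e1_ind q := by
  by_cases hp : p
  · by_cases hq : q
    · rw [e1_ind_pos ⟨hp, hq⟩, e1_ind_pos hp, e1_ind_pos hq, one_mul]
    · rw [e1_ind_neg (fun h => hq h.2), e1_ind_neg hq, mul_zero]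
  · rw [e1_ind_neg (fun h => hp h.1), e1_ind_neg hp, zero_mul]

theorem ind_congr {p q : Prop} (h : p ↔ q) : e1_ind p = e1_ind q := by
  rw [propext h]

theorem ind_nonneg (p : Prop) : 0 ≤ e1_ind p := by
  by_cases hp : p
  · rw [e1_ind_pos hp]; exact zero_le_one
  · rw [e1_ind_neg hp]

/-- mass of `f = a` -/
def ms {Ω α : Type} [Fintype Ω] (μ : Ω → ℝ) (f : Ω → α) (a : α) : ℝ := ∑ ω : Ω, e1_ind (f ω = a) * μ ω

/-- weights of the amalgam -/
def amw {Ω Ω' α : Type} [Fintype Ω] [Fintype Ω'] (μ : Ω → ℝ) (μ' : Ω' → ℝ) (f : Ω → α) (g : Ω' → α) : Ω × Ω' → ℝ :=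
  fun w => e1_ind (f w.1 = g w.2) * (μ w.1 * μ' w.2 / ms μ f (f w.1))

section
variable {Ω Ω' α : Type} [Fintype Ω] [Fintype Ω'] (μ : Ω → ℝ) (μ' : Ω' → ℝ) (f : Ω → α) (g : Ω' → α)

omit [Fintype Ω'] in
theorem pr_eq_ms (ω : Ω) : pr μ f ω = ms μ f (f ω) := e1_pr_ind μ f ω

omit [Fintype Ω'] in
theorem ms_nonneg (h0 : ∀ ω, 0 ≤ μ ω) (a : α) : 0 ≤ ms μ f a :=
  Finset.sum_nonneg fun ω _ => mul_nonneg (ind_nonneg _) (h0 ω)

omit [Fintype Ω'] in
theorem ms_pos (h0 : ∀ ω, 0 ≤ μ ω) (ω : Ω) (h : μ ω ≠ 0) : 0 < ms μ f (f ω) := by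
  rw [← pr_eq_ms]
  exact e1_pr_pos μ f h0 ω h

theorem amw_nonneg (h0 : ∀ ω, 0 ≤ μ ω) (h0' : ∀ ω, 0 ≤ μ' ω) (w : Ω × Ω') : 0 ≤ amw μ μ' f g w :=
  mul_nonneg (ind_nonneg _) (div_nonneg (mul_nonneg (h0 _) (h0' _)) (ms_nonneg μ f h0 _))

theorem amw_supp (w : Ω × Ω') (h : amw μ μ' f g w ≠ 0) : f w.1 = g w.2 ∧ μ w.1 ≠ 0 ∧ μ' w.2 ≠ 0 := by
  by_cases h1 : f w.1 = g w.2
  · refine ⟨h1, ?_, ?_⟩
    · intro h2
      apply h
      unfold amw
      rw [h2]; simp
    · intro h2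
      apply h
      unfold amw
      rw [h2]; simp
  · exfalso
    apply h
    unfold amw
    rw [e1_ind_neg h1, zero_mul]

theorem push_ind {Ω₁ Ω₂ : Type} [Fintype Ω₂] (π : Ω₂ → Ω₁) (ν : Ω₂ → ℝ) (ω : Ω₁) :
    push π ν ω = ∑ x, e1_ind (π x = ω) * ν x := by
  unfold push
  refine Finset.sum_congr rfl fun ω' _ => ?_
  by_cases h : π ω' = ω
  · rw [e1_ind_pos h, if_pos h, one_mul]
  · rw [e1_ind_neg h, if_neg h, zero_mul]

theorem amw_push_fst (hl : ∀ a, ms μ f a = ms μ' g a) (h0 : ∀ ω, 0 ≤ μ ω) :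
    push Prod.fst (amw μ μ' f g) = μ := by
  funext ω
  rw [push_ind, Fintype.sum_prod_type, Finset.sum_eq_single ω]
  · have h1 : ∀ y, e1_ind ((ω, y).1 = ω) * amw μ μ' f g (ω, y) =
        μ ω / ms μ f (f ω) * (e1_ind (g y = f ω) * μ' y) := by
      intro y
      unfold amw
      rw [e1_ind_pos (show (ω, y).1 = ω from rfl), ind_congr (show (f (ω, y).1 = g (ω, y).2) ↔ g y = f ω from
        ⟨fun h => h.symm, fun h => h.symm⟩)]
      ring
    rw [Finset.sum_congr rfl (fun y _ => h1 y), ← Finset.mul_sum]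
    have h2 : ∑ y, e1_ind (g y = f ω) * μ' y = ms μ' g (f ω) := rfl
    rw [h2, ← hl]
    by_cases h3 : μ ω = 0
    · rw [h3]; simp
    · rw [div_mul_cancel₀ _ (ms_pos μ f h0 ω h3).ne']
  · intro b _ hb
    apply Finset.sum_eq_zero
    intro x _
    rw [e1_ind_neg hb, zero_mul]
  · intro h
    exact absurd (Finset.mem_univ _) h

theorem amw_push_snd (hl : ∀ a, ms μ f a = ms μ' g a) (h0 : ∀ ω, 0 ≤ μ' ω) :
    push Prod.snd (amw μ μ' f g) = μ' := by
  funext y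
  rw [push_ind, Fintype.sum_prod_type_right, Finset.sum_eq_single y]
  · have h1 : ∀ ω, e1_ind ((ω, y).2 = y) * amw μ μ' f g (ω, y) =
        μ' y / ms μ' g (g y) * (e1_ind (f ω = g y) * μ ω) := by
      intro ω
      unfold amw
      rw [e1_ind_pos (show (ω, y).2 = y from rfl)]
      by_cases h : f ω = g y
      · have h' : f (ω, y).1 = g (ω, y).2 := h
        rw [e1_ind_pos h', show f (ω, y).1 = g y from h, hl]
        ring
      · have h' : ¬ f (ω, y).1 = g (ω, y).2 := h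
        rw [e1_ind_neg h']; ring
    rw [Finset.sum_congr rfl (fun ω _ => h1 ω), ← Finset.mul_sum]
    have h2 : ∑ ω, e1_ind (f ω = g y) * μ ω = ms μ f (g y) := rfl
    rw [h2, hl]
    by_cases h3 : μ' y = 0
    · rw [h3]; simp
    · rw [div_mul_cancel₀ _ (ms_pos μ' g h0 y h3).ne']
  · intro b _ hb
    apply Finset.sum_eq_zero
    intro x _
    rw [e1_ind_neg hb, zero_mul]
  · intro h
    exact absurd (Finset.mem_univ _) h

/-- joint laws in the amalgam -/
theorem amw_pr {β γ : Type} (F : Ω → β) (G : Ω' → γ) (w : Ω × Ω') (hw : f w.1 = g w.2) :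
    pr (amw μ μ' f g) (fun v => (F v.1, (G v.2, f v.1))) w =
      pr μ (fun ω => (F ω, f ω)) w.1 * pr μ' (fun ω => (G ω, g ω)) w.2 / ms μ f (f w.1) := by
  rw [e1_pr_ind, e1_pr_ind, e1_pr_ind, Fintype.sum_prod_type, Finset.sum_mul, Finset.sum_div]
  apply Finset.sum_congr rfl
  intro ω _
  rw [Finset.mul_sum, Finset.sum_div]
  apply Finset.sum_congr rfl
  intro y _
  unfold amw
  by_cases h1 : f ω = f w.1
  · have e1 : e1_ind ((F (ω, y).1, G (ω, y).2, f (ω, y).1) = (F w.1, G w.2, f w.1)) =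
        e1_ind (F ω = F w.1) * e1_ind (G y = G w.2) := by
      rw [← ind_and]
      apply ind_congr
      rw [Prod.mk.injEq, Prod.mk.injEq]
      constructor
      · intro h
        exact ⟨h.1, h.2.1⟩
      · intro h
        exact ⟨h.1, h.2, h1⟩
    have e2 : e1_ind ((F ω, f ω) = (F w.1, f w.1)) = e1_ind (F ω = F w.1) := by
      apply ind_congr
      rw [Prod.mk.injEq]
      exact ⟨fun h => h.1, fun h => ⟨h, h1⟩⟩
    have e3 : e1_ind ((G y, g y) = (G w.2, g w.2)) = e1_ind (G y = G w.2) * e1_ind (f (ω, y).1 = g (ω, y).2) := by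
      rw [← ind_and]
      apply ind_congr
      rw [Prod.mk.injEq]
      constructor
      · intro h
        refine ⟨h.1, ?_⟩
        show f ω = g y
        rw [h.2, h1, hw]
      · intro h
        refine ⟨h.1, ?_⟩
        have := h.2
        change f ω = g y at this
        rw [← this, h1, hw]
    rw [e1, e2, e3]
    show _ * (_ * (μ ω * μ' y / ms μ f (f ω))) = _
    rw [h1]; ring
  · have e1 : e1_ind ((F (ω, y).1, G (ω, y).2, f (ω, y).1) = (F w.1, G w.2, f w.1)) = 0 := by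
      apply e1_ind_neg
      rw [Prod.mk.injEq, Prod.mk.injEq]
      exact fun h => h1 h.2.2
    have e2 : e1_ind ((F ω, f ω) = (F w.1, f w.1)) = 0 := by
      apply e1_ind_neg
      rw [Prod.mk.injEq]
      exact fun h => h1 h.2
    rw [e1, e2]; ring

theorem amw_pr' {γ : Type} (G : Ω' → γ) (w : Ω × Ω') (hw : f w.1 = g w.2) (hw' : ms μ f (f w.1) ≠ 0) :
    pr (amw μ μ' f g) (fun v => (G v.2, f v.1)) w = pr μ' (fun ω => (G ω, g ω)) w.2 := by
  have h1 := amw_pr μ μ' f g (fun _ => ()) G w hw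
  have h2 : pr μ (fun ω => ((), f ω)) w.1 = ms μ f (f w.1) := by
    rw [← pr_eq_ms]
    apply e2_pr_congr
    intro ω' _
    simp
  have h3 : pr (amw μ μ' f g) (fun v => (G v.2, f v.1)) w = pr (amw μ μ' f g) (fun v => ((), (G v.2, f v.1))) w := by
    apply e2_pr_congr
    intro ω' _
    simp
  rw [h3, h1, h2]
  field_simp

/-- conditional independence in the amalgam -/
theorem amw_CH (hl : ∀ a, ms μ f a = ms μ' g a) (h0 : ∀ ω, 0 ≤ μ ω) (h0' : ∀ ω, 0 ≤ μ' ω) {β γ : Type} (F : Ω → β)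
    (G : Ω' → γ) : CH (amw μ μ' f g) (fun w => F w.1) (fun w => (G w.2, f w.1)) = CH μ F f := by
  have h2 := (Pool.Agent.Helper70.RK.st_E5.1 Ω (Ω × Ω') β α (amw μ μ' f g) Prod.fst F f
    (amw_nonneg μ μ' f g h0 h0')).2.2
  rw [amw_push_fst μ μ' f g hl h0] at h2
  rw [h2]
  have h5 : push Prod.fst (amw μ μ' f g) = μ := amw_push_fst μ μ' f g hl h0
  unfold CH
  apply Finset.sum_congr rfl
  intro w _
  by_cases hw : amw μ μ' f g w = 0
  · rw [hw, zero_mul, zero_mul]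
  obtain ⟨a, b, c⟩ := amw_supp μ μ' f g w hw
  have h3 : 0 < ms μ f (f w.1) := ms_pos μ f h0 w.1 b
  have p1 : pr (amw μ μ' f g) (fun w => f w.1) w = ms μ f (f w.1) := by
    have := Pool.Agent.Helper70.RK.e5_pr Prod.fst (amw μ μ' f g) f w
    rw [h5] at this
    rw [← pr_eq_ms, this]
  have p2 : pr (amw μ μ' f g) (fun w => (F w.1, f w.1)) w = pr μ (fun ω => (F ω, f ω)) w.1 := by
    have := Pool.Agent.Helper70.RK.e5_pr Prod.fst (amw μ μ' f g) (fun ω => (F ω, f ω)) w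
    rw [h5] at this
    rw [this]
  have p3 := amw_pr' μ μ' f g G w a h3.ne'
  have p4 := amw_pr μ μ' f g F G w a
  have h6 : 0 < pr μ (fun ω => (F ω, f ω)) w.1 := e1_pr_pos μ _ h0 _ b
  have h7 : 0 < pr μ' (fun ω => (G ω, g ω)) w.2 := e1_pr_pos μ' _ h0' _ c
  rw [p1, p2, p3, p4, Real.logb_div (by positivity) h3.ne', Real.logb_mul h6.ne' h7.ne']
  ring

end

end

end Pool.Agent.Helper31.EC
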