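import Pool.Agent.Helper31.EC.Rob
import Pool.Agent.Helper40.EL.D2

/-! Exact entropy calculus: restriction to events of extensions (= densities), finite level. -/

namespace Pool.Agent.Helper31.EC

open Finset Filter Topology Pool.Agent.Helper69.RK Pool.Agent.Helper40.EL

noncomputable section

theorem push_nn {Ω Ω' : Type} [Fintype Ω] [Fintype Ω'] (π : Ω' → Ω) (μ' : Ω' → ℝ) (h : ∀ ω, 0 ≤ μ' ω) (ω : Ω) :
    0 ≤ push π μ' ω :=
  (Pool.Agent.Helper70.RK.st_E5.1 Ω Ω' Unit Unit μ' π (fun _ => ()) (fun _ => ()) h).1 ω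

theorem push_ms {Ω Ω' : Type} [Fintype Ω] [Fintype Ω'] (π : Ω' → Ω) (μ' : Ω' → ℝ) (h : ∀ ω, 0 ≤ μ' ω) :
    mass (push π μ') = mass μ' :=
  (Pool.Agent.Helper70.RK.st_E5.1 Ω Ω' Unit Unit μ' π (fun _ => ()) (fun _ => ()) h).2.1

namespace FSp

section rest

variable (F : FSp) (E : F.Ω → Prop)

/-- conditional entropies on an event of probability `p` are at most `1 / p` times the old ones -/
theorem rest_e_le (A B : Setoid F.Ω) : F.pb E * (F.rest E).e A B ≤ F.e A B := by
  have h1 := (F.e_split E A B).1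
  have h2 : 0 ≤ (1 - F.pb E) * (F.rest (fun ω => ¬ E ω)).e A B :=
    mul_nonneg (sub_nonneg.mpr (F.pb_le_one E)) (FSp.e_nonneg _ _ _)
  linarith

theorem rest_zero (A B : Setoid F.Ω) (h : F.e A B = 0) : (F.rest E).e A B = 0 := by
  by_cases h0 : F.pb E = 0
  · have h1 : (F.rest E).e A B = F.e A B := by
      show CH (F.restμ E) (Quotient.mk A) (Quotient.mk B) = _
      rw [F.restμ_eq' E h0]
      rfl
    rw [h1, h]
  · have h1 := F.rest_e_le E A B
    rw [h] at h1
    have h2 : 0 < F.pb E := lt_of_le_of_ne (F.pb_nonneg E) (Ne.symm h0)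
    have h3 := (F.rest E).e_nonneg A B
    by_contra hc
    have h4 : 0 < (F.rest E).e A B := lt_of_le_of_ne h3 (Ne.symm hc)
    have := mul_pos h2 h4
    linarith

/-- informations in the restricted space -/
def rmap : FL F → FL (F.rest E) := Quotient.map (fun A : Setoid F.Ω => (A : Setoid (F.rest E).Ω)) (by
  intro A B hAB
  exact ⟨F.rest_zero E _ _ hAB.1, F.rest_zero E _ _ hAB.2⟩)

theorem rmap_fc (A : Setoid F.Ω) : F.rmap E (fc A) = fc (F := F.rest E) A := rfl

theorem rmap_sup (x y : FL F) : F.rmap E (x ⊔ y) = F.rmap E x ⊔ F.rmap E y := by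
  induction x using fc_ind
  induction y using fc_ind
  rfl

theorem rmap_mono {x y : FL F} (h : x ≤ y) : F.rmap E x ≤ F.rmap E y := by
  have h1 := F.rmap_sup E x y
  rw [sup_eq_right.mpr h] at h1
  rw [h1]
  exact le_sup_left

theorem rmap_bot : F.rmap E ⊥ = ⊥ := rfl

/-- splitting of conditional entropies, finite lattices -/
theorem h_rsplit (x y : FL F) :
    F.pb E * h (F.rmap E x) (F.rmap E y) + (1 - F.pb E) * h (F.rmap (fun ω => ¬ E ω) x) (F.rmap (fun ω => ¬ E ω) y) ≤
      h x y ∧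
    h x y ≤ F.pb E * h (F.rmap E x) (F.rmap E y) +
      (1 - F.pb E) * h (F.rmap (fun ω => ¬ E ω) x) (F.rmap (fun ω => ¬ E ω) y) + 1 := by
  induction x using fc_ind with | _ A
  induction y using fc_ind with | _ B
  have e1 : h (F.rmap E (fc A)) (F.rmap E (fc B)) = (F.rest E).e A (B ⊓ F.Z) := h_fc (F := F.rest E) A B
  have e2 : h (F.rmap (fun ω => ¬ E ω) (fc A)) (F.rmap (fun ω => ¬ E ω) (fc B)) =
      (F.rest (fun ω => ¬ E ω)).e A (B ⊓ F.Z) := h_fc (F := F.rest (fun ω => ¬ E ω)) A B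
  rw [e1, e2, h_fc]
  exact F.e_split E A (B ⊓ F.Z)

/-- splitting of informations -/
theorem I_rsplit (x y z : FL F) :
    F.pb E * I (F.rmap E x) (F.rmap E y) (F.rmap E z) + (1 - F.pb E) *
      I (F.rmap (fun ω => ¬ E ω) x) (F.rmap (fun ω => ¬ E ω) y) (F.rmap (fun ω => ¬ E ω) z) ≤ I x y z + 1 ∧
    I x y z ≤ F.pb E * I (F.rmap E x) (F.rmap E y) (F.rmap E z) + (1 - F.pb E) *
      I (F.rmap (fun ω => ¬ E ω) x) (F.rmap (fun ω => ¬ E ω) y) (F.rmap (fun ω => ¬ E ω) z) + 1 := by
  have h1 := F.h_rsplit E x z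
  have h2 := F.h_rsplit E x (y ⊔ z)
  rw [F.rmap_sup, F.rmap_sup] at h2
  rw [I_eq, I_eq, I_eq]
  constructor
  · have e : F.pb E * (h (F.rmap E x) (F.rmap E z) - h (F.rmap E x) (F.rmap E y ⊔ F.rmap E z)) +
        (1 - F.pb E) * (h (F.rmap (fun ω => ¬ E ω) x) (F.rmap (fun ω => ¬ E ω) z) -
          h (F.rmap (fun ω => ¬ E ω) x) (F.rmap (fun ω => ¬ E ω) y ⊔ F.rmap (fun ω => ¬ E ω) z)) =
        (F.pb E * h (F.rmap E x) (F.rmap E z) +
          (1 - F.pb E) * h (F.rmap (fun ω => ¬ E ω) x) (F.rmap (fun ω => ¬ E ω) z)) -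
        (F.pb E * h (F.rmap E x) (F.rmap E y ⊔ F.rmap E z) +
          (1 - F.pb E) * h (F.rmap (fun ω => ¬ E ω) x) (F.rmap (fun ω => ¬ E ω) y ⊔ F.rmap (fun ω => ¬ E ω) z)) := by
      ring
    rw [e]
    linarith [h1.1, h2.2]
  · have e : F.pb E * (h (F.rmap E x) (F.rmap E z) - h (F.rmap E x) (F.rmap E y ⊔ F.rmap E z)) +
        (1 - F.pb E) * (h (F.rmap (fun ω => ¬ E ω) x) (F.rmap (fun ω => ¬ E ω) z) -
          h (F.rmap (fun ω => ¬ E ω) x) (F.rmap (fun ω => ¬ E ω) y ⊔ F.rmap (fun ω => ¬ E ω) z)) =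
        (F.pb E * h (F.rmap E x) (F.rmap E z) +
          (1 - F.pb E) * h (F.rmap (fun ω => ¬ E ω) x) (F.rmap (fun ω => ¬ E ω) z)) -
        (F.pb E * h (F.rmap E x) (F.rmap E y ⊔ F.rmap E z) +
          (1 - F.pb E) * h (F.rmap (fun ω => ¬ E ω) x) (F.rmap (fun ω => ¬ E ω) y ⊔ F.rmap (fun ω => ¬ E ω) z)) := by
      ring
    rw [e]
    linarith [h1.2, h2.1]

/-- (R2) informations on an event -/
theorem rmap_I_le (x y z : FL F) : F.pb E * I (F.rmap E x) (F.rmap E y) (F.rmap E z) ≤ I x y z + 1 := by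
  have h1 := (F.I_rsplit E x y z).1
  have h2 : 0 ≤ (1 - F.pb E) * I (F.rmap (fun ω => ¬ E ω) x) (F.rmap (fun ω => ¬ E ω) y)
      (F.rmap (fun ω => ¬ E ω) z) := mul_nonneg (sub_nonneg.mpr (F.pb_le_one E)) (I_nonneg _ _ _)
  linarith

theorem rmap_h_le (x y : FL F) : F.pb E * h (F.rmap E x) (F.rmap E y) ≤ h x y := by
  have h1 := (F.h_rsplit E x y).1
  have h2 : 0 ≤ (1 - F.pb E) * h (F.rmap (fun ω => ¬ E ω) x) (F.rmap (fun ω => ¬ E ω) y) :=
    mul_nonneg (sub_nonneg.mpr (F.pb_le_one E)) (h_nonneg _ _)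
  linarith

end rest

section im

variable {T F : FSp} (p : FPj T F) (E : T.Ω → Prop)

/-- (R0) the law of the space `F` given an event of an extension -/
def im : FSp where
  Ω := F.Ω
  ft := F.ft
  μ := push p.π (T.rest E).μ
  nn := push_nn p.π (T.rest E).μ (T.rest E).nn
  ms := by rw [push_ms p.π (T.rest E).μ (T.rest E).nn]; exact (T.rest E).ms
  Z := F.Z
  n := F.n
  pos := F.pos

/-- (R1) the projection -/
def imp : FPj (T.rest E) (im p E) where
  π := p.π
  law := rfl
  hZ := fun ω ω' h h' => p.hZ ω ω' (T.rest_supp E ω h).1 (T.rest_supp E ω' h').1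

theorem im_supp (ω : F.Ω) (h : (im p E).μ ω ≠ 0) : F.μ ω ≠ 0 := by
  by_contra hc
  apply h
  refine (push_ind p.π (T.restμ E) ω).trans ?_
  apply Finset.sum_eq_zero
  intro ω' _
  by_cases h1 : p.π ω' = ω
  · have h2 : T.restμ E ω' = 0 := by
      by_contra h3
      exact p.supp ω' (T.rest_supp E ω' h3).1 (h1 ▸ hc)
    rw [h2, mul_zero]
  · rw [e1_ind_neg h1, zero_mul]

theorem im_zero (A B : Setoid F.Ω) (h : F.e A (B ⊓ F.Z) = 0) : (im p E).e A (B ⊓ (im p E).Z) = 0 := by
  have h1 := (imp p E).e_comap_base A B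
  rw [← h1]
  apply T.rest_zero E
  have h2 := p.e_comap_base A B
  rw [← h2] at h
  exact h

/-- informations of `F` as informations of the restricted space -/
def imap : FL F → FL (im p E) := Quotient.map (fun A : Setoid F.Ω => (A : Setoid (im p E).Ω)) (by
  intro A B hAB
  exact ⟨im_zero p E _ _ hAB.1, im_zero p E _ _ hAB.2⟩)

theorem imap_fc (A : Setoid F.Ω) : imap p E (fc A) = fc (F := im p E) A := rfl

theorem imap_sup (x y : FL F) : imap p E (x ⊔ y) = imap p E x ⊔ imap p E y := by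
  induction x using fc_ind
  induction y using fc_ind
  rfl

theorem imap_mono {x y : FL F} (h : x ≤ y) : imap p E x ≤ imap p E y := by
  have h1 := imap_sup p E x y
  rw [sup_eq_right.mpr h] at h1
  rw [h1]
  exact le_sup_left

theorem imap_bot : imap p E ⊥ = ⊥ := rfl

theorem imp_imap (x : FL F) : (imp p E).map (imap p E x) = T.rmap E (p.map x) := by
  induction x using fc_ind
  rfl

theorem imp_top : (imp p E).top = T.rmap E p.top := rfl

end im

end FSp

end

end Pool.Agent.Helper31.EC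

namespace Pool.Agent.Helper40.EL

open Finset Filter Topology Pool.Agent.Helper69.RK Pool.Agent.Helper31.EC

noncomputable section

namespace FLab

variable {F : FSp} (l : FLab F) (E : l.T.Ω → Prop)

/-- a label restricted to an event of its space -/
def im : FLab (FSp.im l.p E) where
  T := l.T.rest E
  p := FSp.imp l.p E
  hn := l.hn
  V := l.V

theorem im_v : (l.im E).v = l.T.rmap E l.v := rfl

theorem im_top : (l.im E).p.top = l.T.rmap E l.p.top := rfl

/-- (3.1) leaks under restriction -/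
theorem im_leak (x : FL F) : l.T.pb E * (l.im E).leak (FSp.imap l.p E x) ≤ l.leak x + 1 := by
  unfold leak
  rw [im_v, im_top]
  have h1 : (l.im E).p.map (FSp.imap l.p E x) = l.T.rmap E (l.p.map x) := FSp.imp_imap l.p E x
  rw [h1]
  exact l.T.rmap_I_le E _ _ _

/-- splitting of the information of a label -/
theorem im_info : l.info ≤ l.T.pb E * (l.im E).info + (1 - l.T.pb E) * (l.im (fun ω => ¬ E ω)).info + 1 ∧
    l.T.pb E * (l.im E).info + (1 - l.T.pb E) * (l.im (fun ω => ¬ E ω)).info ≤ l.info + 1 := by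
  have h1 := l.T.I_rsplit E l.v l.p.top ⊥
  exact ⟨h1.2, h1.1⟩

/-- the label in an extension of its space -/
def ext {K : FSp} (q : FPj K l.T) (hn : K.n = l.T.n) : FLab F where
  T := K
  p := q.comp l.p
  hn := hn.trans l.hn
  V := Setoid.comap q.π l.V

theorem ext_v {K : FSp} (q : FPj K l.T) (hn : K.n = l.T.n) : (l.ext q hn).v = q.map l.v := rfl

theorem ext_leak {K : FSp} (q : FPj K l.T) (hn : K.n = l.T.n) (x : FL F) : (l.ext q hn).leak x = l.leak x := by
  have h0 : (l.ext q hn).leak x = I (q.map l.v) (q.map l.p.top) (q.map (l.p.map x)) := by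
    induction x using fc_ind
    rfl
  rw [h0, q.I_map]
  rfl

theorem ext_info {K : FSp} (q : FPj K l.T) (hn : K.n = l.T.n) : (l.ext q hn).info = l.info := by
  rw [← leak_bot, ← leak_bot, ext_leak]

/-- a label of an extension as a label of the space -/
def down {T F : FSp} (p : FPj T F) (hn : T.n = F.n) (l : FLab T) : FLab F where
  T := l.T
  p := l.p.comp p
  hn := l.hn.trans hn
  V := l.V

theorem down_leak {T F : FSp} (p : FPj T F) (hn : T.n = F.n) (l : FLab T) (x : FL F) :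
    (down p hn l).leak x ≤ l.leak (p.map x) := by
  unfold leak
  have h1 : (down p hn l).p.map x = l.p.map (p.map x) := FPj.comp_map _ _ _
  rw [h1]
  have h2 : (down p hn l).p.top ≤ l.p.top := FPj.comp_top_le _ _
  exact I_mono_right (h2.trans le_sup_left)

theorem down_info {T F : FSp} (p : FPj T F) (hn : T.n = F.n) (l : FLab T) (x : FL F) :
    l.info ≤ (down p hn l).info + l.leak (p.map x) := by
  have h0 : (down p hn l).info = I l.v (l.p.map p.top) ⊥ := rfl
  have h1 : l.info = I l.v l.p.top ⊥ := rfl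
  have h1' : l.leak (p.map x) = I l.v l.p.top (l.p.map (p.map x)) := rfl
  have h2 : l.p.map p.top ≤ l.p.top := l.p.map_le_top _
  have h3 := info_eq (v := l.v) h2
  have h4 : I l.v l.p.top (l.p.map p.top) ≤ I l.v l.p.top (l.p.map (p.map x)) :=
    leak_cond (l.p.map_mono (p.map_le_top x)) h2
  rw [h0, h1, h1', h3]
  linarith

theorem down_info_le {T F : FSp} (p : FPj T F) (hn : T.n = F.n) (l : FLab T) : (down p hn l).info ≤ l.info := by
  have h1 := down_leak p hn l ⊥
  rw [p.map_bot, leak_bot, leak_bot] at h1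
  exact h1

/-- amalgam of a label and an extension of the space -/
def amx {T : FSp} (p : FPj T F) : FAm l.T T where
  α := F.Ω
  f := l.p.π
  g := p.π
  law := by
    intro a
    have h1 : ms l.T.μ l.p.π a = push l.p.π l.T.μ a := (push_ind _ _ _).symm
    have h2 : ms T.μ p.π a = push p.π T.μ a := (push_ind _ _ _).symm
    rw [h1, h2, l.p.law, p.law]
  Zr := F.Z
  hZ1 := l.p.hZ
  hZ2 := p.hZ

/-- a label of the space as a label of an extension, conditionally independent of the rest -/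
def up' {T : FSp} (p : FPj T F) (hn : T.n = F.n) : FLab T where
  T := (l.amx p).sp
  p := (l.amx p).p2
  hn := l.hn.trans hn.symm
  V := Setoid.comap (l.amx p).p1.π l.V

theorem up'_leak {T : FSp} (p : FPj T F) (hn : T.n = F.n) (x : FL F) :
    (l.up' p hn).leak (p.map x) ≤ l.leak x := by
  have htop : (l.amx p).p1.map l.p.top = (l.amx p).p2.map p.top := (l.amx p).common
  have hx : (l.amx p).p1.map (l.p.map x) = (l.amx p).p2.map (p.map x) := by
    induction x using fc_ind with | _ A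
    apply le_antisymm
    · apply fc_le
      intro w w' h h' _ e
      have a : l.p.π w.1 = p.π w.2 := ((l.amx p).supp w h).1
      have a' : l.p.π w'.1 = p.π w'.2 := ((l.amx p).supp w' h').1
      have e' : A (p.π w.2) (p.π w'.2) := e
      show A (l.p.π w.1) (l.p.π w'.1)
      rw [a, a']; exact e'
    · apply fc_le
      intro w w' h h' _ e
      have a : l.p.π w.1 = p.π w.2 := ((l.amx p).supp w h).1
      have a' : l.p.π w'.1 = p.π w'.2 := ((l.amx p).supp w' h').1
      have e' : A (l.p.π w.1) (l.p.π w'.1) := e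
      show A (p.π w.2) (p.π w'.2)
      rw [← a, ← a']; exact e'
  obtain ⟨Tp, hTp⟩ : ∃ Tp : FL (l.amx p).sp, Tp = (l.amx p).p2.top := ⟨_, rfl⟩
  have h0 : (l.up' p hn).leak (p.map x) = I ((l.amx p).p1.map l.v) Tp ((l.amx p).p2.map (p.map x)) := by
    rw [hTp]
    rfl
  have h1 : I ((l.amx p).p1.map l.v) Tp ((l.amx p).p1.map l.p.top) = 0 := by
    rw [hTp]
    exact (l.amx p).indep l.v (fc (Setoid.ker fun ω => ω) : FL T)
  have h2 : (l.amx p).p1.map l.p.top ≤ Tp := by
    rw [htop, hTp]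
    exact (l.amx p).p2.map_le_top _
  have h3 : I ((l.amx p).p1.map l.v) ((l.amx p).p1.map l.p.top) ((l.amx p).p1.map (l.p.map x)) = l.leak x :=
    (l.amx p).p1.I_map _ _ _
  have h4 : (l.amx p).p1.map (l.p.map x) ≤ (l.amx p).p1.map l.p.top := (l.amx p).p1.map_mono (l.p.map_le_top x)
  have h5 : I ((l.amx p).p1.map l.v) ((l.amx p).p1.map l.p.top ⊔ Tp) ((l.amx p).p1.map (l.p.map x)) =
      I ((l.amx p).p1.map l.v) ((l.amx p).p1.map l.p.top) ((l.amx p).p1.map (l.p.map x)) +
        I ((l.amx p).p1.map l.v) Tp ((l.amx p).p1.map l.p.top ⊔ (l.amx p).p1.map (l.p.map x)) :=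
    I_chain_right _ _ _ _
  rw [sup_eq_right.mpr h2, sup_eq_left.mpr h4, h1, add_zero, h3, hx] at h5
  rw [h0, h5]

theorem up'_info {T : FSp} (p : FPj T F) (hn : T.n = F.n) : l.info ≤ (l.up' p hn).info := by
  have htop : (l.amx p).p1.map l.p.top = (l.amx p).p2.map p.top := (l.amx p).common
  have h0 : (l.up' p hn).info = I ((l.amx p).p1.map l.v) ((l.amx p).p2.top) ⊥ := rfl
  have h1 := (l.amx p).p1.I_map l.v l.p.top ⊥
  rw [(l.amx p).p1.map_bot] at h1
  have h2 : l.info = I ((l.amx p).p1.map l.v) ((l.amx p).p1.map l.p.top) ⊥ := h1.symm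
  rw [h0, h2]
  apply I_mono_right
  rw [htop]
  exact ((l.amx p).p2.map_le_top _).trans le_sup_left

end FLab

end

end Pool.Agent.Helper40.EL
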