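import Pool.Agent.Helper31.EC.AmS

/-! Exact entropy calculus: diagonal lemma in place, change of base and depth, restriction to events. -/

namespace Pool.Agent.Helper31.EC

open Finset Filter Topology Pool.Agent.Helper69.RK

noncomputable section

open Classical in
/-- DIAGONAL LEMMA IN PLACE -/
theorem diag_in_place (f : ℕ → ℕ → ℕ → ℝ) (E : ℕ → ℕ → ℕ → Prop) (hf : ∀ i j, UB (f i j))
    (hE : ∀ i j, ∀ᶠ k in UF, E i j k) :
    ∃ J : ℕ → ℕ, Tendsto J UF atTop ∧ (∀ i, Tendsto (fun k => f i (J k) k - ul (f i (J k))) UF (𝓝 0)) ∧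
      ∀ i, ∀ᶠ k in UF, E i (J k) k := by
  set G : ℕ → ℕ → Prop := fun N k => ∀ i, i ≤ N → |f i N k - ul (f i N)| ≤ 1 / ((N : ℝ) + 1) ∧ E i N k with hG
  have hGe : ∀ N, ∀ᶠ k in UF, G N k := by
    intro N
    have h1 : ∀ᶠ k in UF, ∀ i ∈ Finset.range (N + 1), |f i N k - ul (f i N)| ≤ 1 / ((N : ℝ) + 1) ∧ E i N k := by
      rw [Filter.eventually_all_finset]
      intro i _
      have h3 := (ul_tendsto (hf i N)).sub_const (ul (f i N))
      rw [sub_self] at h3
      have h4 := h3.abs
      rw [abs_zero] at h4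
      have h5 : (0 : ℝ) < 1 / ((N : ℝ) + 1) := by positivity
      filter_upwards [h4.eventually (gt_mem_nhds h5), hE i N] with k hk hk' using ⟨hk.le, hk'⟩
    filter_upwards [h1] with k hk i hi
    exact hk i (Finset.mem_range.mpr (by omega))
  refine ⟨fun k => Nat.findGreatest (fun N => G N k) k, ?_, ?_, ?_⟩
  · rw [tendsto_atTop]
    intro M
    filter_upwards [hGe M, UF_ge M] with k h1 h2
    exact Nat.le_findGreatest h2 h1
  · intro i
    have hJ : Tendsto (fun k => Nat.findGreatest (fun N => G N k) k) UF atTop := by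
      rw [tendsto_atTop]
      intro M
      filter_upwards [hGe M, UF_ge M] with k h1 h2
      exact Nat.le_findGreatest h2 h1
    rw [tendsto_zero_iff_abs_tendsto_zero]
    have h2 : Tendsto (fun k => 1 / (((Nat.findGreatest (fun N => G N k) k : ℕ) : ℝ) + 1)) UF (𝓝 0) :=
      tendsto_one_div_add_atTop_nhds_zero_nat.comp hJ
    refine squeeze_zero' (Eventually.of_forall fun k => abs_nonneg _) ?_ h2
    filter_upwards [hGe (i + 1), UF_ge (i + 1)] with k h1 h3
    have h4 : i + 1 ≤ Nat.findGreatest (fun N => G N k) k := Nat.le_findGreatest h3 h1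
    have h5 : G (Nat.findGreatest (fun N => G N k) k) k := Nat.findGreatest_spec (P := fun N => G N k) h3 h1
    exact (h5 i (by omega)).1
  · intro i
    filter_upwards [hGe (i + 1), UF_ge (i + 1)] with k h1 h3
    have h4 : i + 1 ≤ Nat.findGreatest (fun N => G N k) k := Nat.le_findGreatest h3 h1
    have h5 : G (Nat.findGreatest (fun N => G N k) k) k := Nat.findGreatest_spec (P := fun N => G N k) h3 h1
    exact (h5 i (by omega)).2

/-- the diagonal sequence in place has the limits of the ultralimits -/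
theorem diag_tendsto {f : ℕ → ℕ → ℝ} {J : ℕ → ℕ} {b : ℝ} (hJ : Tendsto J UF atTop)
    (h : Tendsto (fun k => f (J k) k - ul (f (J k))) UF (𝓝 0)) (hb : Tendsto (fun j => ul (f j)) atTop (𝓝 b)) :
    Tendsto (fun k => f (J k) k) UF (𝓝 b) := by
  have h1 := h.add (hb.comp hJ)
  simpa using h1

/-- change of the base and of the depth of a finite space -/
def FSp.chg (F : FSp) (Z : Setoid F.Ω) (c : ℝ) (hc : 0 < c) : FSp where
  Ω := F.Ω
  ft := F.ft
  μ := F.μ
  nn := F.nn
  ms := F.ms
  Z := Z ⊓ F.Z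
  n := c * F.n
  pos := mul_pos hc F.pos

/-- change of the base and of the depth -/
def Sp.chg (S : Sp) (Z : ∀ k, Setoid (S.F k).Ω) (c : ℝ) (hc : 0 < c) : Sp where
  F := fun k => (S.F k).chg (Z k) c hc
  lim := S.lim.const_mul_atTop hc

namespace Sp

variable {S : Sp} (Z : ∀ k, Setoid (S.F k).Ω) (c : ℝ) (hc : 0 < c)

/-- entropy given a partition that need not be an information -/
def hz (Z : ∀ k, Setoid (S.F k).Ω) (A : S.Inf) : ℝ := ul (S.rt A.1 Z)

theorem chg_VB {A : ∀ k, Setoid (S.F k).Ω} (hA : S.VB A) : (S.chg Z c hc).VB A := by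
  obtain ⟨C, hC⟩ := hA
  refine ⟨C / c, ?_⟩
  filter_upwards [hC] with k hk ω hω
  have h1 : C / c * ((S.chg Z c hc).F k).n = C * (S.F k).n := by
    show C / c * (c * (S.F k).n) = _
    field_simp
  rw [h1]
  refine le_trans ?_ (hk ω hω)
  have h2 : nv ((S.chg Z c hc).F k) (A k) ω ≤ nv (S.F k) (A k) ω := by
    classical
    show nvf (S.F k).μ (Quotient.mk (A k)) (Quotient.mk (Z k ⊓ (S.F k).Z)) ω ≤
      nvf (S.F k).μ (Quotient.mk (A k)) (Quotient.mk (S.F k).Z) ω
    exact nvf_le_of_rel _ _ _ _ _ (fun ω' _ h => Quotient.sound (Quotient.exact h : (Z k ⊓ (S.F k).Z) ω' ω).2)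
  exact_mod_cast h2

end Sp

end

end Pool.Agent.Helper31.EC
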