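import Pool.Agent.Helper31.EC.Ext

/-! Exact entropy calculus: the Lagrangian `h(P|t) - th h(x)`, extremal systems, zoom inequalities, labels. -/

namespace Pool.Agent.Helper31.EC

open Finset Filter Topology Pool.Agent.Helper69.RK

noncomputable section

open Sp

namespace Sys

variable {S : Sp} {m : ℕ}

/-- the Lagrangian `h(P|t) - th h(x)` -/
def lag (th : ℝ) (s : Sys S m) : ℝ := h (s.P.dg 1) s.T - th * H (s.x.dg 1)

theorem lag_eq_ul (th : ℝ) (s : Sys S m) : s.lag th =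
    ul (fun k => (s.fin k).q ((s.fin k).kP 1) ((s.fin k).kt 1) - th * (s.fin k).q ((s.fin k).kx 1) ⊤) := by
  unfold lag
  rw [s.h_P_eq, s.H_x_eq, ul_sub (s.h_P_UB 1) ((s.H_x_UB 1).const_mul th), ul_const_mul th (s.H_x_UB 1)]

theorem lag_ge (th : ℝ) (h0 : 0 ≤ th) (s : Sys S m) : -(th * m) ≤ s.lag th := by
  unfold lag
  have h1 := h_nonneg (s.P.dg 1) s.T
  have h2 := s.x.H_dg_le zero_le_one
  rw [mul_one] at h2
  have h3 := mul_le_mul_of_nonneg_left h2 h0
  linarith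

end Sys

/-- extremal systems for the Lagrangian -/
def Extremal {S : Sp} {m : ℕ} (th : ℝ) (s : Sys S m) : Prop :=
  ∀ (S' : Sp) (s' : Sys S' m), s.lag th ≤ s'.lag th

/-- a trivial system exists: the direction is zero, the height uniform -/
theorem exists_sys (m : ℕ) : ∃ (S : Sp) (_ : Sys S m), True := by
  classical
  set F : ℕ → FSp := fun k =>
    { Ω := Fin (2 ^ (k + 1))
      ft := inferInstance
      μ := fun _ => 1 / 2 ^ (k + 1)
      nn := fun _ => by positivity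
      ms := by
        show ∑ _ω : Fin (2 ^ (k + 1)), (1 : ℝ) / 2 ^ (k + 1) = 1
        rw [Finset.sum_const, Finset.card_univ, Fintype.card_fin, nsmul_eq_mul]
        push_cast
        field_simp
      Z := ⊤
      n := ((k + 1 : ℕ) : ℝ)
      pos := by positivity } with hF
  set S : Sp := ⟨F, by
    have h1 : Tendsto (fun k : ℕ => ((k + 1 : ℕ) : ℝ)) atTop atTop :=
      tendsto_natCast_atTop_atTop.comp (tendsto_add_atTop_nat 1)
    exact h1.mono_left UF_le_atTop⟩ with hS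
  set a : S.VV m := VV.of (fun _ _ _ => 0) ⟨0, Eventually.of_forall fun _ _ _ _ => by simp⟩ with ha
  set t : S.VV 1 := VV.of (fun k ω _ => ((ω : Fin (2 ^ (k + 1))) : ℕ) / 2 ^ (k + 1))
    ⟨1, Eventually.of_forall fun k ω _ _ => by
      have h1 : (((ω : Fin (2 ^ (k + 1))) : ℕ) : ℝ) ≤ 2 ^ (k + 1) := by
        exact_mod_cast (ω : Fin (2 ^ (k + 1))).isLt.le
      rw [abs_of_nonneg (by positivity), div_le_one (by positivity)]
      exact h1⟩ with ht
  have h1 : a.dg 1 = ⊥ := by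
    apply le_antisymm _ bot_le
    rw [← cl_bot]
    apply a.dg_le_cl _ Inf.bot (fun _ _ => True) Typ_true (fun _ => 0) (S.Sub_const le_rfl)
    refine Eventually.of_forall fun k ω ω' _ _ _ _ _ _ i => ?_
    show |(0 : ℝ) - 0| ≤ _
    simp
  have h2 : H (t.dg 1) = 1 := by
    apply le_antisymm
    · simpa using t.H_dg_le zero_le_one
    · have h3 : H (t.dg 1) = ul (S.rt (fun k => Setoid.ker (t.cellv 1 k)) S.tr) := H_io (t.bdd 1)
      rw [h3]
      apply const_le_ul (t.bdd 1).toInf.ub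
      refine Eventually.of_forall fun k => ?_
      unfold rt
      have hn := (S.F k).pos
      rw [le_div_iff₀ hn, one_mul]
      have h4 : (S.F k).e (Setoid.ker (t.cellv 1 k)) (S.tr k ⊓ (S.F k).Z) =
          CH (S.F k).μ (t.cellv 1 k) (fun _ => ()) := by
        apply (S.F k).e_congr
        · intro ω ω' _ _
          exact Iff.rfl
        · intro ω ω' _ _
          exact ⟨fun _ => rfl, fun _ => ⟨trivial, trivial⟩⟩
      refine le_trans ?_ (le_of_eq h4.symm)
      have hdl : S.dl 1 k = 1 / 2 ^ (k + 1) := by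
        unfold dl
        show (2 : ℝ) ^ (-(1 * ((k + 1 : ℕ) : ℝ))) = _
        rw [one_mul, Real.rpow_neg (by norm_num), Real.rpow_natCast, one_div]
      have hinj : ∀ ω ω' : Fin (2 ^ (k + 1)), t.cellv 1 k ω = t.cellv 1 k ω' → ω = ω' := by
        intro ω ω' h5
        have h6 := congrFun h5 0
        have h7 : ∀ w : Fin (2 ^ (k + 1)), t.cellv 1 k w 0 = ((w : ℕ) : ℤ) := by
          intro w
          show ⌊((w : ℕ) : ℝ) / 2 ^ (k + 1) / S.dl 1 k⌋ = _
          rw [hdl]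
          have : ((w : ℕ) : ℝ) / 2 ^ (k + 1) / (1 / 2 ^ (k + 1)) = ((w : ℕ) : ℝ) := by field_simp
          rw [this, Int.floor_natCast]
        rw [h7, h7] at h6
        exact Fin.ext (by exact_mod_cast h6)
      have hsum : CH (S.F k).μ (t.cellv 1 k) (fun _ => ()) =
          ∑ _ω : Fin (2 ^ (k + 1)), (1 / 2 ^ (k + 1) : ℝ) * ((k + 1 : ℕ) : ℝ) := by
        unfold CH
        apply Finset.sum_congr rfl
        intro ω _
        have p1 : Pool.Agent.Helper69.RK.pr (S.F k).μ (fun _ : (S.F k).Ω => ()) ω = 1 := by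
          have : Pool.Agent.Helper69.RK.pr (S.F k).μ (fun _ : (S.F k).Ω => ()) ω = mass (S.F k).μ := by
            unfold Pool.Agent.Helper69.RK.pr mass
            apply Finset.sum_congr rfl
            intro ω' _
            rw [if_pos rfl]
          rw [this, (S.F k).ms]
        have p2 : Pool.Agent.Helper69.RK.pr (S.F k).μ (fun ω' => (t.cellv 1 k ω', ())) ω = 1 / 2 ^ (k + 1) := by
          rw [e1_pr_ind, Finset.sum_eq_single ω]
          · rw [e1_ind_pos rfl, one_mul]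
          · intro b _ hb
            rw [e1_ind_neg, zero_mul]
            intro hc
            rw [Prod.mk.injEq] at hc
            exact hb (hinj b ω hc.1)
          · intro hc
            exact absurd (Finset.mem_univ _) hc
        rw [p1, p2, Real.logb_one, zero_sub, one_div, Real.logb_inv, neg_neg]
        have p3 : Real.logb 2 (2 ^ (k + 1) : ℝ) = ((k + 1 : ℕ) : ℝ) := by
          rw [← Real.rpow_natCast, Real.logb_rpow (by norm_num) (by norm_num)]
        rw [p3]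
        show (1 / 2 ^ (k + 1) : ℝ) * _ = _
        rw [one_div]
      rw [hsum, ← Finset.sum_mul, Finset.sum_const, Finset.card_univ, Fintype.card_fin, nsmul_eq_mul]
      push_cast
      have : (2 : ℝ) ^ (k + 1) * (1 / 2 ^ (k + 1)) = 1 := by field_simp
      rw [this, one_mul]
      show ((k + 1 : ℕ) : ℝ) ≤ _
      push_cast
      exact le_rfl
  refine ⟨S, ⟨a, a, t, ?_⟩, trivial⟩
  rw [h1, sup_bot_eq, h_bot, h2]

/-- EXTREMAL SYSTEMS EXIST -/
theorem exists_extremal (m : ℕ) (th : ℝ) (h0 : 0 ≤ th) : ∃ (S : Sp) (s : Sys S m), Extremal th s := by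
  obtain ⟨S, s, _, h2⟩ := Sys.exists_max (m := m)
    (fun X => -(X.q (X.kP 1) (X.kt 1) - th * X.q (X.kx 1) ⊤)) (fun _ _ => 0) (fun _ => 0) (th * m)
    (fun S s => ((s.h_P_UB 1).sub ((s.H_x_UB 1).const_mul th)).neg)
    (fun _ S s => UB_const 0)
    (fun S s _ => by
      rw [ul_neg ((s.h_P_UB 1).sub ((s.H_x_UB 1).const_mul th)), ← s.lag_eq_ul]
      have := s.lag_ge th h0
      linarith)
    (by
      obtain ⟨S, s, _⟩ := exists_sys m
      exact ⟨S, s, fun _ => ul_const 0⟩)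
  refine ⟨S, s, fun S' s' => ?_⟩
  have h3 := h2 S' s' (fun _ => ul_const 0)
  rw [ul_neg ((s'.h_P_UB 1).sub ((s'.H_x_UB 1).const_mul th)), ← s'.lag_eq_ul,
    ul_neg ((s.h_P_UB 1).sub ((s.H_x_UB 1).const_mul th)), ← s.lag_eq_ul] at h3
  linarith

namespace Extremal

variable {m : ℕ} {th : ℝ}

/-- all extremal systems have the same value -/
theorem val_eq {S S' : Sp} {s : Sys S m} {s' : Sys S' m} (h : Extremal th s) (h' : Extremal th s') :
    s.lag th = s'.lag th := le_antisymm (h S' s') (h' S s)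

end Extremal

namespace Sys

variable {S : Sp} {m : ℕ} (s : Sys S m)

/-- a system over a label `V` (an information which is independent of the height given the line) -/
def ovr (V : S.Inf) (hV : h s.T (s.xi 1 ⊔ cl V) = 1) : Sys (S.chg V.1 1 one_pos) m where
  a := s.a.chg V.1 1 one_pos
  x := s.x.chg V.1 1 one_pos
  t := s.t.chg V.1 1 one_pos
  ht := by
    rw [VV.chg_dg, VV.chg_dg, VV.chg_dg, one_mul, ← chgL_sup, h_chgL_inf, div_one]
    exact hV

theorem ovr_P_dg (V : S.Inf) (hV : h s.T (s.xi 1 ⊔ cl V) = 1) (r : ℝ) :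
    (s.ovr V hV).P.dg r = chgL V.1 1 one_pos (s.P.dg r) := by
  have h1 : (s.ovr V hV).P = s.P.chg V.1 1 one_pos := rfl
  rw [h1, VV.chg_dg, one_mul]

theorem ovr_x_dg (V : S.Inf) (hV : h s.T (s.xi 1 ⊔ cl V) = 1) (r : ℝ) :
    (s.ovr V hV).x.dg r = chgL V.1 1 one_pos (s.x.dg r) := by
  have h1 : (s.ovr V hV).x = s.x.chg V.1 1 one_pos := rfl
  rw [h1, VV.chg_dg, one_mul]

theorem ovr_a_dg (V : S.Inf) (hV : h s.T (s.xi 1 ⊔ cl V) = 1) (r : ℝ) :
    (s.ovr V hV).a.dg r = chgL V.1 1 one_pos (s.a.dg r) := by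
  have h1 : (s.ovr V hV).a = s.a.chg V.1 1 one_pos := rfl
  rw [h1, VV.chg_dg, one_mul]

theorem ovr_T (V : S.Inf) (hV : h s.T (s.xi 1 ⊔ cl V) = 1) :
    (s.ovr V hV).T = chgL V.1 1 one_pos s.T := by
  have h1 : (s.ovr V hV).T = (s.t.chg V.1 1 one_pos).dg 1 := rfl
  rw [h1, VV.chg_dg, one_mul]
  rfl

/-- profile over a label -/
theorem ovr_F (V : S.Inf) (hV : h s.T (s.xi 1 ⊔ cl V) = 1) (u r : ℝ) :
    (s.ovr V hV).F u r = h (s.x.dg u ⊔ s.P.dg r) (s.T ⊔ cl V) := by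
  unfold F
  rw [s.ovr_P_dg, s.ovr_x_dg, s.ovr_T, ← chgL_sup, h_chgL_inf, div_one]

theorem ovr_lag (V : S.Inf) (hV : h s.T (s.xi 1 ⊔ cl V) = 1) (th : ℝ) :
    (s.ovr V hV).lag th = h (s.P.dg 1) (s.T ⊔ cl V) - th * h (s.x.dg 1) (cl V) := by
  unfold lag
  rw [s.ovr_P_dg, s.ovr_x_dg, s.ovr_T, h_chgL_inf, H_chgL_inf, div_one, div_one]

/-- (O1) STRONG DATA PROCESSING for extremal systems: `I(V;P|t) ≤ th I(V;x)` -/
theorem sdpi {th : ℝ} (he : Extremal th s) (V : S.Inf) (hV : h s.T (s.xi 1 ⊔ cl V) = 1) :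
    I (cl V) (s.P.dg 1) s.T ≤ th * I (cl V) (s.x.dg 1) ⊥ := by
  have h1 := he _ (s.ovr V hV)
  rw [s.ovr_lag] at h1
  unfold lag at h1
  rw [I_eq', I_eq', sup_bot_eq, h_bot, sup_comm (cl V) s.T]
  linarith

/-- the label is independent of the height -/
theorem label_T (V : S.Inf) (hV : h s.T (s.xi 1 ⊔ cl V) = 1) : I (cl V) s.T ⊥ = 0 := by
  rw [I_eq', h_bot, sup_bot_eq, s.H_T]
  have h1 : h s.T (s.xi 1 ⊔ cl V) ≤ h s.T (cl V) := h_anti le_sup_right
  have h2 := h_le_H s.T (cl V)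
  rw [s.H_T] at h2
  linarith

/-- ZOOM INEQUALITY for extremal systems (L7), for a zoom over an information `V` -/
theorem zoom_ineq {th : ℝ} (he : Extremal th s) (c u : ℝ) (hc : 0 ≤ c) (hu : 0 ≤ u) (hcu : c + u < 1) (V : S.Inf)
    (hV : s.t.dg c ⊔ (s.x.dg u ⊔ (s.bc c hc).dg (c + u)) ≤ cl V)
    (hT : h s.T (s.xi 1 ⊔ cl V) = 1 - c) :
    th * h (s.x.dg (1 - c)) (cl V) + s.lag th * (1 - (c + u)) ≤ h (s.P.dg 1) (s.T ⊔ cl V) := by
  set D := s.zdI c u hc hu hcu V hV hT with hD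
  have h1 := he _ D.sys
  have h2 : D.sys.lag th = D.sys.F 0 1 - th * D.sys.F 1 0 := by
    unfold lag
    rw [D.sys.F_zero_left, D.sys.F_zero_right zero_le_one le_rfl]
  have e0 : 0 < 1 - (c + u) := by linarith
  have h3 : D.sys.F 0 1 = h (s.P.dg 1) (s.T ⊔ cl V) / (1 - (c + u)) := by
    rw [hD, s.F_zdI c u hc hu hcu V hV hT zero_le_one le_rfl]
    have e1 : c + u + (1 - (c + u)) * 1 = 1 := by ring
    rw [e1, mul_zero, add_zero]
    congr 1
    apply h_congr_left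
    · apply sup_le _ le_sup_left
      exact ((le_sup_left.trans le_sup_right).trans hV).trans (le_sup_right.trans le_sup_right)
    · exact le_sup_right.trans le_sup_left
  have h4 : D.sys.F 1 0 = h (s.x.dg (1 - c)) (cl V) / (1 - (c + u)) := by
    rw [D.sys.F_zero_right zero_le_one le_rfl]
    have e1 : D.sys.x.dg 1 = D.L (D.x.dg (D.u + D.e * 1)) := D.x'_dg 1
    rw [e1, D.H_L]
    have e2 : D.e = 1 - (c + u) := rfl
    have e3 : D.u + D.e * 1 = 1 - c := by
      have : D.u = u := rfl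
      rw [e2, this]; ring
    rw [e3, e2]
    congr 1
    have e4 : D.x.dg (1 - c) = chgL (Inf.sup V (s.cellsI c u hc)).1 1 one_pos (s.x.dg (1 - c)) := by
      have h6 : D.x = s.x.chg (Inf.sup V (s.cellsI c u hc)).1 1 one_pos := rfl
      rw [h6, VV.chg_dg, one_mul]
    rw [e4, H_chgL_inf, cl_sup, s.cl_cellsI, sup_eq_left.mpr hV, div_one]
  rw [h2, h3, h4] at h1
  have h5 : s.lag th * (1 - (c + u)) ≤ (h (s.P.dg 1) (s.T ⊔ cl V) / (1 - (c + u)) -
      th * (h (s.x.dg (1 - c)) (cl V) / (1 - (c + u)))) * (1 - (c + u)) :=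
    mul_le_mul_of_nonneg_right h1 e0.le
  have h6 : (h (s.P.dg 1) (s.T ⊔ cl V) / (1 - (c + u)) -
      th * (h (s.x.dg (1 - c)) (cl V) / (1 - (c + u)))) * (1 - (c + u)) =
      h (s.P.dg 1) (s.T ⊔ cl V) - th * h (s.x.dg (1 - c)) (cl V) := by
    field_simp
  rw [h6] at h5
  linarith

/-- ZOOM INEQUALITY for extremal systems, for a zoom over an arbitrary base `Z` -/
theorem zoom_ineq_Z {th : ℝ} (he : Extremal th s) (c u : ℝ) (hc : 0 ≤ c) (hu : 0 ≤ u) (hcu : c + u < 1)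
    (Z : ∀ k, Setoid (S.F k).Ω)
    (hZ : ∀ᶠ k in UF, ∀ ω ω', (S.F k).μ ω ≠ 0 → (S.F k).μ ω' ≠ 0 → (Z k ⊓ (S.F k).Z) ω ω' → s.cells c u hc k ω ω')
    (hT : h (chgL Z 1 one_pos s.T) (chgL Z 1 one_pos (s.xi 1)) = 1 - c) :
    th * H (chgL Z 1 one_pos (s.x.dg (1 - c))) + s.lag th * (1 - (c + u)) ≤
      h (chgL Z 1 one_pos (s.P.dg 1)) (chgL Z 1 one_pos s.T) := by
  set D := s.zd c u hc hu hcu Z hZ hT with hD
  have h1 := he _ D.sys
  have h2 : D.sys.lag th = D.sys.F 0 1 - th * D.sys.F 1 0 := by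
    unfold lag
    rw [D.sys.F_zero_left, D.sys.F_zero_right zero_le_one le_rfl]
  have e0 : 0 < 1 - (c + u) := by linarith
  have h3 : D.sys.F 0 1 = h (chgL Z 1 one_pos (s.P.dg 1)) (chgL Z 1 one_pos s.T) / (1 - (c + u)) := by
    rw [D.sys.F_zero_left, D.P'_zoom le_rfl]
    have e1 : D.c + D.u + D.e * 1 = 1 := by unfold ZD.e; ring
    have e2 : D.e = 1 - (c + u) := rfl
    have e4 : D.P.dg 1 = chgL Z 1 one_pos (s.P.dg 1) := s.zd_P_dg c u hc hu hcu Z hZ hT 1
    have e5 : D.t.dg 1 = chgL Z 1 one_pos s.T := by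
      have h4 : D.t = s.t.chg Z 1 one_pos := rfl
      rw [h4, VV.chg_dg, one_mul]
      rfl
    rw [e1, e2, e4, e5]
  have h4 : D.sys.F 1 0 = H (chgL Z 1 one_pos (s.x.dg (1 - c))) / (1 - (c + u)) := by
    rw [D.sys.F_zero_right zero_le_one le_rfl]
    have e1 : D.sys.x.dg 1 = D.L (D.x.dg (D.u + D.e * 1)) := D.x'_dg 1
    rw [e1, D.H_L]
    have e2 : D.e = 1 - (c + u) := rfl
    have e3 : D.u + D.e * 1 = 1 - c := by
      have : D.u = u := rfl
      rw [e2, this]; ring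
    rw [e3, e2]
    have e4 : D.x.dg (1 - c) = chgL Z 1 one_pos (s.x.dg (1 - c)) := by
      have h6 : D.x = s.x.chg Z 1 one_pos := rfl
      rw [h6, VV.chg_dg, one_mul]
    rw [e4]
  rw [h2, h3, h4] at h1
  have h5 := mul_le_mul_of_nonneg_right h1 e0.le
  have h6 : (h (chgL Z 1 one_pos (s.P.dg 1)) (chgL Z 1 one_pos s.T) / (1 - (c + u)) -
      th * (H (chgL Z 1 one_pos (s.x.dg (1 - c))) / (1 - (c + u)))) * (1 - (c + u)) =
      h (chgL Z 1 one_pos (s.P.dg 1)) (chgL Z 1 one_pos s.T) - th * H (chgL Z 1 one_pos (s.x.dg (1 - c))) := by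
    field_simp
  rw [h6] at h5
  linarith

/-- pullbacks of extremal systems are extremal -/
theorem pull_lag {T : Sp} (p : Pj T S) (th : ℝ) : (s.pull p).lag th = s.lag th := by
  unfold lag Sys.T
  rw [pull_P]
  show h ((p.vv s.P).dg 1) ((p.vv s.t).dg 1) - th * H ((p.vv s.x).dg 1) = _
  rw [← p.map_dg, ← p.map_dg, ← p.map_dg, p.H_map, p.h_map]

theorem pull_extremal {T : Sp} (p : Pj T S) {th : ℝ} (he : Extremal th s) : Extremal th (s.pull p) :=
  fun S' s' => by rw [s.pull_lag]; exact he S' s'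

end Sys

end

end Pool.Agent.Helper31.EC
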