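import Mathlib

/-! Exact entropy calculus: abstract entropy lattices. A join semilattice whose elements are informations, the
join of two informations is the pair, `A ≤ B` means that `A` is a function of `B` (up to nothing: the lattice of the
calculus is a quotient), and `H` is the normalised entropy. -/

namespace Pool.Agent.Helper31.EC

noncomputable section

/-- an entropy lattice -/
class PM (L : Type*) extends SemilatticeSup L, OrderBot L where
  H : L → ℝ
  H_bot : H ⊥ = 0
  H_mono : ∀ {A B : L}, A ≤ B → H A ≤ H B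
  H_sub : ∀ A B C : L, H (A ⊔ B ⊔ C) + H C ≤ H (A ⊔ C) + H (B ⊔ C)
  H_strict : ∀ {A B : L}, H (A ⊔ B) ≤ H B → A ≤ B

export PM (H H_bot H_mono H_sub H_strict)

variable {L : Type*} [PM L]

/-- conditional entropy `h(A|B)` -/
def h (A B : L) : ℝ := H (A ⊔ B) - H B

/-- conditional mutual information `I(A;B|C)` -/
def I (A B C : L) : ℝ := H (A ⊔ C) + H (B ⊔ C) - H (A ⊔ B ⊔ C) - H C

theorem H_nonneg (A : L) : 0 ≤ H A := by
  have := H_mono (bot_le : ⊥ ≤ A)
  rwa [H_bot] at this

theorem h_nonneg (A B : L) : 0 ≤ h A B := by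
  have := H_mono (le_sup_right : B ≤ A ⊔ B)
  unfold h; linarith

theorem h_bot (A : L) : h A ⊥ = H A := by simp [h, H_bot]

theorem h_eq_zero_iff {A B : L} : h A B = 0 ↔ A ≤ B := by
  constructor
  · intro hh
    apply H_strict
    unfold h at hh; linarith
  · intro hh
    unfold h
    rw [sup_eq_right.mpr hh]; ring

theorem h_zero {A B : L} (hAB : A ≤ B) : h A B = 0 := h_eq_zero_iff.mpr hAB

theorem h_le_zero_iff {A B : L} : h A B ≤ 0 ↔ A ≤ B :=
  ⟨fun hh => h_eq_zero_iff.mp (le_antisymm hh (h_nonneg A B)), fun hh => (h_zero hh).le⟩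

theorem h_self (A : L) : h A A = 0 := h_zero le_rfl

theorem h_mono {A A' B : L} (hA : A ≤ A') : h A B ≤ h A' B := by
  have := H_mono (sup_le_sup_right hA B)
  unfold h; linarith

theorem h_anti {A B B' : L} (hB : B ≤ B') : h A B' ≤ h A B := by
  have h1 := H_sub A B' B
  have h2 : B' ⊔ B = B' := sup_eq_left.mpr hB
  have h3 : A ⊔ B' ⊔ B = A ⊔ B' := by rw [sup_assoc, h2]
  rw [h2, h3] at h1
  unfold h; linarith

theorem h_le_H (A B : L) : h A B ≤ H A := by
  rw [← h_bot]
  exact h_anti bot_le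

/-- chain rule -/
theorem h_chain (A B C : L) : h (A ⊔ B) C = h A C + h B (A ⊔ C) := by
  unfold h
  have h1 : B ⊔ (A ⊔ C) = A ⊔ B ⊔ C := by rw [sup_left_comm, sup_assoc]
  rw [h1]; ring

theorem H_chain (A B : L) : H (A ⊔ B) = H A + h B A := by
  unfold h
  rw [sup_comm B A]; ring

theorem h_sup_le (A B C : L) : h (A ⊔ B) C ≤ h A C + h B C := by
  rw [h_chain]
  have := h_anti (A := B) (le_sup_right : C ≤ A ⊔ C)
  linarith

theorem H_sup_le (A B : L) : H (A ⊔ B) ≤ H A + H B := by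
  have := h_sup_le A B ⊥
  simpa [h_bot] using this

/-- `h(A|C) ≤ h(A|B) + h(B|C)` -/
theorem h_triangle (A B C : L) : h A C ≤ h A (B ⊔ C) + h B C := by
  have h1 := h_chain B A C
  have h2 := h_mono (B := C) (le_sup_right : A ≤ B ⊔ A)
  linarith

theorem h_triangle' (A B C : L) : h A C ≤ h A B + h B C := by
  have h1 := h_triangle A B C
  have h2 := h_anti (A := A) (le_sup_left : B ≤ B ⊔ C)
  linarith

theorem h_congr_left {A A' B : L} (h1 : A ≤ A' ⊔ B) (h2 : A' ≤ A ⊔ B) : h A B = h A' B := by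
  have h3 : A ⊔ B = A' ⊔ B := le_antisymm (sup_le h1 le_sup_right) (sup_le h2 le_sup_right)
  unfold h; rw [h3]

theorem h_sup_right_of_le {A B C : L} (hC : C ≤ B) : h (A ⊔ C) B = h A B :=
  h_congr_left (sup_le le_sup_left (hC.trans le_sup_right)) (le_sup_left.trans le_sup_left)

theorem I_eq (A B C : L) : I A B C = h A C - h A (B ⊔ C) := by
  unfold I h
  rw [← sup_assoc]; ring

theorem I_eq' (A B C : L) : I A B C = h B C - h B (A ⊔ C) := by
  unfold I h
  rw [sup_left_comm B A C, ← sup_assoc]; ring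

theorem I_comm (A B C : L) : I A B C = I B A C := by
  unfold I
  rw [sup_comm A B]; ring

theorem I_nonneg (A B C : L) : 0 ≤ I A B C := by
  have := H_sub A B C
  unfold I; linarith

theorem I_le_h_left (A B C : L) : I A B C ≤ h A C := by
  rw [I_eq]
  have := h_nonneg A (B ⊔ C)
  linarith

theorem I_le_h_right (A B C : L) : I A B C ≤ h B C := by rw [I_comm]; exact I_le_h_left B A C

/-- chain rule `I(A,A';B|C) = I(A;B|C) + I(A';B|A,C)` -/
theorem I_chain (A A' B C : L) : I (A ⊔ A') B C = I A B C + I A' B (A ⊔ C) := by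
  have e1 : A ⊔ A' ⊔ C = A' ⊔ (A ⊔ C) := by rw [sup_comm A A', sup_assoc]
  have e2 : B ⊔ (A ⊔ C) = A ⊔ B ⊔ C := by rw [sup_left_comm, sup_assoc]
  have e3 : A' ⊔ B ⊔ (A ⊔ C) = A ⊔ A' ⊔ B ⊔ C := by
    rw [sup_assoc A' B, e2, sup_assoc A B, sup_left_comm A' A, sup_assoc (A ⊔ A') B, sup_assoc A A']
  unfold I
  rw [e1, e2, e3]; ring

theorem I_chain_right (A B B' C : L) : I A (B ⊔ B') C = I A B C + I A B' (B ⊔ C) := by
  rw [I_comm, I_chain, I_comm B, I_comm B']

theorem I_congr_left {A A' B C : L} (h1 : A ≤ A' ⊔ C) (h2 : A' ≤ A ⊔ C) : I A B C = I A' B C := by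
  have h3 : A ⊔ C = A' ⊔ C := le_antisymm (sup_le h1 le_sup_right) (sup_le h2 le_sup_right)
  have h4 : A ⊔ B ⊔ C = A' ⊔ B ⊔ C := by
    rw [sup_assoc, sup_left_comm, h3, sup_left_comm, ← sup_assoc]
  unfold I; rw [h3, h4]

/-- data processing: `A` a function of `(A', C)` -/
theorem I_mono_left {A A' B C : L} (h1 : A ≤ A' ⊔ C) : I A B C ≤ I A' B C := by
  have e1 : I (A' ⊔ A) B C = I A' B C := by
    apply I_congr_left
    · exact sup_le le_sup_left h1
    · exact le_sup_left.trans le_sup_left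
  have e2 : I (A ⊔ A') B C = I A B C + I A' B (A ⊔ C) := I_chain A A' B C
  rw [sup_comm] at e2
  have e3 := I_nonneg A' B (A ⊔ C)
  linarith

theorem I_mono_right {A B B' C : L} (h1 : B ≤ B' ⊔ C) : I A B C ≤ I A B' C := by
  rw [I_comm A B, I_comm A B']; exact I_mono_left h1

theorem I_mono {A A' B B' C : L} (hA : A ≤ A' ⊔ C) (hB : B ≤ B' ⊔ C) : I A B C ≤ I A' B' C :=
  (I_mono_left hA).trans (I_mono_right hB)

/-- `I = 0` passes to functions -/
theorem I_zero_mono {A A' B B' C : L} (h0 : I A' B' C = 0) (hA : A ≤ A' ⊔ C) (hB : B ≤ B' ⊔ C) : I A B C = 0 :=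
  le_antisymm (h0 ▸ I_mono hA hB) (I_nonneg A B C)

theorem I_zero_of_le_left {A B C : L} (hA : A ≤ C) : I A B C = 0 := by
  apply le_antisymm _ (I_nonneg _ _ _)
  have := I_le_h_left A B C
  rw [h_zero hA] at this
  exact this

theorem I_zero_of_le_right {A B C : L} (hB : B ≤ C) : I A B C = 0 := by
  rw [I_comm]; exact I_zero_of_le_left hB

/-- moving a part of `A` into the condition -/
theorem I_cond_le {A A' B C : L} (hA : A' ≤ A) : I A B (A' ⊔ C) ≤ I A B C := by
  have e1 : I (A' ⊔ A) B C = I A' B C + I A B (A' ⊔ C) := I_chain A' A B C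
  rw [sup_eq_right.mpr hA] at e1
  have := I_nonneg A' B C
  linarith

/-- `I(A;B|C) = 0` in the form of entropies -/
theorem I_zero_iff_h {A B C : L} : I A B C = 0 ↔ h A (B ⊔ C) = h A C := by
  rw [I_eq]
  constructor <;> intro hh <;> linarith

theorem I_zero_iff_h' {A B C : L} : I A B C = 0 ↔ h B (A ⊔ C) = h B C := by
  rw [I_eq']
  constructor <;> intro hh <;> linarith

/-- contraction: `I(A;B|C) = 0` and `I(A;D|B,C) = 0` give `I(A;B,D|C) = 0` -/
theorem I_contract {A B C D : L} (h1 : I A B C = 0) (h2 : I A D (B ⊔ C) = 0) : I A (B ⊔ D) C = 0 := by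
  rw [I_chain_right, h1, h2]; ring

/-- weak union and decomposition -/
theorem I_decomp {A B C D : L} (h1 : I A (B ⊔ D) C = 0) : I A B C = 0 ∧ I A D (B ⊔ C) = 0 := by
  rw [I_chain_right] at h1
  have a := I_nonneg A B C
  have b := I_nonneg A D (B ⊔ C)
  constructor <;> linarith

/-- if `A` is a function of `(B, C)` and independent of `B` given `C` then it is a function of `C` -/
theorem le_of_I_zero {A B C : L} (h1 : A ≤ B ⊔ C) (h2 : I A B C = 0) : A ≤ C := by
  rw [I_eq, h_zero h1, sub_zero] at h2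
  exact h_eq_zero_iff.mp h2

/-- Markov chain `A - C - B` with a function of both ends is a function of the middle -/
theorem le_of_markov {A B C D : L} (h1 : D ≤ A ⊔ C) (h2 : D ≤ B ⊔ C) (h3 : I A B C = 0) : D ≤ C :=
  le_of_I_zero h2 (I_zero_mono h3 h1 le_sup_left)

/-- the three point identity `I(A;B|C) - I(A;B|C,D) = I(A;D|C) - I(A;D|B,C)` -/
theorem I_exchange (A B C D : L) : I A B C + I A D (B ⊔ C) = I A D C + I A B (D ⊔ C) := by
  rw [← I_chain_right, ← I_chain_right, sup_comm B D]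

end

end Pool.Agent.Helper31.EC
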