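import Pool.Agent.Helper31.EC.Dig

/-! Exact entropy calculus: measure preserving projections and the induced maps of entropy lattices. -/

namespace Pool.Agent.Helper31.EC

open Finset Filter Topology Pool.Agent.Helper69.RK

noncomputable section

/-- a measure preserving projection of `T` onto `S` (`T` extends `S`) -/
structure Pj (T S : Sp) where
  π : ∀ k, (T.F k).Ω → (S.F k).Ω
  law : ∀ k, push (π k) (T.F k).μ = (S.F k).μ
  hZ : ∀ k ω ω', (T.F k).μ ω ≠ 0 → (T.F k).μ ω' ≠ 0 → ((T.F k).Z ω ω' ↔ (S.F k).Z (π k ω) (π k ω'))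
  hn : ∀ k, (T.F k).n = (S.F k).n

open Classical in
theorem supp_push {Ω Ω' : Type} [Fintype Ω] [Fintype Ω'] (π : Ω' → Ω) (μ' : Ω' → ℝ) (h0 : ∀ ω, 0 ≤ μ' ω) (ω : Ω')
    (h : μ' ω ≠ 0) : push π μ' (π ω) ≠ 0 := by
  have h1 : μ' ω ≤ push π μ' (π ω) := by
    unfold push
    have h2 := Finset.single_le_sum (f := fun ω' : Ω' => if π ω' = π ω then μ' ω' else 0)
      (fun ω' _ => by
        show (0 : ℝ) ≤ if π ω' = π ω then μ' ω' else 0
        split_ifs
        · exact h0 ω'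
        · exact le_rfl) (Finset.mem_univ ω)
    simpa using h2
  have h3 := lt_of_le_of_ne (h0 ω) (Ne.symm h)
  exact (lt_of_lt_of_le h3 h1).ne'

namespace Pj

variable {T S : Sp} (p : Pj T S)

include p in
theorem supp (k : ℕ) (ω : (T.F k).Ω) (h : (T.F k).μ ω ≠ 0) : (S.F k).μ (p.π k ω) ≠ 0 := by
  rw [← p.law k]
  exact supp_push _ _ (T.F k).nn ω h

theorem e_comap (k : ℕ) (A B : Setoid (S.F k).Ω) :
    (T.F k).e (Setoid.comap (p.π k) A) (Setoid.comap (p.π k) B) = (S.F k).e A B := by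
  have h1 := (Pool.Agent.Helper70.RK.st_E5.1 (S.F k).Ω (T.F k).Ω _ _ (T.F k).μ (p.π k) (Quotient.mk A)
    (Quotient.mk B) (T.F k).nn).2.2
  rw [p.law k] at h1
  have h2 : (S.F k).e A B = CH (S.F k).μ (Quotient.mk A) (Quotient.mk B) := rfl
  rw [h2, h1]
  apply (T.F k).e_congr
  · intro ω ω' _ _
    exact (Quotient.eq (r := A)).symm
  · intro ω ω' _ _
    exact (Quotient.eq (r := B)).symm

/-- the pullback of a sequence of partitions -/
def pb (A : ∀ k, Setoid (S.F k).Ω) : ∀ k, Setoid (T.F k).Ω := fun k => Setoid.comap (p.π k) (A k)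

theorem rt_pb (A B : ∀ k, Setoid (S.F k).Ω) (k : ℕ) : T.rt (p.pb A) (p.pb B) k = S.rt A B k := by
  unfold Sp.rt
  rw [← p.e_comap k (A k) (B k ⊓ (S.F k).Z), p.hn k]
  congr 1
  apply (T.F k).e_congr_right
  intro ω ω' h1 h2
  exact and_congr Iff.rfl (p.hZ k ω ω' h1 h2)

theorem pb_tr : p.pb S.tr = T.tr := by
  funext k
  ext ω ω'
  exact Iff.rfl

theorem exists_lift (k : ℕ) (ω : (S.F k).Ω) (h : (S.F k).μ ω ≠ 0) : ∃ ω', (T.F k).μ ω' ≠ 0 ∧ p.π k ω' = ω := by
  by_contra hc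
  push Not at hc
  apply h
  rw [← p.law k]
  classical
  unfold push
  apply Finset.sum_eq_zero
  intro ω' _
  by_cases h1 : (T.F k).μ ω' = 0
  · rw [h1]; simp
  · rw [if_neg (hc ω' h1)]

theorem nvf_comp (k : ℕ) {α : Type} (X : (S.F k).Ω → α) (ω : (T.F k).Ω) (hω : (T.F k).μ ω ≠ 0) :
    nvf (T.F k).μ (fun ω' => X (p.π k ω')) (Quotient.mk (T.F k).Z) ω =
      nvf (S.F k).μ X (Quotient.mk (S.F k).Z) (p.π k ω) := by
  apply nvf_eq
  intro a
  constructor
  · rintro ⟨ω', h1, h2, h3⟩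
    exact ⟨p.π k ω', p.supp k ω' h1, Quotient.sound ((p.hZ k ω' ω h1 hω).mp (Quotient.exact h2)), h3⟩
  · rintro ⟨ω', h1, h2, h3⟩
    obtain ⟨ω₁, h₁, rfl⟩ := p.exists_lift k ω' h1
    exact ⟨ω₁, h₁, Quotient.sound ((p.hZ k ω₁ ω h₁ hω).mpr (Quotient.exact h2)), h3⟩

theorem nv_comap (k : ℕ) (A : Setoid (S.F k).Ω) (ω : (T.F k).Ω) (hω : (T.F k).μ ω ≠ 0) :
    Sp.nv (T.F k) (Setoid.comap (p.π k) A) ω = Sp.nv (S.F k) A (p.π k ω) := by
  unfold Sp.nv
  rw [← p.nvf_comp k (Quotient.mk A) ω hω]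
  apply le_antisymm
  · apply nvf_mono
    intro ω₁ ω₂ _ _ _ _ h
    have h1 : A (p.π k ω₁) (p.π k ω₂) := (Quotient.eq (r := A)).mp h
    exact Quotient.sound h1
  · apply nvf_mono
    intro ω₁ ω₂ _ _ _ _ h
    have h1 : A (p.π k ω₁) (p.π k ω₂) := (Quotient.eq (r := Setoid.comap (p.π k) A)).mp h
    exact Quotient.sound h1

theorem vb_pb {A : ∀ k, Setoid (S.F k).Ω} : T.VB (p.pb A) ↔ S.VB A := by
  constructor
  · rintro ⟨C, hC⟩
    refine ⟨C, ?_⟩
    filter_upwards [hC] with k hk ω hω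
    obtain ⟨ω', h', rfl⟩ := p.exists_lift k ω hω
    have h1 := hk ω' h'
    unfold pb at h1
    rw [p.nv_comap k (A k) ω' h', p.hn k] at h1
    exact h1
  · rintro ⟨C, hC⟩
    refine ⟨C, ?_⟩
    filter_upwards [hC] with k hk ω hω
    unfold pb
    rw [p.nv_comap k (A k) ω hω, p.hn k]
    exact hk _ (p.supp k ω hω)

/-- the pullback of an information -/
def mapI (A : S.Inf) : T.Inf := ⟨p.pb A.1, p.vb_pb.mpr A.2⟩

theorem mapI_le {A B : S.Inf} : p.mapI A ≤ p.mapI B ↔ A ≤ B := by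
  rw [Sp.Inf.le_def, Sp.Inf.le_def]
  have h1 : T.rt (p.mapI A).1 (p.mapI B).1 = S.rt A.1 B.1 := by
    funext k
    exact p.rt_pb _ _ k
  rw [h1]

/-- the pullback on entropy lattices -/
def map : S.L → T.L := Quotient.map p.mapI (by
  intro A B hAB
  exact ⟨p.mapI_le.mpr hAB.1, p.mapI_le.mpr hAB.2⟩)

theorem map_cl (A : S.Inf) : p.map (Sp.cl A) = Sp.cl (p.mapI A) := rfl

theorem map_le {x y : S.L} : p.map x ≤ p.map y ↔ x ≤ y := by
  induction x using Sp.cl_ind
  induction y using Sp.cl_ind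
  exact p.mapI_le

theorem map_mono {x y : S.L} (h : x ≤ y) : p.map x ≤ p.map y := p.map_le.mpr h

theorem map_injective : Function.Injective p.map := fun _ _ h =>
  le_antisymm (p.map_le.mp h.le) (p.map_le.mp h.ge)

theorem map_sup (x y : S.L) : p.map (x ⊔ y) = p.map x ⊔ p.map y := by
  induction x using Sp.cl_ind
  induction y using Sp.cl_ind
  rfl

theorem mapI_bot : p.mapI Sp.Inf.bot = Sp.Inf.bot := Subtype.ext p.pb_tr

theorem map_bot : p.map ⊥ = ⊥ := by
  rw [← Sp.cl_bot, p.map_cl, ← Sp.cl_bot, p.mapI_bot]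

theorem H_map (x : S.L) : H (p.map x) = H x := by
  induction x using Sp.cl_ind with | _ A
  rw [p.map_cl, Sp.H_cl, Sp.H_cl]
  have h1 : T.rt (p.mapI A).1 T.tr = S.rt A.1 S.tr := by
    have h2 : T.rt (p.pb A.1) (p.pb S.tr) = S.rt A.1 S.tr := by
      funext k
      exact p.rt_pb _ _ k
    rw [p.pb_tr] at h2
    exact h2
  rw [h1]

theorem h_map (x y : S.L) : h (p.map x) (p.map y) = h x y := by
  unfold h
  rw [← p.map_sup, p.H_map, p.H_map]

theorem I_map (x y z : S.L) : I (p.map x) (p.map y) (p.map z) = I x y z := by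
  unfold I
  rw [← p.map_sup, ← p.map_sup, ← p.map_sup, ← p.map_sup, p.H_map, p.H_map, p.H_map, p.H_map]

theorem bdd_iff {α : ℕ → Type} (X : ∀ k, (S.F k).Ω → α k) :
    Sp.Bdd (S := T) (fun k ω => X k (p.π k ω)) ↔ Sp.Bdd X := p.vb_pb (A := fun k => Setoid.ker (X k))

theorem map_io {α : ℕ → Type} (X : ∀ k, (S.F k).Ω → α k) :
    p.map (Sp.io X) = Sp.io (S := T) (fun k ω => X k (p.π k ω)) := by
  by_cases hX : Sp.Bdd X
  · rw [Sp.io_eq hX, Sp.io_eq ((p.bdd_iff X).mpr hX)]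
    rfl
  · unfold Sp.io
    rw [dif_neg hX, dif_neg (fun h => hX ((p.bdd_iff X).mp h)), p.map_bot]

include p in
theorem sub {K : ℕ → ℝ} (hK : S.Sub K) : T.Sub K := by
  refine ⟨hK.1, ?_⟩
  have h1 : (fun k => Real.logb 2 (K k + 2) / (T.F k).n) = fun k => Real.logb 2 (K k + 2) / (S.F k).n := by
    funext k
    rw [p.hn k]
  rw [h1]
  exact hK.2

/-- the pullback of a vector variable -/
def vv {m : ℕ} (y : S.VV m) : T.VV m where
  v := fun k ω => y.v k (p.π k ω)
  bd := by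
    obtain ⟨C, hCs, hC⟩ := y.bd
    refine ⟨C, p.sub hCs, ?_⟩
    filter_upwards [hC] with k hk ω hω i
    exact hk _ (p.supp k ω hω) i

theorem map_dg {m : ℕ} (y : S.VV m) (r : ℝ) : p.map (y.dg r) = (p.vv y).dg r := by
  unfold Sp.VV.dg
  rw [p.map_io]
  have h1 : (fun k ω => y.cellv r k (p.π k ω)) = (p.vv y).cellv r := by
    funext k ω
    unfold Sp.VV.cellv Sp.dl
    rw [p.hn k]
    rfl
  rw [h1]

/-- composition -/
def comp {R : Sp} (q : Pj R T) (p : Pj T S) : Pj R S where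
  π := fun k ω => p.π k (q.π k ω)
  law := by
    intro k
    rw [← p.law k, ← q.law k]
    funext ω
    classical
    unfold push
    have h1 : ∀ x : (T.F k).Ω, (if p.π k x = ω then ∑ ω', (if q.π k ω' = x then (R.F k).μ ω' else 0) else 0) =
        ∑ ω', if q.π k ω' = x ∧ p.π k x = ω then (R.F k).μ ω' else 0 := by
      intro x
      by_cases hx : p.π k x = ω
      · simp [hx]
      · simp [hx]
    simp_rw [h1]
    rw [Finset.sum_comm]
    apply Finset.sum_congr rfl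
    intro ω' _
    rw [Finset.sum_eq_single (q.π k ω')]
    · simp
    · intro b _ hb
      rw [if_neg]
      intro h
      exact hb h.1.symm
    · intro h
      exact absurd (Finset.mem_univ _) h
  hZ := by
    intro k ω ω' h1 h2
    rw [q.hZ k ω ω' h1 h2, p.hZ k _ _ (q.supp k ω h1) (q.supp k ω' h2)]
  hn := fun k => (q.hn k).trans (p.hn k)

theorem comp_map {R : Sp} (q : Pj R T) (p : Pj T S) (x : S.L) : (q.comp p).map x = q.map (p.map x) := by
  induction x using Sp.cl_ind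
  rfl

/-- the identity -/
def id (S : Sp) : Pj S S where
  π := fun _ ω => ω
  law := by
    intro k
    funext ω
    classical
    unfold push
    rw [Finset.sum_eq_single ω]
    · simp
    · intro b _ hb
      rw [if_neg hb]
    · intro h
      exact absurd (Finset.mem_univ _) h
  hZ := fun _ _ _ _ _ => Iff.rfl
  hn := fun _ => rfl

theorem id_map (x : S.L) : (Pj.id S).map x = x := by
  induction x using Sp.cl_ind
  rfl

end Pj

end

end Pool.Agent.Helper31.EC
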