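import Pool.Agent.Helper31.EC.SatA

/-! Exact entropy calculus: the saturation lemma, geometric part. -/

namespace Pool.Agent.Helper31.EC

open Finset Filter Topology Pool.Agent.Helper69.RK

noncomputable section

section algebra

variable {A : Type*} [CommRing A] (R' : Subring A)

theorem det_mem {n : Type*} [Fintype n] [DecidableEq n] (M : Matrix n n A) (hM : ∀ i j, M i j ∈ R') :
    M.det ∈ R' := by
  rw [Matrix.det_apply]
  apply Subring.sum_mem
  intro σ _
  rw [Units.smul_def]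
  exact Subring.zsmul_mem R' (Subring.prod_mem R' fun i _ => hM _ _) _

theorem adj_mem {n : Type*} [Fintype n] [DecidableEq n] (M : Matrix n n A) (hM : ∀ i j, M i j ∈ R') (i j : n) :
    M.adjugate i j ∈ R' := by
  rw [Matrix.adjugate_apply]
  apply det_mem
  intro a b
  rw [Matrix.updateRow_apply]
  split_ifs
  · rw [Pi.single_apply]
    split_ifs
    · exact R'.one_mem
    · exact R'.zero_mem
  · exact hM _ _

theorem mulVec_mem {n p : Type*} [Fintype p] (M : Matrix n p A) (v : p → A) (hM : ∀ i j, M i j ∈ R')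
    (hv : ∀ j, v j ∈ R') (i : n) : M.mulVec v i ∈ R' :=
  Subring.sum_mem R' fun _ _ => R'.mul_mem (hM _ _) (hv _)

theorem mul_mem' {n p q : Type*} [Fintype p] (M : Matrix n p A) (N : Matrix p q A) (hM : ∀ i j, M i j ∈ R')
    (hN : ∀ i j, N i j ∈ R') (i : n) (j : q) : (M * N) i j ∈ R' :=
  Subring.sum_mem R' fun _ _ => R'.mul_mem (hM _ _) (hN _ _)

variable {m d : ℕ}

/-- differences `x_i - x_0` as the columns of a matrix -/
def dm (x : Fin (d + 1) → Fin m → A) : Matrix (Fin m) (Fin d) A := fun j i => x i.succ j - x 0 j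

/-- the Gram matrix of the columns -/
def gram (V : Matrix (Fin m) (Fin d) A) : Matrix (Fin d) (Fin d) A := V.transpose * V

/-- coordinates of the orthogonal projection to the span of the columns -/
def cc (V : Matrix (Fin m) (Fin d) A) (ι : A) (Q : Fin m → A) : Fin d → A :=
  ι • ((gram V).adjugate.mulVec (V.transpose.mulVec Q))

/-- component orthogonal to the span of the columns -/
def rr (V : Matrix (Fin m) (Fin d) A) (ι : A) (Q : Fin m → A) : Fin m → A :=
  Q - V.mulVec (cc V ι Q)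

theorem cc_add (V : Matrix (Fin m) (Fin d) A) (ι : A) (Q Q' : Fin m → A) :
    cc V ι (Q + Q') = cc V ι Q + cc V ι Q' := by
  unfold cc
  rw [Matrix.mulVec_add, Matrix.mulVec_add, smul_add]

theorem cc_smul_col (V : Matrix (Fin m) (Fin d) A) (ι τ : A) (i : Fin d) :
    cc V ι (τ • V.mulVec (Pi.single i 1)) = (τ * (ι * (gram V).det)) • Pi.single i 1 := by
  unfold cc
  rw [Matrix.mulVec_smul, Matrix.mulVec_smul, Matrix.mulVec_mulVec, Matrix.mulVec_mulVec, Matrix.mul_assoc]
  have h1 : (gram V).adjugate * (V.transpose * V) = (gram V).det • 1 := Matrix.adjugate_mul (gram V)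
  rw [h1, Matrix.smul_mulVec, Matrix.one_mulVec, smul_smul, smul_smul]
  congr 1
  ring

theorem rr_add (V : Matrix (Fin m) (Fin d) A) (ι τ : A) (Q : Fin m → A) (i : Fin d) :
    rr V ι (Q + τ • V.mulVec (Pi.single i 1)) = rr V ι Q + (τ * (1 - ι * (gram V).det)) • V.mulVec (Pi.single i 1) := by
  unfold rr
  rw [cc_add, cc_smul_col, Matrix.mulVec_add, Matrix.mulVec_smul]
  funext j
  simp only [Pi.add_apply, Pi.sub_apply, Pi.smul_apply, smul_eq_mul]
  ring

theorem mulVec_single_col (V : Matrix (Fin m) (Fin d) A) (i : Fin d) (j : Fin m) :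
    V.mulVec (Pi.single i 1) j = V j i := by
  rw [Matrix.mulVec_single_one]
  rfl

variable {R'}

theorem cc_mem (V : Matrix (Fin m) (Fin d) A) (ι : A) (Q : Fin m → A)
    (hV : ∀ i j, V i j ∈ R') (hι : ι ∈ R') (hQ : ∀ j, Q j ∈ R') (i : Fin d) :
    cc V ι Q i ∈ R' := by
  unfold cc
  rw [Pi.smul_apply, smul_eq_mul]
  apply Subring.mul_mem _ hι
  apply mulVec_mem
  · apply adj_mem
    intro a b
    exact mul_mem' _ _ _ (fun i j => hV j i) hV a b
  · intro j
    exact mulVec_mem _ _ _ (fun i j => hV j i) hQ j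

theorem rr_mem (V : Matrix (Fin m) (Fin d) A) (ι : A) (Q : Fin m → A)
    (hV : ∀ i j, V i j ∈ R') (hι : ι ∈ R') (hQ : ∀ j, Q j ∈ R') (j : Fin m) :
    rr V ι Q j ∈ R' := by
  unfold rr
  rw [Pi.sub_apply]
  apply Subring.sub_mem _ (hQ j)
  exact mulVec_mem _ _ _ hV (cc_mem V ι Q hV hι hQ) j

theorem Q_succ (P : Fin m → A) (τ : A) (x : Fin (d + 1) → Fin m → A) (i : Fin d) :
    P + τ • x i.succ = P + τ • x 0 + τ • (dm x).mulVec (Pi.single i 1) := by
  funext j
  show P j + τ * x i.succ j = P j + τ * x 0 j + τ * (dm x).mulVec (Pi.single i 1) j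
  rw [mulVec_single_col]
  show P j + τ * x i.succ j = P j + τ * x 0 j + τ * (x i.succ j - x 0 j)
  ring

theorem cc_Q_ne (P : Fin m → A) (τ ι : A) (x : Fin (d + 1) → Fin m → A) (i j : Fin d) (hij : j ≠ i) :
    cc (dm x) ι (P + τ • x i.succ) j = cc (dm x) ι (P + τ • x 0) j := by
  rw [Q_succ, cc_add, cc_smul_col, Pi.add_apply, Pi.smul_apply, Pi.single_apply, if_neg hij, smul_zero, add_zero]

theorem cc_Q_eq (P : Fin m → A) (τ ι : A) (x : Fin (d + 1) → Fin m → A) (i : Fin d) :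
    cc (dm x) ι (P + τ • x i.succ) i - cc (dm x) ι (P + τ • x 0) i = τ * (ι * (gram (dm x)).det) := by
  rw [Q_succ, cc_add, cc_smul_col, Pi.add_apply, Pi.smul_apply, Pi.single_apply, if_pos rfl, smul_eq_mul, mul_one,
    add_sub_cancel_left]

theorem rr_Q (P : Fin m → A) (τ ι : A) (x : Fin (d + 1) → Fin m → A) (i : Fin d) (j : Fin m) :
    rr (dm x) ι (P + τ • x i.succ) j = rr (dm x) ι (P + τ • x 0) j +
      (τ * (dm x) j i) * (1 - ι * (gram (dm x)).det) := by
  rw [Q_succ, rr_add, Pi.add_apply, Pi.smul_apply, smul_eq_mul, mulVec_single_col]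
  ring

theorem Q_eq (V : Matrix (Fin m) (Fin d) A) (ι : A) (Q : Fin m → A) (j : Fin m) :
    Q j = rr V ι Q j + V.mulVec (cc V ι Q) j := by
  unfold rr
  rw [Pi.sub_apply, sub_add_cancel]

end algebra

namespace TR

open Sp

variable {W : Sp} {m d : ℕ}

theorem mem_of_te {r : ℝ} {A : W.L} {f g : TR W} (h : Te f g) (hf : f ∈ Kn W r A) : g ∈ Kn W r A := by
  rw [mem_Kn, ← h.dg_eq r]
  exact hf

theorem coord_mem {r : ℝ} {A : W.L} (Q : Fin m → TR W) (h : (vec Q).dg r ≤ A) (j : Fin m) : Q j ∈ Kn W r A :=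
  (vec_dg_le_iff Q r A).mp h j

theorem Te.one_sub {u : TR W} (h : Te u 1) : Te (1 - u) 0 := by
  obtain ⟨E, hE, hh⟩ := h
  refine ⟨E, hE, ?_⟩
  filter_upwards [hh] with k hk ω a b
  rw [ev_sub, hk ω a b, ev_one, ev_zero, sub_self]

theorem Te.add_mul_zero {u : TR W} (h : Te u 0) (f g : TR W) : Te (f + g * u) f := by
  obtain ⟨E, hE, hh⟩ := h
  refine ⟨E, hE, ?_⟩
  filter_upwards [hh] with k hk ω a b
  rw [ev_add, ev_mul, hk ω a b, ev_zero, mul_zero, add_zero]

theorem Te.mul_one {u : TR W} (h : Te u 1) (f : TR W) : Te (f * u) f := by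
  obtain ⟨E, hE, hh⟩ := h
  refine ⟨E, hE, ?_⟩
  filter_upwards [hh] with k hk ω a b
  rw [ev_mul, hk ω a b, ev_one, _root_.mul_one]

/-- **Saturation lemma, geometric form.** `x_0, ..., x_d` and a point `P`, a number `τ`; `Q_i = P + τ x_i`. If given
`X` (which knows the `x_i`) the number `τ` has entropy `≥ e`, the point `Q_0` has entropy `≥ q` given `τ` too, and
every `Q_i` has entropy `≤ q`, and if the parallelepiped of the `x_i - x_0` has subexponential volume, then `Q_0` is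
saturated along the span of the `x_i - x_0`. -/
theorem sat_geo (x : Fin (d + 1) → Fin m → TR W) (P : Fin m → TR W) (τ : TR W) (r q e : ℝ) (X : W.L)
    (hX : ∀ i j, x i j ∈ Kn W r X) (K : ℕ → ℝ) (hK : W.Sub K)
    (hD : Typ (fun k ω => 1 ≤ K k * |ev (gram (dm x)).det k ω|))
    (hτ : e ≤ h (dg τ r) X) (hq0 : q ≤ h ((vec (P + τ • x 0)).dg r) (dg τ r ⊔ X))
    (hq : ∀ i, h ((vec (P + τ • x i)).dg r) X ≤ q) :
    d * e ≤ h ((vec (P + τ • x 0)).dg r)
      ((vec (rr (dm x) (rinv (gram (dm x)).det K hK) (P + τ • x 0))).dg r ⊔ X) := by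
  classical
  obtain ⟨V, hV⟩ : ∃ V, V = dm x := ⟨_, rfl⟩
  obtain ⟨ι, hι⟩ : ∃ ι, ι = rinv (gram (dm x)).det K hK := ⟨_, rfl⟩
  have hu : Te (ι * (gram (dm x)).det) 1 := by
    rw [hι]
    exact rinv_mul _ K hK hD
  have hVm : ∀ A : W.L, X ≤ A → ∀ i j, dm x i j ∈ Kn W r A := by
    intro A hA i j
    exact Subring.sub_mem _ (Kn_mono hA (hX _ _)) (Kn_mono hA (hX _ _))
  have hιm : ∀ A : W.L, X ≤ A → ι ∈ Kn W r A := by
    intro A hA
    rw [hι]
    apply rinv_mem _ _ _ hD
    apply det_mem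
    intro i j
    exact mul_mem' _ _ _ (fun i j => hVm A hA j i) (hVm A hA) i j
  rw [← hι]
  clear hι
  obtain ⟨Q, hQ⟩ : ∃ Q : Fin (d + 1) → Fin m → TR W, Q = fun i => P + τ • x i := ⟨_, rfl⟩
  have hQi : ∀ i, P + τ • x i = Q i := by intro i; rw [hQ]
  have hcj : ∀ i j : Fin d, j ≠ i → cc (dm x) ι (Q i.succ) j = cc (dm x) ι (Q 0) j := by
    intro i j hij
    rw [← hQi, ← hQi]
    exact cc_Q_ne P τ ι x i j hij
  have hci : ∀ i : Fin d, cc (dm x) ι (Q i.succ) i - cc (dm x) ι (Q 0) i = τ * (ι * (gram (dm x)).det) := by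
    intro i
    rw [← hQi, ← hQi]
    exact cc_Q_eq P τ ι x i
  have hrr : ∀ (i : Fin d) (j : Fin m), Te (rr (dm x) ι (Q i.succ) j) (rr (dm x) ι (Q 0) j) := by
    intro i j
    rw [← hQi, ← hQi, rr_Q]
    exact hu.one_sub.add_mul_zero _ _
  rw [hQi 0] at hq0 ⊢
  have hq' : ∀ i, h ((vec (Q i)).dg r) X ≤ q := by
    intro i
    rw [← hQi]
    exact hq i
  clear hq hQi hQ
  rw [← hV] at hrr hci hcj hVm hu ⊢
  clear hD hV
  -- memberships
  have mQ : ∀ i j, Q i j ∈ Kn W r ((vec (Q i)).dg r ⊔ X) := fun i j => coord_mem _ le_sup_left j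
  have mc : ∀ i j, cc V ι (Q i) j ∈ Kn W r ((vec (Q i)).dg r ⊔ X) := fun i j =>
    cc_mem V ι _ (hVm _ le_sup_right) (hιm _ le_sup_right) (mQ i) j
  have mr : ∀ i j, rr V ι (Q i) j ∈ Kn W r ((vec (Q i)).dg r ⊔ X) := fun i j =>
    rr_mem V ι _ (hVm _ le_sup_right) (hιm _ le_sup_right) (mQ i) j
  refine sat_abs (fun i => (vec (Q i)).dg r) (dg τ r) ((vec (rr V ι (Q 0))).dg r) X
    (fun i => dg (cc V ι (Q 0) i) r) q e hτ hq0 hq' ?_ ?_ ?_ ?_ ?_
  · intro i
    have h1 : cc V ι (Q i.succ) i - cc V ι (Q 0) i ∈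
        Kn W r ((vec (Q 0)).dg r ⊔ (vec (Q i.succ)).dg r ⊔ X) := by
      apply Subring.sub_mem
      · exact Kn_mono (sup_le_sup_right le_sup_right _) (mc i.succ i)
      · exact Kn_mono (sup_le_sup_right le_sup_left _) (mc 0 i)
    rw [hci] at h1
    exact mem_of_te (hu.mul_one τ) h1
  · intro i
    apply sup_le
    · apply Finset.sup_le
      intro j _
      exact mc 0 j
    · exact (vec_dg_le_iff _ _ _).mpr (mr 0)
  · intro i
    apply sup_le
    · apply Finset.sup_le
      intro j hj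
      rw [Finset.mem_erase] at hj
      have h1 := mc i.succ j
      rw [hcj i j hj.1] at h1
      exact h1
    · exact (vec_dg_le_iff _ _ _).mpr fun j => mem_of_te (hrr i j) (mr i.succ j)
  · intro i
    rw [vec_dg_le_iff]
    intro j
    rw [← mem_Kn, Q_eq V ι (Q 0) j]
    apply Subring.add_mem
    · apply coord_mem (rr V ι (Q 0))
      exact le_sup_right.trans le_sup_left
    · apply mulVec_mem
      · exact hVm _ le_sup_right
      · intro l
        show dg (cc V ι (Q 0) l) r ≤ _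
        by_cases hl : l = i
        · rw [hl]
          exact le_sup_left.trans (le_sup_left.trans le_sup_left)
        · have h1 : dg (cc V ι (Q 0) l) r ≤ (Finset.univ.erase i).sup (fun i => dg (cc V ι (Q 0) i) r) :=
            Finset.le_sup (f := fun i => dg (cc V ι (Q 0) i) r) (Finset.mem_erase.mpr ⟨hl, Finset.mem_univ _⟩)
          exact h1.trans (le_sup_right.trans (le_sup_left.trans le_sup_left))
  · apply Finset.sup_le
    intro j _
    exact mc 0 j

end TR

end

end Pool.Agent.Helper31.EC
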