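import Pool.Agent.Helper31.EC.Real
import Pool.Agent.Helper31.EC.SatG

/-! Exact entropy calculus: real families of variables, copies given finitely many functions, uniqueness of the
coefficients of a polynomial in a real variable. -/

namespace Pool.Agent.Helper31.EC

open Finset Filter Topology Pool.Agent.Helper69.RK

noncomputable section

open Sp

variable {S : Sp}

namespace QS

/-- digits of the members of a subfamily -/
def sd {ι : Type} (x : ι → QS S) (s : Finset ι) : S.L := s.sup fun i => dg (x i) 1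

theorem sd_univ {ι : Type} [Fintype ι] (x : ι → QS S) : sd x Finset.univ = vd x 1 := rfl

theorem dg_le_sd {ι : Type} (x : ι → QS S) {s : Finset ι} {i : ι} (hi : i ∈ s) : dg (x i) 1 ≤ sd x s :=
  Finset.le_sup (f := fun i => dg (x i) 1) hi

theorem sd_le {ι : Type} (x : ι → QS S) (s : Finset ι) (A : S.L) : sd x s ≤ A ↔ ∀ i ∈ s, dg (x i) 1 ≤ A := by
  unfold sd
  rw [Finset.sup_le_iff]

theorem sd_mono {ι : Type} (x : ι → QS S) {s t : Finset ι} (h : s ⊆ t) : sd x s ≤ sd x t :=
  (sd_le x s _).mpr fun _ hi => dg_le_sd x (h hi)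

open Classical in
theorem sd_union {ι : Type} (x : ι → QS S) (s t : Finset ι) : sd x (s ∪ t) = sd x s ⊔ sd x t := by
  unfold sd
  exact Finset.sup_union

theorem h_dg_le_one (f : QS S) (A : S.L) : h (dg f 1) A ≤ 1 :=
  (h_le_H _ _).trans (H_dg_le f zero_le_one)

theorem h_sd_le {ι : Type} (x : ι → QS S) (s : Finset ι) (A : S.L) : h (sd x s) A ≤ s.card := by
  refine (h_finsup_le s _ A).trans ?_
  calc ∑ i ∈ s, h (dg (x i) 1) A ≤ ∑ _i ∈ s, (1 : ℝ) := Finset.sum_le_sum fun i _ => h_dg_le_one _ _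
    _ = s.card := by simp

/-- a family of variables which is real (independent and full) over `A` -/
def Rl {ι : Type} [Fintype ι] (x : ι → QS S) (A : S.L) : Prop := h (vd x 1) A = Fintype.card ι

theorem Rl.of_ge {ι : Type} [Fintype ι] {x : ι → QS S} {A : S.L} (h : (Fintype.card ι : ℝ) ≤ EC.h (vd x 1) A) : Rl x A :=
  le_antisymm (h_sd_le x Finset.univ A) h

theorem Rl.anti {ι : Type} [Fintype ι] {x : ι → QS S} {A B : S.L} (h : Rl x B) (hAB : A ≤ B) : Rl x A := by
  apply Rl.of_ge
  rw [← h]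
  exact h_anti hAB

/-- a subfamily is real over a disjoint subfamily -/
theorem Rl.sub {ι : Type} [Fintype ι] {x : ι → QS S} {A : S.L} (hx : Rl x A) {s t : Finset ι} (hst : Disjoint s t) :
    h (sd x s) (sd x t ⊔ A) = s.card := by
  classical
  apply le_antisymm (h_sd_le x s _)
  have h1 : vd x 1 = sd x s ⊔ sd x sᶜ := by
    rw [← sd_union, Finset.union_compl, sd_univ]
  have h2 : h (vd x 1) A ≤ h (sd x s) (sd x sᶜ ⊔ A) + h (sd x sᶜ) A := by
    rw [h1, sup_comm, h_chain]
    linarith
  have h3 : h (sd x s) (sd x sᶜ ⊔ A) ≤ h (sd x s) (sd x t ⊔ A) := by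
    apply h_anti
    apply sup_le_sup_right
    apply sd_mono
    intro i hi
    rw [Finset.mem_compl]
    exact fun hc => Finset.disjoint_left.mp hst hc hi
  have h4 := h_sd_le x sᶜ A
  have h5 : ((sᶜ : Finset ι).card : ℝ) = Fintype.card ι - s.card := by
    rw [Finset.card_compl, Nat.cast_sub (Finset.card_le_univ s)]
  rw [hx] at h2
  linarith

theorem Rl.dg_dg {ι : Type} [Fintype ι] {x : ι → QS S} {A : S.L} (hx : Rl x A) {i j : ι} (hij : i ≠ j) :
    h (dg (x i) 1) (dg (x j) 1 ⊔ A) = 1 := by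
  have h1 := hx.sub (s := {i}) (t := {j}) (by simpa using hij)
  simpa [sd] using h1

theorem Rl.dg_one {ι : Type} [Fintype ι] {x : ι → QS S} {A : S.L} (hx : Rl x A) (i : ι) :
    h (dg (x i) 1) A = 1 := by
  have h1 := hx.sub (s := {i}) (t := ∅) (by simp)
  simpa [sd] using h1

theorem Rl.isUnit_sub {ι : Type} [Fintype ι] {x : ι → QS S} {A : S.L} (hx : Rl x A) {i j : ι} (hij : i ≠ j) :
    IsUnit (x i - x j) := by
  apply QS.isUnit_sub
  apply le_antisymm (h_dg_le_one _ _)
  refine (hx.dg_dg hij).ge.trans ?_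
  exact h_anti (le_sup_left : dg (x j) 1 ≤ dg (x j) 1 ⊔ A)

theorem isUnit_prod {A ι : Type*} [CommRing A] (s : Finset ι) (f : ι → A) (h : ∀ i ∈ s, IsUnit (f i)) :
    IsUnit (∏ i ∈ s, f i) := by
  classical
  induction s using Finset.induction_on with
  | empty => rw [Finset.prod_empty]; exact isUnit_one
  | insert a s ha ih =>
    rw [Finset.prod_insert ha]
    exact (h a (Finset.mem_insert_self a s)).mul (ih fun i hi => h i (Finset.mem_insert_of_mem hi))

theorem Rl.isUnit_vandermonde {n : ℕ} {x : Fin n → QS S} {A : S.L} (hx : Rl x A) :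
    IsUnit (Matrix.vandermonde x).det := by
  rw [Matrix.det_vandermonde]
  apply isUnit_prod
  intro i _
  apply isUnit_prod
  intro j hj
  exact hx.isUnit_sub (Finset.mem_Ioi.mp hj).ne'

/-- the inverse matrix is known if the matrix is known -/
theorem inv_mem {n : Type} [Fintype n] [DecidableEq n] (M : Matrix n n (QS S)) {r : ℝ} (hr : r ≤ 1) (A : S.L)
    (hM : ∀ i j, dg (M i j) r ≤ A) (hu : IsUnit M.det) (i j : n) : dg (M⁻¹ i j) r ≤ A := by
  rw [Matrix.inv_def]
  have h1 : dg (Ring.inverse M.det) r ≤ A := by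
    have h2 : Ring.inverse M.det * M.det = 1 := Ring.inverse_mul_cancel _ hu
    exact (dg_inv_le h2 hr).trans (det_mem (Kn S r hr A) M hM)
  exact (Kn S r hr A).mul_mem h1 (adj_mem (Kn S r hr A) M hM i j)

/-- polynomials -/
def pe {k : ℕ} (c : Fin (k + 1) → QS S) (x : QS S) : QS S := ∑ a, c a * x ^ (a : ℕ)

/-- copies of a space given finitely many functions -/
structure CQ (S : Sp) {ι : Type} [Fintype ι] (f : ι → QS S) (d : ℕ) where
  W : Sp
  p : Fin (d + 1) → Pj W S
  com : ∀ i j a, (p i).qs (f a) = (p j).qs (f a)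
  ind : ∀ A : Fin (d + 1) → S.L, h (Finset.univ.sup fun i => (p i).map (A i)) ((p 0).map (vd f 1)) =
    ∑ i, h (A i) (vd f 1)

theorem vd_equiv {ι κ : Type} [Fintype ι] [Fintype κ] (e : κ ≃ ι) (f : ι → QS S) (r : ℝ) : vd (f ∘ e) r = vd f r := by
  apply le_antisymm
  · rw [vd_le]
    intro i
    exact dg_le_vd f r (e i)
  · rw [vd_le]
    intro i
    have h1 := dg_le_vd (f ∘ e) r (e.symm i)
    simpa using h1

theorem exists_CQ {ι : Type} [Fintype ι] (f : ι → QS S) (d : ℕ) : Nonempty (CQ S f d) := by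
  classical
  set e : Fin (Fintype.card ι) ≃ ι := (Fintype.equivFin ι).symm with he
  set g : Fin (Fintype.card ι) → TR S := fun i => QS.rep (f (e i)) with hg
  have hgf : ∀ i, QS.mk (g i) = f (e i) := fun i => QS.mk_rep (f (e i))
  set V := (TR.vec g).cellv 1 with hV
  have hVb : Sp.Bdd V := (TR.vec g).bdd 1
  have hvd : Sp.io V = QS.vd f 1 := by
    show (TR.vec g).dg 1 = _
    rw [TR.vec_dg_eq, ← vd_equiv e]
    unfold QS.vd
    congr 1
    funext i
    show TR.dg (g i) 1 = dg (f (e i)) 1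
    rw [← hgf i, QS.dg_mk _ le_rfl]
  obtain ⟨C⟩ := Cps.exists V hVb d
  refine ⟨⟨C.W, C.p, fun i j a => ?_, fun A => ?_⟩⟩
  · obtain ⟨a', rfl⟩ := e.surjective a
    rw [← hgf a']
    show QS.mk ((C.p i).tr (g a')) = QS.mk ((C.p j).tr (g a'))
    rw [QS.mk_eq]
    refine ⟨fun _ _ => True, fun _ => 1, Sp.Typ_true, Sp.Sub_const _ zero_le_one,
      Eventually.of_forall fun k w hw _ => ?_⟩
    have h1 := C.agree k w hw i j
    have h3 : C.W.dl 1 k = S.dl 1 k := by
      unfold Sp.dl
      rw [(C.p 0).hn k]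
    rw [one_mul, h3]
    have h4 : |(TR.vec g).v k ((C.p i).π k w) a' - (TR.vec g).v k ((C.p j).π k w) a'| ≤ S.dl 1 k :=
      (TR.vec g).cellv_close 1 k _ _ h1 a'
    exact h4
  · rw [← hvd]
    exact C.indep A

namespace CQ

variable {ι : Type} [Fintype ι] {f : ι → QS S} {d : ℕ} (C : CQ S f d)

/-- the common information -/
def v : C.W.L := (C.p 0).map (vd f 1)

theorem p_vd (i : Fin (d + 1)) (r : ℝ) : (C.p i).map (vd f r) = (C.p 0).map (vd f r) := by
  rw [← (C.p i).qs_vd, ← (C.p 0).qs_vd]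
  congr 1
  funext a
  exact C.com i 0 a

theorem p_v (i : Fin (d + 1)) : (C.p i).map (vd f 1) = C.v := C.p_vd i 1

theorem h_map_v (i : Fin (d + 1)) (x : S.L) : h ((C.p i).map x) C.v = h x (vd f 1) := by
  rw [← C.p_v i, Pj.h_map]

/-- families of copies -/
theorem h_sup (s : Finset (Fin (d + 1))) (A : Fin (d + 1) → S.L) :
    h (s.sup fun i => (C.p i).map (A i)) C.v = ∑ i ∈ s, h (A i) (vd f 1) := by
  classical
  have h1 := C.ind fun i => if i ∈ s then A i else ⊥
  have h2 : (Finset.univ.sup fun i => (C.p i).map (if i ∈ s then A i else ⊥)) = s.sup fun i => (C.p i).map (A i) := by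
    apply le_antisymm
    · apply Finset.sup_le
      intro i _
      by_cases hi : i ∈ s
      · rw [if_pos hi]
        exact Finset.le_sup (f := fun i => (C.p i).map (A i)) hi
      · rw [if_neg hi, Pj.map_bot]
        exact bot_le
    · apply Finset.sup_le
      intro i hi
      have h3 := Finset.le_sup (f := fun i => (C.p i).map (if i ∈ s then A i else ⊥)) (Finset.mem_univ i)
      simp only [if_pos hi] at h3
      exact h3
  rw [h2] at h1
  have h3 : ∑ i, h (if i ∈ s then A i else ⊥) (vd f 1) = ∑ i ∈ s, h (A i) (vd f 1) := by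
    rw [← Finset.sum_subset (Finset.subset_univ s)]
    · apply Finset.sum_congr rfl
      intro i hi
      rw [if_pos hi]
    · intro i _ hi
      rw [if_neg hi]
      exact h_zero bot_le
  rw [h3] at h1
  exact h1

theorem I_sup {s t : Finset (Fin (d + 1))} (hst : Disjoint s t) (A : Fin (d + 1) → S.L) :
    I (s.sup fun i => (C.p i).map (A i)) (t.sup fun i => (C.p i).map (A i)) C.v = 0 := by
  classical
  have h1 := C.h_sup (s ∪ t) A
  rw [Finset.sup_union, h_chain, Finset.sum_union hst, ← C.h_sup s A, ← C.h_sup t A] at h1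
  rw [I_eq']
  linarith

/-- two different copies are conditionally independent -/
theorem I_two {i j : Fin (d + 1)} (hij : i ≠ j) (x y : S.L) : I ((C.p i).map x) ((C.p j).map y) C.v = 0 := by
  classical
  have h1 := C.I_sup (s := {i}) (t := {j}) (by simpa using hij) (fun l => if l = i then x else y)
  rw [Finset.sup_singleton, Finset.sup_singleton] at h1
  simp only [if_true, if_neg hij.symm] at h1
  exact h1

/-- copies of real families over the common information -/
theorem rl {κ : Type} [Fintype κ] (x : κ → QS S) (hx : Rl x (vd f 1)) :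
    Rl (fun a : Fin (d + 1) × κ => (C.p a.1).qs (x a.2)) C.v := by
  unfold Rl
  have h1 : vd (fun a : Fin (d + 1) × κ => (C.p a.1).qs (x a.2)) 1 =
      Finset.univ.sup fun i => (C.p i).map (vd x 1) := by
    apply le_antisymm
    · rw [vd_le]
      intro a
      refine le_trans ?_ (Finset.le_sup (f := fun i => (C.p i).map (vd x 1)) (Finset.mem_univ a.1))
      rw [← (C.p a.1).qs_vd]
      exact dg_le_vd (fun i => (C.p a.1).qs (x i)) 1 a.2
    · apply Finset.sup_le
      intro i _
      rw [← (C.p i).qs_vd, vd_le]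
      intro b
      exact dg_le_vd (fun a : Fin (d + 1) × κ => (C.p a.1).qs (x a.2)) 1 (i, b)
  rw [h1, C.h_sup, Finset.sum_congr rfl fun i _ => hx]
  simp

/-- the same for one variable -/
theorem rl_one (x : QS S) (hx : h (dg x 1) (vd f 1) = 1) : Rl (fun i : Fin (d + 1) => (C.p i).qs x) C.v := by
  unfold Rl
  have h1 : vd (fun i : Fin (d + 1) => (C.p i).qs x) 1 = Finset.univ.sup fun i => (C.p i).map (dg x 1) := by
    unfold vd
    congr 1
    funext i
    exact (C.p i).qs_dg x 1
  rw [h1, C.h_sup, Finset.sum_congr rfl fun i _ => hx]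
  simp

end CQ

theorem pe_map {T : Sp} (p : Pj T S) {k : ℕ} (c : Fin (k + 1) → QS S) (x : QS S) :
    p.qs (pe c x) = pe (fun a => p.qs (c a)) (p.qs x) := by
  unfold pe
  rw [map_sum]
  apply Finset.sum_congr rfl
  intro a _
  rw [map_mul, map_pow]

theorem pe_eq_mulVec {k : ℕ} (c : Fin (k + 1) → QS S) (x : Fin (k + 1) → QS S) (i : Fin (k + 1)) :
    pe c (x i) = (Matrix.vandermonde x).mulVec c i := by
  unfold pe Matrix.mulVec dotProduct
  apply Finset.sum_congr rfl
  intro a _
  show c a * x i ^ (a : ℕ) = Matrix.vandermonde x i a * c a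
  rw [Matrix.vandermonde_apply, mul_comm]

/-- solving linear equations modulo an ideal -/
theorem mulVec_mem_ideal {n : Type} [Fintype n] [DecidableEq n] {A : Type*} [CommRing A] (J : Ideal A)
    (M : Matrix n n A) (c : n → A) (hu : IsUnit M.det) (h : ∀ i, M.mulVec c i ∈ J) (i : n) : c i ∈ J := by
  have h1 : c = (M⁻¹).mulVec (M.mulVec c) := by
    rw [Matrix.mulVec_mulVec, Matrix.nonsing_inv_mul _ hu, Matrix.one_mulVec]
  rw [h1]
  unfold Matrix.mulVec dotProduct
  exact J.sum_mem fun j _ => J.mul_mem_left _ (h j)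

/-- REAL: the coefficients of a small polynomial in a real variable are small -/
theorem real_zero {k : ℕ} (c : Fin (k + 1) → QS S) (x : QS S) (hx : h (dg x 1) (vd c 1) = 1) {r : ℝ} (hr : r ≤ 1)
    (hz : pe c x ∈ Id S r) (a : Fin (k + 1)) : c a ∈ Id S r := by
  obtain ⟨C⟩ := exists_CQ c k
  have h1 : Rl (fun i : Fin (k + 1) => (C.p i).qs x) C.v := C.rl_one x hx
  have h2 := h1.isUnit_vandermonde
  rw [← (C.p 0).qs_mem_Id hr]
  apply mulVec_mem_ideal (Id C.W r) _ (fun a => (C.p 0).qs (c a)) h2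
  intro i
  rw [← pe_eq_mulVec (fun a => (C.p 0).qs (c a)) (fun i : Fin (k + 1) => (C.p i).qs x) i]
  have h3 := ((C.p i).qs_mem_Id hr).mpr hz
  rw [pe_map] at h3
  have h4 : (fun a => (C.p i).qs (c a)) = fun a => (C.p 0).qs (c a) := by
    funext a
    exact C.com i 0 a
  rw [h4] at h3
  exact h3

theorem real_eq_zero {k : ℕ} (c : Fin (k + 1) → QS S) (x : QS S) (hx : h (dg x 1) (vd c 1) = 1)
    (hz : pe c x = 0) (a : Fin (k + 1)) : c a = 0 := by
  rw [← mem_Id_one]
  exact real_zero c x hx le_rfl (mem_Id_one.mpr hz) a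

/-- uniqueness of the coefficients -/
theorem real_unique {k : ℕ} (c c' : Fin (k + 1) → QS S) (x : QS S) (A : S.L) (hc : vd c 1 ≤ A) (hc' : vd c' 1 ≤ A)
    (hx : h (dg x 1) A = 1) (hz : pe c x = pe c' x) : c = c' := by
  funext a
  rw [← sub_eq_zero]
  apply real_eq_zero (fun a => c a - c' a) x
  · apply le_antisymm (h_dg_le_one _ _)
    refine hx.ge.trans ?_
    apply h_anti
    rw [vd_le]
    intro i
    exact (dg_sub_le _ _ le_rfl).trans (sup_le ((dg_le_vd c 1 i).trans hc) ((dg_le_vd c' 1 i).trans hc'))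
  · unfold pe at hz ⊢
    simp only [sub_mul]
    rw [Finset.sum_sub_distrib, hz, sub_self]

end QS

end

end Pool.Agent.Helper31.EC
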