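import Pool.Agent.Helper31.EC.Lag

/-! Exact entropy calculus: classes of systems closed under diagonals, rigid (robust) maximizers. -/

namespace Pool.Agent.Helper31.EC

open Finset Filter Topology Pool.Agent.Helper69.RK

noncomputable section

open Sp

/-- diagonal limits of systems, with conditions which depend on the index of the system -/
theorem Sys.diagE {m : ℕ} (S : ℕ → Sp) (s : ∀ j, Sys (S j) m) (φ : ℕ → FSy m → ℝ)
    (hφ : ∀ i j, UB (fun k => φ i ((s j).fin k))) (E : ℕ → ℕ → ℕ → Prop)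
    (hE : ∀ i j, ∀ᶠ k in UF, E i j k) :
    ∃ (T : Sp) (u : Sys T m) (J : ℕ → ℕ), Tendsto J UF atTop ∧
      (∀ i, Tendsto (fun k => φ i (u.fin k) - ul (fun k' => φ i ((s (J k)).fin k'))) UF (𝓝 0)) ∧
      (∀ i, ∀ᶠ k in UF, E i (J k) k) ∧ ∀ k, u.fin k = (s (J k)).fin k := by
  choose Ka hKa hKa' using fun j => (s j).a.bd
  choose Kx hKx hKx' using fun j => (s j).x.bd
  choose Kt hKt hKt' using fun j => (s j).t.bd
  have hsub : ∀ (j : ℕ) (K : ℕ → ℝ), (S j).Sub K → ∀ᶠ k in UF, 0 ≤ K k ∧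
      Real.logb 2 (K k + 2) / ((S j).F k).n ≤ 1 / ((j : ℝ) + 1) := by
    intro j K hK
    have h5 : (0 : ℝ) < 1 / ((j : ℝ) + 1) := by positivity
    filter_upwards [hK.1, hK.2.eventually (gt_mem_nhds h5)] with k a b using ⟨a, b.le⟩
  set G : ℕ → ℕ → ℕ → Prop := fun i j k => E i j k ∧ (j : ℝ) ≤ ((S j).F k).n ∧
    ((0 ≤ Ka j k ∧ Real.logb 2 (Ka j k + 2) / ((S j).F k).n ≤ 1 / ((j : ℝ) + 1)) ∧
      ∀ ω, ((S j).F k).μ ω ≠ 0 → ∀ i, |(s j).a.v k ω i| ≤ Ka j k) ∧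
    ((0 ≤ Kx j k ∧ Real.logb 2 (Kx j k + 2) / ((S j).F k).n ≤ 1 / ((j : ℝ) + 1)) ∧
      ∀ ω, ((S j).F k).μ ω ≠ 0 → ∀ i, |(s j).x.v k ω i| ≤ Kx j k) ∧
    ((0 ≤ Kt j k ∧ Real.logb 2 (Kt j k + 2) / ((S j).F k).n ≤ 1 / ((j : ℝ) + 1)) ∧
      ∀ ω, ((S j).F k).μ ω ≠ 0 → ∀ i, |(s j).t.v k ω i| ≤ Kt j k) with hG
  have hGe : ∀ i j, ∀ᶠ k in UF, G i j k := by
    intro i j
    filter_upwards [hE i j, (S j).lim.eventually (eventually_ge_atTop (j : ℝ)), hsub j _ (hKa j), hKa' j,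
      hsub j _ (hKx j), hKx' j, hsub j _ (hKt j), hKt' j] with k a b c d e f g l
    exact ⟨a, b, ⟨c, d⟩, ⟨e, f⟩, ⟨g, l⟩⟩
  set ψ : ℕ → ℕ → ℕ → ℝ := fun i j k => Nat.casesOn i
    (((s j).fin k).q (((s j).fin k).kt 1) (((s j).fin k).ka 1 ⊓ ((s j).fin k).kx 1)) (fun i => φ i ((s j).fin k)) with hψ
  have hψb : ∀ i j, UB (ψ i j) := by
    intro i j
    cases i with
    | zero => exact UB_rt ((s j).It 1) (Inf.sup ((s j).Ia 1) ((s j).Ix 1)).1
    | succ i => exact hφ i j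
  obtain ⟨J, hJ, hJ1, hJ2⟩ := diag_in_place ψ G hψb hGe
  have hn : Tendsto (fun k => ((S (J k)).F k).n) UF atTop := by
    rw [tendsto_atTop]
    intro M
    filter_upwards [hJ2 0, hJ.eventually (eventually_ge_atTop ⌈M⌉₊)] with k a b
    have h1 : M ≤ (J k : ℝ) := (Nat.le_ceil M).trans (by exact_mod_cast b)
    exact h1.trans a.2.1
  set T : Sp := dsp S J hn with hT
  have bA : ∀ᶠ k in UF, 0 ≤ Ka (J k) k ∧ Real.logb 2 (Ka (J k) k + 2) / ((S (J k)).F k).n ≤ 1 / ((J k : ℝ) + 1) ∧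
      ∀ ω, ((S (J k)).F k).μ ω ≠ 0 → ∀ i, |(s (J k)).a.v k ω i| ≤ Ka (J k) k := by
    filter_upwards [hJ2 0] with k a
    exact ⟨a.2.2.1.1.1, a.2.2.1.1.2, a.2.2.1.2⟩
  have bX : ∀ᶠ k in UF, 0 ≤ Kx (J k) k ∧ Real.logb 2 (Kx (J k) k + 2) / ((S (J k)).F k).n ≤ 1 / ((J k : ℝ) + 1) ∧
      ∀ ω, ((S (J k)).F k).μ ω ≠ 0 → ∀ i, |(s (J k)).x.v k ω i| ≤ Kx (J k) k := by
    filter_upwards [hJ2 0] with k a
    exact ⟨a.2.2.2.1.1.1, a.2.2.2.1.1.2, a.2.2.2.1.2⟩
  have bT : ∀ᶠ k in UF, 0 ≤ Kt (J k) k ∧ Real.logb 2 (Kt (J k) k + 2) / ((S (J k)).F k).n ≤ 1 / ((J k : ℝ) + 1) ∧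
      ∀ ω, ((S (J k)).F k).μ ω ≠ 0 → ∀ i, |(s (J k)).t.v k ω i| ≤ Kt (J k) k := by
    filter_upwards [hJ2 0] with k a
    exact ⟨a.2.2.2.2.1.1, a.2.2.2.2.1.2, a.2.2.2.2.2⟩
  set A : T.VV m := dvv S J hn (fun j => (s j).a) Ka hJ bA with hA
  set X : T.VV m := dvv S J hn (fun j => (s j).x) Kx hJ bX with hX
  set Tt : T.VV 1 := dvv S J hn (fun j => (s j).t) Kt hJ bT with hTt
  have hht : h (Tt.dg 1) (A.dg 1 ⊔ X.dg 1) = 1 := by
    have e1 : h (Tt.dg 1) (A.dg 1 ⊔ X.dg 1) = ul (fun k => ψ 0 (J k) k) := by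
      have e2 : Tt.dg 1 = cl (Tt.bdd 1).toInf := io_eq _
      have e3 : A.dg 1 = cl (A.bdd 1).toInf := io_eq _
      have e4 : X.dg 1 = cl (X.bdd 1).toInf := io_eq _
      rw [e2, e3, e4, ← cl_sup, h_cl]
      rfl
    rw [e1]
    have e5 : ∀ j, ul (ψ 0 j) = 1 := by
      intro j
      rw [← (s j).ht, (s j).ht_eq]
      rfl
    have e6 := hJ1 0
    simp only [e5] at e6
    have e7 := e6.add_const 1
    simp only [sub_add_cancel, zero_add] at e7
    exact ul_eq e7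
  set u : Sys T m := ⟨A, X, Tt, hht⟩ with hu
  have hfin : ∀ k, u.fin k = (s (J k)).fin k := fun k => rfl
  refine ⟨T, u, J, hJ, fun i => ?_, fun i => ?_, hfin⟩
  · exact hJ1 (i + 1)
  · filter_upwards [hJ2 i] with k a using a.1


/-- `u` is a diagonal of the systems `s j`, slow enough for the conditions `E` -/
structure IsDiag {m : ℕ} (S : ℕ → Sp) (s : ∀ j, Sys (S j) m) (E : ℕ → ℕ → ℕ → Prop) {T : Sp} (u : Sys T m)
    (J : ℕ → ℕ) : Prop where
  tend : Tendsto J UF atTop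
  fin : ∀ k, u.fin k = (s (J k)).fin k
  slow : ∀ i, ∀ᶠ k in UF, E i (J k) k

/-- diagonals exist -/
theorem exists_isDiag {m : ℕ} (S : ℕ → Sp) (s : ∀ j, Sys (S j) m) (E : ℕ → ℕ → ℕ → Prop)
    (hE : ∀ i j, ∀ᶠ k in UF, E i j k) : ∃ (T : Sp) (u : Sys T m) (J : ℕ → ℕ), IsDiag S s E u J := by
  obtain ⟨T, u, J, hJ, _, h2, h3⟩ := Sys.diagE S s (fun _ _ => 0) (fun _ _ => UB_const 0) E hE
  exact ⟨T, u, J, hJ, h3, h2⟩

/-- a class of systems closed under (slow) diagonals -/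
def DiagCl {m : ℕ} (C : ∀ S : Sp, Sys S m → Prop) : Prop :=
  ∀ (S : ℕ → Sp) (s : ∀ j, Sys (S j) m), (∀ j, C (S j) (s j)) →
    ∃ E : ℕ → ℕ → ℕ → Prop, (∀ i j, ∀ᶠ k in UF, E i j k) ∧
      ∀ (T : Sp) (u : Sys T m) (J : ℕ → ℕ), IsDiag S s E u J → C T u

/-- a functional which is upper semicontinuous along diagonals (inside a class) -/
def DiagUsc {m : ℕ} (C : ∀ S : Sp, Sys S m → Prop) (f : ∀ S : Sp, Sys S m → ℝ) : Prop :=
  ∀ (S : ℕ → Sp) (s : ∀ j, Sys (S j) m), (∀ j, C (S j) (s j)) →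
    ∃ E : ℕ → ℕ → ℕ → Prop, (∀ i j, ∀ᶠ k in UF, E i j k) ∧
      ∀ (T : Sp) (u : Sys T m) (J : ℕ → ℕ), IsDiag S s E u J → ul (fun k => f (S (J k)) (s (J k))) ≤ f T u

/-- intersections of two classes -/
theorem DiagCl.and {m : ℕ} {C C' : ∀ S : Sp, Sys S m → Prop} (h : DiagCl C) (h' : DiagCl C') :
    DiagCl (fun S s => C S s ∧ C' S s) := by
  intro S s hs
  obtain ⟨E, hE, h1⟩ := h S s fun j => (hs j).1
  obtain ⟨E', hE', h1'⟩ := h' S s fun j => (hs j).2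
  refine ⟨fun i j k => E i j k ∧ E' i j k, fun i j => (hE i j).and (hE' i j), fun T u J hd => ⟨?_, ?_⟩⟩
  · exact h1 T u J ⟨hd.tend, hd.fin, fun i => (hd.slow i).mono fun k hk => hk.1⟩
  · exact h1' T u J ⟨hd.tend, hd.fin, fun i => (hd.slow i).mono fun k hk => hk.2⟩

/-- countable intersections of classes -/
theorem DiagCl.all {m : ℕ} {C : ℕ → ∀ S : Sp, Sys S m → Prop} (h : ∀ q, DiagCl (C q)) :
    DiagCl (fun S s => ∀ q, C q S s) := by
  intro S s hs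
  choose E hE h1 using fun q => h q S s fun j => hs j q
  refine ⟨fun i j k => E (Nat.unpair i).1 (Nat.unpair i).2 j k, fun i j => hE _ _ j, fun T u J hd q => ?_⟩
  refine h1 q T u J ⟨hd.tend, hd.fin, fun i => ?_⟩
  have h2 := hd.slow (Nat.pair q i)
  simp only [Nat.unpair_pair] at h2
  exact h2

/-- a functional of the finite systems takes the limit of its values at a (slow) diagonal -/
theorem diag_val {m : ℕ} (φ : FSy m → ℝ) (hφ : ∀ (S : Sp) (s : Sys S m), UB (fun k => φ (s.fin k)))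
    (S : ℕ → Sp) (s : ∀ j, Sys (S j) m) : ∃ E : ℕ → ℕ → ℕ → Prop, (∀ i j, ∀ᶠ k in UF, E i j k) ∧
      ∀ (T : Sp) (u : Sys T m) (J : ℕ → ℕ), IsDiag S s E u J →
        ul (fun k => φ (u.fin k)) = ul (fun k => ul (fun k' => φ ((s (J k)).fin k'))) := by
  refine ⟨fun _ j k => |φ ((s j).fin k) - ul (fun k' => φ ((s j).fin k'))| ≤ 1 / ((j : ℝ) + 1), fun _ j => ?_, ?_⟩
  · have h1 := ul_tendsto (hφ (S j) (s j))
    have h2 : (0 : ℝ) < 1 / ((j : ℝ) + 1) := by positivity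
    have h3 := h1.sub_const (ul (fun k' => φ ((s j).fin k')))
    rw [sub_self] at h3
    have h4 := (abs_zero (α := ℝ)) ▸ h3.abs
    filter_upwards [h4.eventually (gt_mem_nhds h2)] with k hk using hk.le
  · intro T u J hd
    have h1 : Tendsto (fun k => φ (u.fin k) - ul (fun k' => φ ((s (J k)).fin k'))) UF (𝓝 0) := by
      have h0 : Tendsto (fun k => 1 / ((J k : ℝ) + 1)) UF (𝓝 0) :=
        tendsto_one_div_add_atTop_nhds_zero_nat.comp hd.tend
      apply squeeze_zero_norm' _ h0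
      filter_upwards [hd.slow 0] with k hk
      rw [Real.norm_eq_abs, hd.fin k]
      exact hk
    have h2 : UB (fun k => φ (u.fin k)) := hφ T u
    have h3 := (ul_tendsto h2).sub h1
    rw [sub_zero] at h3
    have h4 := ul_eq h3
    rw [← h4]
    apply ul_congr
    refine Eventually.of_forall fun k => ?_
    ring

/-- classes given by the value of a functional of the finite systems -/
theorem DiagCl.of_val {m : ℕ} (φ : FSy m → ℝ) (hφ : ∀ (S : Sp) (s : Sys S m), UB (fun k => φ (s.fin k))) (c : ℝ) :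
    DiagCl (fun (S : Sp) (s : Sys S m) => ul (fun k => φ (s.fin k)) = c) := by
  intro S s hs
  obtain ⟨E, hE, h1⟩ := diag_val φ hφ S s
  refine ⟨E, hE, fun T u J hd => ?_⟩
  have h2 := h1 T u J hd
  have h3 : (fun k => ul (fun k' => φ ((s (J k)).fin k'))) = fun _ => c := by
    funext k
    exact hs (J k)
  rw [h3, ul_const] at h2
  exact h2

/-- lower bounds of functionals which are usc give classes closed under diagonals -/
theorem DiagUsc.cl {m : ℕ} {C : ∀ S : Sp, Sys S m → Prop} {f : ∀ S : Sp, Sys S m → ℝ} (hC : DiagCl C)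
    (hf : DiagUsc C f) (c M : ℝ) (hM : ∀ (S : Sp) (s : Sys S m), C S s → f S s ≤ M) :
    DiagCl (fun S s => C S s ∧ c ≤ f S s) := by
  intro S s hs
  obtain ⟨E, hE, h1⟩ := hC S s fun j => (hs j).1
  obtain ⟨E', hE', h1'⟩ := hf S s fun j => (hs j).1
  refine ⟨fun i j k => E i j k ∧ E' i j k, fun i j => (hE i j).and (hE' i j), fun T u J hd => ⟨?_, ?_⟩⟩
  · exact h1 T u J ⟨hd.tend, hd.fin, fun i => (hd.slow i).mono fun k hk => hk.1⟩
  · refine le_trans ?_ (h1' T u J ⟨hd.tend, hd.fin, fun i => (hd.slow i).mono fun k hk => hk.2⟩)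
    apply const_le_ul
    · refine ⟨|c| + |M|, Eventually.of_forall fun k => ?_⟩
      have a := (hs (J k)).2
      have b := hM _ _ (hs (J k)).1
      rw [abs_le]
      constructor
      · have := neg_abs_le c
        have := abs_nonneg M
        linarith
      · have := le_abs_self M
        have := abs_nonneg c
        linarith
    · exact Eventually.of_forall fun k => (hs (J k)).2

/-- usc in a larger class -/
theorem DiagUsc.mono {m : ℕ} {C C' : ∀ S : Sp, Sys S m → Prop} {f : ∀ S : Sp, Sys S m → ℝ} (hf : DiagUsc C f)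
    (h : ∀ S s, C' S s → C S s) : DiagUsc C' f := fun S s hs => hf S s fun j => h _ _ (hs j)

/-- weighted sum of squares -/
def wsq (a : ℕ → ℝ) : ℝ := ∑' q, (1 / 2 : ℝ) ^ q * a q ^ 2

theorem wsq_summable {a : ℕ → ℝ} {M : ℝ} (h0 : ∀ q, 0 ≤ a q) (h1 : ∀ q, a q ≤ M) :
    Summable (fun q => (1 / 2 : ℝ) ^ q * a q ^ 2) := by
  have hs : Summable (fun q : ℕ => (1 / 2 : ℝ) ^ q * M ^ 2) :=
    (summable_geometric_of_lt_one (by norm_num) (by norm_num)).mul_right _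
  refine Summable.of_nonneg_of_le (fun q => by positivity) (fun q => ?_) hs
  apply mul_le_mul_of_nonneg_left _ (by positivity)
  exact pow_le_pow_left₀ (h0 q) (h1 q) 2

theorem wsq_le {a : ℕ → ℝ} {M : ℝ} (h0 : ∀ q, 0 ≤ a q) (h1 : ∀ q, a q ≤ M) : wsq a ≤ 2 * M ^ 2 := by
  have hs : Summable (fun q : ℕ => (1 / 2 : ℝ) ^ q) := summable_geometric_of_lt_one (by norm_num) (by norm_num)
  have h2 : ∑' q : ℕ, (1 / 2 : ℝ) ^ q = 2 := by
    rw [tsum_geometric_of_lt_one (by norm_num) (by norm_num)]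
    norm_num
  have h3 : wsq a ≤ ∑' q : ℕ, (1 / 2 : ℝ) ^ q * M ^ 2 := by
    apply Summable.tsum_le_tsum _ (wsq_summable h0 h1) (hs.mul_right _)
    intro q
    apply mul_le_mul_of_nonneg_left _ (by positivity)
    exact pow_le_pow_left₀ (h0 q) (h1 q) 2
  rw [tsum_mul_right, h2] at h3
  exact h3

theorem wsq_mono {a b : ℕ → ℝ} {M : ℝ} (h0 : ∀ q, 0 ≤ a q) (h1 : ∀ q, b q ≤ M) (h : ∀ q, a q ≤ b q) :
    wsq a ≤ wsq b := by
  apply Summable.tsum_le_tsum _ (wsq_summable h0 fun q => (h q).trans (h1 q))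
    (wsq_summable (fun q => (h0 q).trans (h q)) h1)
  intro q
  apply mul_le_mul_of_nonneg_left _ (by positivity)
  exact pow_le_pow_left₀ (h0 q) (h q) 2

/-- finite sums approximate `wsq` uniformly -/
theorem wsq_tail {a : ℕ → ℝ} {M : ℝ} (h0 : ∀ q, 0 ≤ a q) (h1 : ∀ q, a q ≤ M) (N : ℕ) :
    |wsq a - ∑ q ∈ range N, (1 / 2 : ℝ) ^ q * a q ^ 2| ≤ (1 / 2 : ℝ) ^ N * (2 * M ^ 2) := by
  have hs := wsq_summable h0 h1
  have h2 : wsq a = ∑ q ∈ range N, (1 / 2 : ℝ) ^ q * a q ^ 2 + ∑' q, (1 / 2 : ℝ) ^ (q + N) * a (q + N) ^ 2 :=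
    (hs.sum_add_tsum_nat_add N).symm
  have h3 : ∑' q, (1 / 2 : ℝ) ^ (q + N) * a (q + N) ^ 2 = (1 / 2 : ℝ) ^ N * wsq (fun q => a (q + N)) := by
    unfold wsq
    rw [← tsum_mul_left]
    apply tsum_congr
    intro q
    rw [pow_add]; ring
  have h4 := wsq_le (a := fun q => a (q + N)) (M := M) (fun q => h0 _) (fun q => h1 _)
  have h5 : 0 ≤ wsq (fun q => a (q + N)) := tsum_nonneg fun q => by positivity
  rw [h2, h3, add_sub_cancel_left, abs_of_nonneg (by positivity)]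
  exact mul_le_mul_of_nonneg_left h4 (by positivity)

/-- `wsq` is continuous along the ultrafilter -/
theorem wsq_ul {a : ℕ → ℕ → ℝ} {M : ℝ} (h0 : ∀ k q, 0 ≤ a k q) (h1 : ∀ k q, a k q ≤ M) :
    Tendsto (fun k => wsq (a k)) UF (𝓝 (wsq fun q => ul fun k => a k q)) := by
  have hb : ∀ q, UB (fun k => a k q) := fun q =>
    UB_of_nonneg_le (Eventually.of_forall fun k => h0 k q) (Eventually.of_forall fun k => h1 k q)
  have g0 : ∀ q, 0 ≤ ul fun k => a k q := fun q => const_le_ul (hb q) (Eventually.of_forall fun k => h0 k q)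
  have g1 : ∀ q, (ul fun k => a k q) ≤ M := fun q => ul_le_const (hb q) (Eventually.of_forall fun k => h1 k q)
  rw [Metric.tendsto_nhds]
  intro ε hε
  have hN : ∃ N : ℕ, (1 / 2 : ℝ) ^ N * (2 * M ^ 2) < ε / 4 := by
    have h2 : Tendsto (fun N : ℕ => (1 / 2 : ℝ) ^ N * (2 * M ^ 2)) atTop (𝓝 0) := by
      have := (tendsto_pow_atTop_nhds_zero_of_lt_one (r := (1 / 2 : ℝ)) (by norm_num) (by norm_num)).mul_const
        (2 * M ^ 2)
      simpa using this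
    exact (h2.eventually (gt_mem_nhds (by positivity : (0 : ℝ) < ε / 4))).exists
  obtain ⟨N, hN⟩ := hN
  have h3 : Tendsto (fun k => ∑ q ∈ range N, (1 / 2 : ℝ) ^ q * a k q ^ 2) UF
      (𝓝 (∑ q ∈ range N, (1 / 2 : ℝ) ^ q * (ul fun k => a k q) ^ 2)) := by
    apply tendsto_finsetSum
    intro q _
    exact ((ul_tendsto (hb q)).pow 2).const_mul _
  rw [Metric.tendsto_nhds] at h3
  filter_upwards [h3 (ε / 4) (by positivity)] with k hk
  rw [Real.dist_eq] at hk ⊢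
  have h4 := wsq_tail (h0 k) (h1 k) N
  have h5 := wsq_tail g0 g1 N
  rw [abs_le] at h4 h5
  rw [abs_lt] at hk ⊢
  constructor <;> linarith [h4.1, h4.2, h5.1, h5.2, hk.1, hk.2]

/-- strict convexity -/
theorem wsq_conv {a b c : ℕ → ℝ} {M p : ℝ} (ha0 : ∀ q, 0 ≤ a q) (hb0 : ∀ q, 0 ≤ b q) (hc0 : ∀ q, 0 ≤ c q)
    (hb1 : ∀ q, b q ≤ M) (hc1 : ∀ q, c q ≤ M) (hp0 : 0 < p) (hp1 : p ≤ 1)
    (h : ∀ q, a q ≤ p * b q + (1 - p) * c q) (hb : wsq b ≤ wsq a) (hc : wsq c ≤ wsq a) (q : ℕ) : b q = a q := by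
  have ha1 : ∀ q, a q ≤ M := by
    intro q
    have h1 := h q
    have h2 := mul_le_mul_of_nonneg_left (hb1 q) hp0.le
    have h3 := mul_le_mul_of_nonneg_left (hc1 q) (sub_nonneg.mpr hp1)
    linarith
  have sa := wsq_summable ha0 ha1
  have sb := wsq_summable hb0 hb1
  have sc := wsq_summable hc0 hc1
  have hp2 : 0 ≤ 1 - p := sub_nonneg.mpr hp1
  have key : ∀ q, p * (1 - p) * (b q - c q) ^ 2 + ((p * b q + (1 - p) * c q) ^ 2 - a q ^ 2) =
      p * b q ^ 2 + (1 - p) * c q ^ 2 - a q ^ 2 := by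
    intro q; ring
  have n1 : ∀ q, 0 ≤ p * (1 - p) * (b q - c q) ^ 2 := fun q => by positivity
  have n2 : ∀ q, 0 ≤ (p * b q + (1 - p) * c q) ^ 2 - a q ^ 2 := by
    intro q
    have := pow_le_pow_left₀ (ha0 q) (h q) 2
    linarith
  have sg : Summable (fun q => (1 / 2 : ℝ) ^ q * (p * b q ^ 2 + (1 - p) * c q ^ 2 - a q ^ 2)) := by
    have h1 := ((sb.mul_left p).add (sc.mul_left (1 - p))).sub sa
    refine h1.congr fun q => ?_
    ring
  have tg : ∑' q, (1 / 2 : ℝ) ^ q * (p * b q ^ 2 + (1 - p) * c q ^ 2 - a q ^ 2) = p * wsq b + (1 - p) * wsq c - wsq a := by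
    unfold wsq
    rw [← tsum_mul_left, ← tsum_mul_left, ← (sb.mul_left p).tsum_add (sc.mul_left (1 - p)),
      ← ((sb.mul_left p).add (sc.mul_left (1 - p))).tsum_sub sa]
    apply tsum_congr
    intro q
    ring
  have t0 : p * wsq b + (1 - p) * wsq c - wsq a ≤ 0 := by
    have h2 := mul_le_mul_of_nonneg_left hb hp0.le
    have h3 := mul_le_mul_of_nonneg_left hc hp2
    linarith
  have g0 : ∀ q, 0 ≤ (1 / 2 : ℝ) ^ q * (p * b q ^ 2 + (1 - p) * c q ^ 2 - a q ^ 2) := by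
    intro q
    rw [← key q]
    exact mul_nonneg (by positivity) (add_nonneg (n1 q) (n2 q))
  have g1 : (1 / 2 : ℝ) ^ q * (p * b q ^ 2 + (1 - p) * c q ^ 2 - a q ^ 2) ≤ 0 := by
    have h2 := sg.le_tsum q (fun j _ => g0 j)
    rw [tg] at h2
    linarith
  have g2 : p * b q ^ 2 + (1 - p) * c q ^ 2 - a q ^ 2 ≤ 0 := by
    by_contra hc
    rw [not_le] at hc
    have : 0 < (1 / 2 : ℝ) ^ q * (p * b q ^ 2 + (1 - p) * c q ^ 2 - a q ^ 2) := mul_pos (by positivity) hc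
    linarith
  rw [← key q] at g2
  have z1 : p * (1 - p) * (b q - c q) ^ 2 = 0 := by linarith [n1 q, n2 q]
  have z2 : (p * b q + (1 - p) * c q) ^ 2 = a q ^ 2 := by linarith [n1 q, n2 q]
  have e0 : 0 ≤ p * b q + (1 - p) * c q := (ha0 q).trans (h q)
  have z3 : p * b q + (1 - p) * c q = a q := by
    rwa [pow_left_inj₀ e0 (ha0 q) (by norm_num)] at z2
  rcases mul_eq_zero.mp z1 with h1 | h1
  · rcases mul_eq_zero.mp h1 with h2 | h2
    · exact absurd h2 hp0.ne'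
    · have h3 : p = 1 := by linarith
      rw [h3] at z3
      linarith
  · have h2 : b q = c q := by
      have := pow_eq_zero_iff (two_ne_zero) |>.mp h1
      linarith
    rw [← h2] at z3
    linarith

/-- EXISTENCE OF RIGID (ROBUST) SYSTEMS. In a class closed under diagonals there is a system at which a countable
list of bounded functionals `f q`, usc along diagonals, is rigid: if all `f q` are at most the average of their values
at two systems of the class then they are equal to their values at the first one. -/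
theorem exists_rigid {m : ℕ} (C : ∀ S : Sp, Sys S m → Prop) (hC : DiagCl C) (hne : ∃ (S : Sp) (s : Sys S m), C S s)
    (f : ℕ → ∀ S : Sp, Sys S m → ℝ) (hf : ∀ q, DiagUsc C (f q)) (M : ℝ)
    (h0 : ∀ q S s, C S s → 0 ≤ f q S s) (h1 : ∀ q S s, C S s → f q S s ≤ M) :
    ∃ (S : Sp) (s : Sys S m), C S s ∧ ∀ (S₁ : Sp) (s₁ : Sys S₁ m) (S₂ : Sp) (s₂ : Sys S₂ m) (p : ℝ), C S₁ s₁ → C S₂ s₂ →
      0 < p → p ≤ 1 → (∀ q, f q S s ≤ p * f q S₁ s₁ + (1 - p) * f q S₂ s₂) → ∀ q, f q S₁ s₁ = f q S s := by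
  classical
  set V : Set ℝ := {r | ∃ (S : Sp) (s : Sys S m), C S s ∧ r = wsq (fun q => f q S s)} with hV
  have hVb : BddAbove V := by
    refine ⟨2 * M ^ 2, ?_⟩
    rintro r ⟨S, s, hs, rfl⟩
    exact wsq_le (fun q => h0 q S s hs) (fun q => h1 q S s hs)
  have hVn : V.Nonempty := by
    obtain ⟨S, s, hs⟩ := hne
    exact ⟨_, S, s, hs, rfl⟩
  have h2 : ∀ j : ℕ, ∃ r ∈ V, sSup V - 1 / ((j : ℝ) + 1) < r := by
    intro j
    apply exists_lt_of_lt_csSup hVn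
    have : (0 : ℝ) < 1 / ((j : ℝ) + 1) := by positivity
    linarith
  choose r hr hr' using h2
  choose S s hs hrs using hr
  obtain ⟨E₁, hE₁, c1⟩ := hC S s hs
  choose E₂ hE₂ c2 using fun q => hf q S s hs
  obtain ⟨T, u, J, hd⟩ := exists_isDiag S s
    (fun i j k => E₁ i j k ∧ E₂ (Nat.unpair i).1 (Nat.unpair i).2 j k) (fun i j => (hE₁ i j).and (hE₂ _ _ j))
  have hu : C T u := c1 T u J ⟨hd.tend, hd.fin, fun i => (hd.slow i).mono fun k hk => hk.1⟩
  have hfu : ∀ q, ul (fun k => f q (S (J k)) (s (J k))) ≤ f q T u := by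
    intro q
    refine c2 q T u J ⟨hd.tend, hd.fin, fun i => ?_⟩
    have h3 := hd.slow (Nat.pair q i)
    simp only [Nat.unpair_pair] at h3
    exact h3.mono fun k hk => hk.2
  have b0 : ∀ k q, 0 ≤ f q (S (J k)) (s (J k)) := fun k q => h0 q _ _ (hs _)
  have b1 : ∀ k q, f q (S (J k)) (s (J k)) ≤ M := fun k q => h1 q _ _ (hs _)
  have h4 := wsq_ul (a := fun k q => f q (S (J k)) (s (J k))) b0 b1
  have h5 : Tendsto (fun j : ℕ => wsq (fun q => f q (S j) (s j))) atTop (𝓝 (sSup V)) := by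
    have h6 : Tendsto (fun j : ℕ => sSup V - 1 / ((j : ℝ) + 1)) atTop (𝓝 (sSup V)) := by
      have := (tendsto_one_div_add_atTop_nhds_zero_nat (𝕜 := ℝ)).const_sub (sSup V)
      simpa using this
    refine tendsto_of_tendsto_of_tendsto_of_le_of_le h6 tendsto_const_nhds (fun j => ?_) (fun j => ?_)
    · have h7 := (hr' j).le
      rw [hrs j] at h7
      exact h7
    · exact le_csSup hVb ⟨S j, s j, hs j, rfl⟩
  have h6 : wsq (fun q => ul fun k => f q (S (J k)) (s (J k))) = sSup V :=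
    tendsto_nhds_unique h4 (h5.comp hd.tend)
  have hbq : ∀ q, UB (fun k => f q (S (J k)) (s (J k))) := fun q =>
    UB_of_nonneg_le (Eventually.of_forall fun k => b0 k q) (Eventually.of_forall fun k => b1 k q)
  have h7 : sSup V ≤ wsq (fun q => f q T u) := by
    rw [← h6]
    exact wsq_mono (M := M) (fun q => const_le_ul (hbq q) (Eventually.of_forall fun k => b0 k q))
      (fun q => h1 q T u hu) hfu
  refine ⟨T, u, hu, fun S₁ s₁ S₂ s₂ p hs₁ hs₂ hp0 hp1 hle q => ?_⟩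
  exact wsq_conv (M := M) (fun q => h0 q T u hu) (fun q => h0 q _ _ hs₁) (fun q => h0 q _ _ hs₂)
    (fun q => h1 q _ _ hs₁) (fun q => h1 q _ _ hs₂) hp0 hp1 hle
    ((le_csSup hVb ⟨S₁, s₁, hs₁, rfl⟩).trans h7) ((le_csSup hVb ⟨S₂, s₂, hs₂, rfl⟩).trans h7) q

end

end Pool.Agent.Helper31.EC
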