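import Pool.Agent.Helper31.EC.SatG

/-! Exact entropy calculus: the saturation lemma for systems. -/

namespace Pool.Agent.Helper31.EC

open Finset Filter Topology Pool.Agent.Helper69.RK

noncomputable section

namespace Sp

variable {S : Sp}

/-- vector variables which agree up to `2 ^ (-r n)` have the same digits of level `r` -/
theorem VV.dg_le_of_close {m : ℕ} (w y : S.VV m) (r : ℝ) (K : ℕ → ℝ) (hK : S.Sub K)
    (hh : ∀ᶠ k in UF, ∀ ω, (S.F k).μ ω ≠ 0 → ∀ i, |w.v k ω i - y.v k ω i| ≤ K k * S.dl r k) :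
    w.dg r ≤ y.dg r := by
  apply VV.dg_le_dg w y r r (fun _ _ => True) Typ_true (fun k => K k + (K k + 1))
    (hK.add (hK.add (S.Sub_const zero_le_one)))
  filter_upwards [hh] with k hk ω ω' a b _ _ _ g i
  have h1 := abs_le.mp (hk ω a i)
  have h2 := abs_le.mp (hk ω' b i)
  have h3 := abs_le.mp (g i)
  rw [abs_le]
  constructor <;> nlinarith [h1.1, h1.2, h2.1, h2.2, h3.1, h3.2]

theorem VV.dg_eq_of_close {m : ℕ} (w y : S.VV m) (r : ℝ) (K : ℕ → ℝ) (hK : S.Sub K)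
    (hh : ∀ᶠ k in UF, ∀ ω, (S.F k).μ ω ≠ 0 → ∀ i, |w.v k ω i - y.v k ω i| ≤ K k * S.dl r k) :
    w.dg r = y.dg r := by
  apply le_antisymm (VV.dg_le_of_close w y r K hK hh)
  apply VV.dg_le_of_close y w r K hK
  filter_upwards [hh] with k hk ω a i
  rw [abs_sub_comm]
  exact hk ω a i

end Sp

namespace Sys

open Sp

variable {S : Sp} {m : ℕ} (s : Sys S m)

/-- the cell of the line -/
def xv : ∀ k, (S.F k).Ω → (Fin m → ℤ) × (Fin m → ℤ) := fun k ω => (s.a.cellv 1 k ω, s.x.cellv 1 k ω)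

theorem bdd_xv : Bdd s.xv := (s.a.bdd 1).pair (s.x.bdd 1)

theorem io_xv : io s.xv = s.xi 1 := io_pair (s.a.bdd 1) (s.x.bdd 1)

/-- the amalgam with a second copy of the system on the same line -/
def w1 : AmD S S := (Pj.id S).join s.xv

/-- the system in the amalgam -/
def s1 : Sys s.w1.sp m := s.pull s.w1.p1

/-- the new time -/
def t' : s.w1.sp.VV 1 := s.w1.p2.vv s.t

/-- the point of the line at the new time -/
def Q : s.w1.sp.VV m := VV.pt s.s1.a s.s1.x s.t'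

theorem w1_common : s.w1.p1.map (s.xi 1) = s.w1.p2.map (s.xi 1) := by
  have h1 := (Pj.id S).join_common s.xv s.bdd_xv
  rw [Pj.id_map, s.io_xv] at h1
  exact h1

theorem w1_indep (x y : S.L) : I (s.w1.p1.map x) (s.w1.p2.map y) (s.w1.p1.map (s.xi 1)) = 0 := by
  have h1 := (Pj.id S).join_indep s.xv s.bdd_xv x y
  rw [Pj.id_map, s.io_xv] at h1
  exact h1

theorem s1_xi (r : ℝ) : s.s1.xi r = s.w1.p1.map (s.xi r) := by
  unfold Sys.xi
  rw [s.w1.p1.map_sup, s.w1.p1.map_dg, s.w1.p1.map_dg]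
  rfl

theorem s1_T : s.s1.T = s.w1.p1.map s.T := by
  unfold Sys.T
  rw [s.w1.p1.map_dg]
  rfl

theorem s1_x (r : ℝ) : s.s1.x.dg r = s.w1.p1.map (s.x.dg r) := by
  rw [s.w1.p1.map_dg]
  rfl

theorem s1_P (r : ℝ) : s.s1.P.dg r = s.w1.p1.map (s.P.dg r) := by
  rw [s.w1.p1.map_dg]
  rfl

theorem t'_dg (r : ℝ) : s.t'.dg r = s.w1.p2.map (s.t.dg r) := by
  rw [s.w1.p2.map_dg]
  rfl

/-- the new time is independent of the old time given the line -/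
theorem h_t'_all : h (s.t'.dg 1) (s.s1.xi 1 ⊔ s.s1.T) = 1 := by
  have h1 := s.w1_indep s.T (s.t.dg 1)
  rw [I_zero_iff_h'] at h1
  rw [s.s1_xi, s.s1_T, s.t'_dg, sup_comm, h1, s.w1_common, s.w1.p2.h_map]
  exact s.ht

theorem H_t' : H (s.t'.dg 1) = 1 := by
  rw [s.t'_dg, s.w1.p2.H_map]
  exact s.H_T

/-- the new time is independent of everything on the line -/
theorem I_t'_all : I (s.t'.dg 1) (s.s1.xi 1 ⊔ s.s1.T) ⊥ = 0 := by
  rw [I_eq, sup_bot_eq, h_bot, s.H_t', s.h_t'_all, sub_self]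

/-- the direction is independent of the point, the time and the new time, if it is independent of the point given
the time -/
theorem I_x_all (hI : I (s.x.dg 1) (s.P.dg 1) s.T = 0) :
    I (s.s1.x.dg 1) (s.s1.P.dg 1 ⊔ s.s1.T ⊔ s.t'.dg 1) ⊥ = 0 := by
  have e1 : I (s.s1.x.dg 1) (s.s1.P.dg 1) s.s1.T = 0 := by
    rw [s.s1_x, s.s1_P, s.s1_T, s.w1.p1.I_map]
    exact hI
  have e2 : I (s.s1.x.dg 1) s.s1.T ⊥ = 0 := by
    rw [I_comm]
    exact s.s1.I_T (s.s1.x_le_xi le_rfl)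
  have e3 : I (s.s1.x.dg 1) (s.s1.T ⊔ s.s1.P.dg 1) ⊥ = 0 := by
    rw [I_chain_right, e2, sup_bot_eq, e1, add_zero]
  have hP : s.s1.P.dg 1 ≤ s.s1.xi 1 ⊔ s.s1.T := s.s1.P_le le_rfl
  have hx : s.s1.x.dg 1 ≤ s.s1.xi 1 ⊔ s.s1.T := (s.s1.x_le_xi le_rfl).trans le_sup_left
  have e4 : I (s.t'.dg 1) ((s.s1.T ⊔ s.s1.P.dg 1) ⊔ s.s1.x.dg 1) ⊥ = 0 :=
    I_zero_mono s.I_t'_all le_sup_left
      ((sup_le (sup_le le_sup_right hP) hx).trans le_sup_left)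
  have e5 := (I_decomp e4).2
  rw [I_comm, sup_comm (s.s1.P.dg 1)]
  rw [I_comm, I_chain_right, e3, sup_bot_eq]
  rw [sup_bot_eq, I_comm] at e5
  rw [e5, add_zero]

theorem h_T_T' : h s.s1.T (s.t'.dg 1) = 1 := by
  have h1 : I (s.t'.dg 1) s.s1.T ⊥ = 0 := I_zero_mono s.I_t'_all le_sup_left (le_sup_right.trans le_sup_left)
  rw [I_zero_iff_h', sup_bot_eq, h_bot] at h1
  rw [h1]
  exact s.s1.H_T

theorem h_P_T' : h (s.s1.P.dg 1) (s.s1.T ⊔ s.t'.dg 1) = h (s.P.dg 1) s.T := by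
  have hP : s.s1.P.dg 1 ≤ s.s1.xi 1 ⊔ s.s1.T := s.s1.P_le le_rfl
  have e4 : I (s.t'.dg 1) (s.s1.T ⊔ s.s1.P.dg 1) ⊥ = 0 :=
    I_zero_mono s.I_t'_all le_sup_left ((sup_le le_sup_right hP).trans le_sup_left)
  have e5 := (I_decomp e4).2
  rw [sup_bot_eq, I_zero_iff_h', sup_comm] at e5
  rw [e5, s.s1_P, s.s1_T, s.w1.p1.h_map]

/-- the point at the new time is a copy of the point -/
theorem Q_dg : s.Q.dg 1 = s.w1.p2.map (s.P.dg 1) := by
  rw [s.w1.p2.map_dg]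
  obtain ⟨K, hK, hb⟩ := s.t'.bd
  apply VV.dg_eq_of_close _ _ 1 (fun k => 1 + K k) ((s.w1.sp.Sub_const zero_le_one).add hK)
  filter_upwards [hb] with k hk ω hω i
  have hs := (Pj.id S).join_supp s.xv k ω hω
  have hs' : (s.a.cellv 1 k ω.1, s.x.cellv 1 k ω.1) = (s.a.cellv 1 k ω.2, s.x.cellv 1 k ω.2) := hs
  rw [Prod.mk.injEq] at hs'
  have h1 : |s.a.v k ω.1 i - s.a.v k ω.2 i| ≤ S.dl 1 k := s.a.cellv_close 1 k _ _ hs'.1 i
  have h2 : |s.x.v k ω.1 i - s.x.v k ω.2 i| ≤ S.dl 1 k := s.x.cellv_close 1 k _ _ hs'.2 i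
  have h3 : |s.t.v k ω.2 0| ≤ K k := hk ω hω 0
  show |s.a.v k ω.1 i + s.t.v k ω.2 0 * s.x.v k ω.1 i - (s.a.v k ω.2 i + s.t.v k ω.2 0 * s.x.v k ω.2 i)| ≤
    (1 + K k) * S.dl 1 k
  have h4 : s.a.v k ω.1 i + s.t.v k ω.2 0 * s.x.v k ω.1 i - (s.a.v k ω.2 i + s.t.v k ω.2 0 * s.x.v k ω.2 i) =
      (s.a.v k ω.1 i - s.a.v k ω.2 i) + s.t.v k ω.2 0 * (s.x.v k ω.1 i - s.x.v k ω.2 i) := by ring
  rw [h4]
  calc _ ≤ |s.a.v k ω.1 i - s.a.v k ω.2 i| + |s.t.v k ω.2 0 * (s.x.v k ω.1 i - s.x.v k ω.2 i)| := abs_add_le _ _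
    _ ≤ S.dl 1 k + K k * S.dl 1 k := by
        apply add_le_add h1
        rw [abs_mul]
        exact mul_le_mul h3 h2 (abs_nonneg _) ((abs_nonneg _).trans h3)
    _ = (1 + K k) * S.dl 1 k := by ring

theorem h_Q_T' : h (s.Q.dg 1) (s.t'.dg 1) = h (s.P.dg 1) s.T := by
  rw [s.Q_dg, s.t'_dg, s.w1.p2.h_map]
  rfl

/-- the cells of the point, the time and the new time -/
def v2 : ∀ k, (s.w1.sp.F k).Ω → ((Fin m → ℤ) × (Fin 1 → ℤ)) × (Fin 1 → ℤ) :=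
  fun k ω => ((s.s1.P.cellv 1 k ω, s.s1.t.cellv 1 k ω), s.t'.cellv 1 k ω)

theorem bdd_v2 : Bdd s.v2 := ((s.s1.P.bdd 1).pair (s.s1.t.bdd 1)).pair (s.t'.bdd 1)

theorem io_v2 : io s.v2 = s.s1.P.dg 1 ⊔ s.s1.T ⊔ s.t'.dg 1 := by
  have h1 := io_pair ((s.s1.P.bdd 1).pair (s.s1.t.bdd 1)) (s.t'.bdd 1)
  rw [io_pair (s.s1.P.bdd 1) (s.s1.t.bdd 1)] at h1
  exact h1

variable {d : ℕ} (C : Cps s.w1.sp s.v2 d)

/-- the directions of the copies -/
def cx (i : Fin (d + 1)) : C.W.VV m := (C.p i).vv s.s1.x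

/-- the point, the time, the new time (of the zeroth copy) -/
def cP : C.W.VV m := (C.p 0).vv s.s1.P
def ct : C.W.VV 1 := (C.p 0).vv s.s1.t
def ct' : C.W.VV 1 := (C.p 0).vv s.t'

/-- the time difference -/
def cτ : TR C.W := TR.cor (s.ct' C) 0 - TR.cor (s.ct C) 0

/-- all directions and the new time -/
def cX : C.W.L := (Finset.univ.sup fun i => (s.cx C i).dg 1) ⊔ (s.ct' C).dg 1

/-- the points at the new time -/
def cQ (i : Fin (d + 1)) : Fin m → TR C.W := TR.cor (s.cP C) + s.cτ C • TR.cor (s.cx C i)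

theorem cv_eq : C.v = (s.cP C).dg 1 ⊔ (s.ct C).dg 1 ⊔ (s.ct' C).dg 1 := by
  unfold Cps.v
  rw [s.io_v2, Pj.map_sup, Pj.map_sup]
  unfold Sys.T
  rw [Pj.map_dg, Pj.map_dg, Pj.map_dg]
  rfl

/-- the new time is common to all copies -/
theorem ct'_common (i : Fin (d + 1)) : (s.ct' C).dg 1 = (C.p i).map (s.t'.dg 1) := by
  rw [Pj.map_dg]
  apply VV.dg_eq_of_close _ _ 1 (fun _ => 1) (C.W.Sub_const zero_le_one)
  refine Eventually.of_forall fun k ω hω j => ?_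
  have hj : j = 0 := Subsingleton.elim _ _
  have hs := C.agree k ω hω 0 i
  have hs' : ((s.s1.P.cellv 1 k ((C.p 0).π k ω), s.s1.t.cellv 1 k ((C.p 0).π k ω)), s.t'.cellv 1 k ((C.p 0).π k ω)) =
    ((s.s1.P.cellv 1 k ((C.p i).π k ω), s.s1.t.cellv 1 k ((C.p i).π k ω)), s.t'.cellv 1 k ((C.p i).π k ω)) := hs
  rw [Prod.mk.injEq] at hs'
  have hdl : s.w1.sp.dl 1 k = C.W.dl 1 k := by
    unfold dl
    rw [(C.p 0).hn k]
  rw [hj, one_mul, ← hdl]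
  exact s.t'.cellv_close 1 k _ _ hs'.2 0

theorem cx_indep (hI : I (s.x.dg 1) (s.P.dg 1) s.T = 0) :
    I (Finset.univ.sup fun i => (s.cx C i).dg 1) C.v ⊥ = 0 := by
  have e1 : (fun i => (s.cx C i).dg 1) = fun i => (C.p i).map (s.s1.x.dg 1) := by
    funext i
    rw [Pj.map_dg]
    rfl
  rw [e1]
  apply I_finsup_zero _ _ _ bot_le (C.indep' fun _ => s.s1.x.dg 1)
  intro i
  rw [← C.p_v i, ← (C.p i).map_bot, Pj.I_map, s.io_v2]
  exact s.I_x_all hI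

theorem cQ_close (i : Fin (d + 1)) : (TR.vec (s.cQ C i)).dg 1 = (C.p i).map (s.Q.dg 1) := by
  rw [Pj.map_dg]
  obtain ⟨K, hK, hb⟩ := (s.cx C i).bd
  apply VV.dg_eq_of_close _ _ 1 (fun k => 1 + 2 * K k)
    ((C.W.Sub_const zero_le_one).add ((C.W.Sub_const (by norm_num)).mul hK))
  filter_upwards [hb] with k hk ω hω j
  have hs := C.agree k ω hω 0 i
  have hs' : ((s.s1.P.cellv 1 k ((C.p 0).π k ω), s.s1.t.cellv 1 k ((C.p 0).π k ω)), s.t'.cellv 1 k ((C.p 0).π k ω)) =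
    ((s.s1.P.cellv 1 k ((C.p i).π k ω), s.s1.t.cellv 1 k ((C.p i).π k ω)), s.t'.cellv 1 k ((C.p i).π k ω)) := hs
  rw [Prod.mk.injEq, Prod.mk.injEq] at hs'
  have hdl : s.w1.sp.dl 1 k = C.W.dl 1 k := by
    unfold dl
    rw [(C.p 0).hn k]
  have h1 : |s.s1.P.v k ((C.p 0).π k ω) j - s.s1.P.v k ((C.p i).π k ω) j| ≤ C.W.dl 1 k := by
    rw [← hdl]
    exact s.s1.P.cellv_close 1 k _ _ hs'.1.1 j
  have h2 : |s.s1.t.v k ((C.p 0).π k ω) 0 - s.s1.t.v k ((C.p i).π k ω) 0| ≤ C.W.dl 1 k := by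
    rw [← hdl]
    exact s.s1.t.cellv_close 1 k _ _ hs'.1.2 0
  have h3 : |s.t'.v k ((C.p 0).π k ω) 0 - s.t'.v k ((C.p i).π k ω) 0| ≤ C.W.dl 1 k := by
    rw [← hdl]
    exact s.t'.cellv_close 1 k _ _ hs'.2 0
  have h4 : |s.s1.x.v k ((C.p i).π k ω) j| ≤ K k := hk ω hω j
  have hP : s.s1.P.v k ((C.p i).π k ω) j = s.s1.a.v k ((C.p i).π k ω) j +
    s.s1.t.v k ((C.p i).π k ω) 0 * s.s1.x.v k ((C.p i).π k ω) j := rfl
  show |s.s1.P.v k ((C.p 0).π k ω) j + (s.t'.v k ((C.p 0).π k ω) 0 - s.s1.t.v k ((C.p 0).π k ω) 0) *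
      s.s1.x.v k ((C.p i).π k ω) j -
    (s.s1.a.v k ((C.p i).π k ω) j + s.t'.v k ((C.p i).π k ω) 0 * s.s1.x.v k ((C.p i).π k ω) j)| ≤
    (1 + 2 * K k) * C.W.dl 1 k
  have h5 : s.s1.P.v k ((C.p 0).π k ω) j + (s.t'.v k ((C.p 0).π k ω) 0 - s.s1.t.v k ((C.p 0).π k ω) 0) *
      s.s1.x.v k ((C.p i).π k ω) j -
    (s.s1.a.v k ((C.p i).π k ω) j + s.t'.v k ((C.p i).π k ω) 0 * s.s1.x.v k ((C.p i).π k ω) j) =
    (s.s1.P.v k ((C.p 0).π k ω) j - s.s1.P.v k ((C.p i).π k ω) j) +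
    ((s.t'.v k ((C.p 0).π k ω) 0 - s.t'.v k ((C.p i).π k ω) 0) -
      (s.s1.t.v k ((C.p 0).π k ω) 0 - s.s1.t.v k ((C.p i).π k ω) 0)) * s.s1.x.v k ((C.p i).π k ω) j := by
    rw [hP]
    ring
  rw [h5]
  have hK0 : 0 ≤ K k := (abs_nonneg _).trans h4
  have h6 : |(s.t'.v k ((C.p 0).π k ω) 0 - s.t'.v k ((C.p i).π k ω) 0) -
      (s.s1.t.v k ((C.p 0).π k ω) 0 - s.s1.t.v k ((C.p i).π k ω) 0)| ≤ 2 * C.W.dl 1 k := by
    refine (abs_sub _ _).trans ?_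
    linarith
  calc _ ≤ |s.s1.P.v k ((C.p 0).π k ω) j - s.s1.P.v k ((C.p i).π k ω) j| +
      |((s.t'.v k ((C.p 0).π k ω) 0 - s.t'.v k ((C.p i).π k ω) 0) -
        (s.s1.t.v k ((C.p 0).π k ω) 0 - s.s1.t.v k ((C.p i).π k ω) 0)) * s.s1.x.v k ((C.p i).π k ω) j| :=
        abs_add_le _ _
    _ ≤ C.W.dl 1 k + 2 * C.W.dl 1 k * K k := by
        apply add_le_add h1
        rw [abs_mul]
        exact mul_le_mul h6 h4 (abs_nonneg _) (mul_nonneg (by norm_num) (C.W.dl_pos 1 k).le)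
    _ = (1 + 2 * K k) * C.W.dl 1 k := by ring

/-- **Saturation lemma.** If in a system the direction is independent of the point given the time, then, after a new
time on the line and `d + 1` copies of the line through the point, the point at the new time is saturated along the
span of the differences of the directions. -/
theorem sat (hI : I (s.x.dg 1) (s.P.dg 1) s.T = 0) (K : ℕ → ℝ) (hK : C.W.Sub K)
    (hD : Typ (fun k ω => 1 ≤ K k * |TR.ev (gram (dm fun i => TR.cor (s.cx C i))).det k ω|)) :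
    (d : ℝ) ≤ h ((TR.vec (s.cQ C 0)).dg 1)
      ((TR.vec (rr (dm fun i => TR.cor (s.cx C i))
        (TR.rinv (gram (dm fun i => TR.cor (s.cx C i))).det K hK) (s.cQ C 0))).dg 1 ⊔ s.cX C) := by
  have hv := s.cx_indep C hI
  rw [s.cv_eq C] at hv
  -- the time difference
  have hτT' : TR.dg (s.cτ C) 1 ≤ (s.ct C).dg 1 ⊔ (s.ct' C).dg 1 := by
    show s.cτ C ∈ TR.Kn _ 1 _
    apply Subring.sub_mem
    · exact (TR.cor_dg_le (s.ct' C) 0 1).trans le_sup_right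
    · exact (TR.cor_dg_le (s.ct C) 0 1).trans le_sup_left
  have hTτ : (s.ct C).dg 1 ≤ TR.dg (s.cτ C) 1 ⊔ (s.ct' C).dg 1 := by
    rw [TR.vv_dg_le_iff]
    intro i
    have hi : i = 0 := Subsingleton.elim _ _
    rw [hi]
    have h1 : TR.cor (s.ct' C) 0 - s.cτ C ∈ TR.Kn _ 1 (TR.dg (s.cτ C) 1 ⊔ (s.ct' C).dg 1) := by
      apply Subring.sub_mem
      · exact (TR.cor_dg_le (s.ct' C) 0 1).trans le_sup_right
      · show TR.dg (s.cτ C) 1 ≤ _
        exact le_sup_left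
    have h2 : TR.cor (s.ct' C) 0 - s.cτ C = TR.cor (s.ct C) 0 := by
      unfold cτ
      exact sub_sub_cancel _ _
    rw [h2] at h1
    exact h1
  have hT'X : (s.ct' C).dg 1 ≤ s.cX C := le_sup_right
  have c0 : ∀ x : s.w1.sp.L, ∀ y, h ((C.p 0).map x) ((C.p 0).map y) = h x y := fun x y => (C.p 0).h_map x y
  have eT : (C.p 0).map s.s1.T = (s.ct C).dg 1 := (C.p 0).map_dg _ _
  have eT' : (C.p 0).map (s.t'.dg 1) = (s.ct' C).dg 1 := (C.p 0).map_dg _ _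
  have eP : (C.p 0).map (s.s1.P.dg 1) = (s.cP C).dg 1 := (C.p 0).map_dg _ _
  have b1 : h ((s.ct C).dg 1) ((s.ct' C).dg 1) = 1 := by
    rw [← eT, ← eT', c0, s.h_T_T']
  have b2 : h ((s.cP C).dg 1) ((s.ct C).dg 1 ⊔ (s.ct' C).dg 1) = h (s.P.dg 1) s.T := by
    rw [← eT, ← eT', ← eP, ← Pj.map_sup, c0, s.h_P_T']
  have b3 : h ((s.ct C).dg 1) (s.cX C) = 1 := by
    have h1 : I (Finset.univ.sup fun i => (s.cx C i).dg 1) ((s.ct' C).dg 1 ⊔ (s.ct C).dg 1) ⊥ = 0 :=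
      I_zero_mono hv le_sup_left ((sup_le le_sup_right (le_sup_right.trans le_sup_left)).trans le_sup_left)
    have h2 := (I_decomp h1).2
    rw [sup_bot_eq, I_zero_iff_h', b1] at h2
    exact h2
  have b4 : h ((s.cP C).dg 1) ((s.ct C).dg 1 ⊔ s.cX C) = h (s.P.dg 1) s.T := by
    have h1 : I (Finset.univ.sup fun i => (s.cx C i).dg 1) (((s.ct C).dg 1 ⊔ (s.ct' C).dg 1) ⊔ (s.cP C).dg 1) ⊥ = 0 := by
      rw [sup_comm, ← sup_assoc]
      exact hv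
    have h2 := (I_decomp h1).2
    rw [sup_bot_eq, I_zero_iff_h', b2, sup_left_comm] at h2
    exact h2
  -- application of the geometric form
  have hmain := TR.sat_geo (fun i => TR.cor (s.cx C i)) (TR.cor (s.cP C)) (s.cτ C) 1 (h (s.P.dg 1) s.T) 1 (s.cX C)
    ?_ K hK hD ?_ ?_ ?_
  · rw [mul_one] at hmain
    exact hmain
  · intro i j
    have h1 : (s.cx C i).dg 1 ≤ Finset.univ.sup fun i => (s.cx C i).dg 1 :=
      Finset.le_sup (f := fun i => (s.cx C i).dg 1) (Finset.mem_univ i)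
    exact ((TR.cor_dg_le (s.cx C i) j 1).trans h1).trans le_sup_left
  · have h1 : h ((s.ct C).dg 1) (s.cX C) ≤ h (TR.dg (s.cτ C) 1 ⊔ s.cX C) (s.cX C) :=
      h_mono (hTτ.trans (sup_le_sup_left hT'X _))
    rw [h_sup_right_of_le le_rfl] at h1
    linarith
  · have h1 : h ((s.cP C).dg 1) ((s.ct C).dg 1 ⊔ s.cX C) ≤ h ((s.cP C).dg 1) (TR.dg (s.cτ C) 1 ⊔ s.cX C) := by
      apply h_anti
      apply sup_le _ le_sup_right
      exact hτT'.trans (sup_le_sup_left hT'X _)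
    have h2 : (s.cP C).dg 1 ≤ (TR.vec (s.cQ C 0)).dg 1 ⊔ (TR.dg (s.cτ C) 1 ⊔ s.cX C) := by
      rw [TR.vv_dg_le_iff]
      intro j
      have h3 : s.cQ C 0 j - s.cτ C * TR.cor (s.cx C 0) j ∈
          TR.Kn _ 1 ((TR.vec (s.cQ C 0)).dg 1 ⊔ (TR.dg (s.cτ C) 1 ⊔ s.cX C)) := by
        apply Subring.sub_mem
        · exact TR.coord_mem _ le_sup_left j
        · apply Subring.mul_mem
          · show TR.dg (s.cτ C) 1 ≤ _
            exact le_sup_left.trans le_sup_right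
          · have h1 : (s.cx C 0).dg 1 ≤ Finset.univ.sup fun i => (s.cx C i).dg 1 :=
              Finset.le_sup (f := fun i => (s.cx C i).dg 1) (Finset.mem_univ 0)
            exact (((TR.cor_dg_le (s.cx C 0) j 1).trans h1).trans le_sup_left).trans
              (le_sup_right.trans le_sup_right)
      have h4 : s.cQ C 0 j - s.cτ C * TR.cor (s.cx C 0) j = TR.cor (s.cP C) j := by
        unfold cQ
        rw [Pi.add_apply, Pi.smul_apply, smul_eq_mul, add_sub_cancel_right]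
      rw [h4] at h3
      exact h3
    have h3 : h ((s.cP C).dg 1) (TR.dg (s.cτ C) 1 ⊔ s.cX C) ≤ h ((TR.vec (s.cQ C 0)).dg 1) (TR.dg (s.cτ C) 1 ⊔ s.cX C) := by
      have := h_mono (B := TR.dg (s.cτ C) 1 ⊔ s.cX C) h2
      rwa [h_sup_right_of_le le_rfl] at this
    have h5 : (TR.vec (TR.cor (s.cP C) + s.cτ C • TR.cor (s.cx C 0))).dg 1 = (TR.vec (s.cQ C 0)).dg 1 := rfl
    rw [h5]
    linarith
  · intro i
    have h5 : (TR.vec (TR.cor (s.cP C) + s.cτ C • TR.cor (s.cx C i))).dg 1 = (TR.vec (s.cQ C i)).dg 1 := rfl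
    rw [h5]
    have h1 : h ((TR.vec (s.cQ C i)).dg 1) (s.cX C) ≤ h ((TR.vec (s.cQ C i)).dg 1) ((s.ct' C).dg 1) := h_anti hT'X
    have h2 : h ((TR.vec (s.cQ C i)).dg 1) ((s.ct' C).dg 1) = h (s.P.dg 1) s.T := by
      rw [s.cQ_close C i]
      rw [s.ct'_common C i, Pj.h_map, s.h_Q_T']
    linarith

end Sys

end

end Pool.Agent.Helper31.EC
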