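import Pool.Agent.Helper31.EC.Copies

/-! Exact entropy calculus: the saturation lemma, entropy part. -/

namespace Pool.Agent.Helper31.EC

open Finset Filter Topology Pool.Agent.Helper69.RK

noncomputable section

variable {L : Type*} [PM L]

/-- chain rule for a finite join with lower bounds of the conditional entropies given all the others -/
theorem h_finsup_ge {d : ℕ} (c : Fin d → L) (R X : L) (e : ℝ)
    (hc : ∀ i, e ≤ h (c i) (((Finset.univ.erase i).sup c) ⊔ R ⊔ X)) :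
    d * e ≤ h (Finset.univ.sup c) (R ⊔ X) := by
  have key : ∀ s : Finset (Fin d), (s.card : ℝ) * e ≤ h (s.sup c) (R ⊔ X) := by
    intro s
    induction s using Finset.induction_on with
    | empty => simp [h_zero]
    | insert a s ha ih =>
      rw [Finset.sup_insert, sup_comm, h_chain, Finset.card_insert_of_notMem ha]
      have h1 : s.sup c ⊔ (R ⊔ X) ≤ ((Finset.univ.erase a).sup c) ⊔ R ⊔ X := by
        apply sup_le
        · apply le_trans _ (le_trans le_sup_left le_sup_left)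
          apply Finset.sup_mono
          intro j hj
          rw [Finset.mem_erase]
          exact ⟨fun h => ha (h ▸ hj), Finset.mem_univ _⟩
        · apply sup_le
          · exact le_trans le_sup_right le_sup_left
          · exact le_sup_right
      have h2 := h_anti (A := c a) h1
      have h3 := hc a
      push_cast
      linarith
  have := key Finset.univ
  simpa using this

/-- the entropy part of the saturation lemma -/
theorem sat_abs {d : ℕ} (Q : Fin (d + 1) → L) (τ R X : L) (c : Fin d → L) (q e : ℝ)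
    (hτ : e ≤ h τ X) (hq0 : q ≤ h (Q 0) (τ ⊔ X)) (hq : ∀ i, h (Q i) X ≤ q)
    (h1 : ∀ i : Fin d, τ ≤ Q 0 ⊔ Q i.succ ⊔ X)
    (h2 : ∀ i : Fin d, ((Finset.univ.erase i).sup c) ⊔ R ≤ Q 0 ⊔ X)
    (h3 : ∀ i : Fin d, ((Finset.univ.erase i).sup c) ⊔ R ≤ Q i.succ ⊔ X)
    (h4 : ∀ i : Fin d, Q 0 ≤ c i ⊔ ((Finset.univ.erase i).sup c) ⊔ R ⊔ X)
    (h5 : Finset.univ.sup c ≤ Q 0 ⊔ X) :
    d * e ≤ h (Q 0) (R ⊔ X) := by
  have hQ0 : q ≤ h (Q 0) X := hq0.trans (h_anti le_sup_right)
  have key : ∀ i : Fin d, e ≤ h (c i) (((Finset.univ.erase i).sup c) ⊔ R ⊔ X) := by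
    intro i
    set ρ := ((Finset.univ.erase i).sup c) ⊔ R with hρ
    have a1 : e + q ≤ h (Q 0 ⊔ Q i.succ) X := by
      have b1 : h (τ ⊔ Q 0) X ≤ h (Q 0 ⊔ Q i.succ) X := by
        have : h (τ ⊔ Q 0) X ≤ h (Q 0 ⊔ Q i.succ ⊔ X) X := h_mono (sup_le (h1 i) (le_sup_left.trans le_sup_left))
        rwa [h_sup_right_of_le le_rfl] at this
      have b2 : h (τ ⊔ Q 0) X = h τ X + h (Q 0) (τ ⊔ X) := h_chain _ _ _
      linarith
    have a2 : h (Q 0 ⊔ Q i.succ) X ≤ h (Q 0) X + h (Q i.succ) X - h ρ X := by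
      have c1 : h (Q 0 ⊔ Q i.succ) X = h (Q 0) X + h (Q i.succ) (Q 0 ⊔ X) := h_chain _ _ _
      have c2 : h (Q i.succ) (Q 0 ⊔ X) ≤ h (Q i.succ) (ρ ⊔ X) := h_anti (sup_le (h2 i) le_sup_right)
      have c3 : h (ρ ⊔ Q i.succ) X = h ρ X + h (Q i.succ) (ρ ⊔ X) := h_chain _ _ _
      have c4 : h (ρ ⊔ Q i.succ) X ≤ h (Q i.succ) X := by
        have : h (ρ ⊔ Q i.succ) X ≤ h (Q i.succ ⊔ X) X := h_mono (sup_le (h3 i) le_sup_left)
        rwa [h_sup_right_of_le le_rfl] at this
      linarith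
    have a3 : h (Q 0) X = h ρ X + h (Q 0) (ρ ⊔ X) := by
      have c1 : h (ρ ⊔ Q 0) X = h ρ X + h (Q 0) (ρ ⊔ X) := h_chain _ _ _
      have c2 : h (ρ ⊔ Q 0) X = h (Q 0) X := by
        apply h_congr_left
        · exact sup_le (h2 i) le_sup_left
        · exact le_sup_right.trans le_sup_left
      linarith
    have a4 : h (Q 0) (ρ ⊔ X) ≤ h (c i) (ρ ⊔ X) := by
      have : h (Q 0) (ρ ⊔ X) ≤ h (c i ⊔ (ρ ⊔ X)) (ρ ⊔ X) := by
        apply h_mono
        have := h4 i
        rw [hρ]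
        refine this.trans ?_
        rw [sup_assoc, sup_assoc, sup_assoc]
      rwa [h_sup_right_of_le le_rfl] at this
    have a5 := hq (Fin.succ i)
    have a6 := hq 0
    linarith
  have k1 := h_finsup_ge c R X e key
  have k2 : h (Finset.univ.sup c) (R ⊔ X) ≤ h (Q 0) (R ⊔ X) := by
    have : h (Finset.univ.sup c) (R ⊔ X) ≤ h (Q 0 ⊔ (R ⊔ X)) (R ⊔ X) := by
      apply h_mono
      exact h5.trans (sup_le_sup_left le_sup_right _)
    rwa [h_sup_right_of_le le_rfl] at this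
  linarith

end

end Pool.Agent.Helper31.EC
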