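import Pool.Agent.Helper31.EC.Ulim
import Pool.Agent.Helper31.EC.PM
import Pool.Agent.Helper31.EC.Fin

/-! Exact entropy calculus: spaces (sequences of finite spaces whose depth tends to infinity along the ultrafilter),
informations, the entropy lattice of a space, variables, digits. -/

namespace Pool.Agent.Helper31.EC

open Finset Filter Topology Pool.Agent.Helper69.RK

noncomputable section

open Classical in
/-- number of values of `f` on the atom of `g` that contains `ω` (on the support) -/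
def nvf {Ω α γ : Type} [Fintype Ω] (μ : Ω → ℝ) (f : Ω → α) (g : Ω → γ) (ω : Ω) : ℕ :=
  (((univ : Finset Ω).filter (fun ω' => μ ω' ≠ 0 ∧ g ω' = g ω)).image f).card

open Classical in
theorem nvf_pos {Ω α γ : Type} [Fintype Ω] (μ : Ω → ℝ) (f : Ω → α) (g : Ω → γ) (ω : Ω) (h : μ ω ≠ 0) :
    1 ≤ nvf μ f g ω := by
  unfold nvf
  rw [Nat.one_le_iff_ne_zero, ← Nat.pos_iff_ne_zero, Finset.card_pos]
  exact ⟨f ω, Finset.mem_image.mpr ⟨ω, Finset.mem_filter.mpr ⟨Finset.mem_univ _, h, rfl⟩, rfl⟩⟩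

open Classical in
theorem nvf_mono {Ω α β γ : Type} [Fintype Ω] (μ : Ω → ℝ) (f : Ω → α) (f' : Ω → β) (g : Ω → γ) (ω : Ω)
    (h : ∀ ω₁ ω₂, μ ω₁ ≠ 0 → μ ω₂ ≠ 0 → g ω₁ = g ω → g ω₂ = g ω → f ω₁ = f ω₂ → f' ω₁ = f' ω₂) :
    nvf μ f' g ω ≤ nvf μ f g ω := by
  unfold nvf
  apply Finset.card_le_card_of_surjOn (fun q : α => if hq : ∃ ω', μ ω' ≠ 0 ∧ g ω' = g ω ∧ f ω' = q
    then f' hq.choose else f' ω)
  intro q hq
  rw [Finset.mem_coe, Finset.mem_image] at hq
  obtain ⟨ω', hω', rfl⟩ := hq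
  rw [Finset.mem_filter] at hω'
  refine ⟨f ω', ?_, ?_⟩
  · rw [Finset.mem_coe, Finset.mem_image]
    exact ⟨ω', Finset.mem_filter.mpr hω', rfl⟩
  · have hq : ∃ ω₁, μ ω₁ ≠ 0 ∧ g ω₁ = g ω ∧ f ω₁ = f ω' := ⟨ω', hω'.2.1, hω'.2.2, rfl⟩
    beta_reduce
    rw [dif_pos hq]
    obtain ⟨a, b, c⟩ := hq.choose_spec
    exact h _ _ a hω'.2.1 b hω'.2.2 c

open Classical in
theorem nvf_pair {Ω α β γ : Type} [Fintype Ω] (μ : Ω → ℝ) (f : Ω → α) (f' : Ω → β) (g : Ω → γ) (ω : Ω) :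
    nvf μ (fun ω => (f ω, f' ω)) g ω ≤ nvf μ f g ω * nvf μ f' g ω := by
  unfold nvf
  rw [← Finset.card_product]
  apply Finset.card_le_card
  intro q hq
  obtain ⟨ω', hω', rfl⟩ := e3_mem_image hq
  rw [Finset.mem_product]
  exact ⟨Finset.mem_image.mpr ⟨ω', hω', rfl⟩, Finset.mem_image.mpr ⟨ω', hω', rfl⟩⟩

open Classical in
theorem nvf_eq {Ω Ω' α γ γ' : Type} [Fintype Ω] [Fintype Ω'] (μ : Ω → ℝ) (f : Ω → α) (g : Ω → γ) (ω : Ω)
    (μ' : Ω' → ℝ) (f' : Ω' → α) (g' : Ω' → γ') (ω' : Ω')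
    (h : ∀ a, (∃ ω₁, μ ω₁ ≠ 0 ∧ g ω₁ = g ω ∧ f ω₁ = a) ↔ ∃ ω₂, μ' ω₂ ≠ 0 ∧ g' ω₂ = g' ω' ∧ f' ω₂ = a) :
    nvf μ f g ω = nvf μ' f' g' ω' := by
  unfold nvf
  apply congrArg Finset.card
  ext a
  rw [Finset.mem_image, Finset.mem_image]
  simp only [Finset.mem_filter, Finset.mem_univ, true_and, and_assoc]
  exact h a

open Classical in
/-- a finer condition -/
theorem nvf_le_of_rel {Ω α γ γ' : Type} [Fintype Ω] (μ : Ω → ℝ) (f : Ω → α) (g : Ω → γ) (g' : Ω → γ') (ω : Ω)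
    (h : ∀ ω', μ ω' ≠ 0 → g ω' = g ω → g' ω' = g' ω) : nvf μ f g ω ≤ nvf μ f g' ω := by
  unfold nvf
  apply Finset.card_le_card
  intro q hq
  rw [Finset.mem_image] at hq ⊢
  obtain ⟨ω', hω', rfl⟩ := hq
  rw [Finset.mem_filter] at hω'
  exact ⟨ω', Finset.mem_filter.mpr ⟨hω'.1, hω'.2.1, h ω' hω'.2.1 hω'.2.2⟩, rfl⟩

open Classical in
/-- smaller support -/
theorem nvf_le_of_supp {Ω α γ : Type} [Fintype Ω] (μ μ' : Ω → ℝ) (f : Ω → α) (g : Ω → γ) (ω : Ω)
    (h : ∀ ω', μ ω' ≠ 0 → μ' ω' ≠ 0) : nvf μ f g ω ≤ nvf μ' f g ω := by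
  unfold nvf
  apply Finset.card_le_card
  intro q hq
  rw [Finset.mem_image] at hq ⊢
  obtain ⟨ω', hω', rfl⟩ := hq
  rw [Finset.mem_filter] at hω'
  exact ⟨ω', Finset.mem_filter.mpr ⟨hω'.1, h ω' hω'.2.1, hω'.2.2⟩, rfl⟩

/-- a space of the exact calculus -/
structure Sp where
  F : ℕ → FSp
  lim : Tendsto (fun k => (F k).n) UF atTop

namespace Sp

variable (S : Sp)

/-- normalised conditional entropy of partitions, relative to the base -/
def rt (A B : ∀ k, Setoid (S.F k).Ω) (k : ℕ) : ℝ := (S.F k).e (A k) (B k ⊓ (S.F k).Z) / (S.F k).n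

/-- the trivial partition -/
def tr : ∀ k, Setoid (S.F k).Ω := fun _ => ⊤

variable {S}

theorem rt_nonneg (A B : ∀ k, Setoid (S.F k).Ω) (k : ℕ) : 0 ≤ S.rt A B k :=
  div_nonneg ((S.F k).e_nonneg _ _) (S.F k).pos.le

theorem rt_chain (A B C : ∀ k, Setoid (S.F k).Ω) (k : ℕ) :
    S.rt (fun k => A k ⊓ B k) C k = S.rt A C k + S.rt B (fun k => A k ⊓ C k) k := by
  unfold rt
  rw [(S.F k).e_chain, inf_assoc]; ring

theorem rt_anti (A B C : ∀ k, Setoid (S.F k).Ω) (k : ℕ) (h : C k ≤ B k) : S.rt A C k ≤ S.rt A B k := by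
  unfold rt
  apply div_le_div_of_nonneg_right _ (S.F k).pos.le
  apply (S.F k).e_anti
  intro ω ω' _ _ h1
  exact ⟨h h1.1, h1.2⟩

theorem rt_zero (A B : ∀ k, Setoid (S.F k).Ω) (k : ℕ) (h : B k ≤ A k) : S.rt A B k = 0 := by
  unfold rt
  rw [(S.F k).e_zero, zero_div]
  intro ω ω' _ _ h1
  exact h h1.1

theorem rt_triangle (A B C : ∀ k, Setoid (S.F k).Ω) (k : ℕ) : S.rt A C k ≤ S.rt A B k + S.rt B C k := by
  have h1 := (S.F k).e_triangle (A k) (B k) (C k ⊓ (S.F k).Z)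
  have h2 : (S.F k).e (A k) (B k ⊓ (C k ⊓ (S.F k).Z)) ≤ (S.F k).e (A k) (B k ⊓ (S.F k).Z) := by
    apply (S.F k).e_anti
    intro ω ω' _ _ h
    exact ⟨h.1, h.2.2⟩
  unfold rt
  rw [← add_div]
  apply div_le_div_of_nonneg_right _ (S.F k).pos.le
  linarith

theorem rt_inf_tr (A B : ∀ k, Setoid (S.F k).Ω) (k : ℕ) : S.rt B (fun k => A k ⊓ S.tr k) k = S.rt B A k := by
  have h1 : (A k ⊓ S.tr k) = A k := inf_top_eq _
  unfold rt
  beta_reduce
  rw [h1]

/-- a constant bound divided by the depth tends to zero -/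
theorem div_n_tendsto (S : Sp) (C : ℝ) : Tendsto (fun k => C / (S.F k).n) UF (𝓝 0) := S.lim.const_div_atTop C

variable (S)

/-- number of cells of `A` that meet the base cell of `ω` (on the support) -/
def nv (F : FSp) (A : Setoid F.Ω) (ω : F.Ω) : ℕ := nvf F.μ (Quotient.mk A) (Quotient.mk F.Z) ω

/-- every base cell meets at most `2 ^ (C n)` cells of `A` -/
def VB (A : ∀ k, Setoid (S.F k).Ω) : Prop :=
  ∃ C : ℝ, ∀ᶠ k in UF, ∀ ω, (S.F k).μ ω ≠ 0 → (nv (S.F k) (A k) ω : ℝ) ≤ 2 ^ (C * (S.F k).n)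

/-- informations: sequences of partitions with at most `2 ^ (C n)` cells in every base cell -/
def Inf : Type := {A : ∀ k, Setoid (S.F k).Ω // S.VB A}

variable {S}

theorem nv_pos (F : FSp) (A : Setoid F.Ω) (ω : F.Ω) (h : F.μ ω ≠ 0) : 1 ≤ nv F A ω := nvf_pos _ _ _ _ h

theorem nv_mono (F : FSp) {A B : Setoid F.Ω} (ω : F.Ω)
    (h : ∀ ω₁ ω₂, F.μ ω₁ ≠ 0 → F.μ ω₂ ≠ 0 → F.Z ω₁ ω → F.Z ω₂ ω → A ω₁ ω₂ → B ω₁ ω₂) : nv F B ω ≤ nv F A ω :=
  nvf_mono _ _ _ _ _ (fun ω₁ ω₂ a b c d e =>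
    Quotient.sound (h ω₁ ω₂ a b (Quotient.exact c) (Quotient.exact d) (Quotient.exact e)))

theorem nv_inf (F : FSp) (A B : Setoid F.Ω) (ω : F.Ω) : nv F (A ⊓ B) ω ≤ nv F A ω * nv F B ω := by
  refine le_trans ?_ (nvf_pair F.μ (Quotient.mk A) (Quotient.mk B) (Quotient.mk F.Z) ω)
  apply nvf_mono
  intro ω₁ ω₂ _ _ _ _ e
  rw [Prod.mk.injEq] at e
  have h2 : (A ⊓ B) ω₁ ω₂ := ⟨Quotient.exact e.1, Quotient.exact e.2⟩
  exact Quotient.sound h2

theorem VB.inf {A B : ∀ k, Setoid (S.F k).Ω} (hA : S.VB A) (hB : S.VB B) : S.VB (fun k => A k ⊓ B k) := by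
  obtain ⟨C, hC⟩ := hA
  obtain ⟨D, hD⟩ := hB
  refine ⟨C + D, ?_⟩
  filter_upwards [hC, hD] with k h1 h2 ω hω
  have h3 := nv_inf (S.F k) (A k) (B k) ω
  have h4 : (nv (S.F k) (A k ⊓ B k) ω : ℝ) ≤ (nv (S.F k) (A k) ω : ℝ) * nv (S.F k) (B k) ω := by
    exact_mod_cast h3
  have h5 : (2 : ℝ) ^ ((C + D) * (S.F k).n) = 2 ^ (C * (S.F k).n) * 2 ^ (D * (S.F k).n) := by
    rw [← Real.rpow_add (by norm_num : (0 : ℝ) < 2)]
    congr 1; ring
  rw [h5]
  exact h4.trans (mul_le_mul (h1 ω hω) (h2 ω hω) (Nat.cast_nonneg _) (by positivity))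

/-- functions of informations (on the support, given the base) are informations -/
theorem VB.mono {A B : ∀ k, Setoid (S.F k).Ω} (hA : S.VB A)
    (h : ∀ᶠ k in UF, ∀ ω ω', (S.F k).μ ω ≠ 0 → (S.F k).μ ω' ≠ 0 → (S.F k).Z ω ω' → A k ω ω' → B k ω ω') :
    S.VB B := by
  obtain ⟨C, hC⟩ := hA
  refine ⟨C, ?_⟩
  filter_upwards [hC, h] with k h1 h2 ω hω
  refine le_trans ?_ (h1 ω hω)
  exact_mod_cast nv_mono (S.F k) ω (fun ω₁ ω₂ a b c d e => h2 ω₁ ω₂ a b ((S.F k).Z.trans c ((S.F k).Z.symm d)) e)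

theorem VB_tr : S.VB S.tr := by
  classical
  refine ⟨0, Eventually.of_forall fun k ω _ => ?_⟩
  rw [zero_mul, Real.rpow_zero]
  have h1 : nv (S.F k) (S.tr k) ω ≤ 1 := by
    unfold nv nvf
    rw [Finset.card_le_one]
    intro a _ b _
    induction a using Quotient.ind
    induction b using Quotient.ind
    exact Quotient.sound trivial
  exact_mod_cast h1

/-- entropies are at most the logarithm of the number of cells -/
theorem VB.ub {A : ∀ k, Setoid (S.F k).Ω} (hA : S.VB A) : UB (S.rt A S.tr) := by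
  classical
  obtain ⟨C, hC⟩ := hA
  apply UB_of_nonneg_le (C := C) (Eventually.of_forall fun k => rt_nonneg _ _ k)
  filter_upwards [hC] with k hk
  have hn := (S.F k).pos
  unfold rt
  rw [div_le_iff₀ hn]
  have h0 : (S.F k).e (A k) (S.tr k ⊓ (S.F k).Z) = CH (S.F k).μ (Quotient.mk (A k)) (Quotient.mk (S.F k).Z) := by
    apply (S.F k).e_congr
    · intro ω ω' _ _
      exact (Quotient.eq (r := A k)).symm
    · intro ω ω' _ _
      constructor
      · intro h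
        exact Quotient.sound h.2
      · intro h
        exact ⟨trivial, Quotient.exact h⟩
  rw [h0]
  have h1 := st_E3.1 (S.F k).Ω _ _ (S.F k).μ (Quotient.mk (A k)) (Quotient.mk (S.F k).Z)
    (fun _ => 2 ^ (C * (S.F k).n)) (S.F k).nn (fun ω hω => hk ω hω)
  have h3 : ∑ ω, (S.F k).μ ω * Real.logb 2 (2 ^ (C * (S.F k).n)) = C * (S.F k).n := by
    rw [← Finset.sum_mul, Real.logb_rpow (by norm_num) (by norm_num)]
    have : ∑ ω, (S.F k).μ ω = 1 := (S.F k).ms
    rw [this, one_mul]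
  rw [h3] at h1
  exact h1

theorem Inf.ub (A : S.Inf) : UB (S.rt A.1 S.tr) := A.2.ub

theorem UB_rt (A : S.Inf) (B : ∀ k, Setoid (S.F k).Ω) : UB (S.rt A.1 B) :=
  UB.sandwich (UB_const 0) A.ub (Eventually.of_forall fun k => rt_nonneg _ _ k)
    (Eventually.of_forall fun k => rt_anti _ _ _ k le_top)

instance : Preorder S.Inf where
  le A B := Tendsto (S.rt A.1 B.1) UF (𝓝 0)
  le_refl A := by
    have h1 : S.rt A.1 A.1 = fun _ => 0 := by
      funext k; exact rt_zero _ _ k le_rfl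
    rw [h1]; exact tendsto_const_nhds
  le_trans A B C h1 h2 := by
    have h3 := h1.add h2
    rw [add_zero] at h3
    exact tendsto_of_tendsto_of_tendsto_of_le_of_le tendsto_const_nhds h3
      (fun k => rt_nonneg _ _ k) (fun k => rt_triangle _ _ _ k)

theorem Inf.le_def (A B : S.Inf) : A ≤ B ↔ Tendsto (S.rt A.1 B.1) UF (𝓝 0) := Iff.rfl

theorem Inf.le_iff_ul (A B : S.Inf) : A ≤ B ↔ ul (S.rt A.1 B.1) ≤ 0 := by
  rw [Inf.le_def]
  constructor
  · intro h; exact (ul_eq h).le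
  · intro h
    have h1 := ul_tendsto (UB_rt A B.1)
    have h2 : 0 ≤ ul (S.rt A.1 B.1) := const_le_ul (UB_rt A B.1) (Eventually.of_forall fun k => rt_nonneg _ _ k)
    rwa [le_antisymm h h2] at h1

/-- exact functions -/
theorem Inf.le_of_le (A B : S.Inf) (h : ∀ᶠ k in UF, B.1 k ≤ A.1 k) : A ≤ B := by
  rw [Inf.le_def]
  apply Tendsto.congr' _ tendsto_const_nhds
  filter_upwards [h] with k hk using (rt_zero _ _ k hk).symm

/-- the pair -/
def Inf.sup (A B : S.Inf) : S.Inf := ⟨fun k => A.1 k ⊓ B.1 k, A.2.inf B.2⟩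

/-- the trivial information -/
def Inf.bot : S.Inf := ⟨S.tr, VB_tr⟩

theorem Inf.le_sup_left (A B : S.Inf) : A ≤ Inf.sup A B :=
  Inf.le_of_le _ _ (Eventually.of_forall fun _ => inf_le_left)

theorem Inf.le_sup_right (A B : S.Inf) : B ≤ Inf.sup A B :=
  Inf.le_of_le _ _ (Eventually.of_forall fun _ => inf_le_right)

theorem Inf.sup_le (A B C : S.Inf) (h1 : A ≤ C) (h2 : B ≤ C) : Inf.sup A B ≤ C := by
  rw [Inf.le_def] at h1 h2 ⊢
  have h3 := h1.add h2
  rw [add_zero] at h3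
  refine tendsto_of_tendsto_of_tendsto_of_le_of_le tendsto_const_nhds h3 (fun k => rt_nonneg _ _ k) (fun k => ?_)
  show S.rt (fun k => A.1 k ⊓ B.1 k) C.1 k ≤ _
  rw [rt_chain]
  have := rt_anti B.1 C.1 (fun k => A.1 k ⊓ C.1 k) k inf_le_right
  show S.rt A.1 C.1 k + _ ≤ S.rt A.1 C.1 k + S.rt B.1 C.1 k
  linarith

theorem Inf.bot_le (A : S.Inf) : Inf.bot ≤ A := Inf.le_of_le _ _ (Eventually.of_forall fun _ => le_top)

/-- entropy of an information -/
def Inf.H (A : S.Inf) : ℝ := ul (S.rt A.1 S.tr)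

theorem Inf.H_mono {A B : S.Inf} (h : A ≤ B) : A.H ≤ B.H := by
  rw [Inf.le_iff_ul] at h
  have h1 : ul (S.rt A.1 S.tr) ≤ ul (fun k => S.rt A.1 B.1 k + S.rt B.1 S.tr k) :=
    ul_mono A.ub ((UB_rt A _).add B.ub) (Eventually.of_forall fun k => rt_triangle _ _ _ k)
  rw [ul_add (UB_rt A _) B.ub] at h1
  unfold Inf.H
  linarith

theorem Inf.H_sup (A B : S.Inf) : (Inf.sup A B).H = A.H + ul (S.rt B.1 A.1) := by
  have h1 : S.rt (fun k => A.1 k ⊓ B.1 k) S.tr = fun k => S.rt A.1 S.tr k + S.rt B.1 A.1 k := by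
    funext k
    rw [rt_chain, rt_inf_tr]
  show ul (S.rt (fun k => A.1 k ⊓ B.1 k) S.tr) = _
  rw [h1, ul_add A.ub (UB_rt B _)]
  rfl

variable (S)

/-- the entropy lattice of a space -/
def L : Type := Antisymmetrization S.Inf (· ≤ ·)

instance : PartialOrder S.L := inferInstanceAs (PartialOrder (Antisymmetrization S.Inf (· ≤ ·)))

variable {S}

/-- class of an information -/
def cl (A : S.Inf) : S.L := toAntisymmetrization (· ≤ ·) A

theorem cl_le {A B : S.Inf} : cl A ≤ cl B ↔ A ≤ B := Iff.rfl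

theorem cl_ind {p : S.L → Prop} (h : ∀ A, p (cl A)) (x : S.L) : p x := Quotient.ind h x

instance : SemilatticeSup S.L where
  sup := Quotient.map₂ Inf.sup (by
    intro A A' hA B B' hB
    constructor
    · exact Inf.sup_le _ _ _ (hA.1.trans (Inf.le_sup_left _ _)) (hB.1.trans (Inf.le_sup_right _ _))
    · exact Inf.sup_le _ _ _ (hA.2.trans (Inf.le_sup_left _ _)) (hB.2.trans (Inf.le_sup_right _ _)))
  le_sup_left x y := by
    induction x using cl_ind
    induction y using cl_ind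
    exact Inf.le_sup_left _ _
  le_sup_right x y := by
    induction x using cl_ind
    induction y using cl_ind
    exact Inf.le_sup_right _ _
  sup_le x y z h1 h2 := by
    induction x using cl_ind
    induction y using cl_ind
    induction z using cl_ind
    exact Inf.sup_le _ _ _ h1 h2

theorem cl_sup (A B : S.Inf) : cl (Inf.sup A B) = cl A ⊔ cl B := rfl

instance : OrderBot S.L where
  bot := cl Inf.bot
  bot_le x := by
    induction x using cl_ind
    exact Inf.bot_le _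

theorem cl_bot : cl (Inf.bot : S.Inf) = ⊥ := rfl

/-- entropy on the lattice -/
def LH : S.L → ℝ := Quotient.lift Inf.H (by
  intro A B hAB
  exact le_antisymm (Inf.H_mono hAB.1) (Inf.H_mono hAB.2))

theorem LH_cl (A : S.Inf) : LH (cl A) = A.H := rfl

instance : PM S.L where
  H := LH
  H_bot := by
    show ul (S.rt S.tr S.tr) = 0
    have h1 : S.rt S.tr S.tr = fun _ => 0 := by
      funext k; exact rt_zero _ _ k le_rfl
    rw [h1]; exact ul_const 0
  H_mono := by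
    intro x y hxy
    induction x using cl_ind
    induction y using cl_ind
    exact Inf.H_mono hxy
  H_sub := by
    intro x y z
    induction x using cl_ind with | _ A
    induction y using cl_ind with | _ B
    induction z using cl_ind with | _ C
    rw [← cl_sup, ← cl_sup, ← cl_sup, ← cl_sup]
    show (Inf.sup (Inf.sup A B) C).H + C.H ≤ (Inf.sup A C).H + (Inf.sup B C).H
    have e1 : (Inf.sup (Inf.sup A B) C).H = (Inf.sup C (Inf.sup A B)).H := by
      apply le_antisymm <;> apply Inf.H_mono <;> apply Inf.le_of_le <;>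
        exact Eventually.of_forall fun k => le_of_eq (inf_comm _ _)
    have e2 : (Inf.sup A C).H = (Inf.sup C A).H := by
      apply le_antisymm <;> apply Inf.H_mono <;> apply Inf.le_of_le <;>
        exact Eventually.of_forall fun k => le_of_eq (inf_comm _ _)
    have e3 : (Inf.sup B C).H = (Inf.sup C B).H := by
      apply le_antisymm <;> apply Inf.H_mono <;> apply Inf.le_of_le <;>
        exact Eventually.of_forall fun k => le_of_eq (inf_comm _ _)
    rw [e1, e2, e3, Inf.H_sup, Inf.H_sup, Inf.H_sup]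
    have h1 : ul (S.rt (Inf.sup A B).1 C.1) ≤ ul (S.rt A.1 C.1) + ul (S.rt B.1 C.1) := by
      rw [← ul_add (UB_rt A _) (UB_rt B _)]
      apply ul_mono (UB_rt _ _) ((UB_rt A _).add (UB_rt B _))
      refine Eventually.of_forall fun k => ?_
      show S.rt (fun k => A.1 k ⊓ B.1 k) C.1 k ≤ _
      rw [rt_chain]
      have := rt_anti B.1 C.1 (fun k => A.1 k ⊓ C.1 k) k inf_le_right
      linarith
    linarith
  H_strict := by
    intro x y hxy
    induction x using cl_ind with | _ A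
    induction y using cl_ind with | _ B
    rw [← cl_sup] at hxy
    rw [cl_le, Inf.le_iff_ul]
    have hxy' : (Inf.sup A B).H ≤ B.H := hxy
    have e2 : (Inf.sup A B).H = (Inf.sup B A).H := by
      apply le_antisymm <;> apply Inf.H_mono <;> apply Inf.le_of_le <;>
        exact Eventually.of_forall fun k => le_of_eq (inf_comm _ _)
    rw [e2, Inf.H_sup] at hxy'
    linarith

theorem H_cl (A : S.Inf) : H (cl A) = ul (S.rt A.1 S.tr) := rfl

/-- `h(A|B)` in terms of representatives -/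
theorem h_cl (A B : S.Inf) : h (cl A) (cl B) = ul (S.rt A.1 B.1) := by
  unfold h
  rw [sup_comm, ← cl_sup]
  have h1 : H (cl (Inf.sup B A)) = (Inf.sup B A).H := rfl
  have h2 : H (cl B) = B.H := rfl
  rw [h1, h2, Inf.H_sup]; ring

end Sp

end

end Pool.Agent.Helper31.EC
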