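import Pool.Agent.Helper31.EC.Rest

/-! Exact entropy calculus: systems of lines, profile. -/

namespace Pool.Agent.Helper31.EC

open Finset Filter Topology Pool.Agent.Helper69.RK

noncomputable section

/-- a system of lines `(a, x)` with heights `t` -/
structure Sys (S : Sp) (m : ℕ) where
  a : S.VV m
  x : S.VV m
  t : S.VV 1
  ht : h (t.dg 1) (a.dg 1 ⊔ x.dg 1) = 1

namespace Sys

open Sp

variable {S : Sp} {m : ℕ} (s : Sys S m)

/-- the line up to level `r` -/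
def xi (r : ℝ) : S.L := s.a.dg r ⊔ s.x.dg r

/-- the point at height `t` -/
def P : S.VV m := VV.pt s.a s.x s.t

/-- the height, all digits -/
def T : S.L := s.t.dg 1

theorem xi_mono {r r' : ℝ} (h : r ≤ r') : s.xi r ≤ s.xi r' :=
  sup_le_sup (s.a.dg_mono h) (s.x.dg_mono h)

theorem a_le_xi {r r' : ℝ} (h : r ≤ r') : s.a.dg r ≤ s.xi r' := (s.a.dg_mono h).trans le_sup_left

theorem x_le_xi {r r' : ℝ} (h : r ≤ r') : s.x.dg r ≤ s.xi r' := (s.x.dg_mono h).trans le_sup_right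

theorem hT_xi : h s.T (s.xi 1) = 1 := s.ht

/-- heights are independent of the line, level by level -/
theorem h_t_xi {r : ℝ} (h0 : 0 ≤ r) (h1 : r ≤ 1) : h (s.t.dg r) (s.xi 1) = r := by
  apply le_antisymm
  · have := s.t.H_dg_le h0
    have h2 := h_le_H (s.t.dg r) (s.xi 1)
    simp only [Nat.cast_one, one_mul] at this
    linarith
  · have e1 : s.t.dg 1 = s.t.dg r ⊔ s.t.dg 1 := (sup_eq_right.mpr (s.t.dg_mono h1)).symm
    have h2 := s.ht
    have h3 : h (s.t.dg r ⊔ s.t.dg 1) (s.xi 1) = h (s.t.dg r) (s.xi 1) + h (s.t.dg 1) (s.t.dg r ⊔ s.xi 1) :=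
      h_chain _ _ _
    rw [← e1] at h3
    have h4 : h (s.t.dg 1) (s.t.dg r ⊔ s.xi 1) ≤ h (s.t.dg 1) (s.t.dg r) := h_anti le_sup_left
    have h5 := s.t.h_dg_dg h1
    simp only [Nat.cast_one, one_mul] at h5
    have h6 : h (s.t.dg 1) (s.xi 1) = 1 := h2
    linarith

theorem H_T : H s.T = 1 := by
  apply le_antisymm
  · show H (s.t.dg 1) ≤ 1
    simpa using s.t.H_dg_le (zero_le_one)
  · have h1 := h_le_H s.T (s.xi 1)
    rw [s.hT_xi] at h1
    exact h1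

/-- the height is independent of everything which is a function of the line -/
theorem I_T {Y : S.L} (hY : Y ≤ s.xi 1) : I s.T Y ⊥ = 0 := by
  have h1 : I s.T (s.xi 1) ⊥ = 0 := by
    rw [I_eq, h_bot, sup_bot_eq, s.H_T, s.hT_xi, sub_self]
  exact I_zero_mono h1 (by rw [sup_bot_eq]) (by rw [sup_bot_eq]; exact hY)

theorem I_T' {Y W : S.L} (hY : Y ≤ s.xi 1) (hW : W ≤ s.xi 1) : I s.T Y W = 0 := by
  have h1 := s.I_T (sup_le hW hY)
  exact (I_decomp h1).2 |> fun h2 => by rwa [sup_bot_eq] at h2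

/-- entropy of functions of the line does not change if the height is given -/
theorem h_T_cond {Y W : S.L} (hY : Y ≤ s.xi 1) (hW : W ≤ s.xi 1) : h Y (W ⊔ s.T) = h Y W := by
  have h1 := s.I_T' hY hW
  rw [I_eq'] at h1
  rw [sup_comm W]
  linarith

theorem H_T_cond {Y : S.L} (hY : Y ≤ s.xi 1) : h Y s.T = H Y := by
  have h1 := s.h_T_cond hY (bot_le : ⊥ ≤ s.xi 1)
  rw [bot_sup_eq, h_bot] at h1
  exact h1

/-- the point from the line -/
theorem P_le {r : ℝ} (hr : r ≤ 1) : s.P.dg r ≤ s.xi r ⊔ s.T :=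
  (VV.pt_dg_le s.a s.x s.t r).trans (sup_le_sup le_rfl (s.t.dg_mono hr))

/-- the line from the point and the direction -/
theorem a_le {r : ℝ} (hr : r ≤ 1) : s.a.dg r ≤ s.P.dg r ⊔ s.x.dg r ⊔ s.T :=
  (VV.a_dg_le s.a s.x s.t r).trans (sup_le_sup le_rfl (s.t.dg_mono hr))

/-- given direction and height, point and line are the same: `P_r x_u t = a_r x_u t` for `r ≤ u` -/
theorem P_sup_x {r u : ℝ} (hr : r ≤ 1) (hu : r ≤ u) :
    s.P.dg r ⊔ s.x.dg u ⊔ s.T = s.a.dg r ⊔ s.x.dg u ⊔ s.T := by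
  have hx := s.x.dg_mono hu
  apply le_antisymm
  · apply sup_le (sup_le _ (le_sup_right.trans le_sup_left)) le_sup_right
    refine (s.P_le hr).trans (sup_le_sup_right (sup_le_sup_left hx _) _)
  · apply sup_le (sup_le _ (le_sup_right.trans le_sup_left)) le_sup_right
    refine (s.a_le hr).trans (sup_le_sup_right (sup_le_sup_left hx _) _)

/-- PROFILE `F(u,r) = h(x_u, P_r | t)` -/
def F (u r : ℝ) : ℝ := h (s.x.dg u ⊔ s.P.dg r) s.T

theorem F_nonneg (u r : ℝ) : 0 ≤ s.F u r := h_nonneg _ _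

theorem F_mono {u u' r r' : ℝ} (hu : u ≤ u') (hr : r ≤ r') : s.F u r ≤ s.F u' r' :=
  h_mono (sup_le_sup (s.x.dg_mono hu) (s.P.dg_mono hr))

/-- Lipschitz in the direction level -/
theorem F_lip_left {u u' r : ℝ} (hu : u ≤ u') : s.F u' r ≤ s.F u r + m * (u' - u) := by
  have h1 := h_triangle (s.x.dg u' ⊔ s.P.dg r) (s.x.dg u ⊔ s.P.dg r) s.T
  have h2 : h (s.x.dg u' ⊔ s.P.dg r) (s.x.dg u ⊔ s.P.dg r ⊔ s.T) ≤ h (s.x.dg u') (s.x.dg u) := by
    calc h (s.x.dg u' ⊔ s.P.dg r) (s.x.dg u ⊔ s.P.dg r ⊔ s.T)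
        = h (s.x.dg u') (s.x.dg u ⊔ s.P.dg r ⊔ s.T) := by
          apply h_congr_left
          · exact sup_le le_sup_left ((le_sup_right.trans le_sup_left).trans le_sup_right)
          · exact le_sup_left.trans le_sup_left
      _ ≤ h (s.x.dg u') (s.x.dg u) := h_anti (le_sup_left.trans le_sup_left)
  have h3 := s.x.h_dg_dg hu
  unfold F
  linarith

/-- Lipschitz in the point level -/
theorem F_lip_right {u r r' : ℝ} (hr : r ≤ r') : s.F u r' ≤ s.F u r + m * (r' - r) := by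
  have h1 := h_triangle (s.x.dg u ⊔ s.P.dg r') (s.x.dg u ⊔ s.P.dg r) s.T
  have h2 : h (s.x.dg u ⊔ s.P.dg r') (s.x.dg u ⊔ s.P.dg r ⊔ s.T) ≤ h (s.P.dg r') (s.P.dg r) := by
    calc h (s.x.dg u ⊔ s.P.dg r') (s.x.dg u ⊔ s.P.dg r ⊔ s.T)
        = h (s.P.dg r') (s.x.dg u ⊔ s.P.dg r ⊔ s.T) := by
          apply h_congr_left
          · exact sup_le ((le_sup_left.trans le_sup_left).trans le_sup_right) le_sup_left
          · exact le_sup_right.trans le_sup_left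
      _ ≤ h (s.P.dg r') (s.P.dg r) := h_anti (le_sup_right.trans le_sup_left)
  have h3 := s.P.h_dg_dg hr
  unfold F
  linarith

/-- submodularity: mixed differences are nonpositive -/
theorem F_sub {u u' r r' : ℝ} (hu : u ≤ u') (hr : r ≤ r') :
    s.F u' r' + s.F u r ≤ s.F u' r + s.F u r' := by
  have h1 := I_nonneg (s.x.dg u') (s.P.dg r') (s.x.dg u ⊔ s.P.dg r ⊔ s.T)
  have hx := s.x.dg_mono hu
  have hP := s.P.dg_mono hr
  have e1 : s.x.dg u' ⊔ (s.x.dg u ⊔ s.P.dg r ⊔ s.T) = s.x.dg u' ⊔ s.P.dg r ⊔ s.T := by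
    rw [sup_assoc, ← sup_assoc, sup_eq_left.mpr hx, sup_assoc]
  have e2 : s.P.dg r' ⊔ (s.x.dg u ⊔ s.P.dg r ⊔ s.T) = s.x.dg u ⊔ s.P.dg r' ⊔ s.T := by
    rw [sup_assoc, sup_left_comm, ← sup_assoc (s.P.dg r'), sup_eq_left.mpr hP, sup_assoc]
  have e3 : s.x.dg u' ⊔ s.P.dg r' ⊔ (s.x.dg u ⊔ s.P.dg r ⊔ s.T) = s.x.dg u' ⊔ s.P.dg r' ⊔ s.T := by
    rw [sup_assoc, e2, ← sup_assoc, ← sup_assoc, sup_eq_left.mpr hx]
  unfold I at h1
  rw [e1, e2, e3] at h1
  unfold F h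
  linarith

/-- above the diagonal the profile is a profile of lines -/
theorem F_eq_line {u r : ℝ} (hr : r ≤ u) (hu : u ≤ 1) : s.F u r = H (s.x.dg u ⊔ s.a.dg r) := by
  have h1 := s.P_sup_x (hr.trans hu) hr
  have h2 : s.F u r = h (s.x.dg u ⊔ s.a.dg r) s.T := by
    unfold F h
    rw [sup_comm (s.x.dg u), h1, sup_comm (s.a.dg r)]
  rw [h2, s.H_T_cond]
  exact sup_le (s.x_le_xi hu) (s.a_le_xi (hr.trans hu))

theorem F_diag {r : ℝ} (hr : r ≤ 1) : s.F r r = H (s.xi r) := by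
  rw [s.F_eq_line le_rfl hr, sup_comm]
  rfl

/-- `F(0,r) = h(P_r | t)` -/
theorem F_zero_left (r : ℝ) : s.F 0 r = h (s.P.dg r) s.T := by
  unfold F
  rw [s.x.dg_nonpos le_rfl, bot_sup_eq]

theorem F_zero_right {u : ℝ} (hu0 : 0 ≤ u) (hu : u ≤ 1) : s.F u 0 = H (s.x.dg u) := by
  rw [s.F_eq_line hu0 hu, s.a.dg_nonpos le_rfl, sup_bot_eq]

/-- the gap of a system -/
def gap : ℝ := H (s.x.dg 1) - h (s.P.dg 1) s.T

theorem gap_eq : s.gap = s.F 1 0 - s.F 0 1 := by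
  unfold gap
  rw [s.F_zero_right zero_le_one le_rfl, s.F_zero_left]

theorem gap_le : s.gap ≤ m := by
  unfold gap
  have h1 := s.x.H_dg_le zero_le_one
  have h2 := h_nonneg (s.P.dg 1) s.T
  linarith

/-- pullback of a system to an extension -/
def pull {T S : Sp} (p : Pj T S) {m : ℕ} (s : Sys S m) : Sys T m where
  a := p.vv s.a
  x := p.vv s.x
  t := p.vv s.t
  ht := by
    rw [← p.map_dg, ← p.map_dg, ← p.map_dg, ← p.map_sup, p.h_map]
    exact s.ht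

theorem pull_P {T S : Sp} (p : Pj T S) {m : ℕ} (s : Sys S m) : (s.pull p).P = p.vv s.P := rfl

theorem pull_gap {T S : Sp} (p : Pj T S) {m : ℕ} (s : Sys S m) : (s.pull p).gap = s.gap := by
  unfold gap Sys.T
  rw [pull_P]
  show H ((p.vv s.x).dg 1) - h ((p.vv s.P).dg 1) ((p.vv s.t).dg 1) = _
  rw [← p.map_dg, ← p.map_dg, ← p.map_dg, p.H_map, p.h_map]

end Sys

end

end Pool.Agent.Helper31.EC
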