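import Pool.Agent.Helper31.EC.Sp

/-! Exact entropy calculus: random variables, bounded vector variables, resolutions (digits). -/

namespace Pool.Agent.Helper31.EC

open Finset Filter Topology Pool.Agent.Helper69.RK

noncomputable section

namespace Sp

variable {S : Sp}

/-- a random variable with at most `2 ^ (C n)` values in every base cell -/
def Bdd {α : ℕ → Type} (X : ∀ k, (S.F k).Ω → α k) : Prop := S.VB (fun k => Setoid.ker (X k))

/-- a bounded random variable as an information -/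
def Bdd.toInf {α : ℕ → Type} {X : ∀ k, (S.F k).Ω → α k} (hX : Bdd X) : S.Inf := ⟨fun k => Setoid.ker (X k), hX⟩

theorem Bdd.toInf_val {α : ℕ → Type} {X : ∀ k, (S.F k).Ω → α k} (hX : Bdd X) :
    hX.toInf.1 = fun k => Setoid.ker (X k) := rfl

open Classical in
/-- the information of a random variable (trivial if the variable is not bounded) -/
def io {α : ℕ → Type} (X : ∀ k, (S.F k).Ω → α k) : S.L :=
  if hX : Bdd X then cl hX.toInf else ⊥

theorem io_eq {α : ℕ → Type} {X : ∀ k, (S.F k).Ω → α k} (hX : Bdd X) : io X = cl hX.toInf := by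
  unfold io
  rw [dif_pos hX]

/-- comparison of random variables -/
theorem io_le_io {α β : ℕ → Type} {X : ∀ k, (S.F k).Ω → α k} {Y : ∀ k, (S.F k).Ω → β k} (hX : Bdd X)
    (hY : Bdd Y) :
    io X ≤ io Y ↔ Tendsto (S.rt (fun k => Setoid.ker (X k)) (fun k => Setoid.ker (Y k))) UF (𝓝 0) := by
  rw [io_eq hX, io_eq hY, cl_le]
  rfl

/-- a function of `Y` on the support -/
theorem rt_zero_of_fun {α β : ℕ → Type} (X : ∀ k, (S.F k).Ω → α k) (Y : ∀ k, (S.F k).Ω → β k) (k : ℕ)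
    (h : ∀ ω ω', (S.F k).μ ω ≠ 0 → (S.F k).μ ω' ≠ 0 → (S.F k).Z ω ω' → Y k ω = Y k ω' → X k ω = X k ω') :
    S.rt (fun k => Setoid.ker (X k)) (fun k => Setoid.ker (Y k)) k = 0 := by
  unfold rt
  rw [(S.F k).e_zero, zero_div]
  intro ω ω' h1 h2 h3
  exact h ω ω' h1 h2 h3.2 h3.1

theorem Bdd.of_fun {α β : ℕ → Type} {X : ∀ k, (S.F k).Ω → α k} {Y : ∀ k, (S.F k).Ω → β k} (hY : Bdd Y)
    (h : ∀ᶠ k in UF, ∀ ω ω', (S.F k).μ ω ≠ 0 → (S.F k).μ ω' ≠ 0 → (S.F k).Z ω ω' → Y k ω = Y k ω' →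
      X k ω = X k ω') : Bdd X := VB.mono hY h

theorem io_le_of_fun {α β : ℕ → Type} {X : ∀ k, (S.F k).Ω → α k} {Y : ∀ k, (S.F k).Ω → β k} (hY : Bdd Y)
    (h : ∀ᶠ k in UF, ∀ ω ω', (S.F k).μ ω ≠ 0 → (S.F k).μ ω' ≠ 0 → (S.F k).Z ω ω' → Y k ω = Y k ω' →
      X k ω = X k ω') : io X ≤ io Y := by
  rw [io_le_io (hY.of_fun h) hY]
  apply Tendsto.congr' _ tendsto_const_nhds
  filter_upwards [h] with k hk using (rt_zero_of_fun X Y k hk).symm

theorem Bdd.comp {α β : ℕ → Type} {Y : ∀ k, (S.F k).Ω → β k} (hY : Bdd Y) (f : ∀ k, β k → α k) :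
    Bdd (fun k ω => f k (Y k ω)) :=
  hY.of_fun (Eventually.of_forall fun k ω ω' _ _ _ h => by rw [h])

theorem io_comp_le {α β : ℕ → Type} {Y : ∀ k, (S.F k).Ω → β k} (hY : Bdd Y) (f : ∀ k, β k → α k) :
    io (fun k ω => f k (Y k ω)) ≤ io Y :=
  io_le_of_fun hY (Eventually.of_forall fun k ω ω' _ _ _ h => by rw [h])

theorem ker_pair {Ω α β : Type} (f : Ω → α) (g : Ω → β) :
    Setoid.ker (fun ω => (f ω, g ω)) = Setoid.ker f ⊓ Setoid.ker g := by
  ext ω ω'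
  show ((f ω, g ω) = (f ω', g ω')) ↔ (f ω = f ω' ∧ g ω = g ω')
  rw [Prod.mk.injEq]

theorem Bdd.pair {α β : ℕ → Type} {X : ∀ k, (S.F k).Ω → α k} {Y : ∀ k, (S.F k).Ω → β k} (hX : Bdd X)
    (hY : Bdd Y) : Bdd (fun k ω => (X k ω, Y k ω)) := by
  have h1 := VB.inf hX hY
  unfold Bdd
  have h2 : (fun k => Setoid.ker (fun ω => (X k ω, Y k ω))) =
      fun k => Setoid.ker (X k) ⊓ Setoid.ker (Y k) := by
    funext k; exact ker_pair _ _
  rw [h2]
  exact h1

theorem io_pair {α β : ℕ → Type} {X : ∀ k, (S.F k).Ω → α k} {Y : ∀ k, (S.F k).Ω → β k} (hX : Bdd X)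
    (hY : Bdd Y) : io (fun k ω => (X k ω, Y k ω)) = io X ⊔ io Y := by
  rw [io_eq (hX.pair hY), io_eq hX, io_eq hY, ← cl_sup]
  congr 1
  apply Subtype.ext
  funext k
  exact ker_pair _ _

theorem H_io {α : ℕ → Type} {X : ∀ k, (S.F k).Ω → α k} (hX : Bdd X) :
    H (io X) = ul (S.rt (fun k => Setoid.ker (X k)) S.tr) := by
  rw [io_eq hX]; rfl

theorem h_io {α β : ℕ → Type} {X : ∀ k, (S.F k).Ω → α k} {Y : ∀ k, (S.F k).Ω → β k} (hX : Bdd X)
    (hY : Bdd Y) :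
    h (io X) (io Y) = ul (S.rt (fun k => Setoid.ker (X k)) (fun k => Setoid.ker (Y k))) := by
  rw [io_eq hX, io_eq hY, h_cl]
  rfl

theorem nv_ker {F : FSp} {α : Type} (X : F.Ω → α) (ω : F.Ω) :
    nv F (Setoid.ker X) ω = nvf F.μ X (Quotient.mk F.Z) ω := by
  apply le_antisymm
  · exact nvf_mono _ _ _ _ _ (fun ω₁ ω₂ _ _ _ _ h => Quotient.sound h)
  · exact nvf_mono _ _ _ _ _ (fun ω₁ ω₂ _ _ _ _ h => (Quotient.exact h : (Setoid.ker X) ω₁ ω₂))

/-- a random variable with values in a finite set of size `2 ^ (C n)` -/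
theorem Bdd_of_card {α : ℕ → Type} (X : ∀ k, (S.F k).Ω → α k) (T : ∀ k, Finset (α k)) (C : ℝ)
    (h1 : ∀ᶠ k in UF, ∀ ω, (S.F k).μ ω ≠ 0 → X k ω ∈ T k)
    (h2 : ∀ᶠ k in UF, ((T k).card : ℝ) ≤ 2 ^ (C * (S.F k).n)) : Bdd X := by
  classical
  refine ⟨C, ?_⟩
  filter_upwards [h1, h2] with k a b ω _
  rw [nv_ker]
  refine le_trans ?_ b
  unfold nvf
  norm_cast
  apply Finset.card_le_card
  intro q hq
  obtain ⟨ω', hω', rfl⟩ := e3_mem_image hq
  rw [Finset.mem_filter] at hω'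
  exact a ω' hω'.2.1

open Classical in
theorem nvf_box {Ω γ : Type} [Fintype Ω] {m : ℕ} (μ : Ω → ℝ) (X : Ω → Fin m → ℤ) (g : Ω → γ) (ω : Ω) (K : ℝ)
    (hK : 0 ≤ K) (h : ∀ ω₁ ω₂, μ ω₁ ≠ 0 → μ ω₂ ≠ 0 → ∀ i, |(X ω₁ i : ℝ) - X ω₂ i| ≤ K) :
    (nvf μ X g ω : ℝ) ≤ (K + 1) ^ m := by
  unfold nvf
  apply e3_box _ K hK
  intro x hx y hy i
  obtain ⟨ω₁, h₁, rfl⟩ := e3_mem_image hx
  obtain ⟨ω₂, h₂, rfl⟩ := e3_mem_image hy
  rw [Finset.mem_filter] at h₁ h₂
  exact h ω₁ ω₂ h₁.2.1 h₂.2.1 i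

theorem nvf_subsing {Ω α γ : Type} [Fintype Ω] [Subsingleton α] (μ : Ω → ℝ) (X : Ω → α) (g : Ω → γ) (ω : Ω) :
    nvf μ X g ω ≤ 1 := by
  unfold nvf
  exact Finset.card_le_one.mpr (fun x _ y _ => Subsingleton.elim x y)

/-- integer vectors of size `2 ^ (C n)` -/
theorem Bdd_int {m : ℕ} (X : ∀ k, (S.F k).Ω → Fin m → ℤ) (M : ℕ → ℝ) (C : ℝ)
    (h1 : ∀ᶠ k in UF, ∀ ω, (S.F k).μ ω ≠ 0 → ∀ i, |(X k ω i : ℝ)| ≤ M k)
    (h2 : ∀ᶠ k in UF, 2 * M k + 1 ≤ 2 ^ (C * (S.F k).n)) : Bdd X := by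
  refine ⟨m * C, ?_⟩
  filter_upwards [h1, h2] with k a b ω hω
  rw [nv_ker]
  have hM : 0 ≤ 2 * M k ∨ m = 0 := by
    rcases Nat.eq_zero_or_pos m with h | h
    · exact Or.inr h
    · left
      have := (abs_nonneg _).trans (a ω hω ⟨0, h⟩)
      linarith
  have h3 : (nvf (S.F k).μ (X k) (Quotient.mk (S.F k).Z) ω : ℝ) ≤ (2 * M k + 1) ^ m := by
    rcases hM with hM | hM
    · apply nvf_box _ _ _ _ (2 * M k) hM
      intro ω₁ ω₂ h₁ h₂ i
      have e1 := abs_le.mp (a ω₁ h₁ i)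
      have e2 := abs_le.mp (a ω₂ h₂ i)
      rw [abs_le]
      constructor <;> linarith [e1.1, e1.2, e2.1, e2.2]
    · subst hM
      rw [pow_zero]
      exact_mod_cast nvf_subsing (S.F k).μ (X k) (Quotient.mk (S.F k).Z) ω
  refine h3.trans ?_
  have h4 : (2 : ℝ) ^ (m * C * (S.F k).n) = (2 ^ (C * (S.F k).n)) ^ m := by
    rw [← Real.rpow_natCast, ← Real.rpow_mul (by norm_num)]
    congr 1; ring
  rw [h4]
  rcases hM with hM | hM
  · exact pow_le_pow_left₀ (by linarith) b m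
  · subst hM
    rw [pow_zero, pow_zero]

/-- events of probability tending to one -/
def Typ (E : ∀ k, (S.F k).Ω → Prop) : Prop :=
  Tendsto (fun k => mass (res (S.F k).μ (fun ω => ¬ E k ω))) UF (𝓝 0)

/-- subexponential sequences of constants -/
def Sub (S : Sp) (K : ℕ → ℝ) : Prop :=
  (∀ᶠ k in UF, 0 ≤ K k) ∧ Tendsto (fun k => Real.logb 2 (K k + 2) / (S.F k).n) UF (𝓝 0)

theorem Sub_const (S : Sp) {K : ℝ} (hK : 0 ≤ K) : S.Sub (fun _ => K) :=
  ⟨Eventually.of_forall fun _ => hK, S.div_n_tendsto _⟩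

theorem Sub.mono {K L : ℕ → ℝ} (hK : S.Sub K) (h0 : ∀ᶠ k in UF, 0 ≤ L k) (h : ∀ᶠ k in UF, L k ≤ K k) : S.Sub L := by
  refine ⟨h0, ?_⟩
  refine tendsto_of_tendsto_of_tendsto_of_le_of_le' tendsto_const_nhds hK.2 ?_ ?_
  · filter_upwards [h0] with k hk
    exact div_nonneg (Real.logb_nonneg (by norm_num) (by linarith)) (S.F k).pos.le
  · filter_upwards [h0, h] with k hk hk'
    exact div_le_div_of_nonneg_right (Real.logb_le_logb_of_le (by norm_num) (by linarith) (by linarith))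
      (S.F k).pos.le

theorem Sub.prod_aux {K L : ℕ → ℝ} (hK : S.Sub K) (hL : S.Sub L) :
    S.Sub (fun k => (K k + 2) * (L k + 2)) := by
  refine ⟨?_, ?_⟩
  · filter_upwards [hK.1, hL.1] with k a b
    positivity
  · have h1 := (hK.2.add hL.2).add (S.div_n_tendsto 1)
    simp only [add_zero] at h1
    refine tendsto_of_tendsto_of_tendsto_of_le_of_le' tendsto_const_nhds h1 ?_ ?_
    · filter_upwards [hK.1, hL.1] with k a b
      exact div_nonneg (Real.logb_nonneg (by norm_num) (by nlinarith)) (S.F k).pos.le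
    · filter_upwards [hK.1, hL.1] with k a b
      rw [← add_div, ← add_div]
      apply div_le_div_of_nonneg_right _ (S.F k).pos.le
      have h2 : (K k + 2) * (L k + 2) + 2 ≤ (K k + 2) * (L k + 2) * 2 := by nlinarith [mul_nonneg a b]
      calc Real.logb 2 ((K k + 2) * (L k + 2) + 2) ≤ Real.logb 2 ((K k + 2) * (L k + 2) * 2) :=
            Real.logb_le_logb_of_le (by norm_num) (by positivity) h2
        _ = _ := by
            rw [Real.logb_mul (by positivity) (by norm_num), Real.logb_mul (by positivity) (by positivity),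
              Real.logb_self_eq_one (by norm_num)]

theorem Sub.add {K L : ℕ → ℝ} (hK : S.Sub K) (hL : S.Sub L) : S.Sub (fun k => K k + L k) :=
  (hK.prod_aux hL).mono (by filter_upwards [hK.1, hL.1] with k a b using by linarith)
    (by filter_upwards [hK.1, hL.1] with k a b using by nlinarith [mul_nonneg a b])

theorem Sub.mul {K L : ℕ → ℝ} (hK : S.Sub K) (hL : S.Sub L) : S.Sub (fun k => K k * L k) :=
  (hK.prod_aux hL).mono (by filter_upwards [hK.1, hL.1] with k a b using mul_nonneg a b)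
    (by filter_upwards [hK.1, hL.1] with k a b using by nlinarith [mul_nonneg a b])

/-- `K ≤ 2 ^ (δ n)` eventually -/
theorem Sub.eventually_le {K : ℕ → ℝ} (hK : S.Sub K) {δ : ℝ} (hδ : 0 < δ) :
    ∀ᶠ k in UF, K k + 2 ≤ 2 ^ (δ * (S.F k).n) := by
  have h1 := hK.2.eventually (gt_mem_nhds hδ)
  filter_upwards [h1, hK.1] with k a b
  have hn := (S.F k).pos
  rw [div_lt_iff₀ hn] at a
  have h2 : K k + 2 = 2 ^ (Real.logb 2 (K k + 2)) :=
    (Real.rpow_logb (by norm_num) (by norm_num) (by linarith)).symm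
  rw [h2]
  exact Real.rpow_le_rpow_of_exponent_le (by norm_num) a.le

variable (S)

/-- tame vector variables: `|v| ≤ 2 ^ (o(n))` on the support -/
structure VV (m : ℕ) where
  v : ∀ k, (S.F k).Ω → Fin m → ℝ
  bd : ∃ K : ℕ → ℝ, S.Sub K ∧ ∀ᶠ k in UF, ∀ ω, (S.F k).μ ω ≠ 0 → ∀ i, |v k ω i| ≤ K k

variable {S}

/-- bounded vector variables -/
def VV.of {m : ℕ} (v : ∀ k, (S.F k).Ω → Fin m → ℝ)
    (h : ∃ C : ℝ, ∀ᶠ k in UF, ∀ ω, (S.F k).μ ω ≠ 0 → ∀ i, |v k ω i| ≤ C) : S.VV m where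
  v := v
  bd := by
    obtain ⟨C, hC⟩ := h
    refine ⟨fun _ => max C 0, S.Sub_const (le_max_right _ _), ?_⟩
    filter_upwards [hC] with k hk ω hω i
    exact (hk ω hω i).trans (le_max_left _ _)

/-- the length `2 ^ (-r n)` -/
def dl (S : Sp) (r : ℝ) (k : ℕ) : ℝ := (2 : ℝ) ^ (-(r * (S.F k).n))

theorem dl_pos (S : Sp) (r : ℝ) (k : ℕ) : 0 < S.dl r k := Real.rpow_pos_of_pos (by norm_num) _

theorem dl_add (S : Sp) (r s : ℝ) (k : ℕ) : S.dl (r + s) k = S.dl r k * S.dl s k := by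
  unfold dl
  rw [← Real.rpow_add (by norm_num : (0 : ℝ) < 2)]
  congr 1; ring

theorem dl_zero (S : Sp) (k : ℕ) : S.dl 0 k = 1 := by simp [dl]

theorem dl_anti (S : Sp) {r s : ℝ} (h : r ≤ s) (k : ℕ) : S.dl s k ≤ S.dl r k := by
  unfold dl
  apply Real.rpow_le_rpow_of_exponent_le (by norm_num)
  have := mul_le_mul_of_nonneg_right h (S.F k).pos.le
  linarith

/-- the cell of side `δ` -/
def cell {m : ℕ} (δ : ℝ) (y : Fin m → ℝ) : Fin m → ℤ := fun i => ⌊y i / δ⌋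

/-- the cell number of resolution `2 ^ (-r n)` -/
def VV.cellv {m : ℕ} (y : S.VV m) (r : ℝ) : ∀ k, (S.F k).Ω → Fin m → ℤ := fun k ω => cell (S.dl r k) (y.v k ω)

theorem floor_diff {a b δ K : ℝ} (hδ : 0 < δ) (h : |a - b| ≤ K * δ) : |(⌊a / δ⌋ : ℝ) - ⌊b / δ⌋| ≤ K + 1 := by
  have h1 := Int.floor_le (a / δ)
  have h2 := Int.lt_floor_add_one (a / δ)
  have h3 := Int.floor_le (b / δ)
  have h4 := Int.lt_floor_add_one (b / δ)
  have h5 : |a / δ - b / δ| ≤ K := by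
    rw [← sub_div, abs_div, abs_of_pos hδ, div_le_iff₀ hδ]; exact h
  rw [abs_le] at h5 ⊢
  constructor <;> linarith [h5.1, h5.2]

theorem abs_sub_le_of_floor_eq {a b δ : ℝ} (hδ : 0 < δ) (h : ⌊a / δ⌋ = ⌊b / δ⌋) : |a - b| ≤ δ := by
  have h1 := Int.floor_le (a / δ)
  have h2 := Int.lt_floor_add_one (a / δ)
  have h3 := Int.floor_le (b / δ)
  have h4 := Int.lt_floor_add_one (b / δ)
  rw [h] at h1 h2
  have h5 : |a / δ - b / δ| ≤ 1 := by
    rw [abs_le]; constructor <;> linarith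
  rwa [← sub_div, abs_div, abs_of_pos hδ, div_le_iff₀ hδ, one_mul] at h5

/-- MASTER LEMMA for digits, finite form: if outside an event `E` the variable `y` varies by at most `K 2^(-rn)` on
the atoms of `B` (given the base), and `|y| ≤ C` -/
theorem rt_cell_le {m : ℕ} (y : S.VV m) (r C K : ℝ) (hK : 0 ≤ K) (B : ∀ k, Setoid (S.F k).Ω)
    (E : ∀ k, (S.F k).Ω → Prop) (k : ℕ) (hC : ∀ ω, (S.F k).μ ω ≠ 0 → ∀ i, |y.v k ω i| ≤ C) (hC0 : 1 ≤ C)
    (h : ∀ ω ω', (S.F k).μ ω ≠ 0 → (S.F k).μ ω' ≠ 0 → ¬ E k ω → ¬ E k ω' → (B k ⊓ (S.F k).Z) ω ω' →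
      ∀ i, |y.v k ω i - y.v k ω' i| ≤ K * S.dl r k) :
    S.rt (fun k => Setoid.ker (y.cellv r k)) B k ≤
      (m * Real.logb 2 (K + 2)) / (S.F k).n +
        (m * (Real.logb 2 (4 * C) + max r 0 * (S.F k).n)) / (S.F k).n * mass (res (S.F k).μ (E k)) + 1 / (S.F k).n := by
  have hn := (S.F k).pos
  have hd := S.dl_pos r k
  have h1 := (S.F k).e_int_le_event (y.cellv r k) (B k ⊓ (S.F k).Z) (E k) (K + 1) (2 * C / S.dl r k + 1)
    (by linarith) (by positivity)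
    (fun ω ω' a b c d e i => floor_diff hd (h ω ω' a b c d e i))
    (fun ω ω' a b _ _ _ i => by
      have e1 : |y.v k ω i - y.v k ω' i| ≤ (2 * C / S.dl r k) * S.dl r k := by
        rw [div_mul_cancel₀ _ hd.ne']
        have := abs_sub (y.v k ω i) (y.v k ω' i)
        have h3 := hC ω a i
        have h4 := hC ω' b i
        have h5 := abs_sub_le_iff.mpr ⟨(by
          have := abs_le.mp h3; have := abs_le.mp h4
          linarith [(abs_le.mp h3).2, (abs_le.mp h4).1] : y.v k ω i - y.v k ω' i ≤ 2 * C), (by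
          linarith [(abs_le.mp h3).1, (abs_le.mp h4).2] : y.v k ω' i - y.v k ω i ≤ 2 * C)⟩
        exact h5
      exact floor_diff hd e1)
  have h2 : Real.logb 2 (2 * C / S.dl r k + 1 + 1) ≤ Real.logb 2 (4 * C) + max r 0 * (S.F k).n := by
    have e1 : (1 : ℝ) ≤ 2 ^ (max r 0 * (S.F k).n) := by
      apply Real.one_le_rpow (by norm_num)
      positivity
    have e2 : 1 / S.dl r k ≤ 2 ^ (max r 0 * (S.F k).n) := by
      unfold dl
      rw [Real.rpow_neg (by norm_num), one_div, inv_inv]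
      apply Real.rpow_le_rpow_of_exponent_le (by norm_num)
      exact mul_le_mul_of_nonneg_right (le_max_left _ _) hn.le
    have e3 : 2 * C / S.dl r k + 1 + 1 ≤ 4 * C * 2 ^ (max r 0 * (S.F k).n) := by
      have e4 : 2 * C / S.dl r k = 2 * C * (1 / S.dl r k) := by ring
      rw [e4]
      nlinarith
    calc Real.logb 2 (2 * C / S.dl r k + 1 + 1)
        ≤ Real.logb 2 (4 * C * 2 ^ (max r 0 * (S.F k).n)) :=
          Real.logb_le_logb_of_le (by norm_num) (by positivity) e3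
      _ = Real.logb 2 (4 * C) + max r 0 * (S.F k).n := by
          rw [Real.logb_mul (by positivity) (by positivity), Real.logb_rpow (by norm_num) (by norm_num)]
  have h3 : 0 ≤ mass (res (S.F k).μ (E k)) := ((st_E4 st_E1 st_E3).2.2 _ _ _ (S.F k).nn).2.1
  unfold rt
  have h4 : (S.F k).e (Setoid.ker (y.cellv r k)) (B k ⊓ (S.F k).Z) ≤
      m * Real.logb 2 (K + 2) + m * (Real.logb 2 (4 * C) + max r 0 * (S.F k).n) * mass (res (S.F k).μ (E k)) + 1 := by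
    have e1 : (K + 1 + 1 : ℝ) = K + 2 := by ring
    rw [e1] at h1
    have e2 : (m : ℝ) * Real.logb 2 (2 * C / S.dl r k + 1 + 1) * mass (res (S.F k).μ (E k)) ≤
        m * (Real.logb 2 (4 * C) + max r 0 * (S.F k).n) * mass (res (S.F k).μ (E k)) := by
      apply mul_le_mul_of_nonneg_right _ h3
      exact mul_le_mul_of_nonneg_left h2 (Nat.cast_nonneg m)
    linarith
  calc _ ≤ (m * Real.logb 2 (K + 2) + m * (Real.logb 2 (4 * C) + max r 0 * (S.F k).n) * mass (res (S.F k).μ (E k)) + 1) /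
        (S.F k).n := div_le_div_of_nonneg_right h4 hn.le
    _ = _ := by ring

end Sp

end

end Pool.Agent.Helper31.EC
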